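import Mathlib

set_option autoImplicit false

namespace Pool.Agent.H16.AutF
open Subgroup

variable {F X : Type} [Group F]

def MulOn (K : Subgroup F) (φ : F → F) : Prop := ∀ a ∈ K, ∀ b ∈ K, φ (a * b) = φ a * φ b

theorem MulOn.one {K : Subgroup F} {φ : F → F} (h : MulOn K φ) : φ 1 = 1 := by
  have := h 1 K.one_mem 1 K.one_mem
  rw [mul_one] at this
  exact left_eq_mul.1 this

theorem MulOn.inv {K : Subgroup F} {φ : F → F} (h : MulOn K φ) {a : F} (ha : a ∈ K) :
    φ a⁻¹ = (φ a)⁻¹ := by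
  have := h a ha a⁻¹ (K.inv_mem ha)
  rw [mul_inv_cancel, h.one] at this
  exact (inv_eq_of_mul_eq_one_right this.symm).symm

theorem MulOn.mono {K L : Subgroup F} {φ : F → F} (h : MulOn L φ) (hl : K ≤ L) : MulOn K φ :=
  fun a ha b hb => h a (hl ha) b (hl hb)

theorem uniq {S : Set F} {φ ψ : F → F} (h1 : MulOn (closure S) φ) (h2 : MulOn (closure S) ψ)
    (h : Set.EqOn φ ψ S) : Set.EqOn φ ψ (closure S) := by
  intro a ha
  induction ha using closure_induction with
  | mem x hx => exact h hx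
  | one => rw [h1.one, h2.one]
  | mul x y hx hy a b => rw [h1 x hx y hy, h2 x hx y hy, a, b]
  | inv x hx a => rw [h1.inv hx, h2.inv hx, a]

theorem homOn (K : Subgroup F) (φ : F →* F) : MulOn K φ := fun a _ b _ => map_mul φ a b

def Ind (Q : Set F) : Prop := ∀ f : F → F, ∃ ψ, MulOn (closure Q) ψ ∧ Set.EqOn ψ f Q

def Rel (K : Subgroup F) (C : Set F) : Prop := ∀ φ f : F → F, MulOn K φ →
  ∃ ψ, MulOn (K ⊔ closure C) ψ ∧ Set.EqOn ψ φ K ∧ Set.EqOn ψ f C

theorem Ind.add {Q C : Set F} (h : Ind Q) (hc : Rel (closure Q) C) : Ind (Q ∪ C) := by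
  intro f
  obtain ⟨φ, h1, h2⟩ := h f
  obtain ⟨ψ, h3, h4, h5⟩ := hc φ f h1
  refine ⟨ψ, by rwa [Subgroup.closure_union], ?_⟩
  rintro x (hx | hx)
  · rw [h4 (subset_closure hx), h2 hx]
  · exact h5 hx

theorem Ind.chain {ι : Type} [Nonempty ι] (Q : ι → Set F) (hd : Directed (· ⊆ ·) Q)
    (h : ∀ i, Ind (Q i)) : Ind (⋃ i, Q i) := by
  classical
  intro f
  choose ψ h1 h2 using fun i => h i f
  have hd' : Directed (· ≤ ·) fun i => closure (Q i) := fun i j => by
    obtain ⟨k, a, b⟩ := hd i j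
    exact ⟨k, closure_mono a, closure_mono b⟩
  have hm : ∀ a, a ∈ closure (⋃ i, Q i) → ∃ i, a ∈ closure (Q i) := fun a ha => by
    rwa [Subgroup.closure_iUnion, mem_iSup_of_directed hd'] at ha
  have hc : ∀ i j a, a ∈ closure (Q i) → a ∈ closure (Q j) → ψ i a = ψ j a := by
    intro i j a hi hj
    obtain ⟨k, a1, a2⟩ := hd i j
    rw [uniq (h1 i) ((h1 k).mono (closure_mono a1)) (fun x hx => by rw [h2 i hx, h2 k (a1 hx)]) hi,
      uniq (h1 j) ((h1 k).mono (closure_mono a2)) (fun x hx => by rw [h2 j hx, h2 k (a2 hx)]) hj]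
  let χ : F → F := fun a => if h : ∃ i, a ∈ closure (Q i) then ψ h.choose a else 1
  have hχ : ∀ i a, a ∈ closure (Q i) → χ a = ψ i a := fun i a ha => by
    have : ∃ i, a ∈ closure (Q i) := ⟨i, ha⟩
    simp only [χ, dif_pos this]
    exact hc _ _ _ this.choose_spec ha
  refine ⟨χ, fun a ha b hb => ?_, fun x hx => ?_⟩
  · obtain ⟨i, hi⟩ := hm a ha
    obtain ⟨j, hj⟩ := hm b hb
    obtain ⟨k, a1, a2⟩ := hd' i j
    rw [hχ k _ (mul_mem (a1 hi) (a2 hj)), hχ k _ (a1 hi), hχ k _ (a2 hj),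
      h1 k _ (a1 hi) _ (a2 hj)]
  · obtain ⟨i, hi⟩ := Set.mem_iUnion.1 hx
    rw [hχ i _ (subset_closure hi), h2 i hi]

theorem lift_b {G : Type} [Group G] (b : FreeGroupBasis X F) (f : X → G) (x : X) :
    b.lift f (b x) = f x := by
  have := congrFun (b.lift.symm_apply_apply f) x
  exact this

theorem b_top (b : FreeGroupBasis X F) : closure (Set.range b) = ⊤ := by
  have h := FreeGroup.closure_range_of X
  have h2 : Set.range b = b.repr.symm.toMonoidHom '' Set.range FreeGroup.of := by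
    rw [← Set.range_comp]; rfl
  rw [h2, ← MonoidHom.map_closure, h]
  exact map_top_of_surjective _ b.repr.symm.surjective

theorem b_ne (b : FreeGroupBasis X F) (x : X) : b x ≠ 1 := fun h => by
  have := lift_b b (fun _ => Multiplicative.ofAdd (1 : ℤ)) x
  rw [h, map_one] at this
  exact absurd (congrArg Multiplicative.toAdd this) (by simp)

theorem b_mem (b : FreeGroupBasis X F) {A : Set X} {x : X} (h : b x ∈ closure (b '' A)) :
    x ∈ A := by
  classical
  by_contra e
  have h1 : closure (b '' A) ≤ (b.lift fun y => if y ∈ A then 1 else b y).ker := by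
    rw [closure_le]
    rintro _ ⟨y, hy, rfl⟩
    show b.lift _ (b y) = 1
    rw [lift_b, if_pos hy]
  have h2 : b.lift (fun y => if y ∈ A then 1 else b y) (b x) = 1 := h1 h
  rw [lift_b, if_neg e] at h2
  exact b_ne b x h2

theorem b_supp (b : FreeGroupBasis X F) (a : F) : ∃ s : Finset X, a ∈ closure (b '' (s : Set X)) := by
  classical
  have h : a ∈ closure (Set.range b) := by rw [b_top]; trivial
  induction h using closure_induction with
  | mem x hx =>
    obtain ⟨y, rfl⟩ := hx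
    exact ⟨{y}, subset_closure ⟨y, by simp, rfl⟩⟩
  | one => exact ⟨∅, one_mem _⟩
  | mul x y _ _ a b =>
    obtain ⟨s, hs⟩ := a
    obtain ⟨t, ht⟩ := b
    exact ⟨s ∪ t, mul_mem (closure_mono (Set.image_mono (by simp)) hs)
      (closure_mono (Set.image_mono (by simp)) ht)⟩
  | inv x _ a =>
    obtain ⟨s, hs⟩ := a
    exact ⟨s, inv_mem hs⟩

theorem rel_letters (b : FreeGroupBasis X F) (A W : Set X) (h : Disjoint A W) :
    Rel (closure (b '' A)) (b '' W) := by
  classical
  intro φ f hφ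
  refine ⟨b.lift fun x => if x ∈ A then φ (b x) else f (b x), homOn _ _,
    uniq (homOn _ _) hφ ?_, ?_⟩
  · rintro _ ⟨x, hx, rfl⟩
    rw [lift_b, if_pos hx]
  · rintro _ ⟨x, hx, rfl⟩
    rw [lift_b, if_neg (Set.disjoint_right.1 h hx)]

theorem transversal (b : FreeGroupBasis X F) (H : Subgroup F) :
    ∃ t : F ⧸ H → F, t ((1 : F) : F ⧸ H) = 1 ∧ (∀ ω, t ω • ((1 : F) : F ⧸ H) = ω) ∧
      ∀ P : F ⧸ H → Prop, P ((1 : F) : F ⧸ H) →
        (∀ ω x, t (b x • ω) = b x * t ω → (P ω ↔ P (b x • ω))) → ∀ ω, P ω := by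
  classical
  let R : ℕ → F ⧸ H → Prop := fun n => Nat.rec (fun ω => ω = ((1 : F) : F ⧸ H))
    (fun _ r ω => r ω ∨ ∃ x, r (b x • ω) ∨ r ((b x)⁻¹ • ω)) n
  have hR : ∀ a : F, ∀ ω, (∃ n, R n ω) ↔ ∃ n, R n (a • ω) := by
    intro a
    have h : a ∈ closure (Set.range b) := by rw [b_top]; trivial
    induction h using closure_induction with
    | mem x hx =>
      obtain ⟨y, rfl⟩ := hx
      exact fun ω => ⟨fun ⟨n, h⟩ => ⟨n + 1, Or.inr ⟨y, Or.inr (by rwa [inv_smul_smul])⟩⟩,
        fun ⟨n, h⟩ => ⟨n + 1, Or.inr ⟨y, Or.inl h⟩⟩⟩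
    | one => intro ω; rw [one_smul]
    | mul x y _ _ a b => intro ω; rw [mul_smul, ← a, ← b]
    | inv x _ a => intro ω; rw [a (x⁻¹ • ω), smul_inv_smul]
  have hex : ∀ ω, ∃ n, R n ω := fun ω => by
    obtain ⟨a, rfl⟩ := QuotientGroup.mk_surjective ω
    have := (hR a ((1 : F) : F ⧸ H)).1 ⟨0, rfl⟩
    rwa [MulAction.Quotient.smul_coe, smul_eq_mul, mul_one] at this
  let l : F ⧸ H → ℕ := fun ω => sInf {n | R n ω}
  have hs : ∀ ω, ∃ s : F, ω ≠ ((1 : F) : F ⧸ H) →
      (∃ x, s = b x ∨ s = (b x)⁻¹) ∧ l (s⁻¹ • ω) < l ω := by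
    intro ω
    by_cases e : ω = ((1 : F) : F ⧸ H)
    · exact ⟨1, fun h => absurd e h⟩
    have h1 : R (l ω) ω := Nat.sInf_mem (s := {n | R n ω}) (hex ω)
    obtain ⟨n, hn⟩ : ∃ n, l ω = n + 1 := by
      refine Nat.exists_eq_succ_of_ne_zero fun h0 => ?_
      rw [h0] at h1
      exact e h1
    rw [hn] at h1
    rcases h1 with h1 | ⟨x, h1 | h1⟩
    · exact absurd (show l ω ≤ n from Nat.sInf_le h1) (by omega)
    · refine ⟨(b x)⁻¹, fun _ => ⟨⟨x, Or.inr rfl⟩, ?_⟩⟩
      rw [inv_inv, hn]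
      exact Nat.lt_succ_of_le (Nat.sInf_le h1)
    · refine ⟨b x, fun _ => ⟨⟨x, Or.inl rfl⟩, ?_⟩⟩
      rw [hn]
      exact Nat.lt_succ_of_le (Nat.sInf_le h1)
  choose s hs using hs
  let t : F ⧸ H → F := WellFounded.fix (measure l).wf fun ω ih =>
    if h : ω = ((1 : F) : F ⧸ H) then 1 else s ω * ih ((s ω)⁻¹ • ω) (hs ω h).2
  have ht : ∀ ω, t ω = if ω = ((1 : F) : F ⧸ H) then 1 else s ω * t ((s ω)⁻¹ • ω) := fun ω => by
    simp only [t]
    rw [WellFounded.fix_eq]
    split_ifs <;> rfl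
  have ind : ∀ P : F ⧸ H → Prop, P ((1 : F) : F ⧸ H) →
      (∀ ω, ω ≠ ((1 : F) : F ⧸ H) → P ((s ω)⁻¹ • ω) → P ω) → ∀ ω, P ω := by
    intro P h0 h1 ω
    induction ω using (measure l).wf.induction with
    | _ ω ih =>
      by_cases e : ω = ((1 : F) : F ⧸ H)
      · rwa [e]
      · exact h1 ω e (ih _ (hs ω e).2)
  refine ⟨t, by rw [ht, if_pos rfl], ind _ (by rw [ht, if_pos rfl, one_smul]) fun ω e h => ?_,
    fun P h0 h1 => ind P h0 fun ω e h => ?_⟩
  · rw [ht, if_neg e, mul_smul, h, smul_inv_smul]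
  · have h2 := ht ω
    rw [if_neg e] at h2
    obtain ⟨x, hx | hx⟩ := (hs ω e).1
    · rw [hx] at h h2
      have := h1 ((b x)⁻¹ • ω) x (by rw [smul_inv_smul]; exact h2)
      rw [smul_inv_smul] at this
      exact this.1 h
    · rw [hx, inv_inv] at h h2
      exact (h1 ω x (by rw [h2, mul_inv_cancel_left])).2 h

theorem schreier (b : FreeGroupBasis X F) (A : Set X) (H : Subgroup F)
    (hA : closure (b '' A) ≤ H) :
    ∃ C, closure (b '' A) ⊔ closure C = H ∧ Rel (closure (b '' A)) C := by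
  classical
  obtain ⟨t, t1, t2, t3⟩ := transversal b H
  set o : F ⧸ H := ((1 : F) : F ⧸ H) with ho
  have hH : ∀ a : F, a • o = o ↔ a ∈ H := fun a => by
    rw [ho, MulAction.Quotient.smul_coe, smul_eq_mul, mul_one, eq_comm, QuotientGroup.eq]; simp
  let γ : F ⧸ H → F → F := fun ω a => (t (a • ω))⁻¹ * a * t ω
  have γH : ∀ ω a, γ ω a ∈ H := fun ω a => by
    rw [← hH, mul_smul, mul_smul, t2, inv_smul_eq_iff, t2]
  let C : Set F := {c | ∃ ω x, ¬ (ω = o ∧ x ∈ A) ∧ c ≠ 1 ∧ c = γ ω (b x)}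
  have loop : ∀ x ∈ A, b x • o = o := fun x hx => (hH _).2 (hA (subset_closure ⟨x, hx, rfl⟩))
  refine ⟨C, le_antisymm (sup_le hA ((closure_le _).2 ?_)) fun h hh => ?_, fun φ f hφ => ?_⟩
  · rintro _ ⟨ω, x, -, -, rfl⟩
    exact γH _ _
  · have key : ∀ a : F, ∀ ω, γ ω a ∈ closure (b '' A) ⊔ closure C := by
      intro a
      have h : a ∈ closure (Set.range b) := by rw [b_top]; trivial
      induction h using closure_induction with
      | mem x hx =>
        obtain ⟨x, rfl⟩ := hx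
        intro ω
        by_cases e : ω = o ∧ x ∈ A
        · refine mem_sup_left (subset_closure ⟨x, e.2, ?_⟩)
          simp only [γ, e.1, loop x e.2, t1, inv_one, one_mul, mul_one]
        by_cases e2 : γ ω (b x) = 1
        · rw [e2]; exact one_mem _
        · exact mem_sup_right (subset_closure ⟨ω, x, e, e2, rfl⟩)
      | one => intro ω; simp only [γ, one_smul, mul_one, inv_mul_cancel]; exact one_mem _
      | mul x y _ _ a b =>
        intro ω
        have := mul_mem (a (y • ω)) (b ω)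
        simp only [γ, mul_smul] at this ⊢
        convert this using 1
        group
      | inv x _ a =>
        intro ω
        have := inv_mem (a (x⁻¹ • ω))
        simp only [γ, smul_inv_smul] at this ⊢
        convert this using 1
        group
    have := key h o
    simpa only [γ, (hH h).2 hh, t1, inv_one, one_mul, mul_one] using this
  · let lab : F ⧸ H → X → F := fun ω x => if ω = o ∧ x ∈ A then φ (b x) else
      if γ ω (b x) = 1 then 1 else f (γ ω (b x))
    let p : X → Equiv.Perm (F × (F ⧸ H)) := fun x =>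
      { toFun := fun q => (lab q.2 x * q.1, b x • q.2)
        invFun := fun q => ((lab ((b x)⁻¹ • q.2) x)⁻¹ * q.1, (b x)⁻¹ • q.2)
        left_inv := fun q => by simp
        right_inv := fun q => by simp }
    let θ : F →* Equiv.Perm (F × (F ⧸ H)) := b.lift p
    let c : F → F ⧸ H → F := fun a ω => (θ a (1, ω)).1
    have hθ : ∀ a g ω, θ a (g, ω) = (c a ω * g, a • ω) := by
      intro a
      have h : a ∈ closure (Set.range b) := by rw [b_top]; trivial
      induction h using closure_induction with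
      | mem x hx =>
        obtain ⟨x, rfl⟩ := hx
        intro g ω
        simp only [c, θ, lift_b]
        show (lab ω x * g, b x • ω) = (lab ω x * 1 * g, b x • ω)
        rw [mul_one]
      | one => intro g ω; simp [c]
      | mul x y _ _ a b =>
        intro g ω
        simp only [c, map_mul, Equiv.Perm.mul_apply] at a b ⊢
        rw [b g, b 1, a, a (_ * 1), mul_smul]
        simp only [mul_assoc, mul_one]
      | inv x _ a =>
        intro g ω
        have k : ∀ g, θ x⁻¹ (g, ω) = ((c x (x⁻¹ • ω))⁻¹ * g, x⁻¹ • ω) := fun g => by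
          rw [map_inv, Equiv.Perm.inv_eq_iff_eq, a]; simp
        simp only [c] at k ⊢
        rw [k g, k 1, mul_one]
    have cm : ∀ a a' ω, c (a * a') ω = c a (a' • ω) * c a' ω := fun a a' ω => by
      have : θ (a * a') (1, ω) = θ a (θ a' (1, ω)) := by rw [map_mul]; rfl
      rw [hθ, hθ a', hθ a] at this
      simpa using congrArg Prod.fst this
    have cb : ∀ x ω, c (b x) ω = lab ω x := fun x ω => by
      simp only [c, θ, lift_b]
      exact mul_one _
    have ct : ∀ ω, c (t ω) o = 1 := by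
      refine t3 _ (by rw [t1]; simp [c]) fun ω x h => ?_
      have h1 : lab ω x = 1 := by
        have h2 : γ ω (b x) = 1 := by simp only [γ, h]; group
        have h3 : ¬ (ω = o ∧ x ∈ A) := fun e => by
          rw [e.1, loop x e.2, t1, mul_one] at h
          exact b_ne b x h.symm
        simp only [lab, if_neg h3, if_pos h2]
      rw [h, cm, t2, cb, h1, one_mul]
    have hm : MulOn H fun a => c a o := fun a _ a' ha' => by
      show c (a * a') o = _
      rw [cm, (hH a').2 ha']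
    have hle : closure (b '' A) ⊔ closure C ≤ H := sup_le hA ((closure_le _).2 (by
      rintro _ ⟨ω, x, -, -, rfl⟩
      exact γH _ _))
    refine ⟨fun a => c a o, hm.mono hle, uniq (hm.mono hA) hφ ?_, ?_⟩
    · rintro _ ⟨x, hx, rfl⟩
      show c (b x) o = _
      rw [cb]
      simp only [lab, hx, and_self, if_true]
    · rintro _ ⟨ω, x, h1, h2, rfl⟩
      show c (γ ω (b x)) o = _
      have h3 := cm (t (b x • ω)) (γ ω (b x)) o
      rw [(hH _).2 (γH _ _), ct, one_mul,
        show t (b x • ω) * γ ω (b x) = b x * t ω by simp only [γ]; group, cm, ct, t2, cb] at h3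
      rw [← h3]
      simp only [lab, if_neg h1, if_neg h2, mul_one]

end Pool.Agent.H16.AutF
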