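import Mathlib
import Pool.Agent.H16.AutF1

set_option autoImplicit false

namespace Pool.Agent.H16.AutF
open Subgroup Cardinal

variable {F X : Type} [Group F]

theorem small {ι Y : Type} {κ : Cardinal} (hκ : ℵ₀ ≤ κ) (s : ι → Finset Y) (h : #ι < κ) :
    #(⋃ i, (s i : Set Y)) < κ := by
  cases finite_or_infinite ι with
  | inl _ => exact (Set.finite_iUnion fun i => (s i).finite_toSet).lt_aleph0.trans_le hκ
  | inr _ =>
    refine mk_iUnion_le_sum_mk.trans_lt (lt_of_le_of_lt ?_ h)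
    refine (sum_le_sum _ (fun _ => ℵ₀) fun i => (s i).finite_toSet.lt_aleph0.le).trans ?_
    rw [sum_const', mul_aleph0_eq (aleph0_le_mk ι)]

theorem fresh [Infinite X] {ι : Type} (A : Set X) (hA : #A < #X) (h : #ι ≤ #X) :
    ∃ u : ι → X, Function.Injective u ∧ ∀ i, u i ∉ A := by
  rw [← mk_compl_of_infinite A hA] at h
  obtain ⟨u⟩ := (Cardinal.le_def _ _).1 h
  exact ⟨fun i => u i, fun i j e => u.injective (Subtype.ext e), fun i => (u i).2⟩

def Cov (b : X → F) (Q : Set F) (A : Set X) (G : Set (X × Finset X)) : Prop :=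
  (∀ p ∈ G, ∀ q ∈ G, p.1 = q.1 → p = q) ∧ (∀ p ∈ G, b p.1 ∈ Q) ∧ ∀ a ∈ A, ∃ p ∈ G, a ∈ p.2

theorem Cov.card [Infinite X] {b : X → F} {Q : Set F} {A : Set X} {G : Set (X × Finset X)}
    (h : Cov b Q A G) (hA : #X ≤ #A) : #X ≤ #{x | b x ∈ Q} := by
  by_contra hc
  have h1 : #G < #X := lt_of_le_of_lt (mk_le_of_injective
    (f := fun p : G => (⟨p.1.1, h.2.1 p.1 p.2⟩ : {x | b x ∈ Q}))
    fun p q e => Subtype.ext (h.1 _ p.2 _ q.2 (congrArg Subtype.val e))) (not_le.1 hc)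
  have h2 := small (aleph0_le_mk X) (fun p : G => p.1.2) h1
  refine absurd (hA.trans (mk_le_mk_of_subset fun a ha => ?_)) (not_le.2 h2)
  obtain ⟨p, hp, e⟩ := h.2.2 a ha
  exact Set.mem_iUnion.2 ⟨⟨p, hp⟩, e⟩

theorem Cov.ext {b : X → F} {Q Q' : Set F} {A A' D : Set X} {G : Set (X × Finset X)} {ι : Type}
    (h : Cov b Q A G) (hQ : Q ⊆ Q') (hD : ∀ x, b x ∈ Q → x ∈ D) (u : ι → X)
    (hu : Function.Injective u) (hn : ∀ i, u i ∉ D) (hq : ∀ i, b (u i) ∈ Q') (s : ι → Finset X)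
    (hs : A' ⊆ ⋃ i, (s i : Set X)) : Cov b Q' A' (G ∪ Set.range fun i => (u i, s i)) := by
  refine ⟨?_, ?_, fun a ha => ?_⟩
  · rintro p (hp | ⟨i, rfl⟩) q (hq | ⟨j, rfl⟩) e
    · exact h.1 p hp q hq e
    · exact absurd (hD _ (h.2.1 p hp)) (by rw [e]; exact hn j)
    · exact absurd (hD _ (h.2.1 q hq)) (by rw [← e]; exact hn i)
    · rw [hu e]
  · rintro p (hp | ⟨i, rfl⟩)
    · exact hQ (h.2.1 p hp)
    · exact hq i
  · obtain ⟨i, hi⟩ := Set.mem_iUnion.1 (hs ha)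
    exact ⟨_, Or.inr ⟨i, rfl⟩, hi⟩

theorem Cov.chain {b : X → F} {ι : Type} (Q : ι → Set F) (A : ι → Set X)
    (G : ι → Set (X × Finset X)) (hd : Directed (· ⊆ ·) G) (h : ∀ i, Cov b (Q i) (A i) (G i)) :
    Cov b (⋃ i, Q i) (⋃ i, A i) (⋃ i, G i) := by
  refine ⟨fun p hp q hq => ?_, fun p hp => ?_, fun a ha => ?_⟩
  · obtain ⟨i, hi⟩ := Set.mem_iUnion.1 hp
    obtain ⟨j, hj⟩ := Set.mem_iUnion.1 hq
    obtain ⟨k, a1, a2⟩ := hd i j
    exact (h k).1 p (a1 hi) q (a2 hj)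
  · obtain ⟨i, hi⟩ := Set.mem_iUnion.1 hp
    exact Set.mem_iUnion.2 ⟨i, (h i).2.1 p hi⟩
  · obtain ⟨i, hi⟩ := Set.mem_iUnion.1 ha
    obtain ⟨p, hp, e⟩ := (h i).2.2 a hi
    exact ⟨p, Set.mem_iUnion.2 ⟨i, hp⟩, e⟩

theorem common [Infinite X] (b b' : FreeGroupBasis X F) : ∃ Q : Set F, Ind Q ∧ closure Q = ⊤ ∧
    #X ≤ #{x | b x ∈ Q} ∧ #X ≤ #{x | b' x ∈ Q} := by
  classical
  let P : Set (Set F × Set X × Set (X × Finset X) × Set (X × Finset X)) :=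
    {z | Ind z.1 ∧ closure z.1 = closure (b '' z.2.1) ∧ Cov b z.1 z.2.1 z.2.2.1 ∧
      Cov b' z.1 z.2.1 z.2.2.2}
  have h0 : (∅, ∅, ∅, ∅) ∈ P := ⟨fun f => ⟨fun _ => 1, fun _ _ _ _ => by simp, by simp⟩, by simp,
    ⟨by simp, by simp, by simp⟩, ⟨by simp, by simp, by simp⟩⟩
  obtain ⟨⟨Q, A, G, G'⟩, -, ⟨h1, h2, h3, h4⟩, hmax⟩ := zorn_le_nonempty₀ P (fun c hc hch y hy => by
    haveI : Nonempty c := ⟨⟨y, hy⟩⟩
    have hd : Directed (· ≤ ·) fun z : c => z.1 := hch.directedOn.directed_val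
    refine ⟨(⋃ z : c, z.1.1, ⋃ z : c, z.1.2.1, ⋃ z : c, z.1.2.2.1, ⋃ z : c, z.1.2.2.2),
      ⟨Ind.chain _ (hd.mono_comp (g := fun z => z.1) _ fun _ _ h => h.1) fun z => (hc z.2).1, ?_,
      Cov.chain _ _ _ (hd.mono_comp (g := fun z => z.2.2.1) _ fun _ _ h => h.2.2.1)
        fun z => (hc z.2).2.2.1,
      Cov.chain _ _ _ (hd.mono_comp (g := fun z => z.2.2.2) _ fun _ _ h => h.2.2.2)
        fun z => (hc z.2).2.2.2⟩, fun z hz => ⟨Set.subset_iUnion (fun z : c => z.1.1) ⟨z, hz⟩,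
        Set.subset_iUnion (fun z : c => z.1.2.1) ⟨z, hz⟩,
        Set.subset_iUnion (fun z : c => z.1.2.2.1) ⟨z, hz⟩,
        Set.subset_iUnion (fun z : c => z.1.2.2.2) ⟨z, hz⟩⟩⟩
    simp only [Set.image_iUnion, Subgroup.closure_iUnion]
    exact iSup_congr fun z => (hc z.2).2.1) _ h0
  simp only at h1 h2 h3 h4
  by_cases hA : #X ≤ #A
  · refine ⟨Q ∪ b '' Aᶜ, h1.add (h2 ▸ rel_letters b A Aᶜ disjoint_compl_right), ?_,
      (h3.card hA).trans (mk_le_mk_of_subset fun x hx => Or.inl hx),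
      (h4.card hA).trans (mk_le_mk_of_subset fun x hx => Or.inl hx)⟩
    rw [Subgroup.closure_union, h2, ← Subgroup.closure_union, ← Set.image_union,
      Set.union_compl_self, Set.image_univ, b_top]
  exfalso
  have hA' : #A < #X := not_le.1 hA
  have hι : #(Option A) < #X := by
    rw [mk_option]
    exact add_lt_of_lt (aleph0_le_mk X) hA' (one_lt_aleph0.trans_le (aleph0_le_mk X))
  choose sp hsp using b_supp b
  choose sp' hsp' using b_supp b'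
  obtain ⟨u, u1, u2⟩ := fresh A hA' hι.le
  let s' : Option A → Finset X := fun i => sp' (b (u i)) ∪ i.elim ∅ fun a => sp' (b a)
  let A' : Set X := ⋃ i, (s' i : Set X)
  obtain ⟨v, v1, v2⟩ := fresh A' (small (aleph0_le_mk X) s' hι) hι.le
  let s : Option A → Finset X := fun i => sp (b' (v i)) ∪ (s' i).biUnion fun x => sp (b' x)
  let A1 : Set X := ⋃ i, (s i : Set X)
  have k1 : closure (b '' (A ∪ Set.range u)) ≤ closure (b' '' A') := by
    rw [closure_le]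
    rintro _ ⟨x, hx | ⟨i, rfl⟩, rfl⟩
    · exact closure_mono (Set.image_mono fun y hy => Set.mem_iUnion.2 ⟨some ⟨x, hx⟩,
        Finset.mem_coe.2 (Finset.mem_union_right _ hy)⟩) (hsp' (b x))
    · exact closure_mono (Set.image_mono fun y hy => Set.mem_iUnion.2 ⟨i,
        Finset.mem_coe.2 (Finset.mem_union_left _ hy)⟩) (hsp' (b (u i)))
  have k2 : closure (b' '' (A' ∪ Set.range v)) ≤ closure (b '' A1) := by
    rw [closure_le]
    rintro _ ⟨x, hx | ⟨i, rfl⟩, rfl⟩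
    · obtain ⟨i, hi⟩ := Set.mem_iUnion.1 hx
      exact closure_mono (Set.image_mono fun y hy => Set.mem_iUnion.2 ⟨i, Finset.mem_coe.2
        (Finset.mem_union_right _ (Finset.mem_biUnion.2 ⟨x, hi, hy⟩))⟩) (hsp (b' x))
    · exact closure_mono (Set.image_mono fun y hy => Set.mem_iUnion.2 ⟨i,
        Finset.mem_coe.2 (Finset.mem_union_left _ hy)⟩) (hsp (b' (v i)))
  obtain ⟨C1, c1, c2⟩ := schreier b _ _ k1
  obtain ⟨C2, c3, c4⟩ := schreier b' _ _ k2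
  have e1 : closure (Q ∪ b '' Set.range u) = closure (b '' (A ∪ Set.range u)) := by
    rw [Set.image_union, Subgroup.closure_union, Subgroup.closure_union, h2]
  have e2 : closure (Q ∪ b '' Set.range u ∪ C1) = closure (b' '' A') := by
    rw [Subgroup.closure_union, e1, c1]
  have e3 : closure (Q ∪ b '' Set.range u ∪ C1 ∪ b' '' Set.range v) =
      closure (b' '' (A' ∪ Set.range v)) := by
    rw [Set.image_union, Subgroup.closure_union, Subgroup.closure_union (b' '' A'), e2]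
  have e4 : closure (Q ∪ b '' Set.range u ∪ C1 ∪ b' '' Set.range v ∪ C2) = closure (b '' A1) := by
    rw [Subgroup.closure_union, e3, c3]
  have i1 := h1.add (h2 ▸ rel_letters b A (Set.range u) (Set.disjoint_right.2 (by
    rintro _ ⟨i, rfl⟩; exact u2 i)))
  have i2 := i1.add (e1 ▸ c2)
  have i3 := i2.add (e2 ▸ rel_letters b' A' (Set.range v) (Set.disjoint_right.2 (by
    rintro _ ⟨i, rfl⟩; exact v2 i)))
  have i4 := i3.add (e3 ▸ c4)
  have hQ : Q ⊆ Q ∪ b '' Set.range u ∪ C1 ∪ b' '' Set.range v ∪ C2 :=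
    fun x hx => Or.inl (Or.inl (Or.inl (Or.inl hx)))
  have hA1 : A ∪ Set.range u ⊆ A1 := fun x hx => b_mem b (k2 (closure_mono
    (Set.image_mono Set.subset_union_left) (k1 (subset_closure ⟨x, hx, rfl⟩))))
  have := hmax (y := (_, A1, _, _)) ⟨i4, e4,
    h3.ext hQ (fun x hx => b_mem b (h2 ▸ subset_closure hx)) u u1 u2
      (fun i => Or.inl (Or.inl (Or.inl (Or.inr ⟨_, ⟨i, rfl⟩, rfl⟩)))) s le_rfl,
    h4.ext hQ (fun x hx => b_mem b' (e2 ▸ subset_closure (Or.inl (Or.inl hx)))) v v1 v2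
      (fun i => Or.inl (Or.inr ⟨_, ⟨i, rfl⟩, rfl⟩)) s le_rfl⟩
    ⟨hQ, Set.subset_union_left.trans hA1, Set.subset_union_left, Set.subset_union_left⟩
  exact u2 none (this.2.1 (hA1 (Or.inr ⟨none, rfl⟩)))

theorem halve {Y : Type} {κ : Cardinal} (hκ : ℵ₀ ≤ κ) (S : Set Y) (h : κ ≤ #S) :
    ∃ T U : Set Y, T ⊆ S ∧ U ⊆ S ∧ Disjoint T U ∧ κ ≤ #T ∧ κ ≤ #U := by
  have h1 : #(S ⊕ S) ≤ #S := by
    rw [mk_sum, lift_id, add_eq_self (hκ.trans h)]
  obtain ⟨u⟩ := (Cardinal.le_def _ _).1 h1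
  refine ⟨Set.range fun x => (u (Sum.inl x)).1, Set.range fun x => (u (Sum.inr x)).1, ?_, ?_,
    ?_, ?_, ?_⟩
  · rintro _ ⟨x, rfl⟩; exact (u _).2
  · rintro _ ⟨x, rfl⟩; exact (u _).2
  · rw [Set.disjoint_left]
    rintro _ ⟨x, rfl⟩ ⟨y, e⟩
    exact absurd (u.injective (Subtype.ext e)) (by simp)
  · rw [mk_range_eq _ fun x y e => Sum.inl_injective (u.injective (Subtype.ext e))]; exact h
  · rw [mk_range_eq _ fun x y e => Sum.inr_injective (u.injective (Subtype.ext e))]; exact h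

theorem sep {Y : Type} {κ : Cardinal} (hκ : ℵ₀ ≤ κ) (S1 S2 : Set Y) (h1 : κ ≤ #S1)
    (h2 : κ ≤ #S2) : ∃ T U : Set Y, T ⊆ S1 ∧ U ⊆ S2 ∧ Disjoint T U ∧ κ ≤ #T ∧ κ ≤ #U := by
  by_cases h : κ ≤ #(S1 ∩ S2 : Set Y)
  · obtain ⟨T, U, a1, a2, a3⟩ := halve hκ _ h
    exact ⟨T, U, a1.trans Set.inter_subset_left, a2.trans Set.inter_subset_right, a3⟩
  · refine ⟨S1 \ S2, S2, Set.diff_subset, le_rfl, Set.disjoint_sdiff_left, ?_, h2⟩
    by_contra h3
    have := add_lt_of_lt hκ (not_le.1 h3) (not_le.1 h)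
    refine absurd (h1.trans ?_) (not_le.2 this)
    conv_lhs => rw [← Set.diff_union_inter S1 S2]
    exact mk_union_le _ _

theorem glue [Infinite X] {Y : Type} (hY : #Y ≤ #X) (W0 Y0 : Set X) (u v : X → Y)
    (hu : Set.InjOn u W0) (hv : Set.InjOn v Y0) (h1 : #X ≤ #W0) (h2 : #X ≤ #Y0) :
    ∃ (β : X ≃ Y) (W Z : Set X), W ⊆ W0 ∧ Z ⊆ Y0 ∧ #X ≤ #W ∧ #X ≤ #Z ∧
      Set.EqOn β u W ∧ Set.EqOn β v Z := by
  classical
  have hκ := aleph0_le_mk X
  obtain ⟨W1, Y1, a1, a2, a3, a4, a5⟩ := sep hκ W0 Y0 h1 h2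
  obtain ⟨T, U, b1, b2, b3, b4, b5⟩ := sep hκ (u '' W1) (v '' Y1)
    (by rwa [mk_image_eq_of_injOn _ _ (hu.mono a1)]) (by rwa [mk_image_eq_of_injOn _ _ (hv.mono a2)])
  have c1 : #X ≤ #(W1 ∩ u ⁻¹' T : Set X) := b4.trans (by
    conv_lhs => rw [← Set.inter_eq_right.2 b1, ← Set.image_inter_preimage]
    exact mk_image_le)
  have c2 : #X ≤ #(Y1 ∩ v ⁻¹' U : Set X) := b5.trans (by
    conv_lhs => rw [← Set.inter_eq_right.2 b2, ← Set.image_inter_preimage]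
    exact mk_image_le)
  obtain ⟨W, W', d1, d2, d3, d4, d5⟩ := halve hκ _ c1
  set Z := Y1 ∩ v ⁻¹' U
  have hWZ : ∀ x ∈ Z, x ∉ W := fun x hz hw => Set.disjoint_left.1 a3 (d1 hw).1 hz.1
  let f : (W ∪ Z : Set X) ↪ Y := ⟨fun x => if x.1 ∈ W then u x else v x, by
    rintro ⟨x, hx⟩ ⟨y, hy⟩ e
    simp only at e
    refine Subtype.ext ?_
    split_ifs at e with p q q
    · exact hu (a1 (d1 p).1) (a1 (d1 q).1) e
    · exact absurd (hy.resolve_left q).2 (Set.disjoint_left.1 b3 (e ▸ (d1 p).2))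
    · exact absurd (hx.resolve_left p).2 (Set.disjoint_left.1 b3 (e ▸ (d1 q).2))
    · exact hv (a2 (hx.resolve_left p).1) (a2 (hy.resolve_left q).1) e⟩
  obtain ⟨β, hβ⟩ := extend_function f (Cardinal.eq.1 (by
    refine le_antisymm ((mk_set_le _).trans ?_) (((mk_set_le _).trans hY).trans (d5.trans
      (mk_le_mk_of_subset ?_)))
    · refine d5.trans ?_
      rw [← mk_image_eq_of_injOn u W' (hu.mono fun x hx => a1 (d2 hx).1)]
      refine mk_le_mk_of_subset ?_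
      rintro _ ⟨x, hx, rfl⟩ ⟨⟨y, hy⟩, e⟩
      have e' : (if y ∈ W then u y else v y) = u x := e
      split_ifs at e' with p
      · exact Set.disjoint_left.1 d3 p (hu (a1 (d1 p).1) (a1 (d2 hx).1) e' ▸ hx)
      · exact Set.disjoint_left.1 b3 (d2 hx).2 (e' ▸ (hy.resolve_left p).2)
    · rintro x hx (h | h)
      · exact Set.disjoint_left.1 d3 h hx
      · exact Set.disjoint_left.1 a3 (d2 hx).1 h.1))
  refine ⟨β, W, Z, fun x hx => a1 (d1 hx).1, fun x hx => a2 hx.1, d4, c2, fun x hx => ?_,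
    fun x hx => ?_⟩
  · exact (hβ ⟨x, Or.inl hx⟩).trans (if_pos hx)
  · exact (hβ ⟨x, Or.inr hx⟩).trans (if_neg (hWZ x hx))

def Big (τ : MulAut (FreeGroup X)) : Prop := #X ≤ #{x | τ (FreeGroup.of x) = FreeGroup.of x}

theorem two [Infinite X] (σ : MulAut (FreeGroup X)) : ∃ τ τ', Big τ ∧ Big τ' ∧ σ = τ * τ'⁻¹ := by
  classical
  obtain ⟨Q, q1, q2, q3, q4⟩ := common (FreeGroupBasis.ofFreeGroup X)
    ((FreeGroupBasis.ofFreeGroup X).map σ)
  have q3' : #X ≤ #{x | FreeGroup.of x ∈ Q} := q3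
  have q4' : #X ≤ #{x | σ (FreeGroup.of x) ∈ Q} := q4
  obtain ⟨x0, hx0⟩ : {x | FreeGroup.of x ∈ Q}.Nonempty := by
    rw [← Set.nonempty_coe_sort, ← mk_ne_zero_iff]
    exact ((mk_ne_zero X).bot_lt.trans_le q3').ne'
  let r : FreeGroup X → Q := fun a => if h : a ∈ Q then ⟨a, h⟩ else ⟨_, hx0⟩
  have hr : ∀ a ∈ Q, (r a).1 = a := fun a h => by simp only [r, dif_pos h]
  obtain ⟨β, W, Z, a1, a2, a3, a4, a5, a6⟩ := glue (Y := Q) ((mk_set_le _).trans (by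
    rw [mk_freeGroup, max_eq_left (aleph0_le_mk X)])) _ _ (fun x => r (FreeGroup.of x))
    (fun x => r (σ (FreeGroup.of x)))
    (fun x hx y hy e => FreeGroup.of_injective (by rw [← hr _ hx, ← hr _ hy]; exact congrArg _ e))
    (fun x hx y hy e => FreeGroup.of_injective (σ.injective
      (by rw [← hr _ hx, ← hr _ hy]; exact congrArg _ e))) q3' q4'
  let t : FreeGroup X →* FreeGroup X := FreeGroup.lift fun x => (β x).1
  obtain ⟨ψ, p1, p2⟩ := q1 fun a => FreeGroup.of (β.symm (r a))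
  rw [q2] at p1
  let ψ' : FreeGroup X →* FreeGroup X := MonoidHom.mk' ψ fun a b => p1 a trivial b trivial
  have e1 : ψ'.comp t = MonoidHom.id _ := FreeGroup.ext_hom _ _ fun x => by
    show ψ (t (FreeGroup.of x)) = FreeGroup.of x
    rw [FreeGroup.lift_apply_of, p2 (β x).2]
    show FreeGroup.of (β.symm (r (β x).1)) = _
    rw [show r (β x).1 = β x from Subtype.ext (hr _ (β x).2), Equiv.symm_apply_apply]
  have e2 : t.comp ψ' = MonoidHom.id _ := MonoidHom.eq_of_eqOn_dense q2 fun a ha => by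
    show t (ψ a) = a
    rw [p2 ha, FreeGroup.lift_apply_of, Equiv.apply_symm_apply, hr a ha]
  let τ : MulAut (FreeGroup X) := MonoidHom.toMulEquiv t ψ' e1 e2
  have hτ : ∀ x, τ (FreeGroup.of x) = (β x).1 := fun x => FreeGroup.lift_apply_of
  refine ⟨τ, σ⁻¹ * τ, a3.trans (mk_le_mk_of_subset fun x hx => ?_),
    a4.trans (mk_le_mk_of_subset fun x hx => ?_), by group⟩
  · show τ _ = _
    rw [hτ, a5 hx]; exact hr _ (a1 hx)
  · show σ⁻¹ (τ _) = _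
    rw [hτ, a6 hx, hr _ (a2 hx)]; simp

end Pool.Agent.H16.AutF
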