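import Mathlib
import Pool.Agent.H16.AutF2

set_option autoImplicit false

namespace Pool.Agent.H16.AutF
open Subgroup Cardinal
open FreeGroup (of)

abbrev Φ := FreeGroup ℕ

def Hard (i : ℕ) (ψ : Φ) : Prop := ψ.toWord.getLast? = some (i, true)

theorem hard_one (i : ℕ) : ¬ Hard i 1 := by simp [Hard]
theorem hard_of (i : ℕ) : Hard i (of i) := by simp [Hard, FreeGroup.toWord_of]
theorem hard_inv (i : ℕ) : ¬ Hard i (of 0)⁻¹ := by
  simp [Hard, FreeGroup.toWord_inv, FreeGroup.toWord_of, FreeGroup.invRev]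

theorem hard_mul (i j : ℕ) (χ : Φ) (h : ¬ (i = j ∧ χ = 1)) : Hard i (of j * χ) ↔ Hard i χ := by
  unfold Hard
  rw [FreeGroup.toWord_mul, FreeGroup.toWord_of, List.singleton_append, FreeGroup.reduce.cons,
    FreeGroup.reduce_toWord]
  have h1 : χ.toWord = [] → χ = 1 := FreeGroup.toWord_eq_nil_iff.1
  rcases hw : χ.toWord with _ | ⟨hd, _ | ⟨hd', tl⟩⟩
  · have : j ≠ i := fun e => h ⟨e.symm, h1 hw⟩
    simp [this]
  · dsimp only
    split_ifs with e
    · obtain ⟨a, b⟩ := hd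
      simp only at e
      have : b = false := by simpa using e.2
      simp [this]
    · simp
  · dsimp only
    split_ifs with e
    · simp
    · simp

theorem conn (P : Φ → Prop) (h1 : P 1) (h : ∀ j χ, P χ ↔ P (of j * χ)) (ψ : Φ) : P ψ := by
  have : ∀ φ : Φ, ∀ χ, P χ ↔ P (φ * χ) := by
    intro φ
    induction φ using FreeGroup.induction_on with
    | C1 => intro χ; rw [one_mul]
    | of j => exact h j
    | inv_of j a => intro χ; rw [a ((of j)⁻¹ * χ), mul_inv_cancel_left]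
    | mul x y a b => intro χ; rw [mul_assoc, ← a, ← b]
  simpa using (this ψ 1).1 h1

theorem aut_ext {L : Type} {a b : MulAut (FreeGroup L)} (h : ∀ x, a (of x) = b (of x)) : a = b :=
  MulEquiv.toMonoidHom_injective (FreeGroup.ext_hom _ _ h)

def pm {L : Type} : Equiv.Perm L →* MulAut (FreeGroup L) where
  toFun c := FreeGroup.freeGroupCongr c
  map_one' := aut_ext fun x => by simp
  map_mul' c d := aut_ext fun x => by simp

theorem pm_of {L : Type} (c : Equiv.Perm L) (x : L) : pm c (of x) = of (c x) := by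
  simp [pm]

variable {I : Type}

def sh : Φ →* Equiv.Perm (I × Φ) where
  toFun φ := (Equiv.refl I).prodCongr (Equiv.mulLeft φ)
  map_one' := by ext <;> simp
  map_mul' a b := by ext <;> simp [mul_assoc]

def pi : Φ →* MulAut (FreeGroup (I × Φ)) := pm.comp sh

theorem pi_of (φ : Φ) (α : I) (ψ : Φ) : pi φ (of (α, ψ)) = of (α, φ * ψ) := pm_of _ _

def Cls [LinearOrder I] (idx : I → ℕ) (i : ℕ) (τ : MulAut (FreeGroup (I × Φ))) : Prop :=
  (∀ x : I × Φ, ¬ (idx x.1 = i ∧ x.2 = 1) → τ (of x) = of x) ∧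
  ∀ α : I, τ⁻¹ (of (α, 1)) ∈ closure (of '' {x : I × Φ | ¬ Hard (idx x.1) x.2 ∨ x.1 < α})

theorem conjAll [LinearOrder I] [WellFoundedLT I] (idx : I → ℕ)
    (τ : ℕ → MulAut (FreeGroup (I × Φ))) (h : ∀ i, Cls idx i (τ i)) :
    ∃ T : MulAut (FreeGroup (I × Φ)), ∀ i, T * pi (of i) * T⁻¹ = pi (of i) * τ i := by
  classical
  let ρ : Φ →* MulAut (FreeGroup (I × Φ)) := FreeGroup.lift fun i => pi (of i) * τ i
  have ρo : ∀ j a, ρ (of j) a = pi (of j) (τ j a) := fun j a => by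
    simp only [ρ, FreeGroup.lift_apply_of]; rfl
  have ρe : ∀ j α χ, ¬ (idx α = j ∧ χ = 1) → ρ (of j) (of (α, χ)) = of (α, of j * χ) :=
    fun j α χ e => by rw [ρo, (h j).1 (α, χ) e, pi_of]
  let t : FreeGroup (I × Φ) →* FreeGroup (I × Φ) := FreeGroup.lift fun x => ρ x.2 (of (x.1, 1))
  have tof : ∀ α ψ, t (of (α, ψ)) = ρ ψ (of (α, 1)) := fun α ψ => FreeGroup.lift_apply_of
  have ha : ∀ φ a, t (pi φ a) = ρ φ (t a) := fun φ a => by
    have : t.comp (pi φ).toMonoidHom = (ρ φ).toMonoidHom.comp t :=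
      FreeGroup.ext_hom _ _ fun x => by
        obtain ⟨α, ψ⟩ := x
        show t (pi φ (of (α, ψ))) = ρ φ (t (of (α, ψ)))
        rw [pi_of, tof, tof, map_mul]; rfl
    exact DFunLike.congr_fun this a
  have hb : ∀ α ψ, ¬ Hard (idx α) ψ → t (of (α, ψ)) = of (α, ψ) := fun α => by
    refine conn _ (fun _ => by rw [tof, map_one]; rfl) fun j χ => ?_
    by_cases e : idx α = j ∧ χ = 1
    · obtain ⟨rfl, rfl⟩ := e
      exact ⟨fun _ h => absurd (by rw [mul_one]; exact hard_of _) h,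
        fun _ _ => by rw [tof, map_one]; rfl⟩
    · have k : t (of (α, of j * χ)) = ρ (of j) (t (of (α, χ))) := by rw [← pi_of, ha]
      rw [hard_mul _ _ _ e, k, ← ρe j α χ e, (ρ (of j)).injective.eq_iff]
  have hR : ∀ φ a, a ∈ t.range → ρ φ a ∈ t.range := by
    rintro φ _ ⟨a, rfl⟩
    exact ⟨_, ha φ a⟩
  have hc : ∀ α ψ, of (α, ψ) ∈ t.range := fun α => by
    induction α using WellFoundedLT.induction with
    | _ α ih =>
      refine conn _ ⟨_, hb α 1 (hard_one _)⟩ fun j χ => ?_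
      by_cases e : idx α = j ∧ χ = 1
      · obtain ⟨rfl, rfl⟩ := e
        refine ⟨fun _ => ?_, fun _ => ⟨_, hb α 1 (hard_one _)⟩⟩
        have := hR (of (idx α)) _ ((closure_le t.range).2 ?_ ((h (idx α)).2 α))
        · rwa [ρo, MulAut.apply_inv_self, pi_of] at this
        · rintro _ ⟨⟨β, ψ⟩, hx | hx, rfl⟩
          · exact ⟨_, hb β ψ hx⟩
          · exact ih β hx ψ
      · rw [← ρe j α χ e]
        refine ⟨hR _ _, fun k => ?_⟩
        have := hR (of j)⁻¹ _ k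
        rwa [map_inv, MulAut.inv_apply_self] at this
  let Ls : (I → FreeGroup (I × Φ)) → FreeGroup (I × Φ) →* FreeGroup (I × Φ) := fun s =>
    FreeGroup.lift fun x => if Hard (idx x.1) x.2 then pi x.2 (s x.1) else of x
  have Lo : ∀ s α ψ, Ls s (of (α, ψ)) = if Hard (idx α) ψ then pi ψ (s α) else of (α, ψ) :=
    fun s α ψ => FreeGroup.lift_apply_of
  let s : I → FreeGroup (I × Φ) := WellFounded.fix wellFounded_lt fun α ih =>
    Ls (fun β => if h : β < α then ih β h else 1) ((τ (idx α))⁻¹ (of (α, 1)))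
  have hs : ∀ α, s α = Ls s ((τ (idx α))⁻¹ (of (α, 1))) := fun α => by
    have e1 : s α = Ls (fun β => if β < α then s β else 1) ((τ (idx α))⁻¹ (of (α, 1))) := by
      simp only [s]
      rw [WellFounded.fix_eq]
      rfl
    rw [e1]
    refine MonoidHom.eqOn_closure ?_ ((h (idx α)).2 α)
    rintro _ ⟨⟨β, ψ⟩, hx | hx, rfl⟩
    · refine (Lo (fun β => if β < α then s β else 1) β ψ).trans (Eq.trans ?_ (Lo s β ψ).symm)
      rw [if_neg hx, if_neg hx]
    · refine (Lo (fun β => if β < α then s β else 1) β ψ).trans (Eq.trans ?_ (Lo s β ψ).symm)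
      rw [if_pos (show β < α from hx)]
  have hd : ∀ j a, Ls s (pi (of j) a) = pi (of j) (Ls s ((τ j)⁻¹ a)) := fun j a => by
    have : (Ls s).comp (pi (of j)).toMonoidHom =
        (pi (of j)).toMonoidHom.comp ((Ls s).comp (τ j)⁻¹.toMonoidHom) :=
      FreeGroup.ext_hom _ _ fun x => by
        obtain ⟨α, χ⟩ := x
        show Ls s (pi (of j) (of (α, χ))) = pi (of j) (Ls s ((τ j)⁻¹ (of (α, χ))))
        rw [pi_of, Lo]
        by_cases e : idx α = j ∧ χ = 1
        · obtain ⟨rfl, rfl⟩ := e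
          rw [mul_one, if_pos (hard_of _), ← hs]
        · have e2 : (τ j)⁻¹ (of (α, χ)) = of (α, χ) := by
            conv_lhs => rw [← (h j).1 (α, χ) e]
            exact MulAut.inv_apply_self _ _ _
          rw [e2, Lo, hard_mul _ _ _ e]
          split_ifs
          · rw [map_mul]; rfl
          · rw [pi_of]
    exact DFunLike.congr_fun this a
  have he : ∀ φ a, Ls s (ρ φ a) = pi φ (Ls s a) := by
    refine conn _ (fun a => by rw [map_one, map_one]; rfl) fun j χ => ?_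
    refine forall_congr' fun a => ?_
    rw [map_mul, map_mul, MulAut.mul_apply, MulAut.mul_apply, ρo, hd, MulAut.inv_apply_self,
      (pi (of j)).injective.eq_iff]
  have hl : (Ls s).comp t = MonoidHom.id _ := FreeGroup.ext_hom _ _ fun x => by
    obtain ⟨α, ψ⟩ := x
    show Ls s (t (of (α, ψ))) = of (α, ψ)
    rw [tof, he, Lo, if_neg (hard_one _), pi_of, mul_one]
  have hbij : Function.Bijective t := ⟨Function.LeftInverse.injective (g := Ls s)
    fun a => DFunLike.congr_fun hl a, MonoidHom.range_eq_top.1 (by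
      rw [eq_top_iff, ← FreeGroup.closure_range_of, closure_le]
      rintro _ ⟨⟨α, ψ⟩, rfl⟩
      exact hc α ψ)⟩
  refine ⟨MulEquiv.ofBijective t hbij, fun i => ?_⟩
  rw [mul_inv_eq_iff_eq_mul]
  ext a
  exact (ha _ a).trans (ρo _ _)

theorem ext1 {L : Type} (D : Set L) (f : L → L) (hf : Set.InjOn f D) (h1 : #L ≤ #(Dᶜ : Set L))
    (h2 : #L ≤ #((f '' D)ᶜ : Set L)) : ∃ e : Equiv.Perm L, Set.EqOn e f D := by
  obtain ⟨e, he⟩ := extend_function (s := D) ⟨fun x => f x, fun x y e => Subtype.ext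
    (hf x.2 y.2 e)⟩ (Cardinal.eq.1 (le_antisymm ((mk_set_le _).trans (h2.trans (le_of_eq (by
      rw [Set.image_eq_range]; rfl)))) ((mk_set_le _).trans h1)))
  exact ⟨e, fun x hx => he ⟨x, hx⟩⟩

theorem easyBig (idx : I → ℕ) (i : ℕ) (h2 : #(I × Φ) ≤ #{α | idx α = i}) (D : Set (I × Φ))
    (hD : ∀ x ∈ D, x.2 = 1 ∨ Hard (idx x.1) x.2) : #(I × Φ) ≤ #(Dᶜ : Set (I × Φ)) := by
  refine h2.trans ((mk_set_le _).trans (mk_le_of_injective
    (f := fun α => (⟨(α, (of 0)⁻¹), fun h => ?_⟩ : (Dᶜ : Set (I × Φ))))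
    fun a b e => congrArg (fun z => z.1.1) e))
  rcases hD _ h with e | e
  · exact FreeGroup.of_ne_one 0 (inv_eq_one.1 e)
  · exact hard_inv _ e

theorem place [LinearOrder I] [Nonempty I] (idx : I → ℕ) (i : ℕ)
    (h1 : ∀ α : I, #(Set.Iio α) < #(I × Φ)) (h2 : #(I × Φ) ≤ #{α | idx α = i})
    (τ : MulAut (FreeGroup (I × Φ))) (hτ : Big τ) :
    ∃ e : Equiv.Perm (I × Φ), Cls idx i ((pm e)⁻¹ * τ * pm e) := by
  classical
  have hκ := aleph0_le_mk (I × Φ)
  have hI : #I ≤ #(I × Φ) := mk_le_of_injective (f := fun α => (α, 1))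
    fun a b e => congrArg Prod.fst e
  have hΦ : #Φ ≤ #(I × Φ) := mk_le_of_surjective Prod.snd_surjective
  obtain ⟨Wa, W', a1, a2, a3, a4, a5⟩ := halve hκ _ hτ
  obtain ⟨Wb, Wc, b1, b2, b3, b4, b5⟩ := halve hκ _ a5
  obtain ⟨lam0⟩ : Nonempty ({α | idx α = i} ≃ (W'ᶜ : Set (I × Φ))) := Cardinal.eq.1
    (le_antisymm ((mk_set_le _).trans (hI.trans (a4.trans (mk_le_mk_of_subset
      a3.subset_compl_right)))) ((mk_set_le _).trans h2))
  let lam : I → I × Φ := fun α => if h : idx α = i then (lam0 ⟨α, h⟩).1 else (α, 1)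
  have hlam : ∀ α (h : idx α = i), lam α = (lam0 ⟨α, h⟩).1 := fun α h => dif_pos h
  choose sp hsp using b_supp (FreeGroupBasis.ofFreeGroup (I × Φ))
  have hBad : ∀ β : I, #(⋃ α : Set.Iic β, (sp (τ⁻¹ (of (lam α))) : Set (I × Φ))) < #(I × Φ) :=
    fun β => small hκ _ (by
      rw [← Set.Iio_insert]
      exact (mk_insert_le).trans_lt (add_lt_of_lt hκ (h1 β) (one_lt_aleph0.trans_le hκ)))
  obtain ⟨p⟩ : Nonempty (I × (I × Φ) ↪ Wb) := (Cardinal.le_def _ _).1 (by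
    rw [mk_prod, lift_id, lift_id]
    exact (mul_le_mul' hI le_rfl).trans ((mul_eq_self hκ).le.trans b4))
  have hu : ∀ β : I, ∃ u : Φ → I × Φ, Function.Injective u ∧ ∀ ψ, u ψ ∉ (fun x => (p (β, x)).1) ⁻¹'
      (⋃ α : Set.Iic β, (sp (τ⁻¹ (of (lam α))) : Set (I × Φ))) := fun β =>
    fresh _ ((mk_preimage_of_injective _ _ fun x y e =>
      congrArg Prod.snd (p.injective (Subtype.ext e))).trans_lt (hBad β)) hΦ
  choose u u1 u2 using hu
  let f : I × Φ → I × Φ := fun x => if Hard (idx x.1) x.2 then (p (x.1, u x.1 x.2)).1 else lam x.1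
  let D : Set (I × Φ) := {x | (idx x.1 = i ∧ x.2 = 1) ∨ Hard (idx x.1) x.2}
  have fD : ∀ x ∈ D, (Hard (idx x.1) x.2 ∧ f x = (p (x.1, u x.1 x.2)).1) ∨
      ∃ h : idx x.1 = i, x.2 = 1 ∧ f x = (lam0 ⟨x.1, h⟩).1 := fun x hx => by
    by_cases e : Hard (idx x.1) x.2
    · exact Or.inl ⟨e, if_pos e⟩
    · have := hx.resolve_right e
      exact Or.inr ⟨this.1, this.2, (if_neg e).trans (hlam _ _)⟩
  obtain ⟨e, he⟩ := ext1 D f (fun x hx y hy e => by
      rcases fD x hx with ⟨c1, c2⟩ | ⟨c1, c2, c3⟩ <;> rcases fD y hy with ⟨d1, d2⟩ | ⟨d1, d2, d3⟩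
      · have := p.injective (Subtype.ext (c2.symm.trans (e.trans d2)))
        have k1 : x.1 = y.1 := (Prod.ext_iff.1 this).1
        have k2 : u x.1 x.2 = u y.1 y.2 := (Prod.ext_iff.1 this).2
        rw [← k1] at k2
        exact Prod.ext k1 (u1 _ k2)
      · exact absurd (b1 (p _).2) (c2.symm.trans (e.trans d3) ▸ (lam0 _).2)
      · exact absurd (b1 (p _).2) (d2.symm.trans (e.symm.trans c3) ▸ (lam0 _).2)
      · have := lam0.injective (Subtype.ext (c3.symm.trans (e.trans d3)))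
        exact Prod.ext (congrArg Subtype.val this) (c2.trans d2.symm))
    (easyBig idx i h2 D fun x hx => hx.imp_left And.right)
    (b5.trans (mk_le_mk_of_subset (by
      rintro z hz ⟨x, hx, rfl⟩
      rcases fD x hx with ⟨c1, c2⟩ | ⟨c1, c2, c3⟩
      · exact Set.disjoint_left.1 b3 (c2 ▸ (p _).2) hz
      · exact (c3 ▸ (lam0 _).2 : f x ∈ W'ᶜ) (b2 hz))))
  have hfix : ∀ x : I × Φ, ¬ (idx x.1 = i ∧ x.2 = 1) → ((pm e)⁻¹ * τ * pm e) (of x) = of x := by
    intro x hx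
    have k : e x ∈ W' := by
      by_contra k
      obtain ⟨⟨α, hα⟩, c⟩ := lam0.surjective ⟨e x, k⟩
      have c2 : e (α, 1) = e x := by
        rw [he (show (α, (1 : Φ)) ∈ D from Or.inl ⟨hα, rfl⟩)]
        exact ((if_neg (hard_one _)).trans (hlam _ hα)).trans (congrArg Subtype.val c)
      rw [← e.injective c2] at hx
      exact hx ⟨hα, rfl⟩
    rw [MulAut.mul_apply, MulAut.mul_apply, pm_of, a2 k, ← pm_of, MulAut.inv_apply_self]
  refine ⟨e, hfix, fun α => ?_⟩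
  by_cases hα : idx α = i
  · have c : e (α, 1) = lam α := by
      rw [he (show (α, (1 : Φ)) ∈ D from Or.inl ⟨hα, rfl⟩)]
      exact if_neg (hard_one _)
    rw [mul_inv_rev, mul_inv_rev, inv_inv, MulAut.mul_apply, MulAut.mul_apply, pm_of, c, ← map_inv]
    have k := mem_map_of_mem (pm e⁻¹).toMonoidHom (hsp (τ⁻¹ (of (lam α))))
    rw [MonoidHom.map_closure] at k
    refine closure_mono ?_ k
    rintro _ ⟨_, ⟨z, hz, rfl⟩, rfl⟩
    refine ⟨e⁻¹ z, ?_, (pm_of _ _).symm⟩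
    by_contra hc
    simp only [Set.mem_ofPred_eq, not_or, not_not, not_lt] at hc
    refine u2 (e⁻¹ z).1 (e⁻¹ z).2 (Set.mem_iUnion.2 ⟨⟨α, hc.2⟩, ?_⟩)
    have k2 : e (e⁻¹ z) = (p ((e⁻¹ z).1, u (e⁻¹ z).1 (e⁻¹ z).2)).1 :=
      (he (Or.inr hc.1)).trans (if_pos hc.1)
    have k3 : z = (p ((e⁻¹ z).1, u (e⁻¹ z).1 (e⁻¹ z).2)).1 := by simpa using k2
    exact (k3 ▸ hz : (p ((e⁻¹ z).1, u (e⁻¹ z).1 (e⁻¹ z).2)).1 ∈ (sp (τ⁻¹ (of (lam α))) : Set _))
  · conv_rhs => rw [← hfix (α, 1) fun k => hα k.1]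
    rw [MulAut.inv_apply_self]
    exact subset_closure ⟨_, Or.inl (hard_one _), rfl⟩

end Pool.Agent.H16.AutF
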