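import Mathlib
import Pool.Agent.H16.AutF3

set_option autoImplicit false

namespace Pool.Agent.H16.AutF
open Subgroup Cardinal
open FreeGroup (of)

variable {I : Type}

theorem cls_one [LinearOrder I] (idx : I → ℕ) (i : ℕ) : Cls idx i 1 :=
  ⟨fun _ _ => rfl, fun _ => subset_closure ⟨_, Or.inl (hard_one _), rfl⟩⟩

theorem normal_top [LinearOrder I] [WellFoundedLT I] [Nonempty I] (idx : I → ℕ)
    (h1 : ∀ α : I, #(Set.Iio α) < #(I × Φ)) (h2 : #(I × Φ) ≤ #{α | idx α = 0})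
    (N : Subgroup (MulAut (FreeGroup (I × Φ)))) [hN : N.Normal] (h : pi (of 0) ∈ N) : N = ⊤ := by
  have key : ∀ τ, Big τ → τ ∈ N := fun τ hτ => by
    obtain ⟨e, he⟩ := place idx 0 h1 h2 τ hτ
    obtain ⟨T, hT⟩ := conjAll idx (fun i => if i = 0 then (pm e)⁻¹ * τ * pm e else 1) fun i => by
      split_ifs with k
      · rw [k]; exact he
      · exact cls_one _ _
    have a1 := hN.conj_mem _ h T
    rw [hT 0, if_pos rfl, N.mul_mem_cancel_left h] at a1
    have a2 := hN.conj_mem _ a1 (pm e)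
    simpa [mul_assoc] using a2
  rw [eq_top_iff]
  intro σ _
  obtain ⟨τ, τ', a, b, rfl⟩ := two σ
  exact mul_mem (key _ a) (inv_mem (key _ b))

def th : Φ →* Φ := FreeGroup.lift fun j => (of j)⁻¹
theorem th_of (j : ℕ) : th (of j) = (of j)⁻¹ := FreeGroup.lift_apply_of
theorem th_th (a : Φ) : th (th a) = a := by
  have : th.comp th = MonoidHom.id _ := FreeGroup.ext_hom _ _ fun j => by simp [th_of]
  exact DFunLike.congr_fun this a

abbrev J (X : Type) := X × ℕ × Bool

def sI (X : Type) : Equiv.Perm (J X × Φ) := Function.Involutive.toPerm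
  (fun x => (x.1, if x.1.2.2 then th x.2 else of 0 * th x.2)) (by
    rintro ⟨⟨a, b, _ | _⟩, ψ⟩ <;> simp [th_th, th_of])
def c1 (X : Type) : Equiv.Perm (J X × Φ) := Function.Involutive.toPerm
  (fun x => ((x.1.1, x.1.2.1, !x.1.2.2), x.2)) (by rintro ⟨⟨a, b, _ | _⟩, ψ⟩ <;> rfl)
def c2 (X : Type) : Equiv.Perm (J X × Φ) := Function.Involutive.toPerm
  (fun x => (x.1, if x.1.2.2 then x.2 else th x.2)) (by
    rintro ⟨⟨a, b, _ | _⟩, ψ⟩ <;> simp [th_th])

theorem sI_eq (X : Type) : c2 X * (c1 X * sI X * (c1 X)⁻¹ * sI X) * (c2 X)⁻¹ = sh (of 0) := by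
  have a1 : (c1 X)⁻¹ = c1 X := rfl
  have a2 : (c2 X)⁻¹ = c2 X := rfl
  rw [a1, a2]
  ext1 x
  obtain ⟨⟨a, b, _ | _⟩, ψ⟩ := x <;> simp [c1, c2, sI, sh, th_th, th_of]

theorem setup (X : Type) [Infinite X] : #(J X × Φ) = #X ∧ #(J X) = #X ∧
    ∀ i, #(J X × Φ) ≤ #{α : J X | α.2.1 = i} := by
  have a1 : #(J X) = #X := by simp [mul_aleph0_eq (aleph0_le_mk X)]
  have a2 : #(J X × Φ) = #X := by
    rw [mk_prod, lift_id, lift_id, a1, mk_freeGroup]
    simp [mul_aleph0_eq (aleph0_le_mk X)]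
  refine ⟨a2, a1, fun i => ?_⟩
  rw [a2]
  exact mk_le_of_injective (f := fun x => (⟨(x, i, true), rfl⟩ : {α : J X | α.2.1 = i}))
    fun a b e => congrArg (fun z => z.1.1) e

theorem invol (X : Type) [Infinite X] : ∃ σ : MulAut (FreeGroup X), σ ≠ 1 ∧ σ * σ = 1 ∧
    normalClosure ({σ} : Set (MulAut (FreeGroup X))) = ⊤ := by
  obtain ⟨a1, a2, a3⟩ := setup X
  obtain ⟨_, _, ho⟩ := exists_ord_eq_type_lt (J X)
  obtain ⟨e⟩ := Cardinal.eq.1 a1
  let E := MulAut.congr (FreeGroup.freeGroupCongr e)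
  have hs : pm (sI X) ∈ normalClosure {pm (sI X)} := subset_normalClosure rfl
  have hn : (normalClosure {pm (sI X)}).Normal := inferInstance
  have h1 : normalClosure {pm (sI X)} = ⊤ := normal_top (fun α : J X => α.2.1)
    (fun α => (mk_Iio_lt α ho).trans_le (a2.trans a1.symm).le) (a3 0) _ (by
      have := hn.conj_mem _ (mul_mem (hn.conj_mem _ hs (pm (c1 X))) hs) (pm (c2 X))
      simp only [← map_inv, ← map_mul] at this
      rwa [sI_eq] at this)
  refine ⟨E (pm (sI X)), fun h => ?_, ?_, ?_⟩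
  · rw [map_eq_one_iff _ E.injective] at h
    obtain ⟨x⟩ : Nonempty X := inferInstance
    have h2 := pm_of (sI X) ((x, 0, false), 1)
    rw [h] at h2
    have h3 := congrArg Prod.snd (FreeGroup.of_injective h2)
    simp [sI] at h3
  · rw [← map_mul, ← map_mul, show sI X * sI X = 1 from
      Equiv.ext fun x => (sI X).symm_apply_apply x, map_one, map_one]
  · have := map_normalClosure ({pm (sI X)}) E.toMonoidHom E.surjective
    rw [h1, Set.image_singleton, map_top_of_surjective _ E.surjective] at this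
    exact this.symm

theorem permBd {L : Type} [Infinite L] (M : Set L) (h1 : #L ≤ #M) (h2 : #L ≤ #(Mᶜ : Set L))
    (B : ℕ → Equiv.Perm L → Prop) (hm : ∀ m n a b, B m a → B n b → B (m + n) (a * b))
    (hi : ∀ n a, B n a → B n a⁻¹) (hle : ∀ m n a, m ≤ n → B m a → B n a) (hx : ∀ a, ∃ n, B n a)
    (n : ℕ) (hM : ∀ c : Equiv.Perm L, (∀ x, x ∉ M → c x = x) → B n c) : ∃ k, ∀ c, B k c := by
  classical
  have hκ := aleph0_le_mk L
  obtain ⟨M1, M2, a1, a2, a3, a4, a5⟩ := halve hκ M h1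
  obtain ⟨g⟩ : Nonempty (L ↪ M1) := (Cardinal.le_def _ _).1 a4
  obtain ⟨s, hs⟩ := ext1 Mᶜ (fun x => (g x).1) (fun x _ y _ e => g.injective (Subtype.ext e))
    (by rwa [compl_compl]) (a5.trans (mk_le_mk_of_subset (by
      rintro z hz ⟨x, -, rfl⟩
      exact Set.disjoint_left.1 a3 (g x).2 hz)))
  have hs1 : ∀ x, x ∉ M → s x ∈ M1 := fun x hx => by rw [hs hx]; exact (g x).2
  obtain ⟨m, hsm⟩ := hx s
  have case1 : ∀ c : Equiv.Perm L, #L ≤ #({x | c x = x} ∩ M : Set L) →
      B (n + m + n + (n + m)) c := fun c hc => by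
    obtain ⟨W1, W2, b1, b2, b3, b4, b5⟩ := halve hκ _ hc
    obtain ⟨w⟩ : Nonempty (L ↪ W1) := (Cardinal.le_def _ _).1 b4
    obtain ⟨p, hp⟩ := ext1 (Mᶜ ∪ M1) (fun x => if x ∈ M then (w x).1 else x) (fun x _ y _ e => by
        simp only at e
        split_ifs at e with k1 k2 k2
        · exact w.injective (Subtype.ext e)
        · exact absurd (e ▸ (b1 (w x).2).2) k2
        · exact absurd (e ▸ (b1 (w y).2).2) k1
        · exact e)
      (a5.trans (mk_le_mk_of_subset (by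
        rintro z hz (k | k)
        · exact k (a2 hz)
        · exact Set.disjoint_left.1 a3 k hz)))
      (b5.trans (mk_le_mk_of_subset (by
        rintro z hz ⟨x, -, e⟩
        simp only at e
        split_ifs at e with k
        · exact Set.disjoint_left.1 b3 (e ▸ (w x).2) hz
        · exact k (e ▸ (b2 hz).2))))
    have hpB : B (n + m) (p * s) := hm _ _ _ _ (hM p fun x hx => (hp (Or.inl hx)).trans (if_neg hx)) hsm
    have hq : B n ((p * s)⁻¹ * c * (p * s)) := hM _ fun x hx => by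
      have k1 : p (s x) = (w (s x)).1 := (hp (Or.inr (hs1 x hx))).trans (if_pos (a1 (hs1 x hx)))
      have k2 : c (p (s x)) = p (s x) := by rw [k1]; exact (b1 (w _).2).1
      rw [Equiv.Perm.mul_apply, Equiv.Perm.mul_apply, Equiv.Perm.inv_eq_iff_eq]
      exact k2
    have := hm _ _ _ _ (hm _ _ _ _ hpB hq) (hi _ _ hpB)
    simpa [mul_assoc] using this
  have case2 : ∀ c : Equiv.Perm L, #L ≤ #{x | c x = x} →
      B (m + (n + m + n + (n + m)) + m) c := fun c hc => by
    by_cases k : #L ≤ #({x | c x = x} ∩ M : Set L)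
    · exact hle _ _ _ (by omega) (case1 c k)
    have k2 : #L ≤ #({x | c x = x} \ M : Set L) := by
      by_contra k2
      have := add_lt_of_lt hκ (not_le.1 k2) (not_le.1 k)
      refine absurd (hc.trans ?_) (not_le.2 this)
      conv_lhs => rw [← Set.diff_union_inter {x | c x = x} M]
      exact mk_union_le _ _
    have k3 := case1 (s * c * s⁻¹) (k2.trans (by
      rw [← mk_image_eq s.injective]
      refine mk_le_mk_of_subset ?_
      rintro _ ⟨x, hx, rfl⟩
      refine ⟨?_, a1 (hs1 x hx.2)⟩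
      have : c x = x := hx.1
      simp [this]))
    have := hm _ _ _ _ (hm _ _ _ _ (hi _ _ hsm) k3) hsm
    simpa [mul_assoc] using this
  refine ⟨m + (n + m + n + (n + m)) + m + (m + (n + m + n + (n + m)) + m), fun c => ?_⟩
  · obtain ⟨β, W, Z, -, -, b1, b2, b3, b4⟩ := glue (X := L) le_rfl Set.univ Set.univ id c
      Function.injective_id.injOn c.injective.injOn (by simp) (by simp)
    have k1 := case2 β (b1.trans (mk_le_mk_of_subset fun x hx => b3 hx))
    have k2 := case2 (c⁻¹ * β) (b2.trans (mk_le_mk_of_subset fun x hx => by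
      show c⁻¹ (β x) = x
      rw [b4 hx]; simp))
    have := hm _ _ _ _ k1 (hi _ _ k2)
    simpa using this

theorem bergL [LinearOrder I] [WellFoundedLT I] [Nonempty I] (idx : I → ℕ)
    (h1 : ∀ α : I, #(Set.Iio α) < #(I × Φ)) (h2 : ∀ i, #(I × Φ) ≤ #{α | idx α = i})
    (B : ℕ → MulAut (FreeGroup (I × Φ)) → Prop)
    (hm : ∀ m n a b, B m a → B n b → B (m + n) (a * b))
    (hi : ∀ n a, B n a → B n a⁻¹) (hle : ∀ m n a, m ≤ n → B m a → B n a) (hx : ∀ a, ∃ n, B n a) :
    ∃ k, ∀ c, B k c := by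
  obtain ⟨i, n, hn⟩ : ∃ i n, ∀ τ, Cls idx i τ → B n τ := by
    by_contra hc
    push Not at hc
    choose m hm' using fun i => hx (pi (of i))
    choose τ t1 t2 using fun i => hc i (m i + (i + m i + i))
    obtain ⟨T, hT⟩ := conjAll idx τ t1
    obtain ⟨N, hN⟩ := hx T
    have := hm _ _ _ _ (hi _ _ (hm' N)) (hm _ _ _ _ (hm _ _ _ _ hN (hm' N)) (hi _ _ hN))
    rw [hT, inv_mul_cancel_left] at this
    exact t2 N this
  obtain ⟨k, hk⟩ := permBd {x : I × Φ | idx x.1 = i ∧ x.2 = 1}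
    ((h2 i).trans (mk_le_of_injective (f := fun α => (⟨(α.1, 1), α.2, rfl⟩ :
      {x : I × Φ | idx x.1 = i ∧ x.2 = 1})) fun a b e => Subtype.ext (congrArg (fun z => z.1.1) e)))
    (easyBig idx i (h2 i) _ fun x hx => Or.inl hx.2) (fun n c => B n (pm c))
    (fun _ _ _ _ a b => by rw [map_mul]; exact hm _ _ _ _ a b)
    (fun _ _ a => by rw [map_inv]; exact hi _ _ a) (fun _ _ _ => hle _ _ _) (fun _ => hx _) n
    fun c hc => hn _ ⟨fun x hx => by rw [pm_of, hc x hx], fun α => by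
      rw [← map_inv, pm_of]
      refine subset_closure ⟨_, Or.inl ?_, rfl⟩
      have : (c⁻¹ (α, 1)).2 = 1 := by
        by_contra e
        have k := hc (c⁻¹ (α, 1)) fun k => e k.2
        rw [show c (c⁻¹ (α, 1)) = (α, 1) from c.apply_symm_apply _] at k
        exact e (by rw [← k])
      rw [this]; exact hard_one _⟩
  have key : ∀ τ, Big τ → B (k + n + k) τ := fun τ hτ => by
    obtain ⟨e, he⟩ := place idx i h1 (h2 i) τ hτ
    have := hm _ _ _ _ (hm _ _ _ _ (hk e) (hn _ he)) (hi _ _ (hk e))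
    simpa [mul_assoc] using this
  refine ⟨k + n + k + (k + n + k), fun σ => ?_⟩
  · obtain ⟨τ, τ', a, b, rfl⟩ := two σ
    exact hm _ _ _ _ (key _ a) (hi _ _ (key _ b))

theorem berg (X : Type) [Infinite X] (B : ℕ → MulAut (FreeGroup X) → Prop)
    (hm : ∀ m n a b, B m a → B n b → B (m + n) (a * b))
    (hi : ∀ n a, B n a → B n a⁻¹) (hle : ∀ m n a, m ≤ n → B m a → B n a) (hx : ∀ a, ∃ n, B n a) :
    ∃ k, ∀ c, B k c := by
  obtain ⟨a1, a2, a3⟩ := setup X
  obtain ⟨_, _, ho⟩ := exists_ord_eq_type_lt (J X)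
  obtain ⟨e⟩ := Cardinal.eq.1 a1
  let E := MulAut.congr (FreeGroup.freeGroupCongr e)
  obtain ⟨k, hk⟩ := bergL (fun α : J X => α.2.1)
    (fun α => (mk_Iio_lt α ho).trans_le (a2.trans a1.symm).le) a3 (fun n c => B n (E c))
    (fun _ _ _ _ a b => by rw [map_mul]; exact hm _ _ _ _ a b)
    (fun _ _ a => by rw [map_inv]; exact hi _ _ a) (fun _ _ _ => hle _ _ _) (fun _ => hx _)
  exact ⟨k, fun c => by simpa using hk (E.symm c)⟩

end Pool.Agent.H16.AutF
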