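import Mathlib

set_option autoImplicit false

namespace Pool.Agent.H16.Color

/-- The quartic cyclotomic class of `x - y` modulo 41 (index to base 6, modulo 4). -/
def col (x y : ℕ) : ℕ := (842836299184567883585760 >>> (2 * ((x + 41 - y) % 41))) % 4

/-- The colouring of the field with 41 elements, restricted to the 40 points `0, ..., 39`. -/
def c (x y : Fin 40) : Fin (5 - 1) := ⟨col x.1 y.1, Nat.mod_lt _ (by norm_num)⟩

def mask (x y : ℕ) : ℕ → ℕ
  | 0 => 0
  | z + 1 => if z = x ∨ z = y then mask x y z else mask x y z ||| 2 ^ (4 * col x z + col z y)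

lemma mask_iff (x y t n : ℕ) : (mask x y n).testBit t = true ↔
    ∃ z < n, z ≠ x ∧ z ≠ y ∧ 4 * col x z + col z y = t := by
  induction n with
  | zero => simp [mask]
  | succ n ih =>
    rw [mask]
    split_ifs with h
    · rw [ih]
      refine ⟨fun ⟨z, a, b⟩ => ⟨z, by omega, b⟩, fun ⟨z, a, b⟩ => ⟨z, by omega, b⟩⟩
    · rw [Nat.testBit_or, Bool.or_eq_true, ih, Nat.testBit_two_pow, decide_eq_true_eq]
      refine ⟨?_, fun ⟨z, a, b⟩ => ?_⟩
      · rintro (⟨z, a, b⟩ | a)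
        · exact ⟨z, by omega, b⟩
        · exact ⟨n, by omega, by omega, by omega, a⟩
      · by_cases e : z = n
        · exact Or.inr (e ▸ b.2.2)
        · exact Or.inl ⟨z, by omega, b⟩

lemma chk : ∀ x < 40, ∀ y < 40, col x y = col y x ∧
    (x ≠ y → mask x y 40 = 65535 - 2 ^ (5 * col x y)) := by decide +kernel

lemma bits : ∀ i < 4, ∀ t < 16, (65535 - 2 ^ (5 * i)).testBit t = true ↔ t ≠ 5 * i := by
  decide +kernel

lemma col_lt (x y : ℕ) : col x y < 4 := Nat.mod_lt _ (by norm_num)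

lemma symm (x y : Fin 40) : c x y = c y x := Fin.ext (chk x x.2 y y.2).1

lemma used : ∀ i : Fin (5 - 1), ∃ x y, x ≠ y ∧ c x y = i := by
  intro i
  fin_cases i
  exacts [⟨1, 0, by decide, by decide⟩, ⟨6, 0, by decide, by decide⟩, ⟨2, 0, by decide, by decide⟩,
    ⟨3, 0, by decide, by decide⟩]

lemma key (x y : Fin 40) (h : x ≠ y) (t : ℕ) (ht : t < 16) :
    (∃ z < 40, z ≠ x.1 ∧ z ≠ y.1 ∧ 4 * col x z + col z y = t) ↔ t ≠ 5 * col x y := by
  rw [← mask_iff, (chk x x.2 y y.2).2 (Fin.val_ne_of_ne h), bits _ (col_lt _ _) t ht]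

lemma tri (x y z : Fin 40) (h1 : x ≠ y) (h2 : y ≠ z) (h3 : x ≠ z) :
    ¬ (c x y = c y z ∧ c y z = c x z) := by
  rintro ⟨a, b⟩
  have a' : col x y = col y z := congrArg Fin.val a
  have b' : col y z = col x z := congrArg Fin.val b
  have := col_lt x z
  exact (key x z h3 (5 * col x z) (by omega)).1
    ⟨y, y.2, Fin.val_ne_of_ne h1.symm, Fin.val_ne_of_ne h2, by omega⟩ rfl

lemma wit (x y : Fin 40) (h : x ≠ y) (j k : Fin (5 - 1)) (hjk : ¬ (j = c x y ∧ k = c x y)) :
    ∃ z, z ≠ x ∧ z ≠ y ∧ c x z = j ∧ c z y = k := by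
  have hj : j.1 < 4 := j.2
  have hk : k.1 < 4 := k.2
  have := col_lt x y
  obtain ⟨z, a, b, d, e⟩ := (key x y h (4 * j.1 + k.1) (by omega)).2 fun e =>
    hjk ⟨Fin.ext (show j.1 = col x y by omega), Fin.ext (show k.1 = col x y by omega)⟩
  have := col_lt x z
  have := col_lt z y
  exact ⟨⟨z, a⟩, fun h => b (congrArg Fin.val h), fun h => d (congrArg Fin.val h),
    Fin.ext (show col x z = j.1 by omega), Fin.ext (show col z y = k.1 by omega)⟩

lemma npp : ¬ IsPrimePow 40 := by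
  rintro ⟨p, k, hp, -, h⟩
  have hp' := hp.nat_prime
  have h2 : 2 = p := (Nat.prime_dvd_prime_iff_eq Nat.prime_two hp').1
    (Nat.prime_two.dvd_of_dvd_pow (n := k) (by rw [h]; norm_num))
  have h5 : 5 = p := (Nat.prime_dvd_prime_iff_eq Nat.prime_five hp').1
    (Nat.prime_five.dvd_of_dvd_pow (n := k) (by rw [h]; norm_num))
  omega

end Pool.Agent.H16.Color
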