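import Mathlib
set_option autoImplicit false
namespace Pool.Agent.H16.Coset
open Module

abbrev k := ZMod 2

theorem z2 : ∀ c : k, c = 0 ∨ c = 1 := by decide

section E
variable {P ι : Type} [AddCommGroup P] [Module k P] [AddCommMonoid ι] [Module k ι]

def Gd (f f' : ι →ₗ[k] Dual k P) (R : Submodule k (P × P)) : Prop :=
  (R : Set (P × P)).Finite ∧ (∀ r ∈ R, r.1 = 0 ↔ r.2 = 0) ∧ ∀ r ∈ R, ∀ i, f i r.1 = f' i r.2

theorem solve [Finite ι] (f f' : ι →ₗ[k] Dual k P) (hf : ∀ i, f' i = 0 → f i = 0) (x : P) :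
    ∃ y, ∀ i, f' i y = f i x := by
  classical
  letI := Fintype.ofFinite ι
  let Ψ : P →ₗ[k] (ι → k) := LinearMap.pi fun i => f' i
  by_contra h
  have hw : (fun i => f i x) ∉ LinearMap.range Ψ := by
    rintro ⟨y, hy⟩
    exact h ⟨y, fun i => congrFun hy i⟩
  obtain ⟨F, h1, h2⟩ := Submodule.exists_le_ker_of_notMem hw
  have e : ∀ (g : ι →ₗ[k] Dual k P) (y : P),
      F (fun i => g i y) = g (∑ i, F (Pi.single i 1) • i) y := by
    intro g y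
    rw [LinearMap.pi_apply_eq_sum_univ]
    simp only [map_sum, map_smul, LinearMap.sum_apply, LinearMap.smul_apply, smul_eq_mul]
    refine Finset.sum_congr rfl fun i _ => ?_
    rw [mul_comm]; congr 2; funext j; simp [Pi.single_apply, eq_comm]
  apply h1
  rw [e, hf]; · rfl
  ext y
  rw [← e]
  exact h2 ⟨y, rfl⟩

theorem ext1 [Infinite P] [Finite ι] {f f' : ι →ₗ[k] Dual k P} (hf : ∀ i, f' i = 0 → f i = 0)
    {R : Submodule k (P × P)} (hR : Gd f f' R) (x : P) :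
    ∃ R', R ≤ R' ∧ Gd f f' R' ∧ ∃ y, (x, y) ∈ R' := by
  by_cases hx : ∃ y, (x, y) ∈ R
  · exact ⟨R, le_rfl, hR, hx⟩
  obtain ⟨y0, hy0⟩ := solve f f' hf x
  obtain ⟨w, hw⟩ := Finite.exists_infinite_fiber (fun (y : P) (i : ι) => f' i y)
  have hi := Set.infinite_coe_iff.1 hw
  obtain ⟨z0, hz0⟩ := hi.nonempty
  obtain ⟨y, ⟨z, hz, rfl⟩, hy⟩ := (hi.image (f := fun z => y0 + (z - z0))
    (fun a _ b _ h => by simpa using h)).exists_notMem_finite (hR.1.image Prod.snd)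
  set y := y0 + (z - z0) with hyd
  have hy1 : ∀ i, f' i y = f i x := by
    intro i
    have h1 := congrFun (show _ = w from hz) i
    have h2 := congrFun (show _ = w from hz0) i
    simp only at h1 h2
    simp [hyd, hy0, h1, h2]
  have hm : ∀ r ∈ R ⊔ k ∙ (x, y), r ∈ R ∨ r - (x, y) ∈ R := by
    intro r hr
    obtain ⟨s, hs, t, ht, rfl⟩ := Submodule.mem_sup.1 hr
    obtain ⟨c, rfl⟩ := Submodule.mem_span_singleton.1 ht
    rcases z2 c with rfl | rfl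
    · left; simpa using hs
    · right; simpa using hs
  refine ⟨R ⊔ k ∙ (x, y), le_sup_left, ⟨?_, fun r hr => ?_, fun r hr i => ?_⟩, y,
    Submodule.mem_sup_right (Submodule.mem_span_singleton_self _)⟩
  · refine (hR.1.union (hR.1.image (· + (x, y)))).subset fun r hr => ?_
    rcases hm r hr with h | h
    · exact Or.inl h
    · exact Or.inr ⟨_, h, by simp⟩
  · rcases hm r hr with h | h
    · exact hR.2.1 r h
    · refine iff_of_false (fun h0 => hx ⟨-(r.2 - y), ?_⟩) fun h0 => hy ⟨_, R.neg_mem h, ?_⟩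
      · convert R.neg_mem h using 1
        ext <;> simp [h0]
      · show -(r.2 - y) = y
        rw [h0]; simp
  · rcases hm r hr with h | h
    · exact hR.2.2 r h i
    · have := hR.2.2 _ h i
      simpa [hy1] using this

def sw (R : Submodule k (P × P)) : Submodule k (P × P) :=
  R.comap (LinearEquiv.prodComm k P P).toLinearMap

theorem Gd.sw {f f' : ι →ₗ[k] Dual k P} {R : Submodule k (P × P)} (h : Gd f f' R) :
    Gd f' f (sw R) :=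
  ⟨Set.Finite.preimage (f := Prod.swap) Prod.swap_injective.injOn h.1, fun _ hr => (h.2.1 _ hr).symm,
    fun _ hr i => (h.2.2 _ hr i).symm⟩

theorem ext2 [Infinite P] [Finite ι] {f f' : ι →ₗ[k] Dual k P} (hf : ∀ i, f i = 0 ↔ f' i = 0)
    {R : Submodule k (P × P)} (hR : Gd f f' R) (x : P) :
    ∃ R', R ≤ R' ∧ Gd f f' R' ∧ (∃ y, (x, y) ∈ R') ∧ ∃ y, (y, x) ∈ R' := by
  obtain ⟨R1, h1, h2, y, h3⟩ := ext1 (fun i => (hf i).2) hR x
  obtain ⟨R2, h4, h5, z, h6⟩ := ext1 (fun i => (hf i).1) h2.sw x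
  exact ⟨sw R2, fun r hr => h4 (h1 hr), h5.sw, ⟨y, h4 h3⟩, z, h6⟩
end E

section H
variable {Φ : Type} [AddCommGroup Φ] [Module k Φ] {M N : Submodule k (Dual k Φ)}

def Bj {P : Type} [AddCommMonoid P] [Module k P] (R : Submodule k (P × P)) : Prop :=
  (R : Set (P × P)).Finite ∧ ∀ r ∈ R, r.1 = 0 ↔ r.2 = 0

def Cp (R : Submodule k (Φ × Φ)) (S : Submodule k (M × M)) : Prop :=
  ∀ r ∈ R, ∀ s ∈ S, s.1.1 r.1 = s.2.1 r.2

abbrev St (M N : Submodule k (Dual k Φ)) :=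
  Submodule k (Φ × Φ) × Submodule k (M × M) × Submodule k (N × N)

def Good (a b : Dual k Φ) (S : St M N) : Prop :=
  Bj S.1 ∧ Bj S.2.1 ∧ Bj S.2.2 ∧ (∀ r ∈ S.1, a r.1 = b r.2) ∧ Cp S.1 S.2.1 ∧ Cp S.1 S.2.2

theorem stepM [Infinite M] (hM : ∀ φ, (∀ m ∈ M, m φ = 0) → φ = 0) {R : Submodule k (Φ × Φ)}
    {S : Submodule k (M × M)} (hR : Bj R) (hS : Bj S) (hc : Cp R S) (x : M) :
    ∃ S', S ≤ S' ∧ Bj S' ∧ Cp R S' ∧ (∃ y, (x, y) ∈ S') ∧ ∃ y, (y, x) ∈ S' := by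
  haveI : Finite R := hR.1.to_subtype
  let e : Φ →ₗ[k] Dual k M := M.subtype.dualMap ∘ₗ Dual.eval k Φ
  have he : ∀ φ, e φ = 0 ↔ φ = 0 := fun φ =>
    ⟨fun h => hM φ fun m hm => LinearMap.congr_fun h ⟨m, hm⟩, fun h => by rw [h, map_zero]⟩
  obtain ⟨S', h1, h2, h3⟩ := ext2 (P := M) (R := S) (f := e ∘ₗ LinearMap.fst k Φ Φ ∘ₗ R.subtype)
    (f' := e ∘ₗ LinearMap.snd k Φ Φ ∘ₗ R.subtype)
    (fun i => (he _).trans ((hR.2 i.1 i.2).trans (he _).symm))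
    ⟨hS.1, hS.2, fun s hs i => hc i.1 i.2 s hs⟩ x
  exact ⟨S', h1, ⟨h2.1, h2.2.1⟩, fun r hr s hs => h2.2.2 s hs ⟨r, hr⟩, h3⟩

theorem indep (hd : Disjoint M N) {b : Dual k Φ} (hb : b ∉ M ⊔ N) (m : M) (n : N) (c : k) :
    m.1 + n.1 + c • b = 0 ↔ m = 0 ∧ n = 0 ∧ c = 0 := by
  constructor
  · intro h
    rcases z2 c with rfl | rfl
    · have h1 : m.1 = -n.1 := by simpa [eq_neg_iff_add_eq_zero] using h
      have h2 : m.1 = 0 := Submodule.disjoint_def.1 hd _ m.2 (h1 ▸ N.neg_mem n.2)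
      refine ⟨Subtype.ext h2, Subtype.ext ?_, rfl⟩
      simpa [h2] using h1
    · refine absurd ?_ hb
      have : b = -(m.1 + n.1) := by rw [eq_neg_iff_add_eq_zero, add_comm]; simpa using h
      rw [this]
      exact neg_mem (Submodule.add_mem_sup m.2 n.2)
  · rintro ⟨rfl, rfl, rfl⟩; simp

theorem stepP [Infinite Φ] (hd : Disjoint M N) {a b : Dual k Φ} (ha : a ∉ M ⊔ N) (hb : b ∉ M ⊔ N)
    {S : St M N} (hS : Good a b S) (x : Φ) :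
    ∃ R', S.1 ≤ R' ∧ Good a b (R', S.2) ∧ (∃ y, (x, y) ∈ R') ∧ ∃ y, (y, x) ∈ R' := by
  obtain ⟨h1, h2, h3, h4, h5, h6⟩ := hS
  haveI : Finite S.2.1 := h2.1.to_subtype
  haveI : Finite S.2.2 := h3.1.to_subtype
  let f : (S.2.1 × S.2.2 × k) →ₗ[k] Dual k Φ :=
    (M.subtype ∘ₗ LinearMap.fst k M M ∘ₗ S.2.1.subtype).coprod
      ((N.subtype ∘ₗ LinearMap.fst k N N ∘ₗ S.2.2.subtype).coprod (LinearMap.toSpanSingleton k _ a))
  let f' : (S.2.1 × S.2.2 × k) →ₗ[k] Dual k Φ :=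
    (M.subtype ∘ₗ LinearMap.snd k M M ∘ₗ S.2.1.subtype).coprod
      ((N.subtype ∘ₗ LinearMap.snd k N N ∘ₗ S.2.2.subtype).coprod (LinearMap.toSpanSingleton k _ b))
  have e : ∀ i, f i = i.1.1.1.1 + i.2.1.1.1.1 + i.2.2 • a := fun i => by simp [f, add_assoc]
  have e' : ∀ i, f' i = i.1.1.2.1 + i.2.1.1.2.1 + i.2.2 • b := fun i => by simp [f', add_assoc]
  obtain ⟨R', g1, g2, g3⟩ := ext2 (ι := S.2.1 × S.2.2 × k) (f := f) (f' := f') (fun i => by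
      rw [e, e', indep hd ha, indep hd hb, h2.2 _ i.1.2, h3.2 _ i.2.1.2])
    ⟨h1.1, h1.2, fun r hr i => by
      simp [e, e', h4 r hr, h5 r hr _ i.1.2, h6 r hr _ i.2.1.2]⟩ x
  refine ⟨R', g1, ⟨⟨g2.1, g2.2.1⟩, h2, h3, fun r hr => ?_, fun r hr s hs => ?_,
    fun r hr s hs => ?_⟩, g3⟩
  · simpa [e, e'] using g2.2.2 r hr (0, 0, 1)
  · simpa [e, e'] using g2.2.2 r hr (⟨s, hs⟩, 0, 0)
  · simpa [e, e'] using g2.2.2 r hr (0, ⟨s, hs⟩, 0)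

structure Hyp (M N : Submodule k (Dual k Φ)) : Prop where
  cP : Countable Φ
  cM : Countable M
  cN : Countable N
  iP : Infinite Φ
  iM : Infinite M
  iN : Infinite N
  dM : ∀ φ, (∀ m ∈ M, m φ = 0) → φ = 0
  dN : ∀ φ, (∀ m ∈ N, m φ = 0) → φ = 0
  dj : Disjoint M N

def Tot {P : Type} [AddCommMonoid P] [Module k P] (R : Submodule k (P × P)) (x : P) : Prop :=
  (∃ y, (x, y) ∈ R) ∧ ∃ y, (y, x) ∈ R

theorem homog (H : Hyp M N) {a b : Dual k Φ} (ha : a ∉ M ⊔ N) (hb : b ∉ M ⊔ N)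
    {S : St M N} (hS : Good a b S) : ∃ l : Φ ≃ₗ[k] Φ, (∀ r ∈ S.1, l r.1 = r.2) ∧
      (∀ φ, b (l φ) = a φ) ∧ (∀ s ∈ S.2.1, ∀ φ, s.2.1 (l φ) = s.1.1 φ) ∧
      (∀ s ∈ S.2.2, ∀ φ, s.2.1 (l φ) = s.1.1 φ) ∧
      (∀ x, x ∈ M ↔ l.symm.dualMap x ∈ M) ∧ ∀ x, x ∈ N ↔ l.symm.dualMap x ∈ N := by
  have := H.cP; have := H.cM; have := H.cN; have := H.iP; have := H.iM; have := H.iN
  have step : ∀ (T : {T : St M N // Good a b T}) (x : Φ × M × N), ∃ T' : {T : St M N // Good a b T},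
      T.1 ≤ T'.1 ∧ Tot T'.1.1 x.1 ∧ Tot T'.1.2.1 x.2.1 ∧ Tot T'.1.2.2 x.2.2 := by
    rintro ⟨T, hT⟩ x
    obtain ⟨R, h1, ⟨g1, g2, g3, g4, g5, g6⟩, h2⟩ := stepP H.dj ha hb hT x.1
    obtain ⟨S1, h3, h4, h5, h6⟩ := stepM H.dM g1 g2 g5 x.2.1
    obtain ⟨S2, h7, h8, h9, h10⟩ := stepM H.dN g1 g3 g6 x.2.2
    exact ⟨⟨(R, S1, S2), g1, h4, h8, g4, h5, h9⟩, ⟨h1, h3, h7⟩, h2, h6, h10⟩
  choose nx hnx using step
  obtain ⟨e, he⟩ := exists_surjective_nat (Φ × M × N)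
  let T : ℕ → {T : St M N // Good a b T} := fun n => Nat.rec ⟨S, hS⟩ (fun n T => nx T (e n)) n
  have hmono : Monotone fun n => (T n).1 := monotone_nat_of_le_succ fun n => (hnx (T n) (e n)).1
  let R : Submodule k (Φ × Φ) := ⨆ n, (T n).1.1
  have hR : ∀ r, r ∈ R ↔ ∃ n, r ∈ (T n).1.1 := fun r =>
    Submodule.mem_iSup_of_directed _ (Monotone.directed_le fun _ _ h => (hmono h).1)
  have hb0 : ∀ r ∈ R, r.1 = 0 ↔ r.2 = 0 := fun r hr => by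
    obtain ⟨n, hn⟩ := (hR r).1 hr
    exact (T n).2.1.2 r hn
  have tP : ∀ x, Tot R x := fun x => by
    obtain ⟨n, hn⟩ := he (x, 0, 0)
    obtain ⟨⟨y, hy⟩, z, hz⟩ := (hnx (T n) (e n)).2.1
    rw [hn] at hy hz
    exact ⟨⟨y, (hR _).2 ⟨n + 1, by simpa [T, hn] using hy⟩⟩, z,
      (hR _).2 ⟨n + 1, by simpa [T, hn] using hz⟩⟩
  let p1 := LinearEquiv.ofBijective (LinearMap.fst k Φ Φ ∘ₗ R.subtype)
    ⟨(injective_iff_map_eq_zero _).2 fun r h => Subtype.ext (Prod.ext h ((hb0 _ r.2).1 h)),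
      fun x => let ⟨y, hy⟩ := (tP x).1; ⟨⟨_, hy⟩, rfl⟩⟩
  let p2 := LinearEquiv.ofBijective (LinearMap.snd k Φ Φ ∘ₗ R.subtype)
    ⟨(injective_iff_map_eq_zero _).2 fun r h => Subtype.ext (Prod.ext ((hb0 _ r.2).2 h) h),
      fun x => let ⟨y, hy⟩ := (tP x).2; ⟨⟨_, hy⟩, rfl⟩⟩
  let l := p1.symm.trans p2
  have hl : ∀ r ∈ R, l r.1 = r.2 := fun r hr =>
    congrArg p2 (p1.symm_apply_apply ⟨r, hr⟩)
  have hl2 : ∀ φ, ∃ n, (φ, l φ) ∈ (T n).1.1 := fun φ => by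
    obtain ⟨y, hy⟩ := (tP φ).1
    rw [hl _ hy]; exact (hR _).1 hy
  have kM : ∀ n, ∀ s ∈ (T n).1.2.1, ∀ φ, s.2.1 (l φ) = s.1.1 φ := fun n s hs φ => by
    obtain ⟨m, hm⟩ := hl2 φ
    exact ((T (max m n)).2.2.2.2.2.1 _ ((hmono (le_max_left m n)).1 hm) s
      ((hmono (le_max_right m n)).2.1 hs)).symm
  have kN : ∀ n, ∀ s ∈ (T n).1.2.2, ∀ φ, s.2.1 (l φ) = s.1.1 φ := fun n s hs φ => by
    obtain ⟨m, hm⟩ := hl2 φ
    exact ((T (max m n)).2.2.2.2.2.2 _ ((hmono (le_max_left m n)).1 hm) s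
      ((hmono (le_max_right m n)).2.2 hs)).symm
  have fin : ∀ (L : Submodule k (Dual k Φ)) (W : ℕ → Submodule k (L × L)),
      (∀ n, ∀ s ∈ W n, ∀ φ, s.2.1 (l φ) = s.1.1 φ) → (∀ x, ∃ n, Tot (W n) x) →
      ∀ x, x ∈ L ↔ l.symm.dualMap x ∈ L := by
    intro L W h1 h2 x
    constructor
    · intro hx
      obtain ⟨n, ⟨y, hy⟩, -⟩ := h2 ⟨x, hx⟩
      convert y.2 using 1
      ext φ
      simpa using (h1 n _ hy (l.symm φ)).symm
    · intro hx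
      obtain ⟨n, -, y, hy⟩ := h2 ⟨_, hx⟩
      convert y.2 using 1
      ext φ
      simpa using h1 n _ hy φ
  refine ⟨l, fun r hr => hl r ((hR r).2 ⟨0, hr⟩), fun φ => ?_, kM 0, kN 0,
    fin M _ kM fun x => ?_, fin N _ kN fun x => ?_⟩
  · obtain ⟨n, hn⟩ := hl2 φ
    exact ((T n).2.2.2.2.1 _ hn).symm
  · obtain ⟨n, hn⟩ := he (0, x, 0)
    have := (hnx (T n) (e n)).2.2.1
    exact ⟨n + 1, by simpa [T, hn] using this⟩
  · obtain ⟨n, hn⟩ := he (0, 0, x)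
    have := (hnx (T n) (e n)).2.2.2
    exact ⟨n + 1, by simpa [T, hn] using this⟩
end H

end Pool.Agent.H16.Coset
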