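import Pool.Agent.H16.Coset1
set_option autoImplicit false
namespace Pool.Agent.H16.Coset
open Module Topology

section G
variable {Φ : Type} [AddCommGroup Φ] [Module k Φ] (M N : Submodule k (Dual k Φ))

def GG : Subgroup (Equiv.Perm (Dual k Φ) × Equiv.Perm Φ) where
  carrier := {p | (∀ x y φ, (p.1 x - p.1 y) (p.2 φ) = (x - y) φ) ∧
    (∀ x y, x - y ∈ M ↔ p.1 x - p.1 y ∈ M) ∧ (∀ x y, x - y ∈ N ↔ p.1 x - p.1 y ∈ N) ∧
    ∀ x, x ∈ M ⊔ N ↔ p.1 x ∈ M ⊔ N}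
  mul_mem' := fun {p q} hp hq => ⟨fun x y φ => (hp.1 _ _ _).trans (hq.1 _ _ _),
    fun x y => (hq.2.1 _ _).trans (hp.2.1 _ _), fun x y => (hq.2.2.1 _ _).trans (hp.2.2.1 _ _),
    fun x => (hq.2.2.2 _).trans (hp.2.2.2 _)⟩
  one_mem' := ⟨fun _ _ _ => rfl, fun _ _ => Iff.rfl, fun _ _ => Iff.rfl, fun _ => Iff.rfl⟩
  inv_mem' := fun {p} hp => ⟨fun x y φ => by simpa using (hp.1 (p.1⁻¹ x) (p.1⁻¹ y) (p.2⁻¹ φ)).symm,
    fun x y => by simpa using (hp.2.1 (p.1⁻¹ x) (p.1⁻¹ y)).symm,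
    fun x y => by simpa using (hp.2.2.1 (p.1⁻¹ x) (p.1⁻¹ y)).symm,
    fun x => by simpa using (hp.2.2.2 (p.1⁻¹ x)).symm⟩

def U (F : Set (Dual k Φ)) (P : Set Φ) : Set (GG M N) :=
  {g | (∀ x ∈ F, g.1.1 x = x) ∧ ∀ φ ∈ P, g.1.2 φ = φ}

def Bs : Set (Set (GG M N)) :=
  {W | ∃ (F : Set (Dual k Φ)) (P : Set Φ), F.Finite ∧ (∀ x ∈ F, x ∈ M ⊔ N) ∧ P.Finite ∧ W = U M N F P}

@[reducible] def fb : GroupFilterBasis (GG M N) where
  sets := Bs M N
  nonempty := ⟨_, ∅, ∅, Set.finite_empty, by simp, Set.finite_empty, rfl⟩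
  inter_sets := by
    rintro _ _ ⟨F, P, h1, h2, h3, rfl⟩ ⟨F', P', h4, h5, h6, rfl⟩
    exact ⟨_, ⟨F ∪ F', P ∪ P', h1.union h4, fun x h => h.elim (h2 x) (h5 x), h3.union h6, rfl⟩,
      fun g hg => ⟨⟨fun x h => hg.1 x (Or.inl h), fun x h => hg.2 x (Or.inl h)⟩,
        fun x h => hg.1 x (Or.inr h), fun x h => hg.2 x (Or.inr h)⟩⟩
  one' := by
    rintro _ ⟨F, P, -, -, -, rfl⟩
    exact ⟨fun _ _ => rfl, fun _ _ => rfl⟩
  mul' := by
    rintro _ ⟨F, P, h1, h2, h3, rfl⟩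
    refine ⟨_, ⟨F, P, h1, h2, h3, rfl⟩, ?_⟩
    rintro _ ⟨g, hg, h, hh, rfl⟩
    exact ⟨fun x hx => by simp [hh.1 x hx, hg.1 x hx], fun x hx => by simp [hh.2 x hx, hg.2 x hx]⟩
  inv' := by
    rintro _ ⟨F, P, h1, h2, h3, rfl⟩
    refine ⟨_, ⟨F, P, h1, h2, h3, rfl⟩, fun g hg => ⟨fun x hx => ?_, fun x hx => ?_⟩⟩
    · exact Equiv.Perm.inv_eq_iff_eq.2 (hg.1 x hx).symm
    · exact Equiv.Perm.inv_eq_iff_eq.2 (hg.2 x hx).symm
  conj' := by
    rintro g _ ⟨F, P, h1, h2, h3, rfl⟩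
    refine ⟨_, ⟨g.1.1 ⁻¹' F, g.1.2 ⁻¹' P, h1.preimage g.1.1.injective.injOn,
      fun x hx => (g.2.2.2.2 x).2 (h2 _ hx), h3.preimage g.1.2.injective.injOn, rfl⟩,
      fun u hu => ⟨fun x hx => ?_, fun x hx => ?_⟩⟩
    · have := hu.1 (g.1.1⁻¹ x) (by simpa using hx)
      show g.1.1 (u.1.1 (g.1.1⁻¹ x)) = x
      rw [this]; simp
    · have := hu.2 (g.1.2⁻¹ x) (by simpa using hx)
      show g.1.2 (u.1.2 (g.1.2⁻¹ x)) = x
      rw [this]; simp

instance : TopologicalSpace (GG M N) := (fb M N).topology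
instance : IsTopologicalGroup (GG M N) := (fb M N).isTopologicalGroup

variable {M N}

theorem closed_of (K : Set (GG M N)) (h : ∀ g ∉ K, ∃ W ∈ Bs M N, ∀ u ∈ W, g * u ∉ K) :
    IsClosed K := by
  rw [← isOpen_compl_iff, isOpen_iff_mem_nhds]
  intro g hg
  obtain ⟨W, h1, h2⟩ := h g hg
  refine ((fb M N).nhds_hasBasis g).mem_iff.2 ⟨W, h1, ?_⟩
  rintro _ ⟨u, hu, rfl⟩
  exact h2 u hu

theorem mem_of {K : Set (GG M N)} (hK : IsClosed K) (g : GG M N)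
    (h : ∀ W ∈ Bs M N, ∃ u ∈ W, g * u ∈ K) : g ∈ K := by
  by_contra hg
  obtain ⟨W, h1, h2⟩ := ((fb M N).nhds_hasBasis g).mem_iff.1 (hK.isOpen_compl.mem_nhds hg)
  obtain ⟨u, hu, h3⟩ := h W h1
  exact h2 ⟨u, hu, rfl⟩ h3

def lin (l : Φ ≃ₗ[k] Φ) (h1 : ∀ x, x ∈ M ↔ l.symm.dualMap x ∈ M)
    (h2 : ∀ x, x ∈ N ↔ l.symm.dualMap x ∈ N) : GG M N :=
  ⟨(l.symm.dualMap.toEquiv, l.toEquiv), fun x y φ => by simp,
    fun x y => by rw [h1, map_sub]; rfl, fun x y => by rw [h2, map_sub]; rfl, fun x => by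
      constructor
      · intro h
        obtain ⟨m, hm, n, hn, rfl⟩ := Submodule.mem_sup.1 h
        show l.symm.dualMap (m + n) ∈ _
        rw [map_add]
        exact Submodule.add_mem_sup ((h1 m).1 hm) ((h2 n).1 hn)
      · intro h
        obtain ⟨m, hm, n, hn, e⟩ := Submodule.mem_sup.1 h
        obtain ⟨m, rfl⟩ := l.symm.dualMap.surjective m
        obtain ⟨n, rfl⟩ := l.symm.dualMap.surjective n
        rw [← map_add] at e
        rw [← l.symm.dualMap.injective e]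
        exact Submodule.add_mem_sup ((h1 m).2 hm) ((h2 n).2 hn)⟩

theorem homog2 (H : Hyp M N) {a b : Dual k Φ} (ha : a ∉ M ⊔ N) (hb : b ∉ M ⊔ N)
    {S : St M N} (hS : Good a b S) : ∃ g : GG M N, (∀ r ∈ S.1, g.1.2 r.1 = r.2) ∧ g.1.1 a = b ∧
      (∀ s ∈ S.2.1, ∀ t ∈ S.2.2, g.1.1 (s.1.1 + t.1.1) = s.2.1 + t.2.1) ∧
      ∀ x φ, g.1.1 x (g.1.2 φ) = x φ := by
  obtain ⟨l, h1, h2, h3, h4, h5, h6⟩ := homog H ha hb hS
  refine ⟨lin l h5 h6, h1, ?_, fun s hs t ht => ?_, fun x φ => by simp [lin]⟩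
  · ext φ; simpa [lin] using (h2 (l.symm φ)).symm
  · ext φ
    have e1 := h3 s hs (l.symm φ)
    have e2 := h4 t ht (l.symm φ)
    rw [l.apply_symm_apply] at e1 e2
    exact congrArg₂ (· + ·) e1.symm e2.symm

def tr (v : Dual k Φ) (hv : v ∈ M ⊔ N) : GG M N :=
  ⟨(Equiv.addRight v, 1), fun x y φ => by simp, fun x y => by simp, fun x y => by simp,
    fun x => by simpa using (Submodule.add_mem_iff_left _ hv).symm⟩

theorem geq {g h : GG M N} (h1 : g.1.2 = h.1.2) (x : Dual k Φ) (h2 : g.1.1 x = h.1.1 x) :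
    g = h := by
  refine Subtype.ext (Prod.ext (Equiv.ext fun y => LinearMap.ext fun φ => ?_) h1)
  obtain ⟨φ, rfl⟩ := g.1.2.surjective φ
  have e1 := g.2.1 y x φ
  have e2 := h.2.1 y x φ
  rw [← h1, ← h2, ← e1] at e2
  simpa using e2.symm

theorem gtr {g : GG M N} (h : g.1.2 = 1) (x : Dual k Φ) : g.1.1 x = x + g.1.1 0 := by
  ext φ
  have := g.2.1 x 0 φ
  rw [h] at this
  simpa [sub_eq_iff_eq_add] using this

def TT (L : Submodule k (Dual k Φ)) : Subgroup (GG M N) where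
  carrier := {g | g.1.2 = 1 ∧ g.1.1 0 ∈ L}
  mul_mem' := fun {g h} hg hh => ⟨by simp [hg.1, hh.1], by
    show g.1.1 (h.1.1 0) ∈ L
    rw [gtr hg.1]; exact add_mem hh.2 hg.2⟩
  one_mem' := ⟨rfl, zero_mem L⟩
  inv_mem' := fun {g} hg => ⟨by simp [hg.1], by
    have := gtr hg.1 (g.1.1⁻¹ 0)
    simp only [Equiv.Perm.coe_inv, Equiv.apply_symm_apply] at this
    show g.1.1.symm 0 ∈ L
    rw [eq_neg_of_add_eq_zero_left this.symm]
    exact neg_mem hg.2⟩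

theorem TT_closed (L : Submodule k (Dual k Φ)) : IsClosed (TT (M := M) (N := N) L : Set (GG M N)) := by
  refine closed_of _ fun g hg => ?_
  by_cases h : g.1.2 = 1
  · refine ⟨_, ⟨{0}, ∅, by simp, by simp, by simp, rfl⟩, fun u hu h2 => hg ⟨h, ?_⟩⟩
    have := h2.2
    change g.1.1 (u.1.1 0) ∈ L at this
    rwa [hu.1 0 rfl] at this
  · obtain ⟨φ, hφ⟩ : ∃ φ, g.1.2 φ ≠ φ := by
      by_contra hh; push Not at hh; exact h (Equiv.ext hh)
    refine ⟨_, ⟨∅, {φ}, by simp, by simp, by simp, rfl⟩, fun u hu h2 => hφ ?_⟩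
    have := Equiv.congr_fun h2.1 φ
    change g.1.2 (u.1.2 φ) = φ at this
    rwa [hu.2 φ rfl] at this

theorem TT_normal (L : Submodule k (Dual k Φ))
    (hL : ∀ (g : GG M N) x y, x - y ∈ L ↔ g.1.1 x - g.1.1 y ∈ L) :
    (TT (M := M) (N := N) L).Normal := by
  refine ⟨fun t ht g => ⟨by simp [ht.1], ?_⟩⟩
  have := (hL g (t.1.1 (g.1.1⁻¹ 0)) (g.1.1⁻¹ 0)).1 (by rw [gtr ht.1]; simpa using ht.2)
  simpa using this

theorem TT_comm {L L' : Submodule k (Dual k Φ)} {g h : GG M N} (hg : g ∈ TT L) (hh : h ∈ TT L') :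
    g * h = h * g := by
  refine geq (by simp [hg.1, hh.1]) 0 ?_
  show g.1.1 (h.1.1 0) = h.1.1 (g.1.1 0)
  rw [gtr hg.1, gtr hh.1 (g.1.1 0), add_comm]

theorem TT_ne {L : Submodule k (Dual k Φ)} [Infinite L] (hL : L ≤ M ⊔ N) :
    TT (M := M) (N := N) L ≠ ⊥ := by
  obtain ⟨m, hm⟩ := exists_ne (0 : L)
  intro h
  have : tr m.1 (hL m.2) ∈ TT (M := M) (N := N) L := ⟨rfl, by simp [tr]⟩
  rw [h, Subgroup.mem_bot] at this
  have := congrArg (fun g : GG M N => g.1.1 0) this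
  simp [tr] at this
  exact hm this

def HH (a : Dual k Φ) : Subgroup (GG M N) where
  carrier := {g | g.1.1 a = a}
  mul_mem' := fun {g h} hg hh => by
    show g.1.1 (h.1.1 a) = a
    rw [hh, hg]
  one_mem' := rfl
  inv_mem' := fun {g} hg => Equiv.Perm.inv_eq_iff_eq.2 (Eq.symm hg)

theorem HH_closed (a : Dual k Φ) : IsClosed (HH (M := M) (N := N) a : Set (GG M N)) := by
  refine closed_of _ fun g hg => ?_
  obtain ⟨φ, hφ⟩ : ∃ φ, g.1.1 a φ ≠ a φ := by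
    by_contra hh; push Not at hh; exact hg (LinearMap.ext hh)
  obtain ⟨ψ, rfl⟩ := g.1.2.surjective φ
  refine ⟨_, ⟨{0}, {ψ}, by simp, by simp, by simp, rfl⟩, fun u hu h2 => hφ ?_⟩
  have e1 := g.2.1 (u.1.1 a) a ψ
  have e2 := u.2.1 a 0 ψ
  rw [hu.1 0 rfl, hu.2 ψ rfl] at e2
  rw [show g.1.1 (u.1.1 a) = a from h2] at e1
  simp only [LinearMap.sub_apply, sub_zero] at e1 e2
  rw [e2, sub_self, sub_eq_zero] at e1
  exact e1.symm

def dg {P : Type} [AddCommMonoid P] [Module k P] (s : Set P) : Submodule k (P × P) :=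
  (Submodule.span k s).map (LinearMap.id.prod LinearMap.id)

theorem dg_eq {P : Type} [AddCommMonoid P] [Module k P] {s : Set P} {r : P × P} (h : r ∈ dg s) :
    r.1 ∈ Submodule.span k s ∧ r.2 = r.1 := by
  obtain ⟨x, hx, rfl⟩ := h
  exact ⟨hx, rfl⟩

theorem dg_mem {P : Type} [AddCommMonoid P] [Module k P] {s : Set P} {x : P} (h : x ∈ s) :
    (x, x) ∈ dg s := ⟨x, Submodule.subset_span h, rfl⟩

theorem dg_bj {P : Type} [AddCommGroup P] [Module k P] {s : Set P} (hs : s.Finite) :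
    Bj (dg s) := by
  have := FiniteDimensional.span_of_finite k hs
  have : Finite (Submodule.span k s) := Module.finite_of_finite k
  exact ⟨(Set.toFinite (Submodule.span k s : Set P)).image _, fun r hr => by rw [(dg_eq hr).2]⟩

theorem opn (H : Hyp M N) {a b : Dual k Φ} (ha : a ∉ M ⊔ N) (hb : b ∉ M ⊔ N) {F : Set (Dual k Φ)}
    {P : Set Φ} (hF : F.Finite) (hF' : ∀ x ∈ F, x ∈ M ⊔ N) (hP : P.Finite)
    (h : ∀ φ ∈ P, a φ = b φ) : ∃ u ∈ U M N F P, u.1.1 a = b := by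
  haveI := hF.to_subtype
  have : ∀ x : F, ∃ (m : M) (n : N), m.1 + n.1 = x.1 := fun x => by
    obtain ⟨m, hm, n, hn, e⟩ := Submodule.mem_sup.1 (hF' _ x.2)
    exact ⟨⟨m, hm⟩, ⟨n, hn⟩, e⟩
  choose m n hmn using this
  obtain ⟨g, h1, h2, h3, -⟩ := homog2 H ha hb (S := (dg P, dg (Set.range m), dg (Set.range n)))
    ⟨dg_bj hP, dg_bj (Set.finite_range m), dg_bj (Set.finite_range n), fun r hr => by
      rw [(dg_eq hr).2]; exact LinearMap.eqOn_span h (dg_eq hr).1,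
      fun r hr s hs => by rw [(dg_eq hr).2, (dg_eq hs).2],
      fun r hr s hs => by rw [(dg_eq hr).2, (dg_eq hs).2]⟩
  refine ⟨g, ⟨fun x hx => ?_, fun φ hφ => h1 _ (dg_mem hφ)⟩, h2⟩
  have := h3 _ (dg_mem ⟨⟨x, hx⟩, rfl⟩) _ (dg_mem ⟨⟨x, hx⟩, rfl⟩)
  simpa [hmn] using this

theorem bj_bot {P : Type} [AddCommMonoid P] [Module k P] : Bj (⊥ : Submodule k (P × P)) :=
  ⟨by simp, fun r hr => by rw [Submodule.mem_bot] at hr; simp [hr]⟩

theorem dns (H : Hyp M N) {a c t : Dual k Φ} (ha : a ∉ M ⊔ N) (hc : c ≠ 0) (hac : a + c ≠ 0)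
    {P : Set Φ} (hP : P.Finite) : ∃ h ∈ HH (M := M) (N := N) a, ∀ φ ∈ P,
      (h.1.1 (a + c) - a) φ = t φ := by
  have := H.iP
  have ha0 : a ≠ 0 := fun h => ha (h ▸ zero_mem _)
  let f := (LinearMap.toSpanSingleton k _ a).coprod (LinearMap.toSpanSingleton k _ t)
  let f' := (LinearMap.toSpanSingleton k _ a).coprod (LinearMap.toSpanSingleton k _ c)
  have hf : ∀ i, f' i = 0 → f i = 0 := by
    rintro ⟨i, j⟩
    rcases z2 i with rfl | rfl <;> rcases z2 j with rfl | rfl <;> simp [f, f', ha0, hc, hac]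
  have : ∃ R, Gd f f' R ∧ ∀ φ ∈ P, ∃ y, (φ, y) ∈ R := by
    induction P, hP using Set.Finite.induction_on with
    | empty => exact ⟨⊥, ⟨bj_bot.1, bj_bot.2, fun r hr i => by
        rw [Submodule.mem_bot] at hr; simp [hr]⟩, by simp⟩
    | @insert x s _ _ ih =>
      obtain ⟨R, h1, h2⟩ := ih
      obtain ⟨R', h3, h4, h5⟩ := ext1 hf h1 x
      refine ⟨R', h4, ?_⟩
      rintro φ (rfl | h)
      · exact h5
      · obtain ⟨y, hy⟩ := h2 φ h
        exact ⟨y, h3 hy⟩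
  obtain ⟨R, h1, h2⟩ := this
  obtain ⟨g, g1, g2, -, -⟩ := homog2 H ha ha (S := (sw R, ⊥, ⊥))
    ⟨⟨h1.sw.1, h1.sw.2.1⟩, bj_bot, bj_bot, fun r hr => by simpa [f, f'] using h1.sw.2.2 r hr (1, 0),
      fun r hr s hs => by rw [Submodule.mem_bot] at hs; simp [hs],
      fun r hr s hs => by rw [Submodule.mem_bot] at hs; simp [hs]⟩
  refine ⟨g, g2, fun φ hφ => ?_⟩
  obtain ⟨y, hy⟩ := h2 φ hφ
  have e1 : g.1.2 y = φ := g1 (y, φ) hy
  have e2 := g.2.1 (a + c) a y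
  rw [g2, e1] at e2
  rw [e2]
  simpa [f, f'] using (h1.2.2 _ hy (0, 1)).symm

theorem HH_max (H : Hyp M N) {a : Dual k Φ} (ha : a ∉ M ⊔ N) (K : Subgroup (GG M N))
    (hK : IsClosed (K : Set (GG M N))) (h : HH a < K) : K = ⊤ := by
  obtain ⟨κ, h1, h2⟩ := SetLike.exists_of_lt h
  refine eq_top_iff.2 fun g _ => mem_of hK g ?_
  rintro _ ⟨F, P, hF, hF', hP, rfl⟩
  have hb : κ.1.1 a ∉ M ⊔ N := fun e => ha ((κ.2.2.2.2 a).2 e)
  obtain ⟨η, e1, e2⟩ := dns H (c := κ.1.1 a - a) (t := g.1.1 a - a) ha (sub_ne_zero.2 h2)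
    (fun e => hb (by rw [add_sub_cancel] at e; rw [e]; exact zero_mem _)) (hP.image g.1.2)
  rw [add_sub_cancel] at e2
  obtain ⟨u, hu, e3⟩ := opn H ha (b := (g⁻¹ * η * κ).1.1 a)
    (fun e => ha (((g⁻¹ * η * κ).2.2.2.2 a).2 e)) hF hF' hP (fun φ hφ => by
      have e4 := g.2.1 ((g⁻¹ * η * κ).1.1 a) a φ
      have e5 := e2 _ ⟨φ, hφ, rfl⟩
      have e6 : g.1.1 ((g⁻¹ * η * κ).1.1 a) = η.1.1 (κ.1.1 a) := by simp
      rw [e6] at e4
      simp only [LinearMap.sub_apply, sub_left_inj] at e4 e5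
      rw [e5, sub_self, eq_comm, sub_eq_zero] at e4
      exact e4.symm)
  refine ⟨u, hu, ?_⟩
  have : (g⁻¹ * η * κ)⁻¹ * u ∈ HH a := by
    show (g⁻¹ * η * κ).1.1⁻¹ (u.1.1 a) = a
    rw [e3]; simp
  have := K.mul_mem (K.mul_mem (h.le e1) h1) (h.le this)
  simpa [mul_assoc] using this

theorem HH_core (H : Hyp M N) (a : Dual k Φ) : (HH (M := M) (N := N) a).normalCore = ⊥ := by
  refine eq_bot_iff.2 fun g hg => ?_
  have h0 : g.1.1 a = a := Subgroup.normalCore_le _ hg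
  refine geq (h := 1) (Equiv.ext fun φ => ?_) a h0
  refine sub_eq_zero.1 (H.dM _ fun m hm => ?_)
  have h1 : g.1.1 (a - m) + m = a := by
    simpa [tr, sub_eq_add_neg] using (show _ = a from hg (tr m (Submodule.mem_sup_left hm)))
  have := g.2.1 a (a - m) φ
  rw [h0, eq_sub_of_add_eq h1] at this
  simpa [sub_eq_zero] using this

theorem TT_min (H : Hyp M N) {a : Dual k Φ} (ha : a ∉ M ⊔ N) (P : Subgroup (GG M N))
    (hP : P.Normal) (h0 : P ≠ ⊥) (hle : P ≤ TT M) : P = TT M := by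
  obtain ⟨⟨p, hp⟩, hp1⟩ := Subgroup.ne_bot_iff_exists_ne_one.1 h0
  have hpM := hle hp
  have hm : p.1.1 0 ≠ 0 := fun e => hp1 (Subtype.ext (geq (h := 1) hpM.1 0 e))
  refine le_antisymm hle fun t ht => ?_
  by_cases ht0 : t.1.1 0 = 0
  · rw [geq (h := 1) ht.1 0 ht0]; exact P.one_mem
  let s : M × M := (⟨_, hpM.2⟩, ⟨_, ht.2⟩)
  have hs : ∀ r ∈ k ∙ s, r = 0 ∨ r = s := by
    intro r hr
    obtain ⟨c, rfl⟩ := Submodule.mem_span_singleton.1 hr
    rcases z2 c with rfl | rfl <;> simp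
  obtain ⟨g, -, -, g3, -⟩ := homog2 H ha ha (S := (⊥, k ∙ s, ⊥))
    ⟨bj_bot, ⟨(Set.toFinite {0, s}).subset hs, fun r hr => by
      rcases hs r hr with rfl | rfl
      · simp
      · simp [s, hm, ht0]⟩, bj_bot, fun r hr => by rw [Submodule.mem_bot] at hr; simp [hr],
      fun r hr s hs => by rw [Submodule.mem_bot] at hr; simp [hr],
      fun r hr s hs => by rw [Submodule.mem_bot] at hr; simp [hr]⟩
  have e0 : g.1.1 0 = 0 := by simpa using g3 0 (zero_mem _) 0 (zero_mem _)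
  have e1 : g.1.1 (p.1.1 0) = t.1.1 0 := by
    simpa [s] using g3 s (Submodule.mem_span_singleton_self _) 0 (zero_mem _)
  have : t = g * p * g⁻¹ := geq (by simp [ht.1, hpM.1]) 0 (by
    show _ = g.1.1 (p.1.1 (g.1.1⁻¹ 0))
    rw [Equiv.Perm.inv_eq_iff_eq.2 e0.symm, e1])
  rw [this]
  exact hP.conj_mem p hp g
end G

abbrev Ph := ℕ →₀ k

noncomputable def D : (ℕ → k) →ₗ[k] Dual k Ph where
  toFun x := Finsupp.linearCombination k x
  map_add' x y := by ext; simp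
  map_smul' c x := by ext; simp

theorem D_s (x : ℕ → k) (j : ℕ) : D x (Finsupp.single j 1) = x j := by simp [D]

def T1 : Ph →ₗ[k] (ℕ → k) where
  toFun c j := c j
  map_add' _ _ := rfl
  map_smul' _ _ := rfl

def T2 : Ph →ₗ[k] (ℕ → k) where
  toFun c j := c j + if j = 0 then 0 else c (j - 1).unpair.1
  map_add' x y := by funext j; simp only [Finsupp.add_apply, Pi.add_apply]; split_ifs <;> ring
  map_smul' c x := by funext j; simp [mul_add]

noncomputable def M0 := LinearMap.range (D ∘ₗ T1)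
noncomputable def N0 := LinearMap.range (D ∘ₗ T2)

theorem tri (T : Ph →ₗ[k] (ℕ → k)) (h : ∀ i j, j ≤ i → T (Finsupp.single i 1) j = if j = i then 1 else 0)
    (φ : Ph) (h0 : ∀ m ∈ LinearMap.range (D ∘ₗ T), m φ = 0) : φ = 0 := by
  by_contra hne
  obtain ⟨i, hi, hm⟩ := φ.support.exists_max_image id (Finsupp.support_nonempty_iff.2 hne)
  have := h0 _ ⟨Finsupp.single i 1, rfl⟩
  simp only [D, LinearMap.coe_comp, LinearMap.coe_mk, AddHom.coe_mk, Function.comp_apply,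
    Finsupp.linearCombination_apply, Finsupp.sum] at this
  rw [Finset.sum_eq_single_of_mem i hi fun j hj e => by rw [h i j (hm j hj), if_neg e, smul_zero],
    h i i le_rfl] at this
  exact Finsupp.mem_support_iff.1 hi (by simpa using this)

theorem inf (L : Submodule k (Dual k Ph)) (h : ∀ φ, (∀ m ∈ L, m φ = 0) → φ = 0) : Infinite L := by
  by_contra hh
  rw [not_infinite_iff_finite] at hh
  refine not_injective_infinite_finite (fun (φ : Ph) (m : L) => m.1 φ) fun φ ψ e => ?_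
  exact sub_eq_zero.1 (h _ fun m hm => by rw [map_sub, sub_eq_zero]; exact congrFun e ⟨m, hm⟩)

theorem hyp : Hyp M0 N0 := by
  have d1 := tri T1 fun i j _ => by simp [T1, Finsupp.single_apply, eq_comm]
  have d2 := tri T2 fun i j h => by
    have := Nat.unpair_left_le (j - 1)
    simp only [T2, LinearMap.coe_mk, AddHom.coe_mk, Finsupp.single_apply]
    split_ifs <;> first | omega | simp
  refine ⟨inferInstance, (Set.countable_range _).to_subtype, (Set.countable_range _).to_subtype,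
    inferInstance, inf _ d1, inf _ d2, d1, d2, Submodule.disjoint_def.2 ?_⟩
  rintro _ ⟨c, rfl⟩ ⟨d, h⟩
  have : d = 0 := by
    ext i
    obtain ⟨_, ⟨t, rfl⟩, ht⟩ := (Set.infinite_range_of_injective (f := fun t => Nat.pair i t + 1)
      (fun s t e => by simpa using e)).exists_notMem_finset (c.support ∪ d.support)
    have := LinearMap.congr_fun h (Finsupp.single (Nat.pair i t + 1) 1)
    simp only [Finset.mem_union, Finsupp.mem_support_iff, not_or, not_not] at ht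
    simpa [D_s, T1, T2, ht.1, ht.2] using this
  rw [← h, this, map_zero]

theorem exa : ∃ a, a ∉ M0 ⊔ N0 := by
  by_contra hh
  push Not at hh
  have := hyp.cM; have := hyp.cN
  have h1 : Countable (Dual k Ph) := by
    refine Function.Surjective.countable (f := fun p : M0 × N0 => p.1.1 + p.2.1) fun x => ?_
    obtain ⟨m, hm, n, hn, e⟩ := Submodule.mem_sup.1 (hh x)
    exact ⟨(⟨m, hm⟩, ⟨n, hn⟩), e⟩
  obtain ⟨e, he⟩ := exists_surjective_nat (Dual k Ph)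
  obtain ⟨n, hn⟩ := he (D fun j => e j (Finsupp.single j 1) + 1)
  have := D_s (fun j => e j (Finsupp.single j 1) + 1) n
  rw [← hn] at this
  simp at this

theorem main : ∃ (G : Type) (_ : Group G) (_ : TopologicalSpace G) (_ : IsTopologicalGroup G)
    (H A B : Subgroup G), IsClosed (H : Set G) ∧ H ≠ ⊤ ∧
    (∀ K : Subgroup G, IsClosed (K : Set G) → H < K → K = ⊤) ∧ H.normalCore = ⊥ ∧
    IsClosed (A : Set G) ∧ A.Normal ∧ A ≠ ⊥ ∧ (∀ P : Subgroup G, P.Normal → P ≠ ⊥ → P ≤ A → P = A) ∧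
    (∀ x ∈ A, ∀ y ∈ A, x * y = y * x) ∧ IsClosed (B : Set G) ∧ B.Normal ∧ B ≠ ⊥ ∧ A ⊓ B = ⊥ ∧
    ∀ x ∈ A, ∀ y ∈ B, x * y = y * x := by
  obtain ⟨a, ha⟩ := exa
  have := hyp.iM; have := hyp.iN
  refine ⟨GG M0 N0, inferInstance, inferInstance, inferInstance, HH a, TT M0, TT N0, HH_closed a,
    fun h => ?_, HH_max hyp ha, HH_core hyp a, TT_closed _, TT_normal _ fun g => g.2.2.1,
    TT_ne le_sup_left, TT_min hyp ha, fun _ h _ h' => TT_comm h h', TT_closed _,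
    TT_normal _ fun g => g.2.2.2.1, TT_ne le_sup_right, eq_bot_iff.2 fun g hg => ?_,
    fun _ h _ h' => TT_comm h h'⟩
  · have h1 := HH_core hyp a
    rw [h, Subgroup.normalCore_eq_self] at h1
    exact TT_ne (M := M0) (N := N0) (L := M0) le_sup_left (eq_bot_iff.2 (h1 ▸ le_top))
  · exact geq (h := 1) hg.1.1 0 (Submodule.disjoint_def.1 hyp.dj _ hg.1.2 hg.2.2)

end Pool.Agent.H16.Coset
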