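import Pool.Agent.H16.Coset2
set_option autoImplicit false
namespace Pool.Agent.H16.Coset3
open Module Topology Pool.Agent.H16.Coset

section H
variable {Φ : Type} [AddCommGroup Φ] [Module k Φ] {M : ℕ → Submodule k (Dual k Φ)}
  {π : ℕ → Dual k Φ →ₗ[k] Dual k Φ}

structure Hyp (M : ℕ → Submodule k (Dual k Φ)) (π : ℕ → Dual k Φ →ₗ[k] Dual k Φ) : Prop where
  cP : Countable Φ
  cM : ∀ i, Countable (M i)
  iP : Infinite Φ
  iM : ∀ i, Infinite (M i)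
  dM : ∀ i φ, (∀ m ∈ M i, m φ = 0) → φ = 0
  p1 : ∀ i x, π i x ∈ M i
  p2 : ∀ i, ∀ x ∈ M i, π i x = x
  p3 : ∀ i j, i ≠ j → ∀ x ∈ M j, π i x = 0

abbrev St (Φ : Type) [AddCommGroup Φ] [Module k Φ] :=
  Submodule k (Φ × Φ) × Submodule k (Dual k Φ × Dual k Φ)

def Good (M : ℕ → Submodule k (Dual k Φ)) (π : ℕ → Dual k Φ →ₗ[k] Dual k Φ) (a b : Dual k Φ)
    (S : St Φ) : Prop :=
  Bj S.1 ∧ Bj S.2 ∧ (∀ s ∈ S.2, s.1 ∈ iSup M ∧ s.2 ∈ iSup M ∧ ∀ i, (π i s.1, π i s.2) ∈ S.2) ∧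
    (∀ r ∈ S.1, a r.1 = b r.2) ∧ ∀ r ∈ S.1, ∀ s ∈ S.2, s.1 r.1 = s.2 r.2

theorem stepM (H : Hyp M π) {a b : Dual k Φ} {S : St Φ} (hS : Good M π a b S) (j : ℕ) (x : M j) :
    ∃ S', S.2 ≤ S' ∧ Good M π a b (S.1, S') ∧ Tot S' x.1 := by
  obtain ⟨h1, h2, h3, h4, h5⟩ := hS
  have := H.iM j
  let ι : (M j × M j) →ₗ[k] (Dual k Φ × Dual k Φ) := (M j).subtype.prodMap (M j).subtype
  have hι : Function.Injective ι := (M j).injective_subtype.prodMap (M j).injective_subtype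
  obtain ⟨T, g1, g2, g3, ⟨y, g4⟩, z, g5⟩ := Coset.stepM (H.dM j) (S := S.2.comap ι) h1
    ⟨Set.Finite.preimage (f := ι) hι.injOn h2.1, fun r hr => by simpa [ι] using h2.2 _ hr⟩
    (fun r hr s hs => h5 r hr _ hs) x
  have hm : ∀ r ∈ S.2 ⊔ T.map ι, ∃ s ∈ S.2, ∃ t ∈ T, r = s + ι t := by
    intro r hr
    obtain ⟨s, hs, _, ⟨t, ht, rfl⟩, rfl⟩ := Submodule.mem_sup.1 hr
    exact ⟨s, hs, t, ht, rfl⟩
  refine ⟨S.2 ⊔ T.map ι, le_sup_left, ⟨h1, ⟨?_, fun r hr => ?_⟩, fun r hr => ?_, h4,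
    fun r hr s hs => ?_⟩, ⟨y.1, Submodule.mem_sup_right ⟨_, g4, rfl⟩⟩,
    z.1, Submodule.mem_sup_right ⟨_, g5, rfl⟩⟩
  · refine ((h2.1.prod g2.1).image fun p => p.1 + ι p.2).subset fun r hr => ?_
    obtain ⟨s, hs, t, ht, rfl⟩ := hm r hr
    exact ⟨(s, t), ⟨hs, ht⟩, rfl⟩
  · obtain ⟨s, hs, t, ht, rfl⟩ := hm r hr
    have e1 := (h3 s hs).2.2 j
    have e2 := g2.2 _ (T.add_mem (g1 (x := (⟨_, H.p1 j s.1⟩, ⟨_, H.p1 j s.2⟩)) e1) ht)
    have e3 := h2.2 _ (S.2.sub_mem hs e1)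
    simp only [Prod.fst_add, Prod.snd_add, Subtype.ext_iff, Submodule.coe_add,
      ZeroMemClass.coe_zero, Prod.fst_sub, Prod.snd_sub, sub_eq_zero] at e2 e3
    show s.1 + t.1.1 = 0 ↔ s.2 + t.2.1 = 0
    have key : ∀ (u : Dual k Φ) (v : M j), u + v.1 = 0 ↔ u = π j u ∧ π j u + v.1 = 0 := by
      intro u v
      constructor
      · intro h
        have : π j u = u := H.p2 j u (by rw [eq_neg_of_add_eq_zero_left h]; exact neg_mem v.2)
        rw [this]; exact ⟨rfl, h⟩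
      · rintro ⟨h, h'⟩; rwa [← h] at h'
    rw [key s.1, key s.2, e2, e3]
  · obtain ⟨s, hs, t, ht, rfl⟩ := hm r hr
    refine ⟨add_mem (h3 s hs).1 (Submodule.mem_iSup_of_mem j t.1.2),
      add_mem (h3 s hs).2.1 (Submodule.mem_iSup_of_mem j t.2.2), fun i => ?_⟩
    show (π i (s.1 + t.1.1), π i (s.2 + t.2.1)) ∈ _
    rw [map_add, map_add]
    refine Submodule.add_mem _ (x := (_, _)) (y := (_, _))
      (Submodule.mem_sup_left ((h3 s hs).2.2 i)) ?_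
    by_cases e : i = j
    · subst e
      rw [H.p2 i _ t.1.2, H.p2 i _ t.2.2]
      exact Submodule.mem_sup_right ⟨t, ht, rfl⟩
    · rw [H.p3 i j e _ t.1.2, H.p3 i j e _ t.2.2]
      exact zero_mem _
  · obtain ⟨s, hs', t, ht, rfl⟩ := hm s hs
    show s.1 r.1 + t.1.1 r.1 = s.2 r.2 + t.2.1 r.2
    rw [h5 r hr s hs', g3 r hr t ht]

theorem indep {V : Submodule k (Dual k Φ)} {b m : Dual k Φ} (hb : b ∉ V) (hm : m ∈ V) (c : k) :
    m + c • b = 0 ↔ m = 0 ∧ c = 0 := by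
  constructor
  · intro h
    rcases z2 c with rfl | rfl
    · simpa using h
    · refine absurd ?_ hb
      rw [one_smul] at h
      rw [eq_neg_of_add_eq_zero_right h]
      exact neg_mem hm
  · rintro ⟨rfl, rfl⟩; simp

theorem stepP (H : Hyp M π) {a b : Dual k Φ} (ha : a ∉ iSup M) (hb : b ∉ iSup M)
    {S : St Φ} (hS : Good M π a b S) (x : Φ) :
    ∃ R', S.1 ≤ R' ∧ Good M π a b (R', S.2) ∧ Tot R' x := by
  obtain ⟨h1, h2, h3, h4, h5⟩ := hS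
  have := H.iP
  haveI : Finite S.2 := h2.1.to_subtype
  let f : (S.2 × k) →ₗ[k] Dual k Φ :=
    (LinearMap.fst k _ _ ∘ₗ S.2.subtype).coprod (LinearMap.toSpanSingleton k _ a)
  let f' : (S.2 × k) →ₗ[k] Dual k Φ :=
    (LinearMap.snd k _ _ ∘ₗ S.2.subtype).coprod (LinearMap.toSpanSingleton k _ b)
  have e : ∀ i, f i = i.1.1.1 + i.2 • a := fun i => by simp [f]
  have e' : ∀ i, f' i = i.1.1.2 + i.2 • b := fun i => by simp [f']
  obtain ⟨R', g1, g2, g3⟩ := ext2 (ι := S.2 × k) (f := f) (f' := f') (fun i => by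
      rw [e, e', indep ha (h3 _ i.1.2).1, indep hb (h3 _ i.1.2).2.1, h2.2 _ i.1.2])
    ⟨h1.1, h1.2, fun r hr i => by simp [e, e', h4 r hr, h5 r hr _ i.1.2]⟩ x
  refine ⟨R', g1, ⟨⟨g2.1, g2.2.1⟩, h2, h3, fun r hr => ?_, fun r hr s hs => ?_⟩, g3⟩
  · simpa [e, e'] using g2.2.2 r hr (0, 1)
  · simpa [e, e'] using g2.2.2 r hr (⟨s, hs⟩, 0)

theorem homog (H : Hyp M π) {a b : Dual k Φ} (ha : a ∉ iSup M) (hb : b ∉ iSup M)
    {S : St Φ} (hS : Good M π a b S) : ∃ l : Φ ≃ₗ[k] Φ, (∀ r ∈ S.1, l r.1 = r.2) ∧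
      (∀ φ, b (l φ) = a φ) ∧ (∀ s ∈ S.2, ∀ φ, s.2 (l φ) = s.1 φ) ∧
      ∀ i x, x ∈ M i ↔ l.symm.dualMap x ∈ M i := by
  have := H.cP; have := H.cM; have := H.iP
  have step : ∀ (T : {T : St Φ // Good M π a b T}) (x : Φ × Σ i, M i),
      ∃ T' : {T : St Φ // Good M π a b T},
      T.1 ≤ T'.1 ∧ Tot T'.1.1 x.1 ∧ Tot T'.1.2 x.2.2.1 := by
    rintro ⟨T, hT⟩ x
    obtain ⟨R, h1, g1, h2⟩ := stepP H ha hb hT x.1
    obtain ⟨S1, h3, h4, h5⟩ := stepM H g1 x.2.1 x.2.2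
    exact ⟨⟨(R, S1), h4⟩, ⟨h1, h3⟩, h2, h5⟩
  choose nx hnx using step
  haveI : Nonempty (Σ i, M i) := ⟨⟨0, 0⟩⟩
  obtain ⟨e, he⟩ := exists_surjective_nat (Φ × Σ i, M i)
  let T : ℕ → {T : St Φ // Good M π a b T} := fun n => Nat.rec ⟨S, hS⟩ (fun n T => nx T (e n)) n
  have hmono : Monotone fun n => (T n).1 := monotone_nat_of_le_succ fun n => (hnx (T n) (e n)).1
  let R : Submodule k (Φ × Φ) := ⨆ n, (T n).1.1
  have hR : ∀ r, r ∈ R ↔ ∃ n, r ∈ (T n).1.1 := fun r =>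
    Submodule.mem_iSup_of_directed _ (Monotone.directed_le fun _ _ h => (hmono h).1)
  have hb0 : ∀ r ∈ R, r.1 = 0 ↔ r.2 = 0 := fun r hr => by
    obtain ⟨n, hn⟩ := (hR r).1 hr
    exact (T n).2.1.2 r hn
  have tP : ∀ x, Tot R x := fun x => by
    obtain ⟨n, hn⟩ := he (x, ⟨0, 0⟩)
    obtain ⟨⟨y, hy⟩, z, hz⟩ := (hnx (T n) (e n)).2.1
    rw [hn] at hy hz
    exact ⟨⟨y, (hR _).2 ⟨n + 1, by simpa [T, hn] using hy⟩⟩, z,
      (hR _).2 ⟨n + 1, by simpa [T, hn] using hz⟩⟩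
  let p1 := LinearEquiv.ofBijective (LinearMap.fst k Φ Φ ∘ₗ R.subtype)
    ⟨(injective_iff_map_eq_zero _).2 fun r h => Subtype.ext (Prod.ext h ((hb0 _ r.2).1 h)),
      fun x => let ⟨y, hy⟩ := (tP x).1; ⟨⟨_, hy⟩, rfl⟩⟩
  let p2 := LinearEquiv.ofBijective (LinearMap.snd k Φ Φ ∘ₗ R.subtype)
    ⟨(injective_iff_map_eq_zero _).2 fun r h => Subtype.ext (Prod.ext ((hb0 _ r.2).2 h) h),
      fun x => let ⟨y, hy⟩ := (tP x).2; ⟨⟨_, hy⟩, rfl⟩⟩
  let l := p1.symm.trans p2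
  have hl : ∀ r ∈ R, l r.1 = r.2 := fun r hr =>
    congrArg p2 (p1.symm_apply_apply ⟨r, hr⟩)
  have hl2 : ∀ φ, ∃ n, (φ, l φ) ∈ (T n).1.1 := fun φ => by
    obtain ⟨y, hy⟩ := (tP φ).1
    rw [hl _ hy]; exact (hR _).1 hy
  have kM : ∀ n, ∀ s ∈ (T n).1.2, ∀ φ, s.2 (l φ) = s.1 φ := fun n s hs φ => by
    obtain ⟨m, hm⟩ := hl2 φ
    exact ((T (max m n)).2.2.2.2.2 _ ((hmono (le_max_left m n)).1 hm) s
      ((hmono (le_max_right m n)).2 hs)).symm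
  have tM : ∀ i, ∀ x ∈ M i, ∃ n, Tot (T n).1.2 x := fun i x hx => by
    obtain ⟨n, hn⟩ := he (0, ⟨i, x, hx⟩)
    have := (hnx (T n) (e n)).2.2
    have e1 : (e n).2.2.1 = x := by rw [hn]
    rw [e1] at this
    exact ⟨n + 1, this⟩
  have gM : ∀ n i, ∀ s ∈ (T n).1.2, s.1 ∈ M i ↔ s.2 ∈ M i := fun n i s hs => by
    have := (T n).2.2.1.2 _ (Submodule.sub_mem _ hs (((T n).2.2.2.1 s hs).2.2 i))
    simp only [Prod.fst_sub, Prod.snd_sub, sub_eq_zero] at this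
    exact ⟨fun h => by rw [this.1 (H.p2 i _ h).symm]; exact H.p1 _ _,
      fun h => by rw [this.2 (H.p2 i _ h).symm]; exact H.p1 _ _⟩
  refine ⟨l, fun r hr => hl r ((hR r).2 ⟨0, hr⟩), fun φ => ?_, kM 0, fun i x => ⟨fun hx => ?_,
    fun hx => ?_⟩⟩
  · obtain ⟨n, hn⟩ := hl2 φ
    exact ((T n).2.2.2.2.1 _ hn).symm
  · obtain ⟨n, ⟨y, hy⟩, -⟩ := tM i x hx
    convert (gM n i _ hy).1 hx using 1
    ext φ
    simpa using (kM n _ hy (l.symm φ)).symm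
  · obtain ⟨n, -, y, hy⟩ := tM i _ hx
    convert (gM n i _ hy).2 hx using 1
    ext φ
    simpa using kM n _ hy φ
end H

section G
variable {Φ : Type} [AddCommGroup Φ] [Module k Φ] (M : ℕ → Submodule k (Dual k Φ))
  {π : ℕ → Dual k Φ →ₗ[k] Dual k Φ}

def GG : Subgroup (Equiv.Perm (Dual k Φ) × Equiv.Perm Φ) where
  carrier := {p | (∀ x y φ, (p.1 x - p.1 y) (p.2 φ) = (x - y) φ) ∧
    (∀ i x y, x - y ∈ M i ↔ p.1 x - p.1 y ∈ M i) ∧ ∀ x, x ∈ iSup M ↔ p.1 x ∈ iSup M}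
  mul_mem' := fun {p q} hp hq => ⟨fun x y φ => (hp.1 _ _ _).trans (hq.1 _ _ _),
    fun i x y => (hq.2.1 i _ _).trans (hp.2.1 i _ _), fun x => (hq.2.2 _).trans (hp.2.2 _)⟩
  one_mem' := ⟨fun _ _ _ => rfl, fun _ _ _ => Iff.rfl, fun _ => Iff.rfl⟩
  inv_mem' := fun {p} hp => ⟨fun x y φ => by simpa using (hp.1 (p.1⁻¹ x) (p.1⁻¹ y) (p.2⁻¹ φ)).symm,
    fun i x y => by simpa using (hp.2.1 i (p.1⁻¹ x) (p.1⁻¹ y)).symm,
    fun x => by simpa using (hp.2.2 (p.1⁻¹ x)).symm⟩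

def U (F : Set (Dual k Φ)) (P : Set Φ) : Set (GG M) :=
  {g | (∀ x ∈ F, g.1.1 x = x) ∧ ∀ φ ∈ P, g.1.2 φ = φ}

def Bs : Set (Set (GG M)) :=
  {W | ∃ (F : Set (Dual k Φ)) (P : Set Φ), F.Finite ∧ (∀ x ∈ F, x ∈ iSup M) ∧ P.Finite ∧ W = U M F P}

@[reducible] def fb : GroupFilterBasis (GG M) where
  sets := Bs M
  nonempty := ⟨_, ∅, ∅, Set.finite_empty, by simp, Set.finite_empty, rfl⟩
  inter_sets := by
    rintro _ _ ⟨F, P, h1, h2, h3, rfl⟩ ⟨F', P', h4, h5, h6, rfl⟩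
    exact ⟨_, ⟨F ∪ F', P ∪ P', h1.union h4, fun x h => h.elim (h2 x) (h5 x), h3.union h6, rfl⟩,
      fun g hg => ⟨⟨fun x h => hg.1 x (Or.inl h), fun x h => hg.2 x (Or.inl h)⟩,
        fun x h => hg.1 x (Or.inr h), fun x h => hg.2 x (Or.inr h)⟩⟩
  one' := by
    rintro _ ⟨F, P, -, -, -, rfl⟩
    exact ⟨fun _ _ => rfl, fun _ _ => rfl⟩
  mul' := by
    rintro _ ⟨F, P, h1, h2, h3, rfl⟩
    refine ⟨_, ⟨F, P, h1, h2, h3, rfl⟩, ?_⟩
    rintro _ ⟨g, hg, h, hh, rfl⟩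
    exact ⟨fun x hx => by simp [hh.1 x hx, hg.1 x hx], fun x hx => by simp [hh.2 x hx, hg.2 x hx]⟩
  inv' := by
    rintro _ ⟨F, P, h1, h2, h3, rfl⟩
    refine ⟨_, ⟨F, P, h1, h2, h3, rfl⟩, fun g hg => ⟨fun x hx => ?_, fun x hx => ?_⟩⟩
    · exact Equiv.Perm.inv_eq_iff_eq.2 (hg.1 x hx).symm
    · exact Equiv.Perm.inv_eq_iff_eq.2 (hg.2 x hx).symm
  conj' := by
    rintro g _ ⟨F, P, h1, h2, h3, rfl⟩
    refine ⟨_, ⟨g.1.1 ⁻¹' F, g.1.2 ⁻¹' P, h1.preimage g.1.1.injective.injOn,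
      fun x hx => (g.2.2.2 x).2 (h2 _ hx), h3.preimage g.1.2.injective.injOn, rfl⟩,
      fun u hu => ⟨fun x hx => ?_, fun x hx => ?_⟩⟩
    · have := hu.1 (g.1.1⁻¹ x) (by simpa using hx)
      show g.1.1 (u.1.1 (g.1.1⁻¹ x)) = x
      rw [this]; simp
    · have := hu.2 (g.1.2⁻¹ x) (by simpa using hx)
      show g.1.2 (u.1.2 (g.1.2⁻¹ x)) = x
      rw [this]; simp

instance : TopologicalSpace (GG M) := (fb M).topology
instance : IsTopologicalGroup (GG M) := (fb M).isTopologicalGroup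

variable {M}

theorem closed_of (K : Set (GG M)) (h : ∀ g ∉ K, ∃ W ∈ Bs M, ∀ u ∈ W, g * u ∉ K) :
    IsClosed K := by
  rw [← isOpen_compl_iff, isOpen_iff_mem_nhds]
  intro g hg
  obtain ⟨W, h1, h2⟩ := h g hg
  refine ((fb M).nhds_hasBasis g).mem_iff.2 ⟨W, h1, ?_⟩
  rintro _ ⟨u, hu, rfl⟩
  exact h2 u hu

theorem mem_of {K : Set (GG M)} (hK : IsClosed K) (g : GG M)
    (h : ∀ W ∈ Bs M, ∃ u ∈ W, g * u ∈ K) : g ∈ K := by
  by_contra hg
  obtain ⟨W, h1, h2⟩ := ((fb M).nhds_hasBasis g).mem_iff.1 (hK.isOpen_compl.mem_nhds hg)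
  obtain ⟨u, hu, h3⟩ := h W h1
  exact h2 ⟨u, hu, rfl⟩ h3

def lin (l : Φ ≃ₗ[k] Φ) (h1 : ∀ i x, x ∈ M i ↔ l.symm.dualMap x ∈ M i) : GG M :=
  ⟨(l.symm.dualMap.toEquiv, l.toEquiv), fun x y φ => by simp,
    fun i x y => by rw [h1, map_sub]; rfl, fun x => by
      have e : ∀ i, (M i).map l.symm.dualMap.toLinearMap = M i := fun i => by
        ext y
        obtain ⟨y, rfl⟩ := l.symm.dualMap.surjective y
        rw [← h1]
        exact (Submodule.mem_map_equiv _).trans (by rw [LinearEquiv.symm_apply_apply])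
      have e2 : (iSup M).map l.symm.dualMap.toLinearMap = iSup M := by
        rw [Submodule.map_iSup]; simp only [e]
      conv_rhs => rw [← e2]
      exact ((Submodule.mem_map_equiv _).trans
        (by erw [LinearEquiv.symm_apply_apply])).symm⟩

theorem homog2 (H : Hyp M π) {a b : Dual k Φ} (ha : a ∉ iSup M) (hb : b ∉ iSup M)
    {S : St Φ} (hS : Good M π a b S) : ∃ g : GG M, (∀ r ∈ S.1, g.1.2 r.1 = r.2) ∧ g.1.1 a = b ∧
      (∀ s ∈ S.2, g.1.1 s.1 = s.2) := by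
  obtain ⟨l, h1, h2, h3, h5⟩ := homog H ha hb hS
  refine ⟨lin l h5, h1, ?_, fun s hs => ?_⟩
  · ext φ; simpa [lin] using (h2 (l.symm φ)).symm
  · ext φ; simpa [lin] using (h3 s hs (l.symm φ)).symm

def tr (v : Dual k Φ) (hv : v ∈ iSup M) : GG M :=
  ⟨(Equiv.addRight v, 1), fun x y φ => by simp, fun i x y => by simp,
    fun x => by simpa using (Submodule.add_mem_iff_left _ hv).symm⟩

theorem geq {g h : GG M} (h1 : g.1.2 = h.1.2) (x : Dual k Φ) (h2 : g.1.1 x = h.1.1 x) :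
    g = h := by
  refine Subtype.ext (Prod.ext (Equiv.ext fun y => LinearMap.ext fun φ => ?_) h1)
  obtain ⟨φ, rfl⟩ := g.1.2.surjective φ
  have e1 := g.2.1 y x φ
  have e2 := h.2.1 y x φ
  rw [← h1, ← h2, ← e1] at e2
  simpa using e2.symm

theorem gtr {g : GG M} (h : g.1.2 = 1) (x : Dual k Φ) : g.1.1 x = x + g.1.1 0 := by
  ext φ
  have := g.2.1 x 0 φ
  rw [h] at this
  simpa [sub_eq_iff_eq_add] using this

def TT (L : Submodule k (Dual k Φ)) : Subgroup (GG M) where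
  carrier := {g | g.1.2 = 1 ∧ g.1.1 0 ∈ L}
  mul_mem' := fun {g h} hg hh => ⟨by simp [hg.1, hh.1], by
    show g.1.1 (h.1.1 0) ∈ L
    rw [gtr hg.1]; exact add_mem hh.2 hg.2⟩
  one_mem' := ⟨rfl, zero_mem L⟩
  inv_mem' := fun {g} hg => ⟨by simp [hg.1], by
    have := gtr hg.1 (g.1.1⁻¹ 0)
    simp only [Equiv.Perm.coe_inv, Equiv.apply_symm_apply] at this
    show g.1.1.symm 0 ∈ L
    rw [eq_neg_of_add_eq_zero_left this.symm]
    exact neg_mem hg.2⟩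

theorem TT_closed (L : Submodule k (Dual k Φ)) : IsClosed (TT (M := M) L : Set (GG M)) := by
  refine closed_of _ fun g hg => ?_
  by_cases h : g.1.2 = 1
  · refine ⟨_, ⟨{0}, ∅, by simp, by simp, by simp, rfl⟩, fun u hu h2 => hg ⟨h, ?_⟩⟩
    have := h2.2
    change g.1.1 (u.1.1 0) ∈ L at this
    rwa [hu.1 0 rfl] at this
  · obtain ⟨φ, hφ⟩ : ∃ φ, g.1.2 φ ≠ φ := by
      by_contra hh; push Not at hh; exact h (Equiv.ext hh)
    refine ⟨_, ⟨∅, {φ}, by simp, by simp, by simp, rfl⟩, fun u hu h2 => hφ ?_⟩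
    have := Equiv.congr_fun h2.1 φ
    change g.1.2 (u.1.2 φ) = φ at this
    rwa [hu.2 φ rfl] at this

theorem TT_normal (L : Submodule k (Dual k Φ))
    (hL : ∀ (g : GG M) x y, x - y ∈ L ↔ g.1.1 x - g.1.1 y ∈ L) :
    (TT (M := M) L).Normal := by
  refine ⟨fun t ht g => ⟨by simp [ht.1], ?_⟩⟩
  have := (hL g (t.1.1 (g.1.1⁻¹ 0)) (g.1.1⁻¹ 0)).1 (by rw [gtr ht.1]; simpa using ht.2)
  simpa using this

theorem TT_comm {L L' : Submodule k (Dual k Φ)} {g h : GG M} (hg : g ∈ TT L) (hh : h ∈ TT L') :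
    g * h = h * g := by
  refine geq (by simp [hg.1, hh.1]) 0 ?_
  show g.1.1 (h.1.1 0) = h.1.1 (g.1.1 0)
  rw [gtr hg.1, gtr hh.1 (g.1.1 0), add_comm]

theorem TT_ne {L : Submodule k (Dual k Φ)} [Infinite L] (hL : L ≤ iSup M) :
    TT (M := M) L ≠ ⊥ := by
  obtain ⟨m, hm⟩ := exists_ne (0 : L)
  intro h
  have : tr m.1 (hL m.2) ∈ TT (M := M) L := ⟨rfl, by simp [tr]⟩
  rw [h, Subgroup.mem_bot] at this
  have := congrArg (fun g : GG M => g.1.1 0) this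
  simp [tr] at this
  exact hm this

def HH (a : Dual k Φ) : Subgroup (GG M) where
  carrier := {g | g.1.1 a = a}
  mul_mem' := fun {g h} hg hh => by
    show g.1.1 (h.1.1 a) = a
    rw [hh, hg]
  one_mem' := rfl
  inv_mem' := fun {g} hg => Equiv.Perm.inv_eq_iff_eq.2 (Eq.symm hg)

theorem HH_closed (a : Dual k Φ) : IsClosed (HH (M := M) a : Set (GG M)) := by
  refine closed_of _ fun g hg => ?_
  obtain ⟨φ, hφ⟩ : ∃ φ, g.1.1 a φ ≠ a φ := by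
    by_contra hh; push Not at hh; exact hg (LinearMap.ext hh)
  obtain ⟨ψ, rfl⟩ := g.1.2.surjective φ
  refine ⟨_, ⟨{0}, {ψ}, by simp, by simp, by simp, rfl⟩, fun u hu h2 => hφ ?_⟩
  have e1 := g.2.1 (u.1.1 a) a ψ
  have e2 := u.2.1 a 0 ψ
  rw [hu.1 0 rfl, hu.2 ψ rfl] at e2
  rw [show g.1.1 (u.1.1 a) = a from h2] at e1
  simp only [LinearMap.sub_apply, sub_zero] at e1 e2
  rw [e2, sub_self, sub_eq_zero] at e1
  exact e1.symm

theorem opn (H : Hyp M π) {a b : Dual k Φ} (ha : a ∉ iSup M) (hb : b ∉ iSup M)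
    {F : Set (Dual k Φ)} {P : Set Φ} (hF : F.Finite) (hF' : ∀ x ∈ F, x ∈ iSup M) (hP : P.Finite)
    (h : ∀ φ ∈ P, a φ = b φ) : ∃ u ∈ U M F P, u.1.1 a = b := by
  haveI := hF.to_subtype
  obtain ⟨F', hf, hM, hF2⟩ : ∃ F' : Set (Dual k Φ), F'.Finite ∧ (∀ z ∈ F', ∃ j, z ∈ M j) ∧
      ∀ x ∈ F, x ∈ Submodule.span k F' := by
    have : ∀ x : F, ∃ s : Set (Dual k Φ), s.Finite ∧ (∀ z ∈ s, ∃ j, z ∈ M j) ∧
        x.1 ∈ Submodule.span k s := fun x => by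
      have h0 := hF' _ x.2
      rw [Submodule.iSup_eq_span] at h0
      obtain ⟨s, h1, h2⟩ := Submodule.mem_span_finite_of_mem_span h0
      exact ⟨s, s.finite_toSet, fun z hz => Set.mem_iUnion.1 (h1 hz), h2⟩
    choose s hs using this
    refine ⟨⋃ x, s x, Set.finite_iUnion fun x => (hs x).1, fun z hz => ?_, fun x hx =>
      Submodule.span_mono (Set.subset_iUnion s ⟨x, hx⟩) (hs ⟨x, hx⟩).2.2⟩
    obtain ⟨x, hx⟩ := Set.mem_iUnion.1 hz
    exact (hs x).2.1 z hx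
  have h1 : Submodule.span k F' ≤ iSup M := Submodule.span_le.2 fun z hz =>
    let ⟨j, hj⟩ := hM z hz; Submodule.mem_iSup_of_mem j hj
  have h2 : ∀ i, Submodule.span k F' ≤ (Submodule.span k F').comap (π i) := fun i =>
    Submodule.span_le.2 fun z hz => by
      obtain ⟨j, hj⟩ := hM z hz
      show π i z ∈ Submodule.span k F'
      by_cases e : i = j
      · subst e; rw [H.p2 i z hj]; exact Submodule.subset_span hz
      · rw [H.p3 i j e z hj]; exact zero_mem _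
  obtain ⟨g, g1, g2, g3⟩ := homog2 H ha hb (S := (dg P, dg F'))
    ⟨dg_bj hP, dg_bj hf, fun r hr => by
      rw [(dg_eq hr).2]; exact ⟨h1 (dg_eq hr).1, h1 (dg_eq hr).1, fun i => ⟨_, h2 i (dg_eq hr).1, rfl⟩⟩,
      fun r hr => by rw [(dg_eq hr).2]; exact LinearMap.eqOn_span h (dg_eq hr).1,
      fun r hr s hs => by rw [(dg_eq hr).2, (dg_eq hs).2]⟩
  refine ⟨g, ⟨fun x hx => ?_, fun φ hφ => g1 _ (dg_mem hφ)⟩, g2⟩
  exact g3 (x, x) ⟨x, hF2 x hx, rfl⟩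

theorem dns (H : Hyp M π) {a c t : Dual k Φ} (ha : a ∉ iSup M) (hc : c ≠ 0) (hac : a + c ≠ 0)
    {P : Set Φ} (hP : P.Finite) : ∃ h ∈ HH (M := M) a, ∀ φ ∈ P,
      (h.1.1 (a + c) - a) φ = t φ := by
  have := H.iP
  have ha0 : a ≠ 0 := fun h => ha (h ▸ zero_mem _)
  let f := (LinearMap.toSpanSingleton k _ a).coprod (LinearMap.toSpanSingleton k _ t)
  let f' := (LinearMap.toSpanSingleton k _ a).coprod (LinearMap.toSpanSingleton k _ c)
  have hf : ∀ i, f' i = 0 → f i = 0 := by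
    rintro ⟨i, j⟩
    rcases z2 i with rfl | rfl <;> rcases z2 j with rfl | rfl <;> simp [f, f', ha0, hc, hac]
  have : ∃ R, Gd f f' R ∧ ∀ φ ∈ P, ∃ y, (φ, y) ∈ R := by
    induction P, hP using Set.Finite.induction_on with
    | empty => exact ⟨⊥, ⟨bj_bot.1, bj_bot.2, fun r hr i => by
        rw [Submodule.mem_bot] at hr; simp [hr]⟩, by simp⟩
    | @insert x s _ _ ih =>
      obtain ⟨R, h1, h2⟩ := ih
      obtain ⟨R', h3, h4, h5⟩ := ext1 hf h1 x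
      refine ⟨R', h4, ?_⟩
      rintro φ (rfl | h)
      · exact h5
      · obtain ⟨y, hy⟩ := h2 φ h
        exact ⟨y, h3 hy⟩
  obtain ⟨R, h1, h2⟩ := this
  obtain ⟨g, g1, g2, -⟩ := homog2 H ha ha (S := (sw R, ⊥))
    ⟨⟨h1.sw.1, h1.sw.2.1⟩, bj_bot, fun s hs => by rw [Submodule.mem_bot] at hs; simp [hs],
      fun r hr => by simpa [f, f'] using h1.sw.2.2 r hr (1, 0),
      fun r hr s hs => by rw [Submodule.mem_bot] at hs; simp [hs]⟩
  refine ⟨g, g2, fun φ hφ => ?_⟩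
  obtain ⟨y, hy⟩ := h2 φ hφ
  have e1 : g.1.2 y = φ := g1 (y, φ) hy
  have e2 := g.2.1 (a + c) a y
  rw [g2, e1] at e2
  rw [e2]
  simpa [f, f'] using (h1.2.2 _ hy (0, 1)).symm

theorem HH_max (H : Hyp M π) {a : Dual k Φ} (ha : a ∉ iSup M) (K : Subgroup (GG M))
    (hK : IsClosed (K : Set (GG M))) (h : HH a < K) : K = ⊤ := by
  obtain ⟨κ, h1, h2⟩ := SetLike.exists_of_lt h
  refine eq_top_iff.2 fun g _ => mem_of hK g ?_
  rintro _ ⟨F, P, hF, hF', hP, rfl⟩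
  have hb : κ.1.1 a ∉ iSup M := fun e => ha ((κ.2.2.2 a).2 e)
  obtain ⟨η, e1, e2⟩ := dns H (c := κ.1.1 a - a) (t := g.1.1 a - a) ha (sub_ne_zero.2 h2)
    (fun e => hb (by rw [add_sub_cancel] at e; rw [e]; exact zero_mem _)) (hP.image g.1.2)
  rw [add_sub_cancel] at e2
  obtain ⟨u, hu, e3⟩ := opn H ha (b := (g⁻¹ * η * κ).1.1 a)
    (fun e => ha (((g⁻¹ * η * κ).2.2.2 a).2 e)) hF hF' hP (fun φ hφ => by
      have e4 := g.2.1 ((g⁻¹ * η * κ).1.1 a) a φ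
      have e5 := e2 _ ⟨φ, hφ, rfl⟩
      have e6 : g.1.1 ((g⁻¹ * η * κ).1.1 a) = η.1.1 (κ.1.1 a) := by simp
      rw [e6] at e4
      simp only [LinearMap.sub_apply, sub_left_inj] at e4 e5
      rw [e5, sub_self, eq_comm, sub_eq_zero] at e4
      exact e4.symm)
  refine ⟨u, hu, ?_⟩
  have : (g⁻¹ * η * κ)⁻¹ * u ∈ HH a := by
    show (g⁻¹ * η * κ).1.1⁻¹ (u.1.1 a) = a
    rw [e3]; simp
  have := K.mul_mem (K.mul_mem (h.le e1) h1) (h.le this)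
  simpa [mul_assoc] using this

theorem HH_core (H : Hyp M π) (a : Dual k Φ) : (HH (M := M) a).normalCore = ⊥ := by
  refine eq_bot_iff.2 fun g hg => ?_
  have h0 : g.1.1 a = a := Subgroup.normalCore_le _ hg
  refine geq (h := 1) (Equiv.ext fun φ => ?_) a h0
  refine sub_eq_zero.1 (H.dM 0 _ fun m hm => ?_)
  have h1 : g.1.1 (a - m) + m = a := by
    simpa [tr, sub_eq_add_neg] using (show _ = a from hg (tr m (Submodule.mem_iSup_of_mem 0 hm)))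
  have := g.2.1 a (a - m) φ
  rw [h0, eq_sub_of_add_eq h1] at this
  simpa [sub_eq_zero] using this

theorem TT_min (H : Hyp M π) {a : Dual k Φ} (ha : a ∉ iSup M) (j : ℕ) (P : Subgroup (GG M))
    (hP : P.Normal) (h0 : P ≠ ⊥) (hle : P ≤ TT (M j)) : P = TT (M j) := by
  obtain ⟨⟨p, hp⟩, hp1⟩ := Subgroup.ne_bot_iff_exists_ne_one.1 h0
  have hpM := hle hp
  have hm : p.1.1 0 ≠ 0 := fun e => hp1 (Subtype.ext (geq (h := 1) hpM.1 0 e))
  refine le_antisymm hle fun t ht => ?_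
  by_cases ht0 : t.1.1 0 = 0
  · rw [geq (h := 1) ht.1 0 ht0]; exact P.one_mem
  let s : Dual k Φ × Dual k Φ := (p.1.1 0, t.1.1 0)
  have hs : ∀ r ∈ k ∙ s, r = 0 ∨ r = s := by
    intro r hr
    obtain ⟨c, rfl⟩ := Submodule.mem_span_singleton.1 hr
    rcases z2 c with rfl | rfl <;> simp
  obtain ⟨g, -, -, g3⟩ := homog2 H ha ha (S := (⊥, k ∙ s))
    ⟨bj_bot, ⟨(Set.toFinite {0, s}).subset hs, fun r hr => by
      rcases hs r hr with rfl | rfl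
      · simp
      · simp [s, hm, ht0]⟩, fun r hr => by
      rcases hs r hr with rfl | rfl
      · exact ⟨zero_mem _, zero_mem _, fun i => by
          rw [Prod.fst_zero, Prod.snd_zero, map_zero]; exact hr⟩
      · refine ⟨Submodule.mem_iSup_of_mem j hpM.2, Submodule.mem_iSup_of_mem j ht.2, fun i => ?_⟩
        by_cases e : i = j
        · subst e; rw [H.p2 i _ hpM.2, H.p2 i _ ht.2]; exact hr
        · rw [H.p3 i j e _ hpM.2, H.p3 i j e _ ht.2]; exact zero_mem _,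
      fun r hr => by rw [Submodule.mem_bot] at hr; simp [hr],
      fun r hr s hs => by rw [Submodule.mem_bot] at hr; simp [hr]⟩
  have e0 : g.1.1 0 = 0 := g3 0 (zero_mem _)
  have e1 : g.1.1 (p.1.1 0) = t.1.1 0 := g3 s (Submodule.mem_span_singleton_self _)
  have : t = g * p * g⁻¹ := geq (by simp [ht.1, hpM.1]) 0 (by
    show _ = g.1.1 (p.1.1 (g.1.1⁻¹ 0))
    rw [Equiv.Perm.inv_eq_iff_eq.2 e0.symm, e1])
  rw [this]
  exact hP.conj_mem p hp g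
end G


abbrev W := ℕ × ℕ →₀ k

def cd (n : ℕ) : ℕ × ℕ := n.unpair.1.unpair

noncomputable def T3 : W →ₗ[k] (ℕ → k) where
  toFun c j := Finsupp.mapDomain Prod.snd c j + if j = 0 then 0 else c (cd (j - 1))
  map_add' x y := by
    funext j
    simp only [Finsupp.mapDomain_add, Finsupp.add_apply, Pi.add_apply]; split_ifs <;> ring
  map_smul' c x := by funext j; simp [mul_add, Finsupp.mapDomain_smul]

noncomputable def em (i : ℕ) : Ph →ₗ[k] W := Finsupp.lmapDomain k k (Prod.mk i)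
noncomputable def co (i : ℕ) : W →ₗ[k] Ph := Finsupp.lcomapDomain (Prod.mk i) (Prod.mk_right_injective i)

noncomputable def M0 (i : ℕ) := LinearMap.range (D ∘ₗ (T3 ∘ₗ em i))

theorem T3inj : Function.Injective (D ∘ₗ T3) := by
  rw [injective_iff_map_eq_zero]
  intro d h
  ext p
  obtain ⟨_, ⟨t, rfl⟩, ht⟩ := (Set.infinite_range_of_injective
    (f := fun t => Nat.pair (Nat.pair p.1 p.2) t + 1)
    (fun s t e => by simpa using e)).exists_notMem_finset (d.mapDomain Prod.snd).support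
  have := LinearMap.congr_fun h (Finsupp.single (Nat.pair (Nat.pair p.1 p.2) t + 1) 1)
  rw [Finsupp.notMem_support_iff] at ht
  simpa [D_s, T3, ht, cd] using this

theorem hyp : ∃ π, Hyp M0 π := by
  obtain ⟨q, hq⟩ := (D ∘ₗ T3).exists_leftInverse_of_injective (LinearMap.ker_eq_bot.2 T3inj)
  have hq' : ∀ c, q (D (T3 c)) = c := fun c => LinearMap.congr_fun hq c
  have d : ∀ i φ, (∀ m ∈ M0 i, m φ = 0) → φ = 0 := fun i => tri (T3 ∘ₗ em i) fun n j h => by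
    have := Nat.unpair_left_le (j - 1)
    have := Nat.unpair_right_le (j - 1).unpair.1
    simp only [T3, em, LinearMap.coe_comp, Function.comp_apply, Finsupp.lmapDomain_apply,
      Finsupp.mapDomain_single, LinearMap.coe_mk, AddHom.coe_mk, Finsupp.single_apply, cd,
      Prod.ext_iff]
    split_ifs <;> first | omega | simp
  refine ⟨fun i => (D ∘ₗ (T3 ∘ₗ em i)) ∘ₗ co i ∘ₗ q, inferInstance,
    fun i => (Set.countable_range _).to_subtype, inferInstance, fun i => inf _ (d i), d,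
    fun i x => ⟨_, rfl⟩, ?_, ?_⟩
  · rintro i _ ⟨c, rfl⟩
    have : co i (em i c) = c := Finsupp.comapDomain_mapDomain _ (Prod.mk_right_injective i) c
    simp [hq', this]
  · rintro i j e _ ⟨c, rfl⟩
    have : co i (em j c) = 0 := by
      ext n
      exact Finsupp.mapDomain_of_notMem_range _ _ (by rintro ⟨m, hm⟩; exact e (congrArg Prod.fst hm).symm)
    simp [hq', this]

theorem exa : ∃ a, a ∉ iSup M0 := by
  by_contra hh
  push Not at hh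
  have h0 : iSup M0 ≤ LinearMap.range (D ∘ₗ T3) := iSup_le fun i => by
    rintro _ ⟨c, rfl⟩; exact ⟨_, rfl⟩
  have h1 : Countable (Dual k Ph) :=
    Function.Surjective.countable (f := D ∘ₗ T3) fun x => h0 (hh x)
  obtain ⟨e, he⟩ := exists_surjective_nat (Dual k Ph)
  obtain ⟨n, hn⟩ := he (D fun j => e j (Finsupp.single j 1) + 1)
  have := D_s (fun j => e j (Finsupp.single j 1) + 1) n
  rw [← hn] at this
  simp at this

theorem main : ∃ (G : Type) (_ : Group G) (_ : TopologicalSpace G) (_ : IsTopologicalGroup G)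
    (H : Subgroup G) (A : ℕ → Subgroup G), IsClosed (H : Set G) ∧ H ≠ ⊤ ∧
    (∀ K : Subgroup G, IsClosed (K : Set G) → H < K → K = ⊤) ∧ H.normalCore = ⊥ ∧
    Function.Injective A ∧ ∀ i, IsClosed (A i : Set G) ∧ (A i).Normal ∧ A i ≠ ⊥ ∧
      ∀ P : Subgroup G, P.Normal → P ≠ ⊥ → P ≤ A i → P = A i := by
  obtain ⟨a, ha⟩ := exa
  obtain ⟨π, H⟩ := hyp
  have := H.iM
  refine ⟨GG M0, inferInstance, inferInstance, inferInstance, HH a, fun i => TT (M0 i), HH_closed a,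
    fun h => ?_, HH_max H ha, HH_core H a, fun i j e => ?_, fun i => ⟨TT_closed _,
    TT_normal _ fun g => g.2.2.1 i, TT_ne (le_iSup M0 i), TT_min H ha i⟩⟩
  · have h1 := HH_core H a
    rw [h, Subgroup.normalCore_eq_self] at h1
    exact TT_ne (M := M0) (L := M0 0) (le_iSup M0 0) (eq_bot_iff.2 (h1 ▸ le_top))
  · by_contra hij
    refine TT_ne (M := M0) (L := M0 i) (le_iSup M0 i) (eq_bot_iff.2 fun g hg => ?_)
    have hg' : g ∈ TT (M := M0) (M0 j) := (show TT (M := M0) (M0 i) = TT (M0 j) from e) ▸ hg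
    exact geq (h := 1) hg.1 0 ((H.p2 i _ hg.2).symm.trans (H.p3 i j hij _ hg'.2))

end Pool.Agent.H16.Coset3
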