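import Mathlib
set_option autoImplicit false
namespace Pool.Agent.H16.Rigid
open MvPolynomial Matrix

theorem T0 {τ : Type} [Finite τ] (Eqs : Set (MvPolynomial τ ℝ)) :
    {p : τ → ℝ | (∀ f ∈ Eqs, eval p f = 0) ∧ ∀ D : MvPolynomial τ ℝ →ₗ[ℝ] ℝ,
      (∀ f g, D (f * g) = eval p f * D g + eval p g * D f) → (∀ f ∈ Eqs, D f = 0) →
        ∀ i, D (X i) = 0}.Finite := by
  refine Set.Finite.of_injOn (f := fun p => RingHom.ker (eval p))
    (t := (Ideal.span Eqs).minimalPrimes) ?_ ?_ (Ideal.finite_minimalPrimes_of_isNoetherianRing _ _)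
  · rintro p ⟨h1, h2⟩
    set m := RingHom.ker (eval p) with hm
    have hI : Ideal.span Eqs ≤ m := Ideal.span_le.2 h1
    have key : m ≤ Ideal.span Eqs ⊔ m • m := by
      intro f hf
      by_contra hn
      obtain ⟨l, l1, l2⟩ := Submodule.exists_dual_map_eq_bot_of_notMem
        (p := (Ideal.span Eqs ⊔ m • m).restrictScalars ℝ) hn inferInstance
      have l3 : ∀ g ∈ Ideal.span Eqs ⊔ m • m, l g = 0 := fun g hg => by
        have : l g ∈ Submodule.map l ((Ideal.span Eqs ⊔ m • m).restrictScalars ℝ) := ⟨g, hg, rfl⟩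
        rwa [l2] at this
      let D : MvPolynomial τ ℝ →ₗ[ℝ] ℝ :=
        l ∘ₗ (LinearMap.id - Algebra.linearMap ℝ _ ∘ₗ (aeval p).toLinearMap)
      have hD : ∀ g, D g = l (g - C (eval p g)) := fun g => by simp [D, coe_aeval_eq_eval]
      have hm' : ∀ g, g - C (eval p g) ∈ m := fun g => by simp [hm, RingHom.mem_ker]
      have Leib : ∀ f g, D (f * g) = eval p f * D g + eval p g * D f := by
        intro f g
        rw [hD, hD, hD, ← smul_eq_mul (eval p f) (l _), ← smul_eq_mul (eval p g) (l _),
          ← map_smul, ← map_smul, ← map_add, ← sub_eq_zero, ← map_sub]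
        apply l3
        apply Submodule.mem_sup_right
        have := Submodule.smul_mem_smul (hm' f) (hm' g)
        convert this using 1
        simp only [smul_eq_C_mul, map_mul, smul_eq_mul]
        ring
      have hX := h2 D Leib fun g hg => by
        rw [hD, h1 g hg, map_zero, sub_zero]
        exact l3 _ (Submodule.mem_sup_left (Ideal.subset_span hg))
      have all : ∀ g, D g = 0 := by
        intro g
        induction g using MvPolynomial.induction_on with
        | C a => rw [hD]; simp
        | add f g i1 i2 => rw [map_add, i1, i2, add_zero]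
        | mul_X f i i1 => rw [Leib, i1, hX]; simp
      have := all f
      rw [hD, (RingHom.mem_ker).1 hf, map_zero, sub_zero] at this
      exact l1 this
    obtain ⟨r, r1, r2⟩ := Submodule.exists_sub_one_mem_and_smul_le_of_fg_of_le_sup
      (IsNoetherian.noetherian m) le_rfl key
    refine ⟨⟨RingHom.ker_isPrime _, hI⟩, fun q hq hqm f hf => ?_⟩
    have : r * f ∈ q := hq.2 (r2 (Submodule.smul_mem_pointwise_smul f r m hf))
    rcases hq.1.mem_or_mem this with h | h
    · have h1 : (1 : MvPolynomial τ ℝ) ∈ m := by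
        have := m.sub_mem (hqm h) r1
        simpa using this
      simp [hm, RingHom.mem_ker] at h1
    · exact h
  · intro p _ p' _ h
    funext i
    have h : RingHom.ker (eval p) = RingHom.ker (eval p') := h
    have : X i - C (p i) ∈ RingHom.ker (eval p) := by simp [RingHom.mem_ker]
    rw [h, RingHom.mem_ker] at this
    simp only [map_sub, eval_X, eval_C] at this
    linarith

theorem proj {m : ℕ} (W : Submodule ℝ (Fin m → ℝ)) : ∃ P : Matrix (Fin m) (Fin m) ℝ,
    Pᵀ = P ∧ (∀ v, P *ᵥ v ∈ W) ∧ ∀ w ∈ W, P *ᵥ w = w := by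
  let W' : Submodule ℝ (EuclideanSpace ℝ (Fin m)) :=
    W.comap (WithLp.linearEquiv 2 ℝ (Fin m → ℝ)).toLinearMap
  let Q : EuclideanSpace ℝ (Fin m) →ₗ[ℝ] EuclideanSpace ℝ (Fin m) := W'.starProjection
  have e : ∀ v, Matrix.toEuclideanLin.symm Q *ᵥ v = (Q (WithLp.toLp 2 v)).ofLp := fun v => by
    have := Matrix.ofLp_toEuclideanLin_apply (Matrix.toEuclideanLin.symm Q) (WithLp.toLp 2 v)
    rw [LinearEquiv.apply_symm_apply] at this
    exact this.symm
  refine ⟨Matrix.toEuclideanLin.symm Q, ?_, fun v => ?_, fun w hw => ?_⟩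
  · have : (Matrix.toEuclideanLin.symm Q).IsHermitian := by
      rw [← Matrix.isSymmetric_toEuclideanLin_iff, LinearEquiv.apply_symm_apply]
      exact W'.starProjection_isSymmetric
    simpa [Matrix.IsHermitian, Matrix.conjTranspose_eq_transpose_of_trivial] using this
  · rw [e]
    exact W'.starProjection_apply_mem (WithLp.toLp 2 v)
  · rw [e]
    have : W'.starProjection (WithLp.toLp 2 w) = WithLp.toLp 2 w :=
      Submodule.starProjection_eq_self_iff.2 hw
    exact congrArg WithLp.ofLp this

theorem T {m : ℕ} {H : Type} [AddCommGroup H] [Module ℝ H]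
    (br : (Fin m → ℝ) →ₗ[ℝ] (Fin m → ℝ) →ₗ[ℝ] H) (hs : ∀ u v, br u v = - br v u) :
    {W : Submodule ℝ (Fin m → ℝ) | (∀ w ∈ W, ∀ w' ∈ W, br w w' = 0) ∧
      ∀ φ : (Fin m → ℝ) → (Fin m → ℝ), (∀ w ∈ W, ∀ w' ∈ W, br (φ w) w' = br (φ w') w) →
        ∀ w ∈ W, φ w ∈ W}.Finite := by
  classical
  choose P P1 P2 P3 using @proj m
  let lin : Fin m → (Fin m → ℝ) → MvPolynomial (Fin m × Fin m) ℝ :=
    fun a x => ∑ u, x u • X (a, u)
  let Eqs : Set (MvPolynomial (Fin m × Fin m) ℝ) :=
    {f | (∃ a b, f = X (a, b) - X (b, a)) ∨ (∃ a b, f = ∑ c, X (a, c) * X (c, b) - X (a, b)) ∨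
      ∃ (g : Module.Dual ℝ H) (x y : Fin m → ℝ),
        f = ∑ a, ∑ b, g (br (Pi.single a 1) (Pi.single b 1)) • (lin a x * lin b y)}
  have ex : ∀ (g : Module.Dual ℝ H) (s t : Fin m → ℝ), g (br s t) =
      ∑ a, ∑ b, g (br (Pi.single a 1) (Pi.single b 1)) * (s a * t b) := by
    intro g s t
    conv_lhs => rw [← Finset.univ_sum_single s, ← Finset.univ_sum_single t]
    simp only [map_sum, LinearMap.sum_apply]
    rw [Finset.sum_comm]
    refine Finset.sum_congr rfl fun a _ => Finset.sum_congr rfl fun b _ => ?_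
    have e1 : (Pi.single a (s a) : Fin m → ℝ) = s a • Pi.single a 1 := by
      rw [← Pi.single_smul, smul_eq_mul, mul_one]
    have e2 : (Pi.single b (t b) : Fin m → ℝ) = t b • Pi.single b 1 := by
      rw [← Pi.single_smul, smul_eq_mul, mul_one]
    rw [e1, e2]
    simp only [map_smul, LinearMap.smul_apply, smul_eq_mul]
    ring
  refine Set.Finite.of_injOn (f := fun W => fun ab : Fin m × Fin m => P W ab.1 ab.2) ?_ ?_ (T0 Eqs)
  · rintro W ⟨h1, h2⟩
    have PP : P W * P W = P W := by
      apply Matrix.toLin'.injective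
      refine LinearMap.ext fun v => ?_
      simp only [Matrix.toLin'_apply, ← Matrix.mulVec_mulVec]
      exact P3 W _ (P2 W v)
    have ev : ∀ a x, eval (fun ab : Fin m × Fin m => P W ab.1 ab.2) (lin a x) = (P W *ᵥ x) a := by
      intro a x
      simp [lin, Matrix.mulVec, dotProduct, mul_comm]
    refine ⟨?_, fun D L hD => ?_⟩
    · rintro f (⟨a, b, rfl⟩ | ⟨a, b, rfl⟩ | ⟨g, x, y, rfl⟩)
      · have := congrFun (congrFun (P1 W) a) b
        simp only [map_sub, eval_X]
        rw [← this, Matrix.transpose_apply, sub_self]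
      · have := congrFun (congrFun PP a) b
        simp only [map_sub, map_sum, map_mul, eval_X]
        rw [← this, Matrix.mul_apply, sub_self]
      · simp only [map_sum, smul_eval, map_mul, ev]
        rw [← ex, h1 _ (P2 W x) _ (P2 W y), map_zero]
    · let δ : Matrix (Fin m) (Fin m) ℝ := Matrix.of fun a b => D (X (a, b))
      have d1 : δᵀ = δ := by
        ext a b
        have := hD _ (Or.inl ⟨b, a, rfl⟩)
        rw [map_sub, sub_eq_zero] at this
        exact this
      have d2 : P W * δ + δ * P W = δ := by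
        ext a b
        have := hD _ (Or.inr (Or.inl ⟨a, b, rfl⟩))
        rw [map_sub, sub_eq_zero, map_sum] at this
        simp only [L, eval_X] at this
        simp only [Matrix.add_apply, Matrix.mul_apply, δ, Matrix.of_apply, ← this,
          Finset.sum_add_distrib, mul_comm]
      have dl : ∀ a x, D (lin a x) = (δ *ᵥ x) a := by
        intro a x
        simp [lin, δ, Matrix.mulVec, dotProduct, mul_comm]
      have d3 : ∀ x y, br (P W *ᵥ x) (δ *ᵥ y) + br (δ *ᵥ x) (P W *ᵥ y) = 0 := by
        intro x y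
        refine (Module.forall_dual_apply_eq_zero_iff ℝ _).1 fun g => ?_
        have := hD _ (Or.inr (Or.inr ⟨g, x, y, rfl⟩))
        simp only [map_sum, map_smul, L, ev, dl, smul_eq_mul] at this
        rw [map_add, ex, ex g (δ *ᵥ x), ← this, ← Finset.sum_add_distrib]
        refine Finset.sum_congr rfl fun a _ => ?_
        rw [← Finset.sum_add_distrib]
        exact Finset.sum_congr rfl fun b _ => by ring
      have d4 := h2 (fun w => δ *ᵥ w) fun w hw w' hw' => by
        have := d3 w w'
        rw [P3 W w hw, P3 W w' hw', hs w] at this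
        exact (neg_add_eq_zero.1 this).symm
      have d5 : δ * P W = 0 := by
        apply Matrix.toLin'.injective
        refine LinearMap.ext fun v => ?_
        simp only [Matrix.toLin'_apply, ← Matrix.mulVec_mulVec, Matrix.zero_mulVec]
        have := congrArg (fun M => M *ᵥ (P W *ᵥ v)) d2
        simp only [Matrix.add_mulVec, ← Matrix.mulVec_mulVec] at this
        rw [P3 W _ (d4 _ (P2 W v)), P3 W _ (P2 W v)] at this
        simpa using this
      have d6 : P W * δ = 0 := by
        have := congrArg Matrix.transpose d5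
        rwa [Matrix.transpose_mul, d1, P1, Matrix.transpose_zero] at this
      rw [d5, d6, add_zero] at d2
      intro i
      exact (congrFun (congrFun d2 i.1) i.2).symm
  · intro W _ W' _ h
    have h : P W = P W' := by
      ext a b; exact congrFun h (a, b)
    ext w
    constructor
    · intro hw; rw [← P3 W w hw, h]; exact P2 W' w
    · intro hw; rw [← P3 W' w hw, ← h]; exact P2 W w

theorem Rat {ι κ κ' : Type} [Fintype ι] (u : ι → κ → ℤ) (β : ι → κ' → ℝ)
    (H : ∀ n : ι → ℤ, (∀ k, ∑ j, n j * u j k = 0) →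
      (∀ i, ∃ c : ℤ, ∑ j, (n j : ℝ) * β j i = c) ∧ ((∀ i, ∑ j, (n j : ℝ) * β j i = 0) → n = 0))
    (a : ι → ℝ) (h1 : ∀ k, ∑ j, a j * u j k = 0) (h2 : ∀ i, ∑ j, a j * β j i = 0) : a = 0 := by
  classical
  have HQ : ∀ q : ι → ℚ, (∀ k, ∑ j, q j * u j k = 0) →
      (∀ i, ∃ c : ℚ, ∑ j, (q j : ℝ) * β j i = c) ∧
        ((∀ i, ∑ j, (q j : ℝ) * β j i = 0) → q = 0) := by
    intro q hq
    obtain ⟨⟨d, hd⟩, hn⟩ := IsLocalization.exist_integer_multiples_of_finite (nonZeroDivisors ℤ) q
    choose n hn using hn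
    have hd0 : (d : ℚ) ≠ 0 := by exact_mod_cast nonZeroDivisors.ne_zero hd
    have hd1 : (d : ℝ) ≠ 0 := by exact_mod_cast nonZeroDivisors.ne_zero hd
    have hn : ∀ j, (n j : ℚ) = d * q j := fun j => by simpa using hn j
    have hn' : ∀ j, (n j : ℝ) = d * q j := fun j => by exact_mod_cast hn j
    have e : ∀ i, ∑ j, (n j : ℝ) * β j i = d * ∑ j, (q j : ℝ) * β j i := fun i => by
      simp only [hn', Finset.mul_sum, mul_assoc]
    obtain ⟨k1, k2⟩ := H n fun k => by
      have : ((∑ j, n j * u j k : ℤ) : ℚ) = d * ∑ j, q j * u j k := by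
        push_cast
        simp only [hn, Finset.mul_sum, mul_assoc]
      rw [hq, mul_zero] at this
      exact_mod_cast this
    refine ⟨fun i => ?_, fun h => ?_⟩
    · obtain ⟨c, hc⟩ := k1 i
      refine ⟨c / d, ?_⟩
      push_cast
      rw [← hc, e, mul_div_cancel_left₀ _ hd1]
    · have := k2 fun i => by rw [e, h, mul_zero]
      funext j
      have h3 := hn j
      rw [this] at h3
      simpa [hd0] using h3
  let h := Module.Basis.ofVectorSpace ℚ ℝ
  have s1 := fun k => HQ (fun j => h.repr (a j) k) fun k' => by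
    have := congrArg (fun x => h.repr x k) (h1 k')
    simp only [map_sum, map_zero, Finsupp.coe_finset_sum, Finset.sum_apply, Finsupp.coe_zero,
      Pi.zero_apply] at this
    rw [← this]
    refine Finset.sum_congr rfl fun j _ => ?_
    rw [mul_comm (a j), ← zsmul_eq_mul, map_zsmul]
    simp [mul_comm]
  choose c hc using fun k => (s1 k).1
  set S := Finset.univ.biUnion fun j => (h.repr (a j)).support with hS
  have ea : ∀ j, a j = ∑ k ∈ S, (h.repr (a j) k : ℝ) * h k := fun j => by
    conv_lhs => rw [← h.linearCombination_repr (a j)]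
    rw [Finsupp.linearCombination_apply, Finsupp.sum_of_support_subset _
      (Finset.subset_biUnion_of_mem (fun j => (h.repr (a j)).support) (Finset.mem_univ j))
      _ (by simp)]
    exact Finset.sum_congr rfl fun k _ => Rat.smul_def _ _
  have c0 : ∀ i, ∀ k ∈ S, c k i = 0 := fun i => by
    refine linearIndependent_iff'.1 h.linearIndependent S (fun k => c k i) ?_
    rw [← h2 i]
    simp only [Rat.smul_def, ← hc, Finset.sum_mul]
    rw [Finset.sum_comm]
    refine Finset.sum_congr rfl fun j _ => ?_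
    conv_rhs => rw [ea j, Finset.sum_mul]
    exact Finset.sum_congr rfl fun k _ => by ring
  funext j
  rw [ea j]
  refine Finset.sum_eq_zero fun k hk => ?_
  have := (s1 k).2 fun i => by rw [hc, c0 i k hk]; simp
  have := congrFun this j
  simp only [Pi.zero_apply] at this
  rw [this]; simp

end Pool.Agent.H16.Rigid
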