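import Mathlib
import Pool.Agent.H16.Rigid
set_option autoImplicit false
namespace Pool.Agent.H16.Cryst
open scoped commutatorElement

structure Re (ι : Type) (G : Type) [Group G] (B : (ι → ℝ) →ₗ[ℝ] (ι → ℝ) →ₗ[ℝ] ℝ) where
  A : G →* Module.End ℝ (ι → ℝ)
  t : G → ι → ℝ
  tm : ∀ g h, t (g * h) = t g + A g (t h)
  inj : ∀ g, A g = 1 → t g = 0 → g = 1
  b : Module.Basis ι ℝ (ι → ℝ)
  e : ι → G
  eA : ∀ j, A (e j) = 1
  et : ∀ j, t (e j) = b j
  lat : ∀ g, A g = 1 → t g ∈ Submodule.span ℤ (Set.range b)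
  orth : ∀ g v w, B (A g v) (A g w) = B v w

abbrev AA (ι : Type) := Module.End ℝ (ι → ℝ) × (ι → ℝ)

def br (ι : Type) : AA ι →ₗ[ℝ] AA ι →ₗ[ℝ] AA ι :=
  LinearMap.mk₂ ℝ (fun a c => (a.1 * c.1 - c.1 * a.1, a.1 c.2 - c.1 a.2))
    (fun a a' c => Prod.ext (by simp [add_mul, mul_add]; abel) (by simp; abel))
    (fun k a c => Prod.ext (by simp [smul_sub]) (by simp [smul_sub]))
    (fun a c c' => Prod.ext (by simp [add_mul, mul_add]; abel) (by simp; abel))
    (fun k a c => Prod.ext (by simp [smul_sub]) (by simp [smul_sub]))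

theorem br_apply {ι : Type} (a c : AA ι) :
    br ι a c = (a.1 * c.1 - c.1 * a.1, a.1 c.2 - c.1 a.2) := rfl

theorem br_skew {ι : Type} (a c : AA ι) : br ι a c = - br ι c a := by
  simp [br_apply]

namespace Re
variable {ι G : Type} [Group G] {B : (ι → ℝ) →ₗ[ℝ] (ι → ℝ) →ₗ[ℝ] ℝ} (r : Re ι G B)

def N (g : G) : Module.End ℝ (ι → ℝ) := r.A g - 1
noncomputable def l (g : G) : AA ι := (r.N g, r.t g - (1 / 2 : ℝ) • r.N g (r.t g))

theorem AN (g : G) : r.A g = 1 + r.N g := by simp [N]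

theorem ext' {x y : G} (h1 : r.A x = r.A y) (h2 : r.t x = r.t y) : x = y := by
  have a : r.A (x * y⁻¹) = 1 := by rw [map_mul, h1, ← map_mul, mul_inv_cancel, map_one]
  have := r.tm (x * y⁻¹) y
  rw [inv_mul_cancel_right, a, h2] at this
  exact mul_inv_eq_one.1 (r.inj _ a (by simpa using this))

theorem t1 : r.t 1 = 0 := by simpa using r.tm 1 1

theorem comm {x y : G} (hx : r.A x = 1) (hy : r.A y = 1) : x * y = y * x :=
  r.ext' (by simp [hx, hy]) (by simp [r.tm, hx, hy, add_comm])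

theorem cz (x z : G) : ⁅x, z⁆ * (z * x) = x * z := by simp [commutatorElement_def]

theorem inR (x : G) {z : G} (hz : r.A z = 1) : r.A ⁅x, z⁆ = 1 := by
  have hz' : r.A z⁻¹ = 1 := by simpa [hz] using (map_mul r.A z z⁻¹).symm
  rw [commutatorElement_def, map_mul, map_mul, map_mul, hz, hz', mul_one, mul_one, ← map_mul,
    mul_inv_cancel, map_one]

theorem inL {x : G} (z : G) (hx : r.A x = 1) : r.A ⁅x, z⁆ = 1 := by
  have hx' : r.A x⁻¹ = 1 := by simpa [hx] using (map_mul r.A x x⁻¹).symm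
  rw [commutatorElement_def, map_mul, map_mul, map_mul, hx, hx', mul_one, one_mul, ← map_mul,
    mul_inv_cancel, map_one]

theorem cm (x : G) {z : G} (hz : r.A z = 1) : r.t ⁅x, z⁆ = r.N x (r.t z) := by
  have := congrArg r.t (cz x z)
  rw [r.tm, r.tm, r.tm, r.inR x hz, hz, r.AN x] at this
  simp only [Module.End.one_apply, LinearMap.add_apply] at this
  linear_combination (exp := 1) this

theorem NN (s : Re ι G B) {x x' : G} (hx : s.A x = 1) (hx' : s.A x' = 1) :
    r.N x * r.N x' = 0 := by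
  refine r.b.ext fun i => ?_
  have h1 := r.inR x' (r.eA i)
  have h2 : ⁅x, ⁅x', r.e i⁆⁆ = 1 :=
    commutatorElement_eq_one_iff_mul_comm.2 (s.comm hx (s.inL _ hx'))
  rw [Module.End.mul_apply, ← r.et, ← r.cm _ (r.eA i), ← r.cm _ h1, h2, r.t1]
  rfl

theorem NN' (s : Re ι G B) {x x' : G} (hx : s.A x = 1) (hx' : s.A x' = 1) (v : ι → ℝ) :
    r.N x (r.N x' v) = 0 := LinearMap.congr_fun (r.NN s hx hx') v

theorem skew (s : Re ι G B) {x : G} (hx : s.A x = 1) (v w : ι → ℝ) :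
    B (r.N x v) w = - B v (r.N x w) := by
  have h1 := r.orth x v w
  have h2 := r.orth x v (r.N x w)
  rw [r.AN] at h1 h2
  simp only [LinearMap.add_apply, Module.End.one_apply, map_add, r.NN' s hx hx, map_zero] at h1 h2
  linarith

theorem Nt (s : Re ι G B) {x x' : G} (hx : s.A x = 1) (hx' : s.A x' = 1) :
    r.N x (r.t x') = r.N x' (r.t x) := by
  have := congrArg r.t (s.comm hx hx')
  rw [r.tm, r.tm, r.AN, r.AN] at this
  simp only [Module.End.one_apply, LinearMap.add_apply] at this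
  linear_combination (exp := 1) this

theorem l_mul (s : Re ι G B) {x x' : G} (hx : s.A x = 1) (hx' : s.A x' = 1) :
    r.l (x * x') = r.l x + r.l x' := by
  have h : r.N (x * x') = r.N x + r.N x' := by
    have := r.NN s hx hx'
    rw [N, map_mul, r.AN x, r.AN x']
    linear_combination (norm := noncomm_ring) this
  refine Prod.ext h ?_
  simp only [l, Prod.snd_add, h, r.tm, r.AN x, LinearMap.add_apply, Module.End.one_apply, map_add,
    r.NN' s hx hx, r.NN' s hx' hx, r.Nt s hx' hx]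
  module

theorem l_br (s s' : Re ι G B) {x z : G} (hx : s.A x = 1) (hz : s'.A z = 1) :
    r.l ⁅x, z⁆ = br ι (r.l x) (r.l z) := by
  have c1 := s.inL z hx
  have c2 := s'.inR x hz
  have h : r.N ⁅x, z⁆ = r.N x * r.N z - r.N z * r.N x := by
    have := congrArg r.A (cz x z)
    rw [map_mul, map_mul, map_mul, r.AN x, r.AN z, r.AN ⁅x, z⁆] at this
    have k1 := r.NN s c1 hx
    have k2 := r.NN s' c2 hz
    linear_combination (norm := noncomm_ring) this - k1 - k2 - k2 * r.N x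
  refine Prod.ext h ?_
  have e := congrArg r.t (cz x z)
  rw [r.tm, r.tm, r.tm, r.AN x, r.AN z, r.AN ⁅x, z⁆] at e
  simp only [LinearMap.add_apply, Module.End.one_apply, map_add, r.NN' s' c2 hz] at e
  have e' : r.t ⁅x, z⁆ = r.N x (r.t z) - r.N z (r.t x) - r.N ⁅x, z⁆ (r.t z) -
      r.N ⁅x, z⁆ (r.t x) := by linear_combination (exp := 1) e
  have k1 := r.Nt s c1 hx
  have k2 := r.Nt s' c2 hz
  rw [e'] at k1 k2
  simp only [map_sub, r.NN' s hx hx, r.NN' s hx c1, r.NN' s' hz hz, r.NN' s' hz c2] at k1 k2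
  have k3 := LinearMap.congr_fun h (r.t x)
  have k4 := LinearMap.congr_fun h (r.t z)
  simp only [LinearMap.sub_apply, Module.End.mul_apply] at k3 k4
  have k5 : r.N ⁅x, z⁆ (r.t ⁅x, z⁆) = 0 := by
    rw [e']
    simp only [map_sub, r.NN' s c1 hx, r.NN' s c1 c1, r.NN' s' c2 hz, sub_zero]
  simp only [l, br_apply, k5, map_sub, map_smul]
  rw [e']
  linear_combination (norm := module) (-(1 / 2 : ℝ)) • (k1 + k2 + k3 + k4)

noncomputable def J (s : Re ι G B) : (ι → ℝ) →ₗ[ℝ] AA ι := s.b.constr ℝ fun j => r.l (s.e j)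

theorem J_b (s : Re ι G B) (j : ι) : r.J s (s.b j) = r.l (s.e j) := s.b.constr_basis ℝ _ j

theorem l1 : r.l 1 = 0 := by simp [l, N, r.t1]

theorem J_ex (s : Re ι G B) {v : ι → ℝ} (hv : v ∈ Submodule.span ℤ (Set.range s.b)) :
    ∃ z, s.A z = 1 ∧ s.t z = v ∧ r.l z = r.J s v := by
  let S : AddSubgroup (ι → ℝ) :=
    { carrier := {v | ∃ z, s.A z = 1 ∧ s.t z = v ∧ r.l z = r.J s v}
      zero_mem' := ⟨1, map_one _, s.t1, by rw [r.l1, map_zero]⟩
      add_mem' := by
        rintro _ _ ⟨z, h1, rfl, h2⟩ ⟨z', h1', rfl, h2'⟩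
        exact ⟨z * z', by simp [h1, h1'], by simp [s.tm, h1],
          by rw [r.l_mul s h1 h1', map_add, h2, h2']⟩
      neg_mem' := by
        rintro _ ⟨z, h1, rfl, h2⟩
        have hz' : s.A z⁻¹ = 1 := by simpa [h1] using (map_mul s.A z z⁻¹).symm
        refine ⟨z⁻¹, hz', ?_, ?_⟩
        · have := s.tm z z⁻¹
          rw [mul_inv_cancel, s.t1, h1] at this
          exact eq_neg_of_add_eq_zero_right this.symm
        · have := r.l_mul s h1 hz'
          rw [mul_inv_cancel, r.l1] at this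
          rw [map_neg, ← h2]
          exact eq_neg_of_add_eq_zero_right this.symm }
  have : Submodule.span ℤ (Set.range s.b) ≤ S.toIntSubmodule := Submodule.span_le.2 <| by
    rintro _ ⟨j, rfl⟩
    exact ⟨s.e j, s.eA j, s.et j, (r.J_b s j).symm⟩
  exact this hv

theorem J_t (s : Re ι G B) {z : G} (hz : s.A z = 1) : r.J s (s.t z) = r.l z := by
  obtain ⟨z', h1, h2, h3⟩ := r.J_ex s (s.lat z hz)
  rw [← h3, s.ext' (h1.trans hz.symm) h2]

theorem J_inj [Fintype ι] (s : Re ι G B) {v : ι → ℝ} (hv : r.J s v = 0) : v = 0 := by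
  have hu : ∀ j (k : ι × ι), ∃ c : ℤ, (c : ℝ) = r.b.repr (r.N (s.e j) (r.b k.1)) k.2 := by
    intro j k
    have := r.lat _ (r.inR (s.e j) (r.eA k.1))
    rw [r.cm _ (r.eA k.1), r.et] at this
    exact (r.b.mem_span_iff_repr_mem ℤ _).1 this k.2
  choose u hu using hu
  have ex : ∀ a : ι → ℝ, r.J s (∑ j, a j • s.b j) = ∑ j, a j • r.l (s.e j) := fun a => by
    simp only [map_sum, map_smul, J_b]
  have e1 : ∀ (a : ι → ℝ) (k : ι × ι), ∑ j, a j * u j k =
      r.b.repr ((r.J s (∑ j, a j • s.b j)).1 (r.b k.1)) k.2 := fun a k => by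
    simp [ex, Prod.fst_sum, hu, l]
  have e2 : ∀ (a : ι → ℝ) (i : ι), ∑ j, a j * r.b.repr (r.l (s.e j)).2 i =
      r.b.repr (r.J s (∑ j, a j • s.b j)).2 i := fun a k => by
    simp [ex, Prod.snd_sum]
  have := Rigid.Rat u (fun j i => r.b.repr (r.l (s.e j)).2 i) ?_ (s.b.repr v)
    (fun k => by rw [e1, s.b.sum_repr, hv]; simp) (fun i => by rw [e2, s.b.sum_repr, hv]; simp)
  · rw [← s.b.sum_repr v, this]; simp
  intro n hn
  obtain ⟨z, z1, z2, z3⟩ := r.J_ex s (v := ∑ j, (n j : ℝ) • s.b j) <|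
    Submodule.sum_mem _ fun j _ => by
      rw [Int.cast_smul_eq_zsmul]
      exact Submodule.smul_mem _ _ (Submodule.subset_span ⟨j, rfl⟩)
  have hN : r.N z = 0 := by
    refine r.b.ext fun i => r.b.repr.injective (Finsupp.ext fun i' => ?_)
    have := e1 (fun j => n j) (i, i')
    rw [← z3] at this
    have h0 := congrArg (Int.cast : ℤ → ℝ) (hn (i, i'))
    push_cast at h0
    rw [h0] at this
    simpa [l] using this.symm
  have hA : r.A z = 1 := by rw [r.AN, hN, add_zero]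
  have e3 : ∀ i, ∑ j, (n j : ℝ) * r.b.repr (r.l (s.e j)).2 i = r.b.repr (r.t z) i := fun i => by
    rw [e2 (fun j => n j), ← z3]; simp [l, hN]
  refine ⟨fun i => ?_, fun h => ?_⟩
  · obtain ⟨c, hc⟩ := (r.b.mem_span_iff_repr_mem ℤ _).1 (r.lat z hA) i
    exact ⟨c, by rw [e3, ← hc]; rfl⟩
  · have : r.t z = 0 := r.b.repr.injective (Finsupp.ext fun i => by rw [← e3, h]; simp)
    rw [r.inj z hA this, s.t1] at z2
    funext j
    have := Fintype.linearIndependent_iff.1 s.b.linearIndependent _ z2.symm j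
    exact_mod_cast this

abbrev U (B : (ι → ℝ) →ₗ[ℝ] (ι → ℝ) →ₗ[ℝ] ℝ) (G : Type) [Group G] :=
  {x : G // ∃ s : Re ι G B, s.A x = 1}

noncomputable def L : (U B G →₀ ℝ) →ₗ[ℝ] AA ι := Finsupp.linearCombination ℝ fun x => r.l x.1

theorem L1 (x : U B G) (c : ℝ) : r.L (Finsupp.single x c) = c • r.l x.1 :=
  Finsupp.linearCombination_single _ _ _

theorem key (s : Re ι G B) (y : U B G →₀ ℝ) (v : ι → ℝ) :
    br ι (r.L y) (r.J s v) = r.J s ((s.L y).1 v) := by
  induction y using Finsupp.induction_linear with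
  | zero => simp
  | add y y' h h' => simp [h, h']
  | single x c =>
    obtain ⟨x, s', hx⟩ := x
    have : br ι (r.l x) ∘ₗ r.J s = r.J s ∘ₗ s.N x := s.b.ext fun j => by
      rw [LinearMap.comp_apply, LinearMap.comp_apply, J_b, ← r.l_br s' s hx (s.eA j),
        ← r.J_t s (s.inR x (s.eA j)), s.cm x (s.eA j), s.et]
    have := LinearMap.congr_fun this v
    simp only [LinearMap.comp_apply] at this
    simp only [L1, map_smul, LinearMap.smul_apply, this, Prod.smul_fst]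
    rfl

theorem skewL (y : U B G →₀ ℝ) (v w : ι → ℝ) : B ((r.L y).1 v) w = - B v ((r.L y).1 w) := by
  induction y using Finsupp.induction_linear with
  | zero => simp
  | add y y' h h' => simp [h, h']; ring
  | single x c =>
    obtain ⟨x, s', hx⟩ := x
    have := r.skew s' hx v w
    simp only [L1, map_smul, LinearMap.smul_apply, Prod.smul_fst, smul_eq_mul, l, this]
    ring

theorem K [Fintype ι] (s : Re ι G B) {y : U B G →₀ ℝ} (h : r.L y = 0) : (s.L y).1 = 0 :=
  LinearMap.ext fun v => r.J_inj s (by rw [← key, h]; simp)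

noncomputable def emb (s : Re ι G B) : (ι → ℝ) →ₗ[ℝ] (U B G →₀ ℝ) :=
  s.b.constr ℝ fun j => Finsupp.single ⟨s.e j, s, s.eA j⟩ 1

theorem L_emb (s : Re ι G B) (v : ι → ℝ) : r.L (emb s v) = r.J s v := by
  have : r.L ∘ₗ emb s = r.J s := s.b.ext fun j => by
    rw [LinearMap.comp_apply, J_b, emb, Module.Basis.constr_basis, L1, one_smul]
  exact LinearMap.congr_fun this v

theorem J_self (v : ι → ℝ) : r.J r v = (0, v) := by
  have : r.J r = LinearMap.inr ℝ _ _ := r.b.ext fun j => by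
    simp [J_b, l, N, r.eA, r.et]
  rw [this]; rfl

theorem central [Fintype ι] (s : Re ι G B) {k : U B G →₀ ℝ} (h : s.L k = 0) (y : U B G →₀ ℝ) :
    br ι (r.L k) (r.L y) = 0 := by
  induction y using Finsupp.induction_linear with
  | zero => simp
  | add y y' h h' => simp [h, h']
  | single x c =>
    obtain ⟨x, s', hx⟩ := x
    rw [L1, map_smul, ← r.J_t s' hx, key, s.K s' h]
    simp

theorem abel [Fintype ι] (s : Re ι G B) {y y' : U B G →₀ ℝ}
    (h : ∀ v, br ι (r.L y) (r.J s v) = 0) (h' : ∀ v, br ι (r.L y') (r.J s v) = 0) :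
    br ι (r.L y) (r.L y') = 0 := by
  have h0 : (s.L y).1 = 0 := LinearMap.ext fun v => r.J_inj s (by rw [← key, h])
  have := r.central s (k := y - emb s (s.L y).2) (by
    rw [map_sub, L_emb, J_self, ← h0]; simp) y'
  rw [map_sub, map_sub, L_emb, LinearMap.sub_apply, br_skew (r.J s _), h'] at this
  simpa using this

end Re

theorem par {A : Type} [AddCommGroup A] [Module ℝ A] [FiniteDimensional ℝ A]
    (p : Submodule ℝ A) : ∃ (m : ℕ) (ε : (Fin m → ℝ) →ₗ[ℝ] A), LinearMap.range ε = p :=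
  ⟨_, p.subtype ∘ₗ (Module.finBasis ℝ p).equivFun.symm.toLinearMap, by
    rw [LinearMap.range_comp, LinearEquiv.range, Submodule.map_top, Submodule.range_subtype]⟩

theorem main {ι G : Type} [Fintype ι] [Group G] (B : (ι → ℝ) →ₗ[ℝ] (ι → ℝ) →ₗ[ℝ] ℝ)
    (hB : ∀ v w, B v w = B w v) (hn : ∀ v, (∀ w, B v w = 0) → v = 0) :
    {L : Subgroup G | ∃ s : Re ι G B, ∀ g, g ∈ L ↔ s.A g = 1}.Finite := by
  rcases isEmpty_or_nonempty (Re ι G B) with h | ⟨⟨r⟩⟩
  · simp
  obtain ⟨m, ε, hε⟩ := par (LinearMap.range r.L)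
  have e1 : ∀ u, ∃ y, r.L y = ε u := fun u => hε.le ⟨u, rfl⟩
  have e2 : ∀ y, ∃ u, ε u = r.L y := fun y => hε.ge ⟨y, rfl⟩
  have hT := Rigid.T ((br ι).compl₁₂ ε ε) fun u v => br_skew _ _
  let Φ := fun W : Submodule ℝ (Fin m → ℝ) =>
    {g : G | (∃ s : Re ι G B, s.A g = 1) ∧ ∃ u ∈ W, ε u = r.l g}
  refine Set.Finite.subset ((hT.image Φ).preimage SetLike.coe_injective.injOn) ?_
  rintro L ⟨s, hL⟩
  let W : Submodule ℝ (Fin m → ℝ) :=
    { carrier := {u | ∀ v, br ι (ε u) (r.J s v) = 0}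
      zero_mem' := fun v => by simp
      add_mem' := fun h h' v => by rw [map_add, map_add, LinearMap.add_apply, h, h', add_zero]
      smul_mem' := fun c u h v => by rw [map_smul, map_smul, LinearMap.smul_apply, h, smul_zero] }
  have ab : ∀ w ∈ W, ∀ w' ∈ W, br ι (ε w) (ε w') = 0 := by
    intro w hw w' hw'
    obtain ⟨y, hy⟩ := e1 w
    obtain ⟨y', hy'⟩ := e1 w'
    rw [← hy, ← hy']
    exact r.abel s (hy ▸ hw) (hy' ▸ hw')
  refine ⟨W, ⟨ab, fun φ hφ w hw v => ?_⟩, ?_⟩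
  · choose a ha using fun v => e2 (Re.emb s v)
    simp only [Re.L_emb] at ha
    have aW : ∀ v, a v ∈ W := fun v v' => by
      rw [ha, ← r.L_emb, Re.key, Re.L_emb, Re.J_self]; simp
    choose y hy using fun v => e1 (φ (a v))
    have sy : ∀ v v', (s.L (y v)).1 v' = (s.L (y v')).1 v := fun v v' => by
      have : br ι (ε (φ (a v))) (ε (a v')) = br ι (ε (φ (a v'))) (ε (a v)) :=
        hφ _ (aW v) _ (aW v')
      rw [← hy, ← hy, ha, ha, Re.key, Re.key, ← sub_eq_zero, ← map_sub] at this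
      exact sub_eq_zero.1 (r.J_inj s this)
    have z : ∀ v v', (s.L (y v)).1 v' = 0 := fun v v' => hn _ fun w => by
      have h1 := s.skewL (y v) v' w
      have h2 := s.skewL (y w) v v'
      have h3 := s.skewL (y v') w v
      rw [sy v w, hB v'] at h1
      rw [sy w v', hB v] at h2
      rw [sy v' v, hB w] at h3
      linarith
    have : br ι (ε (φ w)) (ε (a v)) = br ι (ε (φ (a v))) (ε w) := hφ _ hw _ (aW v)
    rw [← ha, this]
    exact ab _ (fun v' => by rw [← hy, Re.key, z, map_zero]) _ hw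
  · ext g
    rw [SetLike.mem_coe, hL]
    constructor
    · rintro ⟨h, u, hu, e⟩
      have : s.N g = 0 := LinearMap.ext fun v => r.J_inj s <| by
        have h1 := r.key s (Finsupp.single ⟨g, h⟩ 1) v
        rw [Re.L1, Re.L1, one_smul, one_smul, ← e, hu] at h1
        exact h1.symm
      rw [s.AN, this, add_zero]
    · intro h
      obtain ⟨u, hu⟩ := e2 (Finsupp.single ⟨g, s, h⟩ 1)
      refine ⟨⟨s, h⟩, u, fun v => ?_, by rw [hu, Re.L1, one_smul]⟩
      rw [hu, Re.key, Re.L1]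
      simp [Re.l, Re.N, h]

end Pool.Agent.H16.Cryst
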