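import Mathlib

set_option autoImplicit false

namespace Pool.Agent.H16.FSAlg

open Filter Topology
open scoped InnerProductSpace TensorProduct

/-- A unitary representation of `G` on a complex Hilbert space. -/
structure URep (G : Type) [Group G] where
  H : Type
  [n : NormedAddCommGroup H]
  [i : InnerProductSpace ℂ H]
  [c : CompleteSpace H]
  π : G →* (H →L[ℂ] H)
  iso : ∀ g x, ‖π g x‖ = ‖x‖

variable {G : Type} [Group G]

instance (ρ : URep G) : NormedAddCommGroup ρ.H := ρ.n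
instance (ρ : URep G) : InnerProductSpace ℂ ρ.H := ρ.i
instance (ρ : URep G) : CompleteSpace ρ.H := ρ.c

/-- The operator `∑ a(g) π(g)` attached to an element `a` of the group algebra. -/
noncomputable def op (ρ : URep G) (a : G →₀ ℂ) : ρ.H →L[ℂ] ρ.H := a.sum fun g c => c • ρ.π g

/-- The norm of the full group C*-algebra on the group algebra. -/
noncomputable def cnorm (a : G →₀ ℂ) : ℝ := ⨆ ρ : URep G, ‖op ρ a‖

/-- The Fourier-Stieltjes algebra: all coefficient functions of unitary representations. -/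
def B (G : Type) [Group G] : Set (G → ℂ) :=
  {f | ∃ (ρ : URep G) (ξ η : ρ.H), ∀ g, f g = ⟪η, ρ.π g ξ⟫_ℂ}

/-- The pairing of a function with an element of the group algebra. -/
noncomputable def pair (f : G → ℂ) (a : G →₀ ℂ) : ℂ := a.sum fun g c => c * f g

/-- Cauchy sequences for the C*-norm; they represent the elements of `C*(G)`. -/
def Cau (x : ℕ → G →₀ ℂ) : Prop := ∀ ε > 0, ∃ N, ∀ m ≥ N, ∀ n ≥ N, cnorm (x m - x n) < ε

/-- The duality between `B(G)` and `C*(G)`. -/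
noncomputable def dual (f : G → ℂ) (x : ℕ → G →₀ ℂ) : ℂ := limUnder atTop fun n => pair f (x n)

/-- The weak* topology of `B(G) = C*(G)*`. -/
@[reducible] noncomputable def weakStar (G : Type) [Group G] : TopologicalSpace (B G) :=
  ⨅ x : {x : ℕ → G →₀ ℂ // Cau x}, TopologicalSpace.induced (fun f => dual f.1 x.1) inferInstance

lemma op_eq (ρ : URep G) (a : G →₀ ℂ) : op ρ a = Finsupp.linearCombination ℂ ρ.π a := rfl

omit [Group G] in
lemma pair_eq (f : G → ℂ) (a : G →₀ ℂ) : pair f a = Finsupp.linearCombination ℂ f a := rfl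

lemma π_le (ρ : URep G) (g : G) : ‖ρ.π g‖ ≤ 1 :=
  ContinuousLinearMap.opNorm_le_bound _ zero_le_one fun x => by rw [ρ.iso, one_mul]

lemma op_le (ρ : URep G) (a : G →₀ ℂ) : ‖op ρ a‖ ≤ cnorm a := by
  refine le_ciSup (f := fun ρ : URep G => ‖op ρ a‖) ⟨∑ g ∈ a.support, ‖a g‖, ?_⟩ ρ
  rintro _ ⟨ρ, rfl⟩
  refine norm_sum_le_of_le _ fun g _ => ?_
  rw [norm_smul]
  exact mul_le_of_le_one_right (norm_nonneg _) (π_le ρ g)

lemma cnorm_nonneg (a : G →₀ ℂ) : 0 ≤ cnorm a := Real.iSup_nonneg fun _ => norm_nonneg _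

lemma inner_π (ρ : URep G) (g : G) (x y : ρ.H) : ⟪ρ.π g x, ρ.π g y⟫_ℂ = ⟪x, y⟫_ℂ :=
  LinearIsometry.inner_map_map ⟨(ρ.π g).toLinearMap, ρ.iso g⟩ x y

lemma π_π (ρ : URep G) (g h : G) (x : ρ.H) : ρ.π g (ρ.π h x) = ρ.π (g * h) x := by
  rw [map_mul]; rfl

lemma star_π (ρ : URep G) (g : G) : star (ρ.π g) = ρ.π g⁻¹ :=
  ((ContinuousLinearMap.eq_adjoint_iff _ _).2 fun x y => by
    rw [← inner_π ρ g, π_π, mul_inv_cancel, map_one]; rfl).symm

lemma pair_coef {f : G → ℂ} {ρ : URep G} {ξ η : ρ.H} (h : ∀ g, f g = ⟪η, ρ.π g ξ⟫_ℂ)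
    (a : G →₀ ℂ) : pair f a = ⟪η, op ρ a ξ⟫_ℂ := by
  simp [pair, op, Finsupp.sum, h]

def Bd (f : G → ℂ) (C : ℝ) : Prop :=
  ∃ (ρ : URep G) (ξ η : ρ.H), (∀ g, f g = ⟪η, ρ.π g ξ⟫_ℂ) ∧ ‖η‖ * ‖ξ‖ ≤ C

lemma Bd.mem {f : G → ℂ} {C : ℝ} (h : Bd f C) : f ∈ B G := by
  obtain ⟨ρ, ξ, η, h, _⟩ := h
  exact ⟨ρ, ξ, η, h⟩

lemma bd_of_mem {f : G → ℂ} (h : f ∈ B G) : ∃ C, Bd f C := by
  obtain ⟨ρ, ξ, η, h⟩ := h
  exact ⟨_, ρ, ξ, η, h, le_rfl⟩

lemma Bd.pair_le {f : G → ℂ} {C : ℝ} (h : Bd f C) (a : G →₀ ℂ) : ‖pair f a‖ ≤ C * cnorm a := by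
  obtain ⟨ρ, ξ, η, h, hC⟩ := h
  rw [pair_coef h]
  refine (norm_inner_le_norm _ _).trans ?_
  calc ‖η‖ * ‖op ρ a ξ‖ ≤ ‖η‖ * (cnorm a * ‖ξ‖) := by
        gcongr; exact (op ρ a).le_of_opNorm_le (op_le ρ a) ξ
    _ = ‖η‖ * ‖ξ‖ * cnorm a := by ring
    _ ≤ _ := mul_le_mul_of_nonneg_right hC (cnorm_nonneg a)

lemma Bd.le {f : G → ℂ} {C : ℝ} (h : Bd f C) (g : G) : ‖f g‖ ≤ C := by
  obtain ⟨ρ, ξ, η, h, hC⟩ := h
  rw [h]
  exact (norm_inner_le_norm _ _).trans (by rwa [ρ.iso])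

noncomputable def ofPre {E : Type} [NormedAddCommGroup E] [InnerProductSpace ℂ E]
    (π : G → E →L[ℂ] E) (h1 : ∀ x, π 1 x = x) (hm : ∀ g h x, π (g * h) x = π g (π h x))
    (iso : ∀ g x, ‖π g x‖ = ‖x‖) : URep G where
  H := UniformSpace.Completion E
  π := { toFun g := (π g).completion
         map_one' := ContinuousLinearMap.ext fun x => by
          induction x using UniformSpace.Completion.induction_on with
          | hp => exact isClosed_eq (by fun_prop) (by fun_prop)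
          | ih x => simp [h1]
         map_mul' g h := ContinuousLinearMap.ext fun x => by
          induction x using UniformSpace.Completion.induction_on with
          | hp => exact isClosed_eq (by fun_prop) (by fun_prop)
          | ih x => simp [hm] }
  iso g x := by
    induction x using UniformSpace.Completion.induction_on with
    | hp => exact isClosed_eq (by fun_prop) (by fun_prop)
    | ih x => simp [iso]

lemma Bd.mul {f g : G → ℂ} {C D : ℝ} (hf : Bd f C) (hg : Bd g D) : Bd (f * g) (C * D) := by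
  obtain ⟨ρ, ξ, η, h, hC⟩ := hf
  obtain ⟨σ, ξ', η', h', hD⟩ := hg
  refine ⟨ofPre (E := ρ.H ⊗[ℂ] σ.H) (fun g => TensorProduct.mapL (ρ.π g) (σ.π g))
    (fun x => by simp [ContinuousLinearMap.one_def]) (fun g h x => by
      rw [map_mul, map_mul, TensorProduct.mapL_mul]; rfl) fun g x => by
      rw [TensorProduct.mapL_apply]
      exact TensorProduct.norm_map ⟨(ρ.π g).toLinearMap, ρ.iso g⟩ ⟨(σ.π g).toLinearMap, σ.iso g⟩ x,
    ((ξ ⊗ₜ[ℂ] ξ' : ρ.H ⊗[ℂ] σ.H) : UniformSpace.Completion (ρ.H ⊗[ℂ] σ.H)),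
    ((η ⊗ₜ[ℂ] η' : ρ.H ⊗[ℂ] σ.H) : UniformSpace.Completion (ρ.H ⊗[ℂ] σ.H)), fun x => ?_, ?_⟩
  · change _ = ⟪((η ⊗ₜ[ℂ] η' : ρ.H ⊗[ℂ] σ.H) : UniformSpace.Completion (ρ.H ⊗[ℂ] σ.H)),
      (TensorProduct.mapL (ρ.π x) (σ.π x)).completion
        ((ξ ⊗ₜ[ℂ] ξ' : ρ.H ⊗[ℂ] σ.H) : UniformSpace.Completion (ρ.H ⊗[ℂ] σ.H))⟫_ℂ
    simp [h, h']
  · change ‖((η ⊗ₜ[ℂ] η' : ρ.H ⊗[ℂ] σ.H) : UniformSpace.Completion (ρ.H ⊗[ℂ] σ.H))‖ *
      ‖((ξ ⊗ₜ[ℂ] ξ' : ρ.H ⊗[ℂ] σ.H) : UniformSpace.Completion (ρ.H ⊗[ℂ] σ.H))‖ ≤ _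
    simp only [UniformSpace.Completion.norm_coe, TensorProduct.norm_tmul]
    rw [mul_mul_mul_comm]
    exact mul_le_mul hC hD (by positivity) (le_trans (by positivity) hC)

lemma B_add {f g : G → ℂ} (hf : f ∈ B G) (hg : g ∈ B G) : f + g ∈ B G := by
  obtain ⟨ρ, ξ, η, h⟩ := hf
  obtain ⟨σ, ξ', η', h'⟩ := hg
  let e := WithLp.prodContinuousLinearEquiv 2 ℂ ρ.H σ.H
  refine ⟨⟨WithLp 2 (ρ.H × σ.H), ⟨⟨fun g => e.symm ∘L (ρ.π g).prodMap (σ.π g) ∘L e, ?_⟩,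
    fun g h => ?_⟩, fun g x => ?_⟩, e.symm (ξ, ξ'), e.symm (η, η'), fun x => ?_⟩
  · ext1 x; simp [e]
  · ext1 x; simp [e]; rfl
  · simp [e, WithLp.prod_norm_eq_of_L2, URep.iso]
  · simp [e, h, h']

lemma B_smul (c : ℂ) {f : G → ℂ} (hf : f ∈ B G) : c • f ∈ B G := by
  obtain ⟨ρ, ξ, η, h⟩ := hf
  exact ⟨ρ, c • ξ, η, fun g => by simp [h]⟩

lemma B_char (χ : G →* ℂ) (h : ∀ g, ‖χ g‖ = 1) : (χ : G → ℂ) ∈ B G :=
  ⟨⟨ℂ, ⟨⟨fun g => χ g • 1, by simp⟩, fun g h => by simp [smul_smul, mul_comm]⟩, fun g x => by simp [h]⟩,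
    (1 : ℂ), (1 : ℂ), fun g => by simp⟩

lemma Bd.left {f : G → ℂ} {C : ℝ} (hf : Bd f C) (s : G) : Bd (fun x => f (s * x)) C := by
  obtain ⟨ρ, ξ, η, h, hC⟩ := hf
  exact ⟨ρ, ξ, ρ.π s⁻¹ η, fun g => by
    beta_reduce; rw [h, ← inner_π ρ s⁻¹, π_π, inv_mul_cancel_left], by rwa [ρ.iso]⟩

lemma Bd.right {f : G → ℂ} {C : ℝ} (hf : Bd f C) (s : G) : Bd (fun x => f (x * s)) C := by
  obtain ⟨ρ, ξ, η, h, hC⟩ := hf
  exact ⟨ρ, ρ.π s ξ, η, fun g => by beta_reduce; rw [h, π_π], by rwa [ρ.iso]⟩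

lemma tendsto_dual {f : G → ℂ} (hf : f ∈ B G) {x : ℕ → G →₀ ℂ} (hx : Cau x) :
    Tendsto (fun n => pair f (x n)) atTop (𝓝 (dual f x)) := by
  obtain ⟨C, hC⟩ := bd_of_mem hf
  refine CauchySeq.tendsto_limUnder (Metric.cauchySeq_iff.2 fun ε hε => ?_)
  obtain ⟨N, hN⟩ := hx (ε / (|C| + 1)) (by positivity)
  refine ⟨N, fun m hm n hn => ?_⟩
  have := hC.pair_le (x m - x n)
  rw [pair_eq, map_sub] at this
  have h2 := (lt_div_iff₀ (by positivity)).1 (hN m hm n hn)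
  have := cnorm_nonneg (x m - x n)
  have := le_abs_self C
  rw [dist_eq_norm]
  simp only [pair_eq]
  nlinarith

/-- The weak* closed linear span of `S`. -/
def cl (S : Set (G → ℂ)) : Submodule ℂ (G → ℂ) where
  carrier := {f | f ∈ B G ∧ ∀ x, Cau x → (∀ s ∈ S, dual s x = 0) → dual f x = 0}
  zero_mem' := ⟨by simpa using B_smul 0 (B_char (G := G) 1 (by simp)), fun x _ _ => by
    simpa [dual, pair] using (tendsto_const_nhds (x := (0 : ℂ)) (f := atTop)).limUnder_eq⟩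
  add_mem' {f g} hf hg := ⟨B_add hf.1 hg.1, fun x hx h => by
    refine tendsto_nhds_unique (tendsto_dual (B_add hf.1 hg.1) hx) ?_
    have := (tendsto_dual hf.1 hx).add (tendsto_dual hg.1 hx)
    rw [hf.2 x hx h, hg.2 x hx h, add_zero] at this
    simpa [pair, mul_add] using this⟩
  smul_mem' c f hf := ⟨B_smul c hf.1, fun x hx h => by
    refine tendsto_nhds_unique (tendsto_dual (B_smul c hf.1) hx) ?_
    have := (tendsto_dual hf.1 hx).const_mul c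
    rw [hf.2 x hx h, mul_zero] at this
    simpa [pair, Finsupp.mul_sum, mul_left_comm] using this⟩

lemma cl_closed (S : Set (G → ℂ)) : IsClosed[weakStar G] {f : B G | f.1 ∈ cl S} := by
  let _ := weakStar G
  have : {f : B G | f.1 ∈ cl S} = ⋂ x : {x : ℕ → G →₀ ℂ // Cau x},
      ⋂ _ : ∀ s ∈ S, dual s x.1 = 0, (fun f : B G => dual f.1 x.1) ⁻¹' {0} := by
    ext f
    simp only [Set.mem_iInter]
    exact ⟨fun h x => h.2 x.1 x.2, fun h => ⟨f.2, fun x hx => h ⟨x, hx⟩⟩⟩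
  rw [this]
  exact isClosed_iInter fun x => isClosed_iInter fun _ => isClosed_singleton.preimage
    (continuous_iInf_dom (i := x) continuous_induced_dom)

lemma cl_map {S : Set (G → ℂ)} (σ : G → G) (w : G → ℂ) (D : ℝ)
    (hb : ∀ f C, Bd f C → Bd (fun g => w g * f (σ g)) (D * C))
    (hS : ∀ s ∈ S, (fun g => w g * s (σ g)) ∈ cl S) {f : G → ℂ} (hf : f ∈ cl S) :
    (fun g => w g * f (σ g)) ∈ cl S := by
  let T : (G →₀ ℂ) →ₗ[ℂ] G →₀ ℂ := Finsupp.linearCombination ℂ fun g => Finsupp.single (σ g) (w g)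
  have e : ∀ f a, pair f (T a) = pair (fun g => w g * f (σ g)) a := fun f a => by
    simp [T, pair_eq, Finsupp.linearCombination_linearCombination]
  have b : ∀ a, cnorm (T a) ≤ |D| * cnorm a := fun a => by
    have := cnorm_nonneg a
    refine Real.iSup_le (fun ρ => ContinuousLinearMap.opNorm_le_bound _ (by positivity) fun ξ => ?_)
      (by positivity)
    have h := (hb _ _ ⟨ρ, ξ, op ρ (T a) ξ, fun _ => rfl, le_rfl⟩).pair_le a
    rw [← e fun g => ⟪op ρ (T a) ξ, ρ.π g ξ⟫_ℂ, pair_coef fun _ => rfl, inner_self_eq_norm_sq_to_K] at h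
    rcases (norm_nonneg (op ρ (T a) ξ)).eq_or_lt with c | c
    · rw [← c]; positivity
    · refine le_of_mul_le_mul_left ?_ c
      have h2 : D * (‖op ρ (T a) ξ‖ * ‖ξ‖ * cnorm a) ≤ |D| * (‖op ρ (T a) ξ‖ * ‖ξ‖ * cnorm a) := by
        gcongr; exact le_abs_self D
      simp only [norm_pow, norm_algebraMap', norm_norm] at h
      nlinarith
  obtain ⟨C, hC⟩ := bd_of_mem hf.1
  have d : ∀ f x, dual f (fun n => T (x n)) = dual (fun g => w g * f (σ g)) x := fun f x => by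
    simp only [dual, e]
  refine ⟨(hb f C hC).mem, fun x hx h => ?_⟩
  rw [← d]
  refine hf.2 _ (fun ε hε => ?_) fun s hs => (d s x).trans ((hS s hs).2 x hx h)
  obtain ⟨N, hN⟩ := hx (ε / (|D| + 1)) (by positivity)
  refine ⟨N, fun m hm n hn => ?_⟩
  have h2 := (lt_div_iff₀ (by positivity)).1 (hN m hm n hn)
  have := cnorm_nonneg (x m - x n)
  rw [← map_sub]
  nlinarith [b (x m - x n)]

lemma sub_cl {S : Set (G → ℂ)} (h : S ⊆ B G) {f : G → ℂ} (hf : f ∈ S) : f ∈ cl S :=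
  ⟨h hf, fun _ _ h => h f hf⟩

lemma cl_mul {S : Set (G → ℂ)} (h : S ⊆ B G) (hm : ∀ f ∈ S, ∀ g ∈ S, f * g ∈ S) {f g : G → ℂ}
    (hf : f ∈ cl S) (hg : g ∈ cl S) : f * g ∈ cl S := by
  obtain ⟨C, hC⟩ := bd_of_mem hf.1
  refine cl_map id f C (fun _ _ => hC.mul) (fun s hs => ?_) hg
  obtain ⟨D, hD⟩ := bd_of_mem (h hs)
  simpa only [id, mul_comm] using
    cl_map id s D (fun _ _ => hD.mul) (fun t ht => sub_cl h (hm s hs t ht)) hf

lemma cl_left {S : Set (G → ℂ)} (h : S ⊆ B G) (s : G) (hm : ∀ f ∈ S, (fun x => f (s * x)) ∈ S)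
    {f : G → ℂ} (hf : f ∈ cl S) : (fun x => f (s * x)) ∈ cl S := by
  simpa using cl_map (s * ·) 1 1 (fun _ _ h => by simpa using h.left s)
    (fun t ht => by simpa using sub_cl h (hm t ht)) hf

lemma cl_right {S : Set (G → ℂ)} (h : S ⊆ B G) (s : G) (hm : ∀ f ∈ S, (fun x => f (x * s)) ∈ S)
    {f : G → ℂ} (hf : f ∈ cl S) : (fun x => f (x * s)) ∈ cl S := by
  simpa using cl_map (· * s) 1 1 (fun _ _ h => by simpa using h.right s)
    (fun t ht => by simpa using sub_cl h (hm t ht)) hf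

end Pool.Agent.H16.FSAlg
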