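import Pool.Agent.H16.FSAlg

set_option autoImplicit false

namespace Pool.Agent.H16.FSAlg

open Filter Topology FreeGroup
open scoped InnerProductSpace Classical

noncomputable abbrev L2 (G : Type) := lp (fun _ : G => ℂ) 2

section reg
variable {G : Type} [Group G]

omit [Group G] in
lemma mem2 {f : G → ℂ} : Memℓp f 2 ↔ Summable fun x => ‖f x‖ ^ 2 := by
  rw [memℓp_gen_iff (by norm_num)]; simp

noncomputable def regE : G →* (L2 G ≃ₗᵢ[ℂ] L2 G) where
  toFun g :=
    { toFun f := ⟨fun x => f (g⁻¹ * x), mem2.2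
        (((Equiv.mulLeft g⁻¹).summable_iff (f := fun x => ‖f x‖ ^ 2)).2 (mem2.1 f.2))⟩
      invFun f := ⟨fun x => f (g * x), mem2.2
        (((Equiv.mulLeft g).summable_iff (f := fun x => ‖f x‖ ^ 2)).2 (mem2.1 f.2))⟩
      map_add' _ _ := rfl
      map_smul' _ _ := rfl
      left_inv f := lp.ext (funext fun x => congrArg f (inv_mul_cancel_left g x))
      right_inv f := lp.ext (funext fun x => congrArg f (mul_inv_cancel_left g x))
      norm_map' f := by
        rw [lp.norm_eq_tsum_rpow (by norm_num), lp.norm_eq_tsum_rpow (by norm_num) f,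
          ← (Equiv.mulLeft g⁻¹).tsum_eq fun x => ‖f x‖ ^ ENNReal.toReal 2]
        rfl }
  map_one' := LinearIsometryEquiv.ext fun f => lp.ext (funext fun x => congrArg f (by simp))
  map_mul' g h := LinearIsometryEquiv.ext fun f => lp.ext (funext fun x =>
    congrArg f (by simp [mul_assoc]))

lemma regE_apply (g : G) (f : L2 G) (x : G) : regE g f x = f (g⁻¹ * x) := rfl

noncomputable def tw {K : Type} (π : G →* (L2 K ≃ₗᵢ[ℂ] L2 K)) (χ : G →* ℂ) (h : ∀ g, ‖χ g‖ = 1) :
    URep G where
  H := L2 K
  π := { toFun g := χ g • (π g : L2 K →L[ℂ] L2 K)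
         map_one' := by ext1; simp
         map_mul' g h := by ext1; simp [smul_smul, mul_comm] }
  iso g x := by simp [norm_smul, h]

noncomputable def reg (G : Type) [Group G] : URep G := tw regE 1 (by simp)

lemma coef_reg {f : G → ℂ} (hf : Summable fun x => ‖f x‖ ^ 2) :
    ∃ ξ η : (reg G).H, ∀ g, f g = ⟪η, (reg G).π g ξ⟫_ℂ := by
  refine ⟨(⟨fun x => f x⁻¹, mem2.2 (((Equiv.inv G).summable_iff (f := fun x => ‖f x‖ ^ 2)).2 hf)⟩ :
    L2 G), (lp.single 2 1 1 : L2 G), fun g => ?_⟩
  change _ = ⟪(lp.single 2 1 1 : L2 G), (1 : ℂ) • regE g _⟫_ℂ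
  rw [one_smul, lp.inner_single_left, regE_apply]
  simp

end reg

abbrev F := FreeGroup (Fin 64)

lemma cons_word (l : Fin 64 × Bool) (x : F) (h : x.toWord.head? ≠ some (l.1, !l.2)) :
    (mk [l] * x).toWord = l :: x.toWord := by
  conv_lhs => rw [← mk_toWord (x := x), mul_mk, toWord_mk, List.singleton_append, reduce.cons,
    reduce_toWord]
  cases e : x.toWord with
  | nil => rfl
  | cons a t =>
    refine if_neg fun c => h ?_
    rw [e, c.1, c.2]; simp

noncomputable def w (a : Fin 64) : L2 F := lp.single 2 1 1 + lp.single 2 (of a) 7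

noncomputable def R (a : Fin 64) : L2 F ≃ₗᵢ[ℂ] L2 F := (ℂ ∙ w a).reflection

lemma R_apply (a : Fin 64) (v : L2 F) (x : F) :
    R a v x = (v 1 + 7 * v (of a)) / 25 * w a x - v x := by
  have i : ∀ v : L2 F, ⟪w a, v⟫_ℂ = v 1 + 7 * v (of a) := fun v => by
    rw [w, inner_add_left, lp.inner_single_left, lp.inner_single_left]
    simp [mul_comm, map_ofNat]
  have n : ((‖w a‖ : ℝ) : ℂ) ^ 2 = 50 := by
    have := i (w a)
    rw [inner_self_eq_norm_sq_to_K] at this
    refine this.trans ?_
    simp [w, lp.single_apply]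
    norm_num
  rw [R, Submodule.reflection_singleton_apply, i]
  change 2 • ((_ / ((‖w a‖ : ℝ) : ℂ) ^ 2) * w a x) - v x = _
  rw [n]; ring

noncomputable def PS : F →* (L2 F ≃ₗᵢ[ℂ] L2 F) := FreeGroup.lift fun a => R a * regE (of a)

lemma PS_word (L : List (Fin 64 × Bool)) (hL : IsReduced L) :
    PS (mk L) (lp.single 2 1 1) 1 = (7 / 25) ^ L.length ∧
    ∀ x : F, x ≠ 1 → x.toWord.head? ≠ L.head? → PS (mk L) (lp.single 2 1 1) x = 0 := by
  induction L with
  | nil =>
    rw [← one_eq_mk, _root_.map_one]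
    exact ⟨by simp, fun x hx _ => by simp [lp.single_apply, hx]⟩
  | cons l L ih =>
    obtain ⟨h1, h2⟩ := ih (List.IsChain.tail hL)
    have hd : L.head? ≠ some (l.1, !l.2) := by
      cases L with
      | nil => simp
      | cons m L =>
        intro c
        obtain rfl : m = (l.1, !l.2) := Option.some.inj c
        simpa using (isReduced_cons_cons.1 hL).1
    have key : ∀ x : F, x.toWord.head? ≠ some l → PS (mk L) (lp.single 2 1 1)
        (mk [(l.1, !l.2)] * x) = 0 := fun x hx => by
      have := cons_word (l.1, !l.2) x (by simpa using hx)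
      refine h2 _ (fun c => ?_) (by rw [this]; exact hd.symm)
      rw [c] at this
      simp at this
    have k1 := key 1 (by simp)
    rw [← List.singleton_append, ← mul_mk, _root_.map_mul]
    set v := PS (mk L) (lp.single 2 1 1)
    obtain ⟨a, b⟩ := l
    have ne : ∀ x : F, x.toWord.head? ≠ some (a, true) → x ≠ of a := by
      rintro _ h rfl
      simp at h
    cases b
    · have e : ∀ x, (PS (mk [(a, false)]) * PS (mk L)) (lp.single 2 1 1) x = R a v (of a * x) :=
        fun x => by
        rw [show (mk [(a, false)] : F) = (of a)⁻¹ from rfl, _root_.map_inv, PS, lift_apply_of,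
          mul_inv_rev, ← _root_.map_inv]
        change R a v ((of a)⁻¹⁻¹ * x) = _
        rw [inv_inv]
      simp only [e, R_apply]
      rw [mul_one] at k1 ⊢
      refine ⟨by simp [show v (of a) = 0 from k1, h1, w, lp.single_apply, pow_succ]; ring,
        fun x hx h => ?_⟩
      have := cons_word (a, true) x h
      have n1 : of a * x ≠ 1 := fun c => by
        rw [show mk [(a, true)] * x = 1 from c] at this
        simp at this
      simp [show v (of a * x) = 0 from key x h, w, lp.single_apply, n1, hx]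
    · have e : ∀ x, (PS (mk [(a, true)]) * PS (mk L)) (lp.single 2 1 1) x =
          R a (regE (of a) v) x := fun x => by
        rw [show (mk [(a, true)] : F) = of a from rfl, PS, lift_apply_of]
        rfl
      simp only [e, R_apply, regE_apply]
      refine ⟨by simp [show v (of a)⁻¹ = 0 from k1, h1, w, lp.single_apply, pow_succ]; ring,
        fun x hx h => ?_⟩
      simp [show v ((of a)⁻¹ * x) = 0 from key x h, w, lp.single_apply, ne x h, hx]

lemma PS_coef (g : F) : PS g (lp.single 2 1 1) 1 = (7 / 25) ^ g.toWord.length := by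
  simpa [mk_toWord] using (PS_word g.toWord isReduced_toWord).1

lemma summ : Summable fun g : F => ((7 / 25 : ℝ) ^ g.toWord.length) ^ 4 := by
  refine Summable.comp_injective (f := fun L : List (Fin 64 × Bool) =>
    ((7 / 25 : ℝ) ^ L.length) ^ 4) ?_ toWord_injective
  rw [← List.equivSigmaTuple.symm.summable_iff, summable_sigma_of_nonneg fun _ => by simp only [Function.comp]; positivity]
  refine ⟨fun _ => .of_finite, ?_⟩
  convert summable_geometric_of_lt_one (r := 128 * (7 / 25 : ℝ) ^ 4) (by norm_num) (by norm_num)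
    using 2 with n
  simp [List.equivSigmaTuple, mul_pow, ← pow_mul, mul_comm]

lemma one_le (o : Option (Fin 64 × Bool)) (b : Bool) {c : ℝ} (hc : 0 ≤ c) :
    ∑ i : Fin 64, (if o = some (i, b) then c else 0) ≤ c := by
  rcases o with _ | ⟨j, b'⟩
  · simpa
  · by_cases h : b' = b <;> simp [h, hc]

lemma reg_norm {K : Type} [Group K] : ‖∑ i : Fin 64, (reg (F × K)).π (of i, 1)‖ ≤ 16 := by
  refine ContinuousLinearMap.opNorm_le_bound _ (by norm_num) fun f : L2 (F × K) => ?_
  have : (∑ i : Fin 64, (reg (F × K)).π (of i, 1)) f = (∑ i : Fin 64, regE (of i, 1) f :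
      L2 (F × K)) := by
    rw [sum_apply]
    exact Finset.sum_congr rfl fun i _ => one_smul ℂ _
  rw [this]
  change ‖(∑ i : Fin 64, regE (of i, 1) f : L2 (F × K))‖ ≤ 16 * ‖f‖
  refine lp.norm_le_of_forall_sum_le (by norm_num) (by positivity) fun s => ?_
  let W : Fin 64 → F × K → ℝ := fun i x => if x.1.toWord.head? = some (i, true) then 2 else 128
  let e : Fin 64 → F × K → F × K := fun i x => (of i, 1)⁻¹ * x
  have W0 : ∀ i x, 0 < W i x := fun i x => by simp only [W]; split_ifs <;> norm_num
  have p : ∀ x, ‖(∑ i : Fin 64, regE (of i, 1) f : L2 (F × K)) x‖ ^ 2 ≤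
      ∑ i, W i x * ‖f (e i x)‖ ^ 2 := fun x => by
    have : (∑ i : Fin 64, regE (of i, 1) f : L2 (F × K)) x = ∑ i, f (e i x) := by
      rw [lp.coeFn_sum, Finset.sum_apply]
      rfl
    rw [this]
    refine (pow_le_pow_left₀ (norm_nonneg _) (norm_sum_le _ _) 2).trans
      ((Finset.sum_sq_le_sum_mul_sum_of_sq_le_mul _ (f := fun i => W i x * ‖f (e i x)‖ ^ 2)
        (g := fun i => 1 / W i x) (fun i _ => by have := W0 i x; positivity)
        (fun i _ => by have := W0 i x; positivity)
        fun i _ => by have := W0 i x; exact le_of_eq (by field_simp)).trans (mul_le_of_le_one_right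
          (Finset.sum_nonneg fun i _ => by have := W0 i x; positivity) ?_))
    have := one_le x.1.toWord.head? true (c := 1 / 2) (by norm_num)
    refine (Finset.sum_le_sum (g := fun i => 1 / 128 +
      if x.1.toWord.head? = some (i, true) then 1 / 2 else 0) fun i _ => ?_).trans ?_
    · simp only [W]; split_ifs <;> norm_num
    · rw [Finset.sum_add_distrib]
      norm_num at this ⊢
      linarith
  let t := Finset.univ.biUnion fun i => s.image (e i)
  have q : ∀ y : F × K, ∑ i, W i ((of i, 1) * y) ≤ 256 := fun y => by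
    have := one_le y.1.toWord.head? false (c := 128) (by norm_num)
    refine (Finset.sum_le_sum (g := fun i => 2 +
      if y.1.toWord.head? = some (i, false) then 128 else 0) fun i _ => ?_).trans ?_
    · simp only [W]
      split_ifs with h1 h2 h2 <;> try norm_num
      exact h1 (congrArg List.head? (cons_word (i, true) y.1 h2))
    · rw [Finset.sum_add_distrib]
      norm_num at this ⊢
      linarith
  have := lp.sum_rpow_le_norm_rpow (by norm_num) f t
  simp only [ENNReal.toReal_ofNat, Real.rpow_ofNat] at this ⊢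
  calc _ ≤ ∑ x ∈ s, ∑ i, W i x * ‖f (e i x)‖ ^ 2 := Finset.sum_le_sum fun x _ => p x
    _ = ∑ i, ∑ y ∈ s.image (e i), W i ((of i, 1) * y) * ‖f y‖ ^ 2 := by
      rw [Finset.sum_comm]
      refine Finset.sum_congr rfl fun i _ => ?_
      rw [Finset.sum_image fun _ _ _ _ h => mul_left_cancel h]
      simp only [e, mul_inv_cancel_left]
    _ ≤ ∑ i, ∑ y ∈ t, W i ((of i, 1) * y) * ‖f y‖ ^ 2 := Finset.sum_le_sum fun i _ =>
      Finset.sum_le_sum_of_subset_of_nonneg 
        (Finset.subset_biUnion_of_mem (fun i => s.image (e i)) (Finset.mem_univ i))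
        fun y _ _ => by have := W0 i ((of i, 1) * y); positivity
    _ ≤ ∑ y ∈ t, 256 * ‖f y‖ ^ 2 := by
      rw [Finset.sum_comm]
      exact Finset.sum_le_sum fun y _ => by rw [← Finset.sum_mul]; gcongr; exact q y
    _ ≤ (16 * ‖f‖) ^ 2 := by rw [← Finset.mul_sum]; nlinarith

end Pool.Agent.H16.FSAlg
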