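import Mathlib

set_option autoImplicit false

namespace Pool.Agent.H16.FinSylow

open MulAction Pointwise

section finite
variable {p : ℕ} [Fact p.Prime] {X : Type} [Group X] [Finite X]

lemma fin1 (S : Sylow p X) (N T : Subgroup X) [N.Normal] (hT : IsPGroup p T)
    (h1 : (S : Subgroup X) ⊓ N ≤ T) (h2 : T ≤ N) : T ≤ S := by
  obtain ⟨R, hR⟩ := hT.exists_le_sylow
  obtain ⟨g, rfl⟩ := exists_smul_eq X S R
  have e : ((g • S : Sylow p X) : Subgroup X) ⊓ N = MulAut.conj g • ((S : Subgroup X) ⊓ N) := by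
    rw [Subgroup.smul_inf, Sylow.coe_subgroup_smul, Subgroup.Normal.conj_smul_eq_self g N]
  have c : Nat.card T ≤ Nat.card ((S : Subgroup X) ⊓ N : Subgroup X) := by
    refine (Subgroup.card_le_of_le (le_inf hR h2)).trans_eq ?_
    rw [e]
    exact Nat.card_congr (Subgroup.equivSMul _ _).symm.toEquiv
  rw [← Subgroup.eq_of_le_of_card_ge h1 c]
  exact inf_le_left

lemma fin2 {Y : Type} [Group Y] (f : X →* Y) (S : Sylow p X) (U : Subgroup Y) (hU : IsPGroup p U)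
    (h : (S : Subgroup X).map f ≤ U) (x : X) (hx : f x ∈ U) : f x ∈ (S : Subgroup X).map f := by
  have := (S.mapSurjective f.rangeRestrict_surjective).is_maximal' (Q := U.subgroupOf f.range)
    hU.comap_subtype (by
      rintro _ ⟨s, hs, rfl⟩
      exact h ⟨s, hs, rfl⟩)
  have h2 : f.rangeRestrict x ∈ U.subgroupOf f.range := hx
  rw [this] at h2
  obtain ⟨s, hs, e⟩ := h2
  exact ⟨s, hs, congrArg Subtype.val e⟩

end finite

variable {p : ℕ} [Fact p.Prime] {G Ω : Type} [Group G] [MulAction G Ω] [FaithfulSMul G Ω]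

/-- The elements supported in `B`. -/
def On (G : Type) [Group G] [MulAction G Ω] (B : Set Ω) : Subgroup G where
  carrier := {g | ∀ x ∉ B, g • x = x}
  one_mem' _ _ := one_smul _ _
  mul_mem' ha hb x hx := by rw [mul_smul, hb x hx, ha x hx]
  inv_mem' ha x hx := by rw [inv_smul_eq_iff, ha x hx]

omit [FaithfulSMul G Ω] in
lemma On.maps {B : Set Ω} {g : G} (hg : g ∈ On G B) {x : Ω} (hx : x ∈ B) : g • x ∈ B := by
  by_contra h
  have := smul_left_cancel g (hg _ h)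
  exact h (this.symm ▸ hx)

lemma On.finite {B : Set Ω} (hB : B.Finite) : Finite (On G B) := by
  have := hB.to_subtype
  refine Finite.of_injective (fun (g : On G B) (x : B) => (⟨g.1 • x.1, On.maps g.2 x.2⟩ : B))
    fun g h e => Subtype.ext (eq_of_smul_eq_smul (α := Ω) fun x => ?_)
  by_cases hx : x ∈ B
  · exact congrArg Subtype.val (congrFun e ⟨x, hx⟩)
  · rw [g.2 x hx, h.2 x hx]

variable (S : Subgroup G) (a : Ω)

structure Good (H : Subgroup G) : Prop where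
  le : H ≤ S
  stab : ∀ s ∈ S, s • a = a → s ∈ H
  fin : (orbit H a).Finite

variable {S a}

omit [FaithfulSMul G Ω] in
lemma Good.moved {H : Subgroup G} (g : Good S a H) {s : G} (hs : s ∈ S) {x y : Ω}
    (hx : x ∈ orbit H a) (hy : y ∈ orbit H a) (e : s • x = y) : s ∈ H := by
  obtain ⟨h, rfl⟩ := hx
  obtain ⟨k, rfl⟩ := hy
  have : k.1⁻¹ * s * h.1 ∈ H := g.stab _ (mul_mem (mul_mem (inv_mem (g.le k.2)) hs) (g.le h.2)) (by
    rw [mul_smul, mul_smul, inv_smul_eq_iff]; exact e)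
  rwa [H.mul_mem_cancel_right h.2, H.mul_mem_cancel_left (inv_mem k.2)] at this

lemma exists_norm (hfin : ∀ g : G, {x : Ω | g • x ≠ x}.Finite) (hS : IsPGroup p S)
    {H : Subgroup G} (g : Good S a H) {t : G} (ht : t ∈ S) (ht' : t ∉ H) :
    ∃ u ∈ S, u ∉ H ∧ ∀ h ∈ H, u⁻¹ * h * u ∈ H := by
  by_contra hc
  push Not at hc
  have h1 : ∀ b : Ω, ∃ h ∈ H, ∀ u ∈ S, u ∉ H → u • a = b → u⁻¹ * h * u ∉ H := fun b => by
    by_cases e : ∃ v ∈ S, v ∉ H ∧ v • a = b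
    · obtain ⟨v, v1, v2, rfl⟩ := e
      obtain ⟨h, h1, h2⟩ := hc v v1 v2
      refine ⟨h, h1, fun u u1 _ e c => h2 ?_⟩
      have m : u⁻¹ * v ∈ H := g.stab _ (mul_mem (inv_mem u1) v1) (by
        rw [mul_smul, inv_smul_eq_iff, e])
      have := mul_mem (mul_mem (inv_mem m) c) m
      convert this using 1
      group
    · exact ⟨1, one_mem _, fun u u1 u2 u3 => absurd ⟨u, u1, u2, u3⟩ e⟩
  choose h hh hh' using h1
  let D : Set Ω := {x | t • x ≠ x} ∪ ⋃ b ∈ {x | t • x ≠ x}, {x | h b • x ≠ x}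
  have hD : D.Finite := (hfin t).union ((hfin t).biUnion fun b _ => hfin _)
  let F := S ⊓ On G D
  have := On.finite (G := G) hD
  have : Finite F := Finite.of_injective _ (Subgroup.inclusion_injective inf_le_right)
  have := (hS.to_inf_left (K := On G D)).isNilpotent
  have tF : t ∈ F := ⟨ht, fun x hx => by_contra fun c => hx (Or.inl c)⟩
  have lt := Group.normalizerCondition_of_isNilpotent (G := F) (H.subgroupOf F)
    (lt_top_iff_ne_top.2 fun c => ht' (show (⟨t, tF⟩ : F) ∈ H.subgroupOf F from c ▸ trivial))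
  obtain ⟨u, u1, u2⟩ := SetLike.exists_of_lt lt
  rw [Subgroup.mem_normalizer_iff''] at u1
  have mv : t • u.1 • a ≠ u.1 • a := fun c => ht' ((u1 ⟨t, tF⟩).2 (g.stab (u.1⁻¹ * t * u.1)
    (mul_mem (mul_mem (inv_mem u.2.1) ht) u.2.1) (by rw [mul_smul, mul_smul, c, inv_smul_smul])))
  refine hh' _ u.1 u.2.1 u2 rfl ((u1 ⟨h (u.1 • a), g.le (hh _), fun x hx => ?_⟩).1 (hh _))
  exact by_contra fun c => hx (Or.inr (Set.mem_biUnion mv c))

lemma step (hfin : ∀ g : G, {x : Ω | g • x ≠ x}.Finite) (hS : IsPGroup p S)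
    {H : Subgroup G} (g : Good S a H) {t : G} (ht : t ∈ S) (ht' : t ∉ H) :
    ∃ K, Good S a K ∧ orbit H a ⊂ orbit K a := by
  obtain ⟨u, u1, u2, u3⟩ := exists_norm hfin hS g ht ht'
  have fo : IsOfFinOrder u := (Submonoid.isOfFinOrder_coe (H := S.toSubmonoid) (x := ⟨u, u1⟩)).2
    (hS.isOfFinOrder (Fact.out : p.Prime).ne_zero ⟨u, u1⟩)
  let C : Set Ω := ⋃ v ∈ (Submonoid.powers u : Set G), v • orbit H a
  have hC : C.Finite := fo.finite_powers.biUnion fun v _ => g.fin.smul_set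
  have mem : ∀ x, x ∈ C ↔ ∃ n : ℕ, ∃ h ∈ H, u ^ n • h • a = x := fun x => by
    simp only [C, Set.mem_iUnion]
    exact ⟨fun ⟨_, ⟨n, rfl⟩, _, ⟨h, rfl⟩, e⟩ => ⟨n, h.1, h.2, e⟩,
      fun ⟨n, h, h1, e⟩ => ⟨_, ⟨n, rfl⟩, _, ⟨⟨h, h1⟩, rfl⟩, e⟩⟩
  have st : ∀ s : G, (∀ x ∈ C, s • x ∈ C) → s ∈ stabilizer G C := fun s hs =>
    Set.eq_of_subset_of_ncard_le (by rintro _ ⟨x, hx, rfl⟩; exact hs x hx)
      (Set.ncard_smul_set _ _).ge hC
  have conj : ∀ n : ℕ, ∀ h ∈ H, (u ^ n)⁻¹ * h * u ^ n ∈ H := fun n => by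
    induction n with
    | zero => simp
    | succ n ih =>
      intro h hh
      have := u3 _ (ih h hh)
      convert this using 1
      rw [pow_succ]; group
  have hH : H ≤ S ⊓ stabilizer G C := fun h hh => ⟨g.le hh, st h fun x hx => by
    obtain ⟨n, k, k1, rfl⟩ := (mem x).1 hx
    exact (mem _).2 ⟨n, _, mul_mem (conj n h hh) k1, by simp [mul_smul]⟩⟩
  have hu : u ∈ S ⊓ stabilizer G C := ⟨u1, st u fun x hx => by
    obtain ⟨n, k, k1, rfl⟩ := (mem x).1 hx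
    exact (mem _).2 ⟨n + 1, k, k1, by rw [pow_succ', mul_smul]⟩⟩
  refine ⟨S ⊓ stabilizer G C, ⟨inf_le_left, fun s h1 h2 => hH (g.stab s h1 h2), hC.subset ?_⟩,
    ?_, fun c => u2 (g.moved u1 (mem_orbit_self a) (c ⟨⟨u, hu⟩, rfl⟩) rfl)⟩
  · rintro _ ⟨k, rfl⟩
    have : k.1 • a ∈ k.1 • C := Set.smul_mem_smul_set ((mem a).2 ⟨0, 1, one_mem _, by simp⟩)
    rwa [show k.1 • C = C from k.2.2] at this
  · rintro _ ⟨k, rfl⟩
    exact ⟨⟨k.1, hH k.2⟩, rfl⟩

lemma big (hfin : ∀ g : G, {x : Ω | g • x ≠ x}.Finite) (hS : IsPGroup p S) (a : Ω) (n : ℕ) :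
    ∃ H, Good S a H ∧ (S ≤ H ∨ n ≤ (orbit H a).ncard) := by
  induction n with
  | zero =>
    refine ⟨S ⊓ stabilizer G a, ⟨inf_le_left, fun s h1 h2 => ⟨h1, h2⟩,
      (Set.finite_singleton a).subset ?_⟩, Or.inr (Nat.zero_le _)⟩
    rintro _ ⟨k, rfl⟩
    exact k.2.2
  | succ n ih =>
    obtain ⟨H, g, h⟩ := ih
    by_cases c : S ≤ H
    · exact ⟨H, g, Or.inl c⟩
    · obtain ⟨t, t1, t2⟩ := SetLike.not_le_iff_exists.1 c
      obtain ⟨K, k1, k2⟩ := step hfin hS g t1 t2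
      exact ⟨K, k1, Or.inr ((h.resolve_left c).trans_lt (Set.ncard_lt_ncard k2 k1.fin))⟩

lemma cover (hfin : ∀ g : G, {x : Ω | g • x ≠ x}.Finite) (hS : IsPGroup p S) (a : Ω)
    (tr : ∀ x : Ω, ∃ s ∈ S, s • a = x) {A : Set Ω} (hA : A.Finite) :
    ∃ H, Good S a H ∧ A ⊆ orbit H a := by
  choose s s1 s2 using tr
  obtain ⟨n, hn⟩ := (hA.image fun x => {y : Ω | s x • y ≠ y}.ncard).bddAbove
  obtain ⟨H, g, h⟩ := big hfin hS a (n + 1)
  refine ⟨H, g, fun x hx => ⟨⟨s x, h.elim (fun c => c (s1 x)) fun c => ?_⟩, s2 x⟩⟩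
  by_contra m
  have := Set.ncard_le_ncard (s := orbit H a) (t := {y : Ω | s x • y ≠ y})
    (fun y hy e => m (g.moved (s1 x) hy hy e)) (hfin (s x))
  have := hn ⟨x, hx, rfl⟩
  simp only at this
  omega

lemma local_sylow (S : Sylow p G) {a : Ω} (tr : ∀ x : Ω, ∃ s ∈ S, s • a = x)
    {H : Subgroup G} (g : Good S a H) :
    ∃ Q : Sylow p (On G (orbit H a)),
      (Q : Subgroup (On G (orbit H a))) = (S : Subgroup G).subgroupOf (On G (orbit H a)) := by
  set B := orbit H a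
  have := On.finite (G := G) g.fin
  have hB : ∀ h ∈ H, ∀ x, h • x ∈ B → x ∈ B := fun h hh x hx => by
    have := mem_orbit_of_mem_orbit (⟨h⁻¹, inv_mem hh⟩ : H) hx
    simpa [Subgroup.smul_def] using this
  have cj : ∀ h ∈ H, ∀ x ∈ On G B, h * x * h⁻¹ ∈ On G B := fun h hh x hx y hy => by
    rw [mul_smul, mul_smul, hx _ fun c => hy (hB _ (inv_mem hh) y c), smul_inv_smul]
  have nm : H ≤ Subgroup.normalizer (On G B) := fun h hh => Subgroup.mem_normalizer_iff.2 fun x =>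
    ⟨cj h hh x, fun c => by simpa [mul_assoc] using cj _ (inv_mem hh) _ c⟩
  let _ : MulDistribMulAction H (On G B) := MulDistribMulAction.compHom _
    ((On G B).normalizerMonoidHom.comp (Subgroup.inclusion nm))
  obtain ⟨Q, hQ⟩ := (S.isPGroup'.to_le g.le).nonempty_fixed_point_of_prime_not_dvd_card
    (Sylow p (On G B)) (not_dvd_card_sylow p _)
  have inv : ∀ h ∈ H, ∀ q ∈ Q, ∃ r ∈ Q, r.1 = h * q.1 * h⁻¹ := fun h hh q hq => by
    refine ⟨(⟨h, hh⟩ : H) • q, ?_, rfl⟩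
    have : (⟨h, hh⟩ : H) • q ∈ (((⟨h, hh⟩ : H) • Q : Sylow p _) : Subgroup _) :=
      Subgroup.smul_mem_pointwise_smul _ _ _ hq
    rwa [hQ ⟨h, hh⟩] at this
  let P : Subgroup G :=
    { carrier := {x | ∀ s ∈ S, ∃ q ∈ Q, ∀ y ∈ B, (s⁻¹ * x * s) • y = q.1 • y}
      one_mem' := fun s _ => ⟨1, one_mem _, fun y _ => by simp⟩
      mul_mem' := fun {x z} hx hz s hs => by
        obtain ⟨q, q1, q2⟩ := hx s hs
        obtain ⟨r, r1, r2⟩ := hz s hs
        refine ⟨q * r, mul_mem q1 r1, fun y hy => ?_⟩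
        rw [Subgroup.coe_mul, mul_smul q.1, ← q2 _ (On.maps r.2 hy), ← r2 y hy, ← mul_smul]
        congr 1; group
      inv_mem' := fun {x} hx s hs => by
        obtain ⟨q, q1, q2⟩ := hx s hs
        refine ⟨q⁻¹, inv_mem q1, fun y hy => ?_⟩
        have := q2 _ (On.maps q⁻¹.2 hy)
        rw [Subgroup.coe_inv, smul_inv_smul] at this
        rw [show s⁻¹ * x⁻¹ * s = (s⁻¹ * x * s)⁻¹ by group, inv_smul_eq_iff]
        exact this.symm }
  have hP : IsPGroup p P := by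
    obtain ⟨k, hk⟩ := IsPGroup.iff_card.1 Q.isPGroup'
    refine fun x => ⟨k, Subtype.ext (eq_of_smul_eq_smul (α := Ω) fun y => ?_)⟩
    obtain ⟨s, hs, rfl⟩ := tr y
    obtain ⟨q, q1, q2⟩ := x.2 s hs
    have e : ∀ n : ℕ, (x.1 ^ n) • s • a = s • (q ^ n).1 • a := fun n => by
      induction n with
      | zero => simp
      | succ n ih =>
        rw [pow_succ', mul_smul, ih, pow_succ', Subgroup.coe_mul, mul_smul,
          ← q2 _ (On.maps (q ^ n).2 (mem_orbit_self a))]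
        simp [mul_smul]
    have e2 : q ^ p ^ k = 1 := by
      rw [← hk]; exact congrArg Subtype.val (pow_card_eq_one' (x := (⟨q, q1⟩ : Q)))
    rw [Subgroup.coe_pow, e, e2]
    simp
  have cP : ∀ s ∈ S, ∀ x ∈ P, s * x * s⁻¹ ∈ P := fun s hs x hx t ht => by
    obtain ⟨q, q1, q2⟩ := hx (s⁻¹ * t) (mul_mem (inv_mem hs) ht)
    refine ⟨q, q1, fun y hy => ?_⟩
    rw [← q2 y hy]
    congr 1; group
  have sup := S.is_maximal' (S.isPGroup'.to_sup_of_normal_right' hP fun s hs =>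
    Subgroup.mem_normalizer_iff.2 fun x =>
      ⟨cP s hs x, fun c => by simpa [mul_assoc] using cP _ (inv_mem hs) _ c⟩) le_sup_left
  refine ⟨Q, (Q.is_maximal' S.isPGroup'.comap_subtype fun q hq => ?_).symm⟩
  refine (sup ▸ le_sup_right : P ≤ S) fun s hs => ?_
  by_cases c : s ∈ H
  · obtain ⟨r, r1, r2⟩ := inv _ (inv_mem c) q hq
    exact ⟨r, r1, fun y _ => by rw [r2, inv_inv]; rfl⟩
  · refine ⟨1, one_mem _, fun y hy => ?_⟩
    have := q.2 (s • y) fun m => c (g.moved hs hy m rfl)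
    rw [mul_smul, mul_smul, Subgroup.coe_subtype, this]
    simp

lemma key (hfin : ∀ g : G, {x : Ω | g • x ≠ x}.Finite) (S : Sylow p G)
    (tr : ∀ x y : Ω, ∃ s ∈ S, s • x = y) (g : G) : ∃ X : Subgroup G, Finite X ∧ g ∈ X ∧
      ∃ Q : Sylow p X, (Q : Subgroup X) = (S : Subgroup G).subgroupOf X := by
  rcases isEmpty_or_nonempty Ω with h | ⟨⟨a⟩⟩
  · have : Subsingleton G := ⟨fun _ _ => eq_of_smul_eq_smul (α := Ω) fun x => h.elim x⟩
    exact ⟨⊤, inferInstance, trivial, default, Subsingleton.elim _ _⟩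
  · obtain ⟨H, h1, h2⟩ := cover hfin S.isPGroup' a (tr a) (hfin g)
    exact ⟨_, On.finite h1.fin, fun x hx => by_contra fun c => hx (h2 c), local_sylow S (tr a) h1⟩

/-- For a group `G` of finitary permutations, a normal subgroup `N` and a transitive Sylow
`p`-subgroup `S`, the intersection `S ∩ N` is Sylow in `N` and `SN/N` is Sylow in `G/N`. -/
theorem both (p : ℕ) (hp : p.Prime) (Ω : Type) (G : Subgroup (Equiv.Perm Ω))
    (hfin : ∀ g ∈ G, {x : Ω | g x ≠ x}.Finite) (N : Subgroup G) [N.Normal] (S : Sylow p G)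
    (hS : ∀ x y : Ω, ∃ s ∈ S, (s : Equiv.Perm Ω) x = y) :
    (∃ P : Sylow p N, (P : Subgroup N) = (S : Subgroup G).subgroupOf N) ∧
    (∃ Q : Sylow p (G ⧸ N), (Q : Subgroup (G ⧸ N)) = (S : Subgroup G).map (QuotientGroup.mk' N)) := by
  have := Fact.mk hp
  have k := key (G := G) (Ω := Ω) (fun g => hfin g.1 g.2) S hS
  refine ⟨⟨⟨_, S.isPGroup'.comap_subtype, fun {T} hT h => le_antisymm (fun t ht => ?_) h⟩, rfl⟩,
    ⟨⟨_, S.isPGroup'.map _, fun {U} hU h => le_antisymm (fun u hu => ?_) h⟩, rfl⟩⟩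
  · obtain ⟨X, _, hX, Q, hQ⟩ := k t.1
    have := fin1 Q (N.subgroupOf X) ((T.map N.subtype).subgroupOf X) (hT.map _).comap_subtype
      (fun x hx => ⟨⟨x.1, hx.2⟩, h (show x ∈ (S : Subgroup G).subgroupOf X from hQ ▸ hx.1), rfl⟩)
      (fun x ⟨y, _, e⟩ => show X.subtype x ∈ N from e ▸ y.2)
    rw [hQ] at this
    exact @this ⟨t.1, hX⟩ ⟨t, ht, rfl⟩
  · obtain ⟨g, rfl⟩ := QuotientGroup.mk'_surjective N u
    obtain ⟨X, _, hX, Q, hQ⟩ := k g
    have le : (Q : Subgroup X).map ((QuotientGroup.mk' N).comp X.subtype) ≤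
        (S : Subgroup G).map (QuotientGroup.mk' N) := by
      rw [hQ]
      rintro _ ⟨x, hx, rfl⟩
      exact ⟨x.1, hx, rfl⟩
    exact le (fin2 _ Q U hU (le.trans h) ⟨g, hX⟩ hu)

end Pool.Agent.H16.FinSylow
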