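import Mathlib

set_option autoImplicit false
open Pointwise

namespace Pool.Agent.H16.Grig
open Equiv

abbrev K := Bool × Bool
def ml (k l : K) : K := (k.1 ^^ l.1, k.2 ^^ l.2)
def sh (k : K) : K := (k.2, k.1 ^^ k.2)
def om (k : K) : ℕ := 2 * k.1.toNat + k.2.toNat
def o : K := (false, false)

def fa (y : ℕ) : ℕ := if y % 2 = 0 then y + 1 else y - 1
theorem fa0 (y : ℕ) : fa (2 * y) = 2 * y + 1 := if_pos (by omega)
theorem fa1 (y : ℕ) : fa (2 * y + 1) = 2 * y := if_neg (by omega)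
theorem fa_fa (y : ℕ) : fa (fa y) = y := by
  obtain ⟨z, rfl | rfl⟩ := Nat.even_or_odd' y <;> simp only [fa0, fa1]

def act (k : K) (n : ℕ) : ℕ :=
  if n = 0 then 0 else if n % 2 = 0 then 2 * act (sh k) (n / 2)
  else 2 * (if k.1 then fa (n / 2) else n / 2) + 1
termination_by n
decreasing_by omega

theorem act_z (k : K) : act k 0 = 0 := by rw [act]; rfl
theorem act0 (k : K) (y : ℕ) : act k (2 * y) = 2 * act (sh k) y := by
  by_cases h : y = 0
  · simp [h, act_z]
  · rw [act, if_neg (by omega), if_pos (by omega), Nat.mul_div_cancel_left _ two_pos]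
theorem act1 (k : K) (y : ℕ) : act k (2 * y + 1) = 2 * (if k.1 then fa y else y) + 1 := by
  rw [act, if_neg (by omega), if_neg (by omega), show (2 * y + 1) / 2 = y by omega]

theorem act_ml (n : ℕ) : ∀ k l, act k (act l n) = act (ml k l) n := by
  induction n using Nat.strong_induction_on with
  | _ n ih =>
    intro k l
    obtain ⟨y, rfl | rfl⟩ := Nat.even_or_odd' n
    · by_cases h : y = 0
      · simp [h, act_z]
      · rw [act0, act0, act0, ih y (by omega), show ml (sh k) (sh l) = sh (ml k l) by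
          revert k l; decide]
    · rw [act1, act1, act1]
      rcases k with ⟨_ | _, _⟩ <;> rcases l with ⟨_ | _, _⟩ <;> simp [ml, fa_fa]

theorem act_o (n : ℕ) : act o n = n := by
  induction n using Nat.strong_induction_on with
  | _ n ih =>
    obtain ⟨y, rfl | rfl⟩ := Nat.even_or_odd' n
    · by_cases h : y = 0
      · simp [h, act_z]
      · rw [act0, show sh o = o from rfl, ih y (by omega)]
    · rw [act1]; rfl

theorem act_act (k : K) (n : ℕ) : act k (act k n) = n := by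
  rw [act_ml, show ml k k = o by revert k; decide, act_o]

def O : K → List K → Set ℕ
  | _, [] => {0}
  | k, l :: t => act k '' ({0} ∪ fa '' O l t)

def W : K → List K → ℕ
  | k, [] => om k
  | k, l :: t => om k + 3 + W l t

theorem O_z (k : K) (t : List K) : 0 ∈ O k t := by
  cases t
  · rfl
  · exact ⟨0, Or.inl rfl, act_z k⟩

theorem head (k l : K) (t : List K) : act k '' O l t = O (ml k l) t ∧ W (ml k l) t ≤ om k + W l t := by
  have : om (ml k l) ≤ om k + om l := by revert k l; decide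
  cases t
  · exact ⟨by simp [O, act_z], this⟩
  · exact ⟨by simp only [O, Set.image_image, act_ml], by simp only [W]; omega⟩

theorem O_o (k : K) (t : List K) : O o (k :: t) = {0} ∪ fa '' O k t := by
  simp only [O, act_o, Set.image_id']

theorem sec (t : List K) : ∀ k, ∃ k0 t0 k1 t1, 6 * (W k0 t0 + W k1 t1) ≤ 5 * (W k t + 3) ∧
    ∀ y, (2 * y ∈ O k t → y ∈ O k0 t0) ∧ (2 * y + 1 ∈ O k t → y ∈ O k1 t1) := by
  induction t with
  | nil => exact fun k => ⟨o, [], o, [], by simp [W, om, o], fun y =>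
      ⟨fun h => by simp [O] at h ⊢; omega, fun h => by simp [O] at h⟩⟩
  | cons l t ih =>
    intro k
    obtain ⟨k0, t0, k1, t1, h1, h2⟩ := ih l
    have key : ∀ x ∈ O k (l :: t), (∃ y ∈ O k1 t1, x = act k (2 * y)) ∨
        ∃ y ∈ O k0 t0, x = act k (2 * y + 1) := by
      rintro _ ⟨_, rfl | ⟨z, hz, rfl⟩, rfl⟩
      · exact Or.inl ⟨0, O_z _ _, rfl⟩
      · obtain ⟨y, rfl | rfl⟩ := Nat.even_or_odd' z
        · exact Or.inr ⟨y, (h2 y).1 hz, by rw [fa0]⟩
        · exact Or.inl ⟨y, (h2 y).2 hz, by rw [fa1]⟩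
    have hh := head (sh k) k1 t1
    have e0 : ∀ y, 2 * y ∈ O k (l :: t) → y ∈ O (ml (sh k) k1) t1 := fun y h => by
      rcases key _ h with ⟨z, hz, e⟩ | ⟨z, hz, e⟩
      · rw [act0] at e
        exact hh.1 ▸ ⟨z, hz, by omega⟩
      · rw [act1] at e; omega
    have e1 : ∀ y, 2 * y + 1 ∈ O k (l :: t) → ∃ z ∈ O k0 t0, y = if k.1 then fa z else z :=
      fun y h => by
        rcases key _ h with ⟨z, hz, e⟩ | ⟨z, hz, e⟩
        · rw [act0] at e; omega
        · rw [act1] at e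
          exact ⟨z, hz, by omega⟩
    have hw := (show ∀ k : K, 6 * (om (sh k) + 3 * k.1.toNat) ≤ 5 * (om k + 3) by decide) k
    have h3 := hh.2
    cases hk : k.1
    · refine ⟨_, t1, k0, t0, by simp only [W]; omega, fun y => ⟨e0 y, fun h => ?_⟩⟩
      obtain ⟨z, hz, e⟩ := e1 y h
      simpa [e, hk] using hz
    · refine ⟨_, t1, o, k0 :: t0, ?_, fun y => ⟨e0 y, fun h => ?_⟩⟩
      · simp only [W, hk, show om o = 0 from rfl, Bool.toNat_true] at hw ⊢; omega
      · obtain ⟨z, hz, e⟩ := e1 y h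
        rw [O_o]
        exact Or.inr ⟨z, hz, by simp [e, hk]⟩

def OO (L : ℕ) : Set (Set ℕ) := {A | ∃ k t, W k t ≤ L ∧ A ⊆ O k t}

def F (p : (K × Prop) × Set ℕ) : Set ℕ := act p.1.1 '' ({x | x = 0 ∧ p.1.2} ∪ fa '' p.2)

theorem OO_s (L : ℕ) (A : Set ℕ) (h : A ∈ OO L) :
    ∃ p, F p = A ∧ (p.2 = ∅ ∨ (0 < L ∧ p.2 ∈ OO (L - 1))) := by
  obtain ⟨k, _ | ⟨l, t⟩, h1, h2⟩ := h
  · refine ⟨((k, 0 ∈ A), ∅), Set.ext fun x => ?_, Or.inl rfl⟩
    simp only [F, Set.image_empty, Set.union_empty]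
    exact ⟨by rintro ⟨_, ⟨rfl, h⟩, rfl⟩; simpa only [act_z] using h, fun h => by
      obtain rfl : x = 0 := h2 h
      exact ⟨0, ⟨rfl, h⟩, act_z k⟩⟩
  · simp only [W] at h1
    refine ⟨((k, 0 ∈ A), {y ∈ O l t | act k (fa y) ∈ A}), Set.ext fun x => ⟨?_, fun h => ?_⟩,
      Or.inr ⟨by omega, l, t, by omega, fun _ h => h.1⟩⟩
    · rintro ⟨_, ⟨rfl, h⟩ | ⟨y, h, rfl⟩, rfl⟩
      · rwa [act_z]
      · exact h.2
    · obtain ⟨_, rfl | ⟨y, hy, rfl⟩, rfl⟩ := h2 h
      · exact ⟨0, Or.inl ⟨rfl, by rwa [act_z] at h⟩, rfl⟩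
      · exact ⟨_, Or.inr ⟨y, ⟨hy, h⟩, rfl⟩, rfl⟩

theorem base (L : ℕ) : (OO L).Finite ∧ (OO L).ncard ≤ 8 ^ (L + 1) := by
  have k : ∀ (B C : Set (Set ℕ)), B.Finite → (∀ A ∈ C, ∃ p, F p = A ∧ p.2 ∈ B) →
      C.Finite ∧ C.ncard ≤ 8 * B.ncard := fun B C hB h => by
    have h1 : C ⊆ F '' (Set.univ ×ˢ B) := fun A hA => by
      obtain ⟨p, e, hp⟩ := h A hA
      exact ⟨p, ⟨trivial, hp⟩, e⟩
    have h2 := (Set.finite_univ (α := K × Prop)).prod hB
    refine ⟨(h2.image F).subset h1, (Set.ncard_le_ncard h1 (h2.image F)).trans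
      ((Set.ncard_image_le h2).trans ?_)⟩
    rw [Set.ncard_prod, Set.ncard_univ]
    simp
  induction L with
  | zero =>
    have := k {∅} _ (Set.finite_singleton _) fun A hA => by
      obtain ⟨p, e, h | h⟩ := OO_s 0 A hA
      · exact ⟨p, e, h⟩
      · omega
    simpa using this
  | succ L ih =>
    have := k _ (OO (L + 1)) ih.1 fun A hA => by
      obtain ⟨p, e, h | h⟩ := OO_s _ A hA
      · exact ⟨p, e, h ▸ ⟨o, [], Nat.zero_le _, Set.empty_subset _⟩⟩
      · exact ⟨p, e, h.2⟩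
    exact ⟨this.1, by rw [pow_succ]; omega⟩

theorem recu (L : ℕ) : (OO L).ncard ≤ ∑ i ∈ Finset.range (5 * (L + 3) / 6 + 1),
    (OO i).ncard * (OO (5 * (L + 3) / 6 - i)).ncard := by
  classical
  have h1 : (base L).1.toFinset ⊆ (Finset.range (5 * (L + 3) / 6 + 1)).biUnion fun i =>
      Finset.image₂ (fun B C : Set ℕ => {x | (∃ y ∈ B, x = 2 * y) ∨ ∃ y ∈ C, x = 2 * y + 1})
        (base i).1.toFinset (base (5 * (L + 3) / 6 - i)).1.toFinset := fun A hA => by
    obtain ⟨k, t, h1, h2⟩ := (Set.Finite.mem_toFinset _).1 hA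
    obtain ⟨k0, t0, k1, t1, h3, h4⟩ := sec t k
    refine Finset.mem_biUnion.2 ⟨W k0 t0, Finset.mem_range.2 (by omega), Finset.mem_image₂.2
      ⟨{y | 2 * y ∈ A}, (Set.Finite.mem_toFinset _).2 ⟨k0, t0, le_rfl, fun y h => (h4 y).1 (h2 h)⟩,
      {y | 2 * y + 1 ∈ A}, (Set.Finite.mem_toFinset _).2
        ⟨k1, t1, by omega, fun y h => (h4 y).2 (h2 h)⟩, Set.ext fun x => ⟨?_, fun h => ?_⟩⟩⟩
    · rintro (⟨y, h, rfl⟩ | ⟨y, h, rfl⟩) <;> exact h
    · obtain ⟨y, rfl | rfl⟩ := Nat.even_or_odd' x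
      · exact Or.inl ⟨y, h, rfl⟩
      · exact Or.inr ⟨y, h, rfl⟩
  refine ((Set.ncard_eq_toFinset_card _ (base L).1).le.trans (Finset.card_le_card h1)).trans (Finset.card_biUnion_le.trans
    (Finset.sum_le_sum fun i _ => ?_))
  exact (Finset.card_image₂_le _ _ _).trans (le_of_eq (congrArg₂ (· * ·)
    (Set.ncard_eq_toFinset_card _ (base i).1).symm (Set.ncard_eq_toFinset_card _ (base _).1).symm))

def pa : Perm ℕ := Function.Involutive.toPerm fa fa_fa
def pk (k : K) : Perm ℕ := Function.Involutive.toPerm (act k) (act_act k)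

def S1 : Set (Perm ℕ) := {pa} ∪ Set.range pk

theorem trans (y : ℕ) : ∃ g ∈ Subgroup.closure S1, g 0 = y := by
  have ha : pa ∈ Subgroup.closure S1 := Subgroup.subset_closure (Or.inl rfl)
  have hk : ∀ k, pk k ∈ Subgroup.closure S1 := fun k => Subgroup.subset_closure (Or.inr ⟨k, rfl⟩)
  have lift : ∀ g ∈ Subgroup.closure S1, ∃ g' ∈ Subgroup.closure S1, ∀ y, g' (2 * y) = 2 * g y := by
    intro g hg
    induction hg using Subgroup.closure_induction with
    | mem s h =>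
      rcases h with rfl | ⟨k, rfl⟩
      · refine ⟨pa * pk (true, true) * pa, mul_mem (mul_mem ha (hk _)) ha, fun y => ?_⟩
        show fa (act _ (fa _)) = 2 * fa y
        rw [fa0, act1, fa1]; rfl
      · refine ⟨pk (k.1 ^^ k.2, k.1), hk _, fun y => (act0 _ _).trans ?_⟩
        rw [show sh (k.1 ^^ k.2, k.1) = k by revert k; decide]; rfl
    | one => exact ⟨1, one_mem _, fun _ => rfl⟩
    | mul g h _ _ h1 h2 =>
      obtain ⟨g', a1, a2⟩ := h1
      obtain ⟨h', b1, b2⟩ := h2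
      exact ⟨g' * h', mul_mem a1 b1, fun y => by simp [a2, b2]⟩
    | inv g _ h1 =>
      obtain ⟨g', a1, a2⟩ := h1
      exact ⟨g'⁻¹, inv_mem a1, fun y => by rw [Perm.inv_eq_iff_eq, a2]; simp⟩
  induction y using Nat.strong_induction_on with
  | _ n ih =>
    by_cases h : n = 0
    · exact ⟨1, one_mem _, h.symm⟩
    obtain ⟨g, h1, h2⟩ := ih (n / 2) (by omega)
    obtain ⟨g', h3, h4⟩ := lift g h1
    have h5 : g' 0 = 2 * (n / 2) := by rw [← h2, ← h4]
    by_cases e : n % 2 = 0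
    · exact ⟨g', h3, by omega⟩
    · refine ⟨pa * g', mul_mem ha h3, ?_⟩
      show fa (g' 0) = n
      rw [h5, fa0]; omega


def Rt (a : ℕ → ℕ) (r : ℝ) : Prop := ∃ C : ℝ, 0 < C ∧ ∀ L, (a L : ℝ) ≤ C * Real.exp (r * L)

theorem Rt_step (a : ℕ → ℕ) (ha : ∀ L, a L ≤ 2 * ∑ i ∈ Finset.range (5 * (L + 3) / 6 + 1),
    a i * a (5 * (L + 3) / 6 - i)) (r : ℝ) (hr : 0 < r) (h : Rt a r) : Rt a (r * (11 / 12)) := by
  obtain ⟨C, hC, h⟩ := h
  refine ⟨2 * ((12 / r + 4) * C ^ 2 * Real.exp (r * 3)), by positivity, fun L => ?_⟩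
  have h1 := (Nat.cast_le (α := ℝ)).2 (ha L)
  obtain ⟨M, hM, hM2⟩ : ∃ M, 5 * (L + 3) / 6 = M ∧ 6 * M ≤ 5 * L + 15 := ⟨_, rfl, by omega⟩
  rw [hM] at h1
  have hM3 : (6 * M : ℝ) ≤ 5 * L + 15 := by exact_mod_cast hM2
  push_cast at h1
  have h2 : ∀ i ∈ Finset.range (M + 1), (a i : ℝ) * a (M - i) ≤
      C ^ 2 * Real.exp (r * M) := fun i hi => by
    have := mul_le_mul (h i) (h (M - i)) (by positivity) (by positivity)
    rw [Nat.cast_sub (by simpa [Nat.lt_succ_iff] using hi)] at this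
    refine this.trans (le_of_eq ?_)
    rw [show r * M = r * i + r * (M - i) by ring, Real.exp_add]; ring
  have h3 := Finset.sum_le_card_nsmul _ _ _ h2
  rw [Finset.card_range, nsmul_eq_mul] at h3
  have h4 : ((M + 1 : ℕ) : ℝ) ≤ (12 / r + 4) * Real.exp (r / 12 * L) := by
    have h5 := Real.add_one_le_exp (r / 12 * L)
    have h6 : (12 / r + 4) * (r / 12 * L + 1) = L + 4 + (12 / r + r / 3 * L) := by
      field_simp; ring
    have h7 : (0 : ℝ) ≤ 12 / r + r / 3 * L := by positivity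
    have := mul_le_mul_of_nonneg_left h5 (show 0 ≤ 12 / r + 4 by positivity)
    have h8 : (0 : ℝ) ≤ L := by positivity
    push_cast; linarith
  have h5 : Real.exp (r / 12 * L) * Real.exp (r * M) ≤
      Real.exp (r * 3) * Real.exp (r * (11 / 12) * L) := by
    rw [← Real.exp_add, ← Real.exp_add]
    exact Real.exp_le_exp.2 (by nlinarith)
  rw [mul_assoc]
  refine h1.trans (mul_le_mul_of_nonneg_left ?_ (by norm_num))
  calc _ ≤ (12 / r + 4) * Real.exp (r / 12 * L) * (C ^ 2 * Real.exp (r * M)) :=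
        h3.trans (by gcongr)
    _ = (12 / r + 4) * C ^ 2 * (Real.exp (r / 12 * L) * Real.exp (r * M)) := by ring
    _ ≤ _ := by rw [mul_assoc _ (Real.exp _)]; gcongr

theorem Rt_all (a : ℕ → ℕ) (hb : ∀ L, a L ≤ 8 ^ (L + 1))
    (ha : ∀ L, a L ≤ 2 * ∑ i ∈ Finset.range (5 * (L + 3) / 6 + 1),
    a i * a (5 * (L + 3) / 6 - i)) (e : ℝ) (he : 0 < e) : Rt a e := by
  have h : ∀ j : ℕ, Rt a (7 * (11 / 12) ^ j) := fun j => by
    induction j with
    | zero =>
      refine ⟨8, by norm_num, fun L => ?_⟩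
      have h1 := (Nat.cast_le (α := ℝ)).2 (hb L)
      have h2 : (8 : ℝ) ≤ Real.exp 7 := by linarith [Real.add_one_le_exp 7]
      push_cast at h1
      rw [pow_zero, mul_one, mul_comm (7 : ℝ), Real.exp_nat_mul]
      refine h1.trans ?_
      rw [pow_succ']; gcongr
    | succ j ih => rw [pow_succ, ← mul_assoc]; exact Rt_step a ha _ (by positivity) ih
  obtain ⟨j, hj⟩ := exists_pow_lt_of_lt_one (show 0 < e / 7 by positivity)
    (show (11 / 12 : ℝ) < 1 by norm_num)
  obtain ⟨C, hC, h2⟩ := h j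
  refine ⟨C, hC, fun L => (h2 L).trans ?_⟩
  have : 7 * (11 / 12 : ℝ) ^ j ≤ e := by linarith
  gcongr

theorem Rt_OO (e : ℝ) (he : 0 < e) : Rt (fun L => (OO L).ncard) e :=
  Rt_all _ (fun L => (base L).2) (fun L => (recu L).trans (by omega)) e he

def E : K → List K → Perm ℕ
  | k, [] => pk k
  | k, l :: t => pk k * pa * E l t

theorem headE (k l : K) (t : List K) : pk k * E l t = E (ml k l) t := by
  have : pk k * pk l = pk (ml k l) := Equiv.ext fun n => act_ml n k l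
  cases t
  · exact this
  · simp only [E, ← mul_assoc, this]

theorem pk_o : pk o = 1 := Equiv.ext act_o

theorem E_o (k : K) (t : List K) : E o (k :: t) = pa * E k t := by
  simp only [E, pk_o, one_mul]

theorem secE (t : List K) : ∀ k, ∃ k0 t0 k1 t1, ∃ e : ℕ, e ≤ 1 ∧
    6 * (W k0 t0 + W k1 t1) ≤ 5 * (W k t + 3) ∧
    ∀ y, E k t (2 * y + e) = 2 * E k0 t0 y ∧ E k t (2 * y + (1 - e)) = 2 * E k1 t1 y + 1 := by
  have hw := (show ∀ k : K, 6 * (om (sh k) + 3 * k.1.toNat) ≤ 5 * (om k + 3) by decide)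
  induction t with
  | nil =>
    intro k
    have hw := hw k
    cases hk : k.1
    · refine ⟨sh k, [], o, [], 0, by omega, ?_, fun y => ⟨act0 k y, ?_⟩⟩
      · simp only [W, show om o = 0 from rfl]; omega
      · show act k (2 * y + 1) = 2 * act o y + 1
        rw [act1, act_o]; simp [hk]
    · refine ⟨sh k, [], o, [o], 0, by omega, ?_, fun y => ⟨act0 k y, ?_⟩⟩
      · simp only [W, hk, show om o = 0 from rfl, Bool.toNat_true] at hw ⊢; omega
      · show act k (2 * y + 1) = 2 * act o (fa (act o y)) + 1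
        rw [act1, act_o, act_o]; simp [hk]
  | cons l t ih =>
    intro k
    obtain ⟨k0, t0, k1, t1, e, he, h1, h2⟩ := ih l
    have hw := hw k
    have h3 := (head (sh k) k1 t1).2
    have e0 : ∀ y, E k (l :: t) (2 * y + (1 - e)) = 2 * E (ml (sh k) k1) t1 y := fun y => by
      show act k (fa (E l t (2 * y + (1 - e)))) = _
      rw [(h2 y).2, fa1, act0, ← headE]; rfl
    have e1 : ∀ y, E k (l :: t) (2 * y + (1 - (1 - e))) =
        2 * (if k.1 then fa (E k0 t0 y) else E k0 t0 y) + 1 := fun y => by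
      show act k (fa (E l t (2 * y + (1 - (1 - e))))) = _
      rw [show 1 - (1 - e) = e by omega, (h2 y).1, fa0, act1]
    cases hk : k.1
    · refine ⟨_, t1, k0, t0, 1 - e, by omega, by simp only [W]; omega, fun y => ⟨e0 y, ?_⟩⟩
      rw [e1]; simp [hk]
    · refine ⟨_, t1, o, k0 :: t0, 1 - e, by omega, ?_, fun y => ⟨e0 y, ?_⟩⟩
      · simp only [W, hk, show om o = 0 from rfl, Bool.toNat_true] at hw ⊢; omega
      · rw [e1, E_o]; simp only [hk, if_true]; rfl

def EE (L : ℕ) : Set (ℕ → ℕ) := {f | ∃ k t, W k t ≤ L ∧ f = ⇑(E k t)}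

theorem baseE (L : ℕ) : (EE L).Finite ∧ (EE L).ncard ≤ 8 ^ (L + 1) := by
  have hr : (Set.range (fun k => act k)).ncard ≤ 4 := by
    rw [← Set.image_univ]
    refine (Set.ncard_image_le Set.finite_univ).trans ?_
    rw [Set.ncard_univ]; simp
  induction L with
  | zero =>
    have : EE 0 ⊆ Set.range (fun k => act k) := by
      rintro _ ⟨k, _ | ⟨l, t⟩, h, rfl⟩
      · exact ⟨k, rfl⟩
      · simp only [W] at h; omega
    exact ⟨(Set.finite_range _).subset this,
      (Set.ncard_le_ncard this (Set.finite_range _)).trans (by omega)⟩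
  | succ L ih =>
    have h2 := (Set.finite_univ (α := K)).prod ih.1
    have : EE (L + 1) ⊆ Set.range (fun k => act k) ∪
        (fun p : K × (ℕ → ℕ) => fun n => act p.1 (fa (p.2 n))) '' (Set.univ ×ˢ EE L) := by
      rintro _ ⟨k, _ | ⟨l, t⟩, h, rfl⟩
      · exact Or.inl ⟨k, rfl⟩
      · simp only [W] at h
        exact Or.inr ⟨(k, ⇑(E l t)), ⟨trivial, l, t, by omega, rfl⟩, rfl⟩
    have h3 := (Set.finite_range (fun k => act k)).union (h2.image
      (fun p : K × (ℕ → ℕ) => fun n => act p.1 (fa (p.2 n))))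
    refine ⟨h3.subset this, (Set.ncard_le_ncard this h3).trans ((Set.ncard_union_le _ _).trans ?_)⟩
    have h4 := Set.ncard_image_le (f := fun p : K × (ℕ → ℕ) => fun n => act p.1 (fa (p.2 n))) h2
    rw [Set.ncard_prod, Set.ncard_univ] at h4
    have h5 : Nat.card K = 4 := by simp
    have h6 := ih.2
    have h7 : 0 < 8 ^ (L + 1) := by positivity
    rw [h5] at h4
    rw [pow_succ]; omega

def cmb (e : ℕ) (f g : ℕ → ℕ) (x : ℕ) : ℕ := if x % 2 = e then 2 * f (x / 2) else 2 * g (x / 2) + 1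

theorem recuE (L : ℕ) : (EE L).ncard ≤ 2 * ∑ i ∈ Finset.range (5 * (L + 3) / 6 + 1),
    (EE i).ncard * (EE (5 * (L + 3) / 6 - i)).ncard := by
  classical
  have h1 : (baseE L).1.toFinset ⊆ (Finset.range 2).biUnion fun e =>
      (Finset.range (5 * (L + 3) / 6 + 1)).biUnion fun i =>
      Finset.image₂ (cmb e) (baseE i).1.toFinset (baseE (5 * (L + 3) / 6 - i)).1.toFinset :=
    fun A hA => by
    obtain ⟨k, t, h1, rfl⟩ := (Set.Finite.mem_toFinset _).1 hA
    obtain ⟨k0, t0, k1, t1, e, he, h3, h4⟩ := secE t k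
    refine Finset.mem_biUnion.2 ⟨e, Finset.mem_range.2 (by omega), Finset.mem_biUnion.2
      ⟨W k0 t0, Finset.mem_range.2 (by omega), Finset.mem_image₂.2
      ⟨E k0 t0, (Set.Finite.mem_toFinset _).2 ⟨k0, t0, le_rfl, rfl⟩,
      E k1 t1, (Set.Finite.mem_toFinset _).2 ⟨k1, t1, by omega, rfl⟩, funext fun x => ?_⟩⟩⟩
    unfold cmb
    split_ifs with h
    · rw [← (h4 (x / 2)).1]; congr 1; omega
    · rw [← (h4 (x / 2)).2]; congr 1; omega
  refine ((Set.ncard_eq_toFinset_card _ (baseE L).1).le.trans (Finset.card_le_card h1)).trans ?_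
  refine (Finset.card_biUnion_le_card_mul _ _ _ fun e _ => ?_).trans (by rw [Finset.card_range])
  refine Finset.card_biUnion_le.trans (Finset.sum_le_sum fun i _ => ?_)
  exact (Finset.card_image₂_le _ _ _).trans (le_of_eq (congrArg₂ (· * ·)
    (Set.ncard_eq_toFinset_card _ (baseE i).1).symm
    (Set.ncard_eq_toFinset_card _ (baseE _).1).symm))

theorem Rt_EE (e : ℝ) (he : 0 < e) : Rt (fun L => (EE L).ncard) e :=
  Rt_all _ (fun L => (baseE L).2) recuE e he

theorem O_fin (t : List K) : ∀ k, (O k t).Finite ∧ (O k t).ncard ≤ W k t + 1 := by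
  induction t with
  | nil => intro k; simp [O]
  | cons l t ih =>
    intro k
    have h1 := (Set.finite_singleton 0).union ((ih l).1.image fa)
    refine ⟨h1.image _, (Set.ncard_image_le h1).trans ((Set.ncard_union_le _ _).trans ?_)⟩
    have := Set.ncard_image_le (f := fa) (ih l).1
    have := (ih l).2
    simp only [Set.ncard_singleton, W]; omega

theorem O_small (j : ℕ) : ∀ k t, ((O k t).ncard : ℝ) + 3 ≤ (5 / 6) ^ j * W k t + 4 * 2 ^ j := by
  induction j with
  | zero =>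
    intro k t
    have := (Nat.cast_le (α := ℝ)).2 (O_fin t k).2
    push_cast at this
    simp only [pow_zero]; linarith
  | succ j ih =>
    intro k t
    obtain ⟨k0, t0, k1, t1, h3, h4⟩ := sec t k
    have h1 : O k t ⊆ (fun y => 2 * y) '' O k0 t0 ∪ (fun y => 2 * y + 1) '' O k1 t1 := fun x h => by
      obtain ⟨y, rfl | rfl⟩ := Nat.even_or_odd' x
      · exact Or.inl ⟨y, (h4 y).1 h, rfl⟩
      · exact Or.inr ⟨y, (h4 y).2 h, rfl⟩
    have h2 := (Set.ncard_le_ncard h1 (((O_fin t0 k0).1.image _).union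
      ((O_fin t1 k1).1.image _))).trans ((Set.ncard_union_le _ _).trans (Nat.add_le_add
        (Set.ncard_image_le (O_fin t0 k0).1) (Set.ncard_image_le (O_fin t1 k1).1)))
    have h5 := (Nat.cast_le (α := ℝ)).2 h2
    have h6 := (Nat.cast_le (α := ℝ)).2 h3
    push_cast at h5 h6
    have a0 := ih k0 t0
    have a1 := ih k1 t1
    have hq : (0 : ℝ) ≤ (5 / 6) ^ j := by positivity
    have hq1 : ((5 : ℝ) / 6) ^ j ≤ 1 := pow_le_one₀ (by norm_num) (by norm_num)
    have h7 := mul_le_mul_of_nonneg_left h6 hq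
    rw [pow_succ, pow_succ]
    nlinarith

theorem O_pow (e : ℝ) (he : 0 < e) : ∃ C : ℝ, 0 < C ∧ ∀ L k t, W k t ≤ L →
    (((O k t).ncard ^ (O k t).ncard : ℕ) : ℝ) ≤ C * Real.exp (e * L) := by
  have h0 := tendsto_pow_const_mul_const_pow_of_abs_lt_one 1 (r := 5 / 6) (by norm_num [abs_of_pos])
  obtain ⟨J, hJ⟩ := Filter.eventually_atTop.1
    (h0.eventually (gt_mem_nhds (show (0 : ℝ) < e / 12 by positivity)))
  refine ⟨Real.exp e + ((4 ^ J) ^ (4 ^ J) : ℕ), by positivity, fun L k t hL => ?_⟩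
  set a := (O k t).ncard with ha
  have a1 : a ≤ L + 1 := (O_fin t k).2.trans (by omega)
  set j := Nat.log 4 (L + 1) with hj
  have j1 : 4 ^ j ≤ L + 1 := Nat.pow_log_le_self 4 (by omega)
  have j2 : L + 1 < 4 ^ (j + 1) := Nat.lt_pow_succ_log_self (by norm_num) _
  have hex : 1 ≤ Real.exp (e * L) := Real.one_le_exp (by positivity)
  by_cases hc : j + 1 ≤ J
  · have b1 : a ≤ 4 ^ J := a1.trans (j2.le.trans (Nat.pow_le_pow_right (by norm_num) hc))
    have b2 : a ^ a ≤ (4 ^ J) ^ (4 ^ J) := (Nat.pow_le_pow_left b1 _).trans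
      (Nat.pow_le_pow_right (by positivity) b1)
    have b3 := (Nat.cast_le (α := ℝ)).2 b2
    have b4 := Real.exp_pos e
    have b5 : (0 : ℝ) ≤ ((4 ^ J) ^ (4 ^ J) : ℕ) := by positivity
    nlinarith
  · have c1 := hJ (j + 1) (by omega)
    have c2 := O_small j k t
    have c3 : (W k t : ℝ) ≤ L := by exact_mod_cast hL
    have c4 : (4 : ℝ) ^ j ≤ L + 1 := by exact_mod_cast j1
    have hq : (0 : ℝ) ≤ (5 / 6) ^ j := by positivity
    have c5 : (2 : ℝ) ^ j ≤ (5 / 6) ^ j * (L + 1) := by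
      refine le_trans ?_ (mul_le_mul_of_nonneg_left c4 hq)
      rw [← mul_pow]
      gcongr
      norm_num
    have c6 : (a : ℝ) ≤ 5 * ((5 / 6) ^ j * (L + 1)) := by
      have := mul_le_mul_of_nonneg_left c3 hq
      nlinarith
    have c7 : (a : ℝ) ≤ Real.exp (2 * (j + 1 : ℕ)) := by
      have d1 : (a : ℝ) ≤ 4 ^ (j + 1) := by exact_mod_cast a1.trans j2.le
      have d2 : (4 : ℝ) ≤ Real.exp 2 := by
        have := Real.add_one_le_exp 1
        rw [show (2 : ℝ) = 1 + 1 by norm_num, Real.exp_add]; nlinarith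
      rw [mul_comm, Real.exp_nat_mul]
      exact d1.trans (by gcongr)
    have c8 : ((a ^ a : ℕ) : ℝ) ≤ Real.exp (e * (L + 1)) := by
      push_cast
      refine (pow_le_pow_left₀ (by positivity) c7 a).trans ?_
      rw [← Real.exp_nat_mul]
      refine Real.exp_le_exp.2 ?_
      rw [pow_one, pow_succ] at c1
      have d3 : (0 : ℝ) ≤ (j + 1 : ℕ) := by positivity
      have d4 : (0 : ℝ) ≤ (L : ℝ) + 1 := by positivity
      have d5 := mul_le_mul_of_nonneg_left c6 d3
      have d6 := mul_le_mul_of_nonneg_left c1.le d4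
      nlinarith
    rw [mul_add, mul_one, Real.exp_add] at c8
    have b5 : (0 : ℝ) ≤ ((4 ^ J) ^ (4 ^ J) : ℕ) := by positivity
    have b4 := Real.exp_pos (e * L)
    nlinarith

end Pool.Agent.H16.Grig
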