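import Mathlib
import Pool.Agent.H16.Grig1

set_option autoImplicit false
open Pointwise

namespace Pool.Agent.H16.Grig
open Equiv

def S0 : Set (Perm ℕ) := {swap 0 1} ∪ S1
def T : Set (Perm ℕ) := S0 ∪ {1}

theorem S0_fin : S0.Finite :=
  (Set.finite_singleton _).union ((Set.finite_singleton _).union (Set.finite_range _))

theorem S0_inv (s : Perm ℕ) (h : s ∈ S0) : s⁻¹ = s := by
  rcases h with rfl | rfl | ⟨k, rfl⟩ <;> rfl

theorem T_inv : T⁻¹ = T := by
  have : ∀ s ∈ T, s⁻¹ = s := by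
    rintro s (h | rfl)
    · exact S0_inv s h
    · rfl
  ext s
  constructor
  · intro h
    have h1 := this _ h
    rw [inv_inv] at h1
    rw [h1]; exact h
  · intro h
    show s⁻¹ ∈ T
    rw [this s h]; exact h

theorem B_mono {m n : ℕ} (h : m ≤ n) {g : Perm ℕ} (hg : g ∈ T ^ m) : g ∈ T ^ n :=
  Set.pow_subset_pow_right (show (1 : Perm ℕ) ∈ T from Or.inr rfl) h hg

theorem B_mul {m n : ℕ} {g h : Perm ℕ} (hg : g ∈ T ^ m) (hh : h ∈ T ^ n) : g * h ∈ T ^ (m + n) := by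
  rw [pow_add]; exact Set.mul_mem_mul hg hh

theorem B_inv {m : ℕ} {g : Perm ℕ} (hg : g ∈ T ^ m) : g⁻¹ ∈ T ^ m := by
  rw [← T_inv, inv_pow]; simpa using hg

theorem B_one (m : ℕ) : (1 : Perm ℕ) ∈ T ^ m := B_mono (Nat.zero_le m) rfl

theorem B_gen {s : Perm ℕ} (h : s ∈ S0) : s ∈ T ^ 1 := by rw [pow_one]; exact Or.inl h

def PP (A : Set ℕ) : Set (Perm ℕ) := {σ | ∀ x, x ∉ A → σ x = x}

theorem PP_conj (A : Set ℕ) (σ s : Perm ℕ) (h : σ ∈ PP A) : s * σ * s⁻¹ ∈ PP (s '' A) := by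
  intro x hx
  have : s⁻¹ x ∉ A := fun e => hx ⟨_, e, by simp⟩
  rw [Perm.mul_apply, Perm.mul_apply, h _ this]; simp

theorem PP_mono {A B : Set ℕ} (h : A ⊆ B) {σ : Perm ℕ} (hσ : σ ∈ PP A) : σ ∈ PP B :=
  fun x hx => hσ x fun e => hx (h e)

theorem decomp (n : ℕ) : ∀ g ∈ T ^ n, ∃ σ k t k' t', W k t ≤ 6 * n ∧ W k' t' ≤ 6 * n ∧
    σ ∈ PP (O k t) ∧ g = σ * E k' t' := by
  have h0 : om o = 0 := rfl
  induction n with
  | zero =>
    rintro _ rfl
    exact ⟨1, o, [], o, [], le_rfl, le_rfl, fun _ _ => rfl, by simp [E, pk_o]⟩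
  | succ n ih =>
    rw [pow_succ']
    rintro _ ⟨s, hs, g, hg, rfl⟩
    obtain ⟨σ, k, t, k', t', h1, h2, h3, rfl⟩ := ih g hg
    rcases hs with (rfl | rfl | ⟨j, rfl⟩) | rfl
    · refine ⟨swap 0 1 * σ, o, o :: k :: t, k', t', by simp only [W]; omega, by omega, ?_,
        (mul_assoc _ _ _).symm⟩
      intro x hx
      rw [O_o, O_o] at hx
      have a0 : x ≠ 0 := fun e => hx (Or.inl e)
      have a1 : x ≠ 1 := fun e => hx (Or.inr ⟨0, Or.inl rfl, e.symm⟩)
      have a2 : x ∉ O k t := fun e => hx (Or.inr ⟨_, Or.inr ⟨x, e, rfl⟩, fa_fa x⟩)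
      simp [h3 x a2, swap_apply_of_ne_of_ne a0 a1]
    · refine ⟨pa * σ * pa⁻¹, o, k :: t, o, k' :: t', by simp only [W]; omega,
        by simp only [W]; omega, PP_mono ?_ (PP_conj _ _ _ h3), ?_⟩
      · rw [O_o]; exact Set.subset_union_right
      · rw [E_o]; group
    · have h4 := (show ∀ j : K, om j ≤ 3 by decide) j
      have h5 := (head j k t).2
      have h6 := (head j k' t').2
      refine ⟨pk j * σ * (pk j)⁻¹, ml j k, t, ml j k', t', by omega, by omega,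
        PP_mono ?_ (PP_conj _ _ _ h3), ?_⟩
      · rw [← (head j k t).1]; rfl
      · rw [← headE]; group
    · exact ⟨σ, k, t, k', t', by omega, by omega, h3, one_mul _⟩

theorem PP_card (A : Set ℕ) (hA : A.Finite) : (PP A).Finite ∧ (PP A).ncard ≤ A.ncard ^ A.ncard := by
  haveI := hA.to_subtype
  have hm : ∀ σ ∈ PP A, ∀ x ∈ A, σ x ∈ A := fun σ h x hx => by
    by_contra e
    have := σ.injective (h _ e)
    exact e (by rw [this]; exact hx)
  let f : PP A → (A → A) := fun σ x => ⟨σ.1 x, hm _ σ.2 _ x.2⟩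
  have hf : Function.Injective f := fun σ τ e => Subtype.ext (Equiv.ext fun x => by
    by_cases hx : x ∈ A
    · exact congrArg Subtype.val (congrFun e ⟨x, hx⟩)
    · rw [σ.2 x hx, τ.2 x hx])
  refine ⟨Set.finite_coe_iff.1 (Finite.of_injective f hf), ?_⟩
  have := Nat.card_le_card_of_injective f hf
  rwa [Nat.card_fun, Nat.card_coe_set_eq, Nat.card_coe_set_eq] at this

theorem T_fin (n : ℕ) : (T ^ n).Finite := by
  induction n with
  | zero => rw [pow_zero]; exact Set.finite_one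
  | succ n ih => rw [pow_succ]; exact ih.mul (S0_fin.union (Set.finite_singleton 1))

theorem upper (e : ℝ) (he : 0 < e) : ∃ C : ℝ, 0 < C ∧ ∀ n : ℕ, (T ^ n).Finite ∧
    ((T ^ n).ncard : ℝ) ≤ C * Real.exp (e * n) := by
  classical
  obtain ⟨C1, c1, h1⟩ := Rt_OO (e / 18) (by positivity)
  obtain ⟨C2, c2, h2⟩ := Rt_EE (e / 18) (by positivity)
  obtain ⟨C3, c3, h3⟩ := O_pow (e / 18) (by positivity)
  refine ⟨C1 * C3 * C2, by positivity, fun n => ?_⟩
  have hT : (T ^ n).Finite := T_fin n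
  refine ⟨hT, ?_⟩
  set L := 6 * n with hL
  let EP : Set (Perm ℕ) := {g | ⇑g ∈ EE L}
  have hEP : EP.Finite := (baseE L).1.preimage DFunLike.coe_injective.injOn
  have hEc : EP.ncard ≤ (EE L).ncard :=
    Set.ncard_le_ncard_of_injOn (fun g : Perm ℕ => ⇑g) (fun g hg => hg)
      DFunLike.coe_injective.injOn (baseE L).1
  let U : Finset (Set ℕ) := (base L).1.toFinset.filter fun A => ∃ k t, W k t ≤ L ∧ A = O k t
  let Pf : Set ℕ → Finset (Perm ℕ) := fun A => if h : A.Finite then (PP_card A h).1.toFinset else ∅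
  have hsub : hT.toFinset ⊆ U.biUnion fun A => Finset.image₂ (· * ·) (Pf A) hEP.toFinset := by
    intro g hg
    obtain ⟨σ, k, t, k', t', a1, a2, a3, rfl⟩ := decomp n g (hT.mem_toFinset.1 hg)
    refine Finset.mem_biUnion.2 ⟨O k t, Finset.mem_filter.2 ⟨(Set.Finite.mem_toFinset _).2
      ⟨k, t, a1, le_rfl⟩, k, t, a1, rfl⟩, Finset.mem_image₂.2 ⟨σ, ?_, E k' t',
        hEP.mem_toFinset.2 ⟨k', t', a2, rfl⟩, rfl⟩⟩
    simp only [Pf, dif_pos (O_fin t k).1]
    exact (Set.Finite.mem_toFinset _).2 a3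
  have hb : ∀ A ∈ U, (Finset.image₂ (· * ·) (Pf A) hEP.toFinset).card ≤
      ⌊C3 * Real.exp (e / 18 * L)⌋₊ * (EE L).ncard := by
    intro A hA
    obtain ⟨k, t, a1, rfl⟩ := (Finset.mem_filter.1 hA).2
    refine (Finset.card_image₂_le _ _ _).trans (Nat.mul_le_mul ?_ ?_)
    · simp only [Pf, dif_pos (O_fin t k).1]
      rw [← Set.ncard_eq_toFinset_card _ (PP_card _ (O_fin t k).1).1]
      exact (PP_card _ (O_fin t k).1).2.trans (Nat.le_floor (h3 L k t a1))
    · rw [← Set.ncard_eq_toFinset_card _ hEP]; exact hEc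
  have hU : U.card ≤ (OO L).ncard := by
    rw [Set.ncard_eq_toFinset_card _ (base L).1]; exact Finset.card_filter_le _ _
  have hc := (Finset.card_le_card hsub).trans ((Finset.card_biUnion_le_card_mul _ _ _ hb).trans
    (Nat.mul_le_mul_right _ hU))
  rw [← Set.ncard_eq_toFinset_card _ hT] at hc
  have hc' := (Nat.cast_le (α := ℝ)).2 hc
  push_cast at hc'
  have hfl : (⌊C3 * Real.exp (e / 18 * L)⌋₊ : ℝ) ≤ C3 * Real.exp (e / 18 * L) :=
    Nat.floor_le (by positivity)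
  have hx : Real.exp (e * n) =
      Real.exp (e / 18 * L) * Real.exp (e / 18 * L) * Real.exp (e / 18 * L) := by
    rw [← Real.exp_add, ← Real.exp_add, hL]; push_cast; congr 1; ring
  calc _ ≤ _ := hc'
    _ ≤ (C1 * Real.exp (e / 18 * L)) * ((C3 * Real.exp (e / 18 * L)) *
        (C2 * Real.exp (e / 18 * L))) := by
      have a1 := h1 L
      have a2 := h2 L
      gcongr
    _ = _ := by rw [hx]; ring

theorem swapT {a b c m n : ℕ} (h1 : swap a b ∈ T ^ m) (h2 : swap b c ∈ T ^ n) :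
    swap a c ∈ T ^ (n + m + n) := by
  by_cases e1 : a = c
  · rw [e1, swap_self]; exact B_one _
  by_cases e2 : a = b
  · rw [e2]; exact B_mono (by omega) h2
  have := B_mul (B_mul h2 h1) (B_inv h2)
  rwa [← swap_apply_apply, swap_apply_left, swap_apply_of_ne_of_ne e2 e1] at this

theorem sw0 (j : ℕ) : ∀ g ∈ T ^ j, swap 0 (g 0) ∈ T ^ (2 * j ^ 2) := by
  induction j with
  | zero =>
    rintro _ rfl
    rw [Perm.one_apply, swap_self]; exact B_one _
  | succ j ih =>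
    rw [pow_succ]
    rintro _ ⟨g, hg, s, hs, rfl⟩
    have hs0 : s 0 = 0 ∨ s 0 = 1 := by
      rcases hs with (rfl | rfl | ⟨j, rfl⟩) | rfl
      · exact Or.inr rfl
      · exact Or.inr rfl
      · exact Or.inl (act_z j)
      · exact Or.inl rfl
    show swap 0 (g (s 0)) ∈ _
    rcases hs0 with e | e <;> rw [e]
    · exact B_mono (Nat.mul_le_mul_left 2 (Nat.pow_le_pow_left (Nat.le_succ j) 2)) (ih g hg)
    · have h1 : swap (g 0) (g 1) ∈ T ^ (j + 1 + j) := by
        rw [swap_apply_apply]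
        exact B_mul (B_mul hg (B_gen (Or.inl rfl))) (B_inv hg)
      exact B_mono (by nlinarith) (swapT (ih g hg) h1)

theorem pts (j : ℕ) : ∃ B : Finset ℕ, B.card = j + 1 ∧ 0 ∈ B ∧ ∀ y ∈ B, ∃ g ∈ T ^ j, g 0 = y := by
  induction j with
  | zero => exact ⟨{0}, rfl, by simp, fun y hy => ⟨1, rfl, by simpa using (Finset.mem_singleton.1 hy).symm⟩⟩
  | succ j ih =>
    obtain ⟨B, h1, h2, h3⟩ := ih
    have : ∃ s ∈ S1, ∃ y ∈ B, s y ∉ B := by
      by_contra hc
      push Not at hc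
      have hall : ∀ g ∈ Subgroup.closure S1, ∀ y ∈ B, g y ∈ B := by
        intro g hg
        induction hg using Subgroup.closure_induction_left with
        | one => exact fun y hy => hy
        | mul_left s hs g _ h => exact fun y hy => hc s hs _ (h y hy)
        | inv_mul_cancel s hs g _ h =>
          rw [S0_inv s (Or.inr hs)]; exact fun y hy => hc s hs _ (h y hy)
      obtain ⟨y, hy⟩ := Infinite.exists_notMem_finset B
      obtain ⟨g, hg, rfl⟩ := trans y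
      exact hy (hall g hg 0 h2)
    obtain ⟨s, hs, y, hy, hn⟩ := this
    refine ⟨insert (s y) B, by rw [Finset.card_insert_of_notMem hn, h1], by simp [h2], ?_⟩
    intro z hz
    rcases Finset.mem_insert.1 hz with rfl | hz
    · obtain ⟨g, hg, rfl⟩ := h3 y hy
      exact ⟨s * g, B_mono (by omega) (B_mul (B_gen (Or.inr hs)) hg), rfl⟩
    · obtain ⟨g, hg, rfl⟩ := h3 z hz
      exact ⟨g, B_mono (by omega) hg, rfl⟩

theorem emb (j : ℕ) : ∃ φ : Perm (Fin (j + 1)) →* Perm ℕ, Function.Injective φ ∧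
    ∀ σ, φ σ ∈ T ^ ((j + 1) * (6 * j ^ 2)) := by
  obtain ⟨B, h1, h2, h3⟩ := pts j
  let ι : Fin (j + 1) ↪ ℕ := (B.orderEmbOfFin h1).toEmbedding
  have hι : ∀ i, ι i ∈ B := fun i => B.orderEmbOfFin_mem h1 i
  have hs : ∀ a b, Perm.viaEmbeddingHom ι (swap a b) ∈ T ^ (6 * j ^ 2) := by
    intro a b
    have e : Perm.viaEmbeddingHom ι (swap a b) = swap (ι a) (ι b) := by
      ext x
      rw [Perm.viaEmbeddingHom_apply]
      by_cases hx : x ∈ Set.range ι
      · obtain ⟨i, rfl⟩ := hx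
        rw [Perm.viaEmbedding_apply, ι.injective.swap_apply]
      · rw [Perm.viaEmbedding_apply_of_notMem _ _ _ hx, swap_apply_of_ne_of_ne]
        · exact fun e => hx ⟨a, e.symm⟩
        · exact fun e => hx ⟨b, e.symm⟩
    obtain ⟨g, hg, eg⟩ := h3 _ (hι a)
    obtain ⟨h, hh, eh⟩ := h3 _ (hι b)
    have a1 := sw0 j g hg
    have a2 := sw0 j h hh
    rw [eg, swap_comm] at a1
    rw [eh] at a2
    rw [e]
    exact B_mono (by omega) (swapT a1 a2)
  have key : ∀ r (σ : Perm (Fin (j + 1))), σ.support.card ≤ r →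
      Perm.viaEmbeddingHom ι σ ∈ T ^ (r * (6 * j ^ 2)) := by
    intro r
    induction r with
    | zero =>
      intro σ h
      rw [Nat.le_zero, Finset.card_eq_zero, Perm.support_eq_empty_iff] at h
      rw [h, map_one]; exact B_one _
    | succ r ih =>
      intro σ h
      by_cases e : σ = 1
      · rw [e, map_one]; exact B_one _
      obtain ⟨x, hx⟩ : ∃ x, σ x ≠ x := by
        by_contra hc
        push Not at hc
        exact e (Equiv.ext hc)
      have a1 := ih _ (Nat.le_of_lt_succ ((Perm.card_support_swap_mul hx).trans_le h))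
      have a2 := B_mul (hs x (σ x)) a1
      rw [← map_mul, swap_mul_self_mul] at a2
      exact B_mono (by nlinarith) a2
  exact ⟨_, Perm.viaEmbeddingHom_injective ι, fun σ => key _ σ
    ((Finset.card_le_univ _).trans (by simp))⟩

def Pr (y : ℕ) : Finset ℕ := (Finset.range (y + 1)).filter Nat.Prime

theorem orders (y : ℕ) : ∃ f : Finset ℕ → Perm ℕ,
    (∀ A ∈ (Pr y).powerset, f A ∈ T ^ ((y ^ 2 + y + 1) * (6 * (y ^ 2 + y) ^ 2))) ∧
    Set.InjOn (fun A => orderOf (f A)) ((Pr y).powerset : Finset (Finset ℕ)) := by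
  obtain ⟨φ, h1, h2⟩ := emb (y ^ 2 + y)
  have h3 : ∀ A : Finset ℕ, ∃ σ : Perm (Fin (y ^ 2 + y + 1)),
      A ∈ (Pr y).powerset → σ.cycleType = A.val := by
    intro A
    by_cases hA : A ∈ (Pr y).powerset
    · have hA' := Finset.mem_powerset.1 hA
      obtain ⟨σ, hσ⟩ := (Perm.exists_with_cycleType_iff (Fin (y ^ 2 + y + 1)) (m := A.val)).2
        ⟨by
          have a1 : A.val.sum ≤ A.card • y := Multiset.sum_le_card_nsmul _ _ fun x hx => by
            have := Finset.mem_range.1 (Finset.mem_filter.1 (hA' hx)).1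
            omega
          have a2 : A.card ≤ y + 1 := (Finset.card_le_card hA').trans
            ((Finset.card_filter_le _ _).trans (by simp))
          rw [smul_eq_mul] at a1
          rw [Fintype.card_fin]; nlinarith,
        fun a ha => (Finset.mem_filter.1 (hA' ha)).2.two_le⟩
      exact ⟨σ, fun _ => hσ⟩
    · exact ⟨1, fun h => absurd h hA⟩
  choose σ hσ using h3
  have h4 : ∀ A ∈ (Pr y).powerset, ∀ p, p.Prime → (p ∣ orderOf (φ (σ A)) ↔ p ∈ A) := by
    intro A hA p hp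
    rw [orderOf_injective φ h1, ← Perm.lcm_cycleType, hσ A hA]
    refine ⟨fun h => ?_, fun h => Multiset.dvd_lcm h⟩
    have a1 : A.val.lcm ∣ ∏ x ∈ A, x := Multiset.lcm_dvd.2 fun b hb => Finset.dvd_prod_of_mem _ hb
    obtain ⟨q, hq, a2⟩ := (hp.prime.dvd_finsetProd_iff _).1 (h.trans a1)
    rwa [(Nat.prime_dvd_prime_iff_eq hp
      (Finset.mem_filter.1 (Finset.mem_powerset.1 hA hq)).2).1 a2]
  refine ⟨fun A => φ (σ A), fun A _ => h2 _, fun A hA B hB e => ?_⟩
  have hA' : A ∈ (Pr y).powerset := hA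
  have hB' : B ∈ (Pr y).powerset := hB
  have e' : orderOf (φ (σ A)) = orderOf (φ (σ B)) := e
  ext p
  constructor
  · intro h
    have hp := (Finset.mem_filter.1 (Finset.mem_powerset.1 hA' h)).2
    rw [← h4 B hB' p hp, ← e', h4 A hA' p hp]; exact h
  · intro h
    have hp := (Finset.mem_filter.1 (Finset.mem_powerset.1 hB' h)).2
    rw [← h4 A hA' p hp, e', h4 B hB' p hp]; exact h

theorem cheb (n : ℕ) (hn : 0 < n) : 4 ^ n ≤ (2 * n) ^ ((Pr (2 * n)).card + 1) := by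
  refine (Nat.four_pow_le_two_mul_self_mul_centralBinom n hn).trans ?_
  rw [pow_succ']
  refine Nat.mul_le_mul_left _ ?_
  rw [← Nat.prod_pow_factorization_centralBinom, ← Finset.prod_filter_of_ne (p := Nat.Prime)]
  · exact Finset.prod_le_pow_card _ _ _ fun p _ => Nat.pow_factorization_choose_le (by omega)
  · intro p _ h
    by_contra e
    exact h (by rw [Nat.factorization_eq_zero_of_not_prime _ e, pow_zero])

theorem sp1 (s y : ℕ) (hy : y = 2 ^ s) :
    (y ^ 2 + y + 1) * (6 * (y ^ 2 + y) ^ 2) + 1 ≤ 2 ^ (6 * s + 7) := by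
  have y1 : 1 ≤ y := hy ▸ Nat.one_le_two_pow
  have b0 : y ≤ y ^ 2 := by nlinarith
  have b1 : y ^ 2 + y + 1 ≤ 3 * y ^ 2 := by omega
  have b2 : (y ^ 2 + y) ^ 2 ≤ (2 * y ^ 2) ^ 2 := Nat.pow_le_pow_left (by omega) 2
  have b3 := Nat.mul_le_mul b1 (Nat.mul_le_mul_left 6 b2)
  have b4 : 2 ^ (6 * s + 7) = 128 * y ^ 6 := by rw [hy, ← pow_mul]; ring
  have b5 : 1 ≤ y ^ 6 := Nat.one_le_pow _ _ y1
  have b6 : 3 * y ^ 2 * (6 * (2 * y ^ 2) ^ 2) = 72 * y ^ 6 := by ring
  omega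

theorem sp2 (c d s P Q : ℕ) (s1 : 1 ≤ s) (h2 : Q ≤ s * (P + 1))
    (hs2 : s ^ 2 * (c + 2 + (c + 13) * d + 1) < Q) : c + 1 + (c + (6 * s + 7)) * d ≤ P := by
  by_contra hc
  have b1 : (c + (6 * s + 7)) * d ≤ s * ((c + 13) * d) := by
    rw [← mul_assoc]
    exact Nat.mul_le_mul_right _ (by nlinarith)
  have b0 : c + 2 ≤ s * (c + 2) := Nat.le_mul_of_pos_left _ s1
  have b2 : P + 1 ≤ s * (c + 2 + (c + 13) * d) := by rw [mul_add]; omega
  have b3 := Nat.mul_le_mul_left s b2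
  have b4 : s ^ 2 * (c + 2 + (c + 13) * d + 1) = s * (s * (c + 2 + (c + 13) * d)) + s ^ 2 := by ring
  omega

theorem sp3 (c d u N P : ℕ) (a1 : N + 1 ≤ 2 ^ u) (a6 : c + 1 + (c + u) * d ≤ P) :
    c * (c * N + c) ^ d + c < 2 ^ P := by
  have c1 : c < 2 ^ c := Nat.lt_two_pow_self
  have a2 : c * N + c ≤ 2 ^ (c + u) := by
    rw [pow_add 2 c, ← Nat.mul_succ]
    exact Nat.mul_le_mul c1.le a1
  have a3 := Nat.pow_le_pow_left a2 d
  rw [← pow_mul] at a3
  have a4 := Nat.mul_le_mul c1.le a3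
  have a5 : 1 ≤ 2 ^ ((c + u) * d) := Nat.one_le_two_pow
  have a7 := Nat.pow_le_pow_right (by norm_num : 0 < 2) a6
  rw [pow_add, pow_succ] at a7
  have a8 : 2 ^ c ≤ 2 ^ c * 2 ^ ((c + u) * d) := Nat.le_mul_of_pos_right _ a5
  rw [mul_right_comm] at a7
  calc _ < 2 ^ c * 2 ^ ((c + u) * d) + 2 ^ c * 2 ^ ((c + u) * d) :=
        Nat.add_lt_add_of_le_of_lt a4 (c1.trans_le a8)
    _ ≤ _ := by rw [← mul_two]; exact a7

theorem superpoly (c d : ℕ) : ∃ y : ℕ,
    c * (c * ((y ^ 2 + y + 1) * (6 * (y ^ 2 + y) ^ 2)) + c) ^ d + c < 2 ^ (Pr y).card := by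
  have h0 := tendsto_pow_const_div_const_pow_of_one_lt 2 (r := 2) (by norm_num)
  obtain ⟨D, hD⟩ : ∃ D, D = c + 2 + (c + 13) * d := ⟨_, rfl⟩
  obtain ⟨s, hs, hs1⟩ := ((h0.eventually (gt_mem_nhds
    (show (0 : ℝ) < 1 / (D + 1) by positivity))).and (Filter.eventually_ge_atTop 1)).exists
  rw [div_lt_div_iff₀ (by positivity) (by positivity), one_mul] at hs
  have hs2 : s ^ 2 * (D + 1) < 2 ^ s := by exact_mod_cast hs
  obtain ⟨u, hu⟩ : ∃ u, s = u + 1 := ⟨s - 1, by omega⟩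
  have h1 := cheb (2 ^ u) (by positivity)
  rw [← pow_succ', ← pow_mul, show 4 = 2 ^ 2 by norm_num, ← pow_mul, ← pow_succ', ← hu] at h1
  have h2 := (Nat.pow_le_pow_iff_right (by norm_num : 1 < 2)).1 h1
  exact ⟨2 ^ s, sp3 c d _ _ _ (sp1 s _ rfl) (sp2 c d s _ _ hs1 h2 (hD ▸ hs2))⟩

end Pool.Agent.H16.Grig
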