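import Mathlib

set_option autoImplicit false

namespace Pool.Agent.H16.Hs

open Set Filter Topology

lemma sub {h : ℝ → ℝ} (hc : Continuous h) {a b : ℝ} (hab : a ≤ b) (h0 : h 0 ≤ a) (h1 : b ≤ h 1) :
    ∃ l r, 0 ≤ l ∧ l ≤ r ∧ r ≤ 1 ∧ h l = a ∧ h r = b ∧ ∀ s ∈ Icc l r, h s ∈ Icc a b := by
  have iv : ∀ x y c, x ≤ y → h x ≤ c → c ≤ h y → (Icc x y ∩ h ⁻¹' {c}).Nonempty :=
    fun x y c a b d => intermediate_value_Icc a hc.continuousOn ⟨b, d⟩
  have cp : ∀ x y c, IsCompact (Icc x y ∩ h ⁻¹' {c}) := fun x y c =>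
    isCompact_Icc.inter_right (isClosed_singleton.preimage hc)
  obtain ⟨l, ⟨⟨l0, l1⟩, l2 : h l = a⟩, l3⟩ :=
    (cp 0 1 a).exists_isGreatest (iv 0 1 a zero_le_one h0 (hab.trans h1))
  obtain ⟨r, ⟨⟨r0, r1⟩, r2 : h r = b⟩, r3⟩ := (cp l 1 b).exists_isLeast (iv l 1 b l1 (l2 ▸ hab) h1)
  refine ⟨l, r, l0, r0, r1, l2, r2, fun s ⟨s0, s1⟩ => ⟨not_lt.1 fun H => ?_, not_lt.1 fun H => ?_⟩⟩
  · obtain ⟨w, ⟨w0, w1⟩, w2⟩ := iv s 1 a (s1.trans r1) H.le (hab.trans h1)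
    have := l3 ⟨⟨by linarith, w1⟩, w2⟩
    rw [show s = l by linarith] at H; linarith
  · obtain ⟨w, ⟨w0, w1⟩, w2⟩ := iv l s b s0 (l2 ▸ hab) H.le
    have := r3 ⟨⟨w0, by linarith⟩, w2⟩
    rw [show s = r by linarith] at H; linarith

lemma shadow {X : Type} [TopologicalSpace X] (f : ℕ → X → X) (hf : ∀ m, Continuous (f m))
    (t : X → ℝ) (ht : Continuous t) (S : Set X) (hS : IsClosed S) (a b : ℕ → ℝ) (c d : ℝ)
    (h1 : ∀ m, c ≤ a m ∧ a m ≤ b m ∧ b m ≤ d)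
    (h2 : ∀ m, ∀ x ∈ S, t x ∈ Icc (a m) (b m) → f m x ∈ S ∧ (t x = a m → d ≤ t (f m x)) ∧
      (t x = b m → t (f m x) ≤ c)) (γ : ℝ → X) (hγ : Continuous γ) (g0 : ∀ s, γ s ∈ S)
    (g1 : t (γ 0) ≤ c) (g2 : d ≤ t (γ 1)) :
    ∃ y : ℕ → X, (∀ m, y (m + 1) = f m (y m)) ∧ ∀ m, y m ∈ S ∧ t (y m) ∈ Icc (a m) (b m) := by
  let Y : ℕ → ℝ → X := fun m => Nat.rec γ (fun m y => f m ∘ y) m
  have Yc : ∀ m, Continuous (Y m) := fun m => by
    induction m with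
    | zero => exact hγ
    | succ m ih => exact (hf m).comp ih
  let K : ℕ → Set ℝ := fun m => Icc 0 1 ∩ ⋂ i < m, {s | Y i s ∈ S ∧ t (Y i s) ∈ Icc (a i) (b i)}
  have key : ∀ m, ∃ φ : ℝ → ℝ, Continuous φ ∧ (∀ s ∈ Icc (0 : ℝ) 1, φ s ∈ K m ∧ Y m (φ s) ∈ S) ∧
      t (Y m (φ 0)) ≤ c ∧ d ≤ t (Y m (φ 1)) := fun m => by
    induction m with
    | zero => exact ⟨id, continuous_id, fun s hs => ⟨by simpa [K], g0 s⟩, g1, g2⟩
    | succ m ih =>
      obtain ⟨φ, p0, p1, p2, p3⟩ := ih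
      obtain ⟨l, r, l0, lr, r1, e1, e2, e3⟩ := sub (ht.comp ((Yc m).comp p0)) (h1 m).2.1
        (p2.trans (h1 m).1) ((h1 m).2.2.trans p3)
      have A : ∀ s ∈ Icc l r, _ := fun s hs =>
        h2 m _ (p1 s ⟨l0.trans hs.1, hs.2.trans r1⟩).2 (e3 s hs)
      refine ⟨fun s => φ (r - s * (r - l)), by fun_prop, fun s hs => ?_, ?_, ?_⟩
      · have B : r - s * (r - l) ∈ Icc l r := ⟨by nlinarith [hs.2], by nlinarith [hs.1]⟩
        obtain ⟨⟨x, y⟩, z⟩ := p1 _ ⟨l0.trans B.1, B.2.trans r1⟩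
        refine ⟨⟨x, mem_iInter₂.2 fun i hi => ?_⟩, (A _ B).1⟩
        rcases Nat.lt_succ_iff_lt_or_eq.1 hi with h | rfl
        · exact mem_iInter₂.1 y i h
        · exact ⟨z, e3 _ B⟩
      · simp only [zero_mul, sub_zero]; exact (A r ⟨lr, le_rfl⟩).2.2 e2
      · simp only [one_mul, sub_sub_cancel]; exact (A l ⟨le_rfl, lr⟩).2.1 e1
  have Kc : ∀ m, IsCompact (K m) := fun m => isCompact_Icc.inter_right
    (isClosed_biInter fun i _ => (hS.preimage (Yc i)).inter (isClosed_Icc.preimage (ht.comp (Yc i))))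
  obtain ⟨s, hs⟩ := IsCompact.nonempty_iInter_of_sequence_nonempty_isCompact_isClosed K
    (fun m s hs => ⟨hs.1, mem_iInter₂.2 fun i hi => mem_iInter₂.1 hs.2 i (by omega)⟩)
    (fun m => (key m).elim fun φ h => ⟨_, (h.2.1 0 (by simp)).1⟩) (Kc 0) fun m => (Kc m).isClosed
  exact ⟨fun m => Y m s, fun m => rfl, fun m => mem_iInter₂.1 (mem_iInter.1 hs (m + 1)).2 m (by omega)⟩

lemma np {x : ℕ → ℝ} {η : ℝ} (h0 : 0 < η)
    (h : ∀ k ≥ 1, ∀ N, ∃ n ≥ N, ∃ j, η ≤ |x n - x (n + j * k)|) (p : ℕ → ℝ) (k : ℕ) (hk : 1 ≤ k)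
    (hp : ∀ n, p (n + k) = p n) : ¬ Tendsto (fun n => x n - p n) atTop (𝓝 0) := fun H => by
  obtain ⟨N, hN⟩ := Metric.tendsto_atTop.1 H (η / 2) (by positivity)
  obtain ⟨n, a, j, b⟩ := h k hk N
  have c := hN n a
  have d := hN (n + j * k) (by omega)
  have e : p (n + j * k) = p n := Function.Periodic.nat_mul hp j n
  rw [Real.dist_eq, sub_zero, abs_lt] at c d
  exact b.not_gt (abs_lt.2 ⟨by linarith, by linarith⟩)

lemma aff {p q c lo hi : ℤ} {t : ℝ} (h1 : (lo : ℝ) ≤ 10000 * t) (h2 : 10000 * t ≤ hi)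
    (a : c ≤ p * lo + q * 10000) (b : c ≤ p * hi + q * 10000) : (c : ℝ) ≤ 10000 * (p * t + q) := by
  have a' : (c : ℝ) ≤ p * lo + q * 10000 := by exact_mod_cast a
  have b' : (c : ℝ) ≤ p * hi + q * 10000 := by exact_mod_cast b
  rcases le_total 0 (p : ℝ) with h | h <;> nlinarith

/-- checked data of a block -/
def ok (P Q : ℕ → ℤ) (l : ℕ) (lo hi al : ℤ) : Prop :=
  (P 0 = 0 ∧ Q 0 = -1 ∧ P 1 = 1 ∧ Q 1 = 0 ∧ P 2 = 0 ∧ Q 2 = -1) ∧
  (∀ i < l + 3, ∀ e ∈ [lo, hi], -10000 ≤ P i * e + Q i * 10000 ∧ -al ≤ -P i * e + -Q i * 10000) ∧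
  (∀ i < l, (P (i + 3) = 0 ∧ Q (i + 3) = -1 ∧
    ∀ e ∈ [lo, hi], 10000 ≤ (P (i + 2) - P i) * e + (Q (i + 2) - Q i) * 10000) ∨
    (P (i + 3) = P i - P (i + 2) ∧ Q (i + 3) = Q i - Q (i + 2))) ∧
  ∀ i ∈ [l - 3, l - 1], ∀ e ∈ [lo, hi], 10010 ≤ (P (i + 2) - P i) * e + (Q (i + 2) - Q i) * 10000

lemma blk {P Q : ℕ → ℤ} {l : ℕ} {lo hi al : ℤ} (H : ok P Q l lo hi al) (hl : 3 ≤ l) (hl' : l ≤ 46)
    (ha : al ≤ 30000) {G : ℝ → ℝ → ℝ → ℝ} (hG : ∀ a ∈ Icc (-2 : ℝ) 4, ∀ b ∈ Icc (-2 : ℝ) 4,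
      ∀ c ∈ Icc (-2 : ℝ) 4, |G a b c - max (-1) (a - c)| ≤ 1 / 10 ^ 20) {u : ℕ → ℝ}
    (hu : ∀ n, u (n + 3) = G (u n) (u (n + 1)) (u (n + 2))) (u0 : |u 0 + 1| ≤ 1 / 10 ^ 20)
    (u2 : |u 2 + 1| ≤ 1 / 10 ^ 20) (h1 : (lo : ℝ) ≤ 10000 * u 1) (h2 : 10000 * u 1 ≤ hi) :
    (∀ i < l + 3, |u i - (P i * u 1 + Q i)| ≤ 1 / 10 ^ 5 ∧ -2 ≤ u i ∧ u i ≤ al / 10000 + 1 / 1000)
      ∧ |u l + 1| ≤ 1 / 10 ^ 20 ∧ |u (l + 2) + 1| ≤ 1 / 10 ^ 20 := by
  obtain ⟨⟨a0, a1, a2, a3, a4, a5⟩, b, c, d⟩ := H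
  have ha' : (al : ℝ) ≤ 30000 := by exact_mod_cast ha
  have B : ∀ i < l + 3, |u i - (P i * u 1 + Q i)| ≤ 2 ^ i / 10 ^ 20 →
      (|u i - (P i * u 1 + Q i)| ≤ 1 / 10 ^ 5 ∧ -2 ≤ u i ∧ u i ≤ al / 10000 + 1 / 1000) ∧
      u i ∈ Icc (-2 : ℝ) 4 ∧ -1 ≤ P i * u 1 + Q i := fun i hi h => by
    have x := aff h1 h2 (b i hi lo (by simp)).1 (b i hi _ (by simp)).1
    have y := aff h1 h2 (b i hi lo (by simp)).2 (b i hi _ (by simp)).2
    have : (2 : ℝ) ^ i ≤ 2 ^ 48 := pow_le_pow_right₀ (by norm_num) (by omega)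
    have h' : |u i - (P i * u 1 + Q i)| ≤ 1 / 10 ^ 5 := by linarith
    push_cast at x y
    have := abs_le.1 h'
    exact ⟨⟨h', by linarith, by linarith⟩, ⟨by linarith, by linarith⟩, by linarith⟩
  have A : ∀ i < l + 3, |u i - (P i * u 1 + Q i)| ≤ 2 ^ i / 10 ^ 20 := fun i => by
    induction i using Nat.strong_induction_on with
    | _ i ih =>
    intro hi
    match i with
    | 0 => simpa [a0, a1] using u0
    | 1 => simp [a2, a3]; positivity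
    | 2 => simp only [a4, a5]; norm_num at u2 ⊢; linarith
    | i + 3 =>
      have x := ih i (by omega) (by omega)
      have y := ih (i + 1) (by omega) (by omega)
      have z := ih (i + 2) (by omega) (by omega)
      have w := hG _ (B i (by omega) x).2.1 _ (B _ (by omega) y).2.1 _ (B _ (by omega) z).2.1
      have e : (P (i + 3) * u 1 + Q (i + 3) : ℝ) =
          max (-1) (P i * u 1 + Q i - (P (i + 2) * u 1 + Q (i + 2))) := by
        rcases c i (by omega) with ⟨p, q, r⟩ | ⟨p, q⟩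
        · have := aff h1 h2 (r lo (by simp)) (r _ (by simp))
          push_cast at this
          rw [p, q, max_eq_left (by linarith)]; simp
        · have := aff h1 h2 (b _ hi lo (by simp)).1 (b _ hi _ (by simp)).1
          rw [p, q] at this ⊢
          push_cast at this ⊢
          rw [max_eq_right (by linarith)]; ring
      have v := abs_le.1 (abs_max_sub_max_le_abs (u i - u (i + 2))
        (P i * u 1 + Q i - (P (i + 2) * u 1 + Q (i + 2))) (-1))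
      rw [max_comm _ (-1 : ℝ), max_comm _ (-1 : ℝ), ← e] at v
      have : |u i - u (i + 2) - (P i * u 1 + Q i - (P (i + 2) * u 1 + Q (i + 2)))| ≤
          2 ^ i / 10 ^ 20 + 2 ^ (i + 2) / 10 ^ 20 := by
        rw [abs_le] at x z ⊢; constructor <;> linarith
      have : (1 : ℝ) ≤ 2 ^ i := one_le_pow₀ (by norm_num)
      rw [← hu, abs_le] at w
      rw [pow_add] at *
      rw [abs_le]; constructor <;> linarith
  have C : ∀ i ∈ [l - 3, l - 1], i < l → |u (i + 3) + 1| ≤ 1 / 10 ^ 20 := fun i hi h => by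
    have := aff h1 h2 (d i hi lo (by simp)) (d i hi _ (by simp))
    have x := B i (by omega) (A i (by omega))
    have z := B (i + 2) (by omega) (A _ (by omega))
    have w := hG _ x.2.1 _ (B (i + 1) (by omega) (A _ (by omega))).2.1 _ z.2.1
    push_cast at this
    rw [max_eq_left (by linarith [abs_le.1 x.1.1, abs_le.1 z.1.1]), ← hu] at w
    simpa using w
  refine ⟨fun i hi => (B i hi (A i hi)).1, ?_, ?_⟩
  · simpa [show l - 3 + 3 = l by omega] using C (l - 3) (by simp) (by omega)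
  · simpa [show l - 1 + 3 = l + 2 by omega] using C (l - 1) (by simp) (by omega)

/-- slopes, first block -/
def PA (i : ℕ) : ℤ := [0, 1, 0, 0, 1, 0, 0, 1, 0, 0, 1, -1, 1, 0, -1, 2, 0, -1, 3, -3, 2, 0, -3, 5,
  0, -3, 8, 0, -3, 0].getD i 0
/-- intercepts, first block -/
def QA (i : ℕ) : ℤ := [-1, 0, -1, 0, 0, -1, 1, -1, -1, 2, -3, 2, 0, -1, 3, -3, -1, 4, -7, 6, -2, -1,
  7, -9, -1, 8, -17, -1, 9, -1].getD i 0
/-- slopes, second block -/
def PB (i : ℕ) : ℤ := [0, 1, 0, 0, 1, 0, 0, 1, 0, 0, 1, -1, 1, 0, -1, 2, 0, -1, 3, -3, 2, 0, -3, 5,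
  0, -3, 8, 0, -3, 11, -11, 8, 0, -11, 19, 0, -11, 30, -30, 19, 0, -30, 49, 0, -30, 79, 0, -30,
  0].getD i 0
/-- intercepts, second block -/
def QB (i : ℕ) : ℤ := [-1, 0, -1, 0, 0, -1, 1, -1, -1, 2, -3, 2, 0, -1, 3, -3, -1, 4, -7, 6, -2, -1,
  7, -9, -1, 8, -17, -1, 9, -26, 25, -16, -1, 26, -42, -1, 27, -69, 68, -41, -1, 69, -110, -1, 70,
  -180, -1, 71, -1].getD i 0

lemma okA : ok PA QA 27 22300 22700 25400 := by unfold ok; decide +kernel
lemma okB : ok PB QB 46 22900 22935 30000 := by unfold ok; decide +kernel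

theorem horse {G : ℝ → ℝ → ℝ → ℝ} (hc : Continuous fun p : ℝ × ℝ × ℝ => G p.1 p.2.1 p.2.2)
    (hG : ∀ a ∈ Icc (-2 : ℝ) 4, ∀ b ∈ Icc (-2 : ℝ) 4,
      ∀ c ∈ Icc (-2 : ℝ) 4, |G a b c - max (-1) (a - c)| ≤ 1 / 10 ^ 20) :
    ∃ u : ℕ → ℝ, (∀ n, u (n + 3) = G (u n) (u (n + 1)) (u (n + 2))) ∧ (∀ n, u n ∈ Icc (-2 : ℝ) 4) ∧
      ∀ k ≥ 1, ∀ N, ∃ n ≥ N, 1 / 50 ≤ u n - u (n + 46 * k) := by
  classical
  let F : ℝ × ℝ × ℝ → ℝ × ℝ × ℝ := fun p => (p.2.1, p.2.2, G p.1 p.2.1 p.2.2)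
  have Fc : Continuous F := by fun_prop
  let o : ℝ × ℝ × ℝ → ℕ → ℝ := fun x n => (F^[n] x).1
  have o1 : ∀ x n, (F^[n] x).2.1 = o x (n + 1) := fun x n => by
    simp [o, Function.iterate_succ_apply', F]
  have o2 : ∀ x n, (F^[n] x).2.2 = o x (n + 2) := fun x n => by
    simp [o, Function.iterate_succ_apply', F]
  have o3 : ∀ x n, o x (n + 3) = G (o x n) (o x (n + 1)) (o x (n + 2)) := fun x n => by
    simp [o, Function.iterate_succ_apply', F]
  let S : Set (ℝ × ℝ × ℝ) := {p | |p.1 + 1| ≤ 1 / 10 ^ 20 ∧ |p.2.2 + 1| ≤ 1 / 10 ^ 20}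
  have hA := fun x (hx : x ∈ S) => blk okA (by omega) (by omega) (by omega) hG (o3 x) hx.1 hx.2
  have hB := fun x (hx : x ∈ S) => blk okB (by omega) (by omega) (by omega) hG (o3 x) hx.1 hx.2
  let l : ℕ → ℕ := fun m => if IsSquare m then 46 else 27
  obtain ⟨y, y0, y1⟩ := shadow (fun m => F^[l m]) (fun m => Fc.iterate _) (fun p => p.2.1)
    (by fun_prop) S (IsClosed.and (isClosed_le (by fun_prop) (by fun_prop))
      (isClosed_le (by fun_prop) (by fun_prop))) (fun m => if IsSquare m then 2.29 else 2.23)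
    (fun m => if IsSquare m then 2.2935 else 2.27) 2.2 2.2935
    (fun m => by split_ifs <;> norm_num) (fun m x hx h => by
      simp only [l, S, mem_ofPred_eq, o1, o2]
      change o x 1 ∈ _ at h
      change _ ∧ (o x 1 = _ → _) ∧ (o x 1 = _ → _)
      split_ifs at h ⊢
      · obtain ⟨a, b⟩ := hB x hx (by push_cast; linarith [h.1]) (by push_cast; linarith [h.2])
        have := abs_le.1 (a 47 (by omega)).1
        norm_num [PB, QB] at this
        exact ⟨b, fun e => by linarith, fun e => by linarith⟩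
      · obtain ⟨a, b⟩ := hA x hx (by push_cast; linarith [h.1]) (by push_cast; linarith [h.2])
        have := abs_le.1 (a 28 (by omega)).1
        norm_num [PA, QA] at this
        exact ⟨b, fun e => by linarith, fun e => by linarith⟩)
    (fun s => (-1, 2 + s, -1)) (by fun_prop) (fun s => by simp [S]) (by norm_num) (by norm_num)
  let τ : ℕ → ℕ := fun m => ∑ j ∈ Finset.range m, l j
  have t1 : ∀ m, τ (m + 1) = τ m + l m := fun m => Finset.sum_range_succ _ _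
  have t2 : ∀ m i, o (y 0) (τ m + i) = o (y m) i := fun m => by
    induction m with
    | zero => simp [τ]
    | succ m ih =>
      intro i
      rw [t1, add_assoc, ih, y0]; simp only [o]; rw [add_comm, Function.iterate_add_apply]
  have t3 : ∀ m, m ≤ τ m := fun m => by
    induction m with
    | zero => simp
    | succ m ih => rw [t1]; simp only [l]; split_ifs <;> omega
  have bA : ∀ m, ¬ IsSquare m → ∀ i < 30, -2 ≤ o (y m) i ∧ o (y m) i ≤ 2.541 := fun m h i hi => by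
    have := (y1 m).2
    simp only [if_neg h] at this
    change o _ 1 ∈ _ at this
    have := ((hA _ (y1 m).1 (by push_cast; linarith [this.1])
      (by push_cast; linarith [this.2])).1 i hi).2
    push_cast at this
    exact ⟨this.1, by linarith⟩
  have bB : ∀ m, IsSquare m → (∀ i < 49, -2 ≤ o (y m) i ∧ o (y m) i ≤ 4) ∧
      2.57 ≤ o (y m) 20 := fun m h => by
    have c := (y1 m).2
    simp only [if_pos h] at c
    change o _ 1 ∈ _ at c
    have a := (hB _ (y1 m).1 (by push_cast; linarith [c.1]) (by push_cast; linarith [c.2])).1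
    have := abs_le.1 (a 20 (by omega)).1
    norm_num [PB, QB] at this
    refine ⟨fun i hi => ⟨(a i hi).2.1, (a i hi).2.2.trans (by norm_num)⟩, by linarith [c.1]⟩
  refine ⟨o (y 0), o3 _, fun n => ?_, fun k hk N => ⟨τ ((N + k) * (N + k)) + 20, ?_, ?_⟩⟩
  · obtain ⟨m, i, h, rfl⟩ : ∃ m i, i < l m ∧ n = τ m + i := by
      induction n with
      | zero => exact ⟨0, 0, by simp [l], rfl⟩
      | succ n ih =>
        obtain ⟨m, i, h, rfl⟩ := ih
        rcases (Nat.succ_le_of_lt h).lt_or_eq with h | h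
        · exact ⟨m, i + 1, h, rfl⟩
        · exact ⟨m + 1, 0, by simp only [l]; split_ifs <;> omega, by rw [t1]; omega⟩
    rw [t2]
    simp only [l] at h
    split_ifs at h with h'
    · exact (bB m h').1 i (by omega)
    · exact ⟨(bA m h' i (by omega)).1, (bA m h' i (by omega)).2.trans (by norm_num)⟩
  · nlinarith [t3 ((N + k) * (N + k))]
  set j := N + k
  have sq : IsSquare (j * j) := ⟨j, rfl⟩
  have ns : ∀ q < 2 * j, ¬ IsSquare (j * j + 1 + q) := fun q hq ⟨w, hw⟩ => by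
    rcases le_or_gt w j with h | h <;> nlinarith
  have t4 : ∀ q ≤ 2 * j, τ (j * j + 1 + q) = τ (j * j) + 46 + 27 * q := fun q hq => by
    induction q with
    | zero => simp [t1, l, sq]
    | succ q ih =>
      rw [← add_assoc, t1, ih (by omega)]; simp only [l, if_neg (ns q (by omega))]; ring
  have e : τ (j * j) + 20 + 46 * k = τ (j * j + 1 + (46 * k - 26) / 27) + (46 * k - 26) % 27 := by
    rw [t4 _ (by omega)]; omega
  rw [e, t2, t2]
  linarith [(bB _ sq).2, (bA _ (ns ((46 * k - 26) / 27) (by omega)) ((46 * k - 26) % 27)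
    (by omega)).2]

theorem horse' : ∃ ε : ℝ, 0 < ε ∧ ε < 1 ∧ ∀ g : ℝ → ℝ → ℝ → ℝ,
    ContinuousOn (fun p : ℝ × ℝ × ℝ => g p.1 p.2.1 p.2.2) {p | 0 < p.1 ∧ 0 < p.2.1 ∧ 0 < p.2.2} →
    (∀ a > 0, ∀ b > 0, ∀ c > 0, 0 < g a b c) →
    (∀ a ∈ Icc (ε ^ 2) (ε ^ 4)⁻¹, ∀ b ∈ Icc (ε ^ 2) (ε ^ 4)⁻¹, ∀ c ∈ Icc (ε ^ 2) (ε ^ 4)⁻¹,
      (ε + a / c) / 4 ≤ g a b c ∧ g a b c ≤ 4 * (ε + a / c)) →
    ∃ (z : ℕ → ℝ) (η : ℝ), 0 < η ∧ (∀ n, z (n + 3) = g (z n) (z (n + 1)) (z (n + 2))) ∧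
      (∀ n, z n ∈ Icc (ε ^ 2) (ε ^ 4)⁻¹) ∧ ∀ k ≥ 1, ∀ N, ∃ n ≥ N, η ≤ z n - z (n + 46 * k) := by
  obtain ⟨L, hL⟩ : ∃ L : ℝ, L = 10 ^ 21 := ⟨_, rfl⟩
  have L0 : 0 < L := by rw [hL]; positivity
  refine ⟨Real.exp (-L), Real.exp_pos _, Real.exp_lt_one_iff.2 (by linarith), fun g hc h0 h1 => ?_⟩
  have E : ∀ a ∈ Icc (-2 : ℝ) 4,
      Real.exp (L * a) ∈ Icc (Real.exp (-L) ^ 2) (Real.exp (-L) ^ 4)⁻¹ := fun a ha => by
    rw [← Real.exp_nat_mul, ← Real.exp_nat_mul, ← Real.exp_neg]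
    exact ⟨Real.exp_le_exp.2 (by push_cast; nlinarith [ha.1]),
      Real.exp_le_exp.2 (by push_cast; nlinarith [ha.2])⟩
  obtain ⟨u, u0, u1, u2⟩ := horse (G := fun a b c => Real.log (g (Real.exp (L * a))
      (Real.exp (L * b)) (Real.exp (L * c))) / L) (by
    refine (Continuous.log (hc.comp_continuous (f := fun p : ℝ × ℝ × ℝ => (Real.exp (L * p.1),
      Real.exp (L * p.2.1), Real.exp (L * p.2.2))) (by fun_prop) fun p =>
        ⟨Real.exp_pos _, Real.exp_pos _, Real.exp_pos _⟩) fun p => ?_).div_const _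
    exact (h0 _ (Real.exp_pos _) _ (Real.exp_pos _) _ (Real.exp_pos _)).ne') fun a ha b hb c hc => by
    obtain ⟨x, y⟩ := h1 _ (E a ha) _ (E b hb) _ (E c hc)
    have g0 := h0 _ (Real.exp_pos (L * a)) _ (Real.exp_pos (L * b)) _ (Real.exp_pos (L * c))
    set w := g _ _ _
    set m := max (-1) (a - c)
    rw [← Real.exp_sub, ← mul_sub] at x y
    have e8 : (8 : ℝ) ≤ Real.exp 7 := by linarith [Real.add_one_le_exp 7]
    have p1 := Real.exp_pos (-L)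
    have p2 := Real.exp_pos (L * (a - c))
    have p3 := Real.exp_pos (L * m)
    have m1 : Real.exp (-L) ≤ Real.exp (L * m) :=
      Real.exp_le_exp.2 (by nlinarith [le_max_left (-1) (a - c)])
    have m2 : Real.exp (L * (a - c)) ≤ Real.exp (L * m) :=
      Real.exp_le_exp.2 (by nlinarith [le_max_right (-1) (a - c)])
    have m3 : Real.exp (L * m) ≤ Real.exp (-L) + Real.exp (L * (a - c)) := by
      rcases max_choice (-1) (a - c) with h | h <;> simp only [m, h, mul_neg, mul_one] <;> linarith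
    have v1 : Real.log w ≤ L * m + 7 := by
      rw [Real.log_le_iff_le_exp g0, Real.exp_add]; nlinarith
    have v2 : L * m ≤ Real.log w + 7 := by
      rw [← Real.exp_le_exp, Real.exp_add, Real.exp_log g0]; nlinarith
    rw [div_sub' L0.ne', abs_div, abs_of_pos L0, div_le_iff₀ L0, abs_le, hL]
    rw [hL] at v1 v2
    constructor <;> linarith
  refine ⟨fun n => Real.exp (L * u n), Real.exp (-L) ^ 2 * (L / 50), by positivity, fun n => ?_,
    fun n => E _ (u1 n), fun k hk N => (u2 k hk N).imp fun n ⟨a, b⟩ => ⟨a, ?_⟩⟩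
  · simp only [u0]
    rw [mul_div_cancel₀ _ L0.ne', Real.exp_log (h0 _ (Real.exp_pos _) _ (Real.exp_pos _) _
      (Real.exp_pos _))]
  · have c := (E _ (u1 (n + 46 * k))).1
    have d := Real.add_one_le_exp (L * (u n - u (n + 46 * k)))
    have e : Real.exp (L * u n) = Real.exp (L * u (n + 46 * k)) *
        Real.exp (L * (u n - u (n + 46 * k))) := by rw [← Real.exp_add]; congr 1; ring
    have : L / 50 ≤ Real.exp (L * (u n - u (n + 46 * k))) - 1 := by nlinarith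
    refine (mul_le_mul c this (by positivity) (Real.exp_pos _).le).trans_eq ?_
    simp only [e]; ring

end Pool.Agent.H16.Hs
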