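import Mathlib

set_option autoImplicit false

namespace Pool.Agent.H16.Jet

open Filter Topology

/-- `φ` is twice differentiable at `0` with first and second derivatives `b` and `c`. -/
def J (φ : ℝ → ℝ) (b c : ℝ) : Prop :=
  ∃ ψ : ℝ → ℝ, (∀ᶠ t in 𝓝 0, HasDerivAt φ (ψ t) t) ∧ ψ 0 = b ∧ HasDerivAt ψ c 0

variable {φ χ : ℝ → ℝ} {b c b' c' : ℝ}

lemma J.d1 (h : J φ b c) : deriv φ 0 = b := by
  obtain ⟨ψ, h1, h2, _⟩ := h
  exact h1.self_of_nhds.deriv.trans h2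

lemma J.d2 (h : J φ b c) : deriv (deriv φ) 0 = c := by
  obtain ⟨ψ, h1, _, h3⟩ := h
  exact (EventuallyEq.deriv_eq (h1.mono fun _ h => h.deriv)).trans h3.deriv

lemma J.nonpos (h : J φ b c) (m : IsLocalMax φ 0) : c ≤ 0 := by
  by_contra hc
  have ⟨ψ, h1, _⟩ := h
  have m2 := isLocalMin_of_deriv_deriv_pos (h.d2.symm ▸ not_le.1 hc) m.deriv_eq_zero
    h1.self_of_nhds.continuousAt
  have e : φ =ᶠ[𝓝 0] fun _ => φ 0 := (m.and m2).mono fun _ h => h.1.antisymm h.2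
  have := h.d2
  rw [e.deriv.deriv_eq] at this
  simp [← this] at hc

lemma J.add : J φ b c → J χ b' c' → J (fun t => φ t + χ t) (b + b') (c + c')
  | ⟨_, h1, h2, h3⟩, ⟨_, k1, k2, k3⟩ =>
    ⟨_, (h1.and k1).mono fun _ h => h.1.add h.2, by rw [h2, k2], h3.add k3⟩

lemma J.cmul (a : ℝ) : J φ b c → J (fun t => a * φ t) (a * b) (a * c)
  | ⟨_, h1, h2, h3⟩ => ⟨_, h1.mono fun _ h => h.const_mul a, by rw [h2], h3.const_mul a⟩

lemma J.mul : J φ b c → J χ b' c' →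
    J (fun t => φ t * χ t) (b * χ 0 + φ 0 * b') (c * χ 0 + 2 * b * b' + φ 0 * c')
  | ⟨_, h1, h2, h3⟩, ⟨_, k1, k2, k3⟩ =>
    ⟨_, (h1.and k1).mono fun _ h => h.1.mul h.2, by rw [h2, k2],
      ((h3.mul k1.self_of_nhds).add (h1.self_of_nhds.mul k3)).congr_deriv (by rw [h2, k2]; ring)⟩

lemma J.sum {ι : Type} (s : Finset ι) {φ : ι → ℝ → ℝ} {b c : ι → ℝ} (h : ∀ i, J (φ i) (b i) (c i)) :
    J (fun t => ∑ i ∈ s, φ i t) (∑ i ∈ s, b i) (∑ i ∈ s, c i) := by
  choose ψ h1 h2 h3 using h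
  exact ⟨_, ((eventually_all_finset s).2 fun i _ => h1 i).mono fun _ h => .fun_sum h,
    by simp only [h2], .fun_sum fun i _ => h3 i⟩

lemma J.real {f f' : ℝ → ℝ} {y : ℝ} (μ : ℝ) (h : ∀ᶠ z in 𝓝 y, HasDerivAt f (f' z) z)
    (h' : HasDerivAt f' c y) : J (fun t => f (y + t * μ)) (f' y * μ) (c * μ ^ 2) := by
  have l : ∀ t, HasDerivAt (fun t : ℝ => y + t * μ) μ t := fun t => by
    simpa using ((hasDerivAt_id t).mul_const μ).const_add y
  have e : y + 0 * μ = y := by simp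
  refine ⟨fun t => f' (y + t * μ) * μ, ((l 0).continuousAt.tendsto.eventually
    (e.symm ▸ h)).mono fun t ht => ht.comp t (l t), by simp, ?_⟩
  exact (((e.symm ▸ h' : HasDerivAt f' c (y + 0 * μ)).comp 0 (l 0)).mul_const μ).congr_deriv
    (by ring)

lemma J.cplx {f f' : ℂ → ℂ} {y c : ℂ} (μ : ℂ) (h : ∀ᶠ z in 𝓝 y, HasDerivAt f (f' z) z)
    (h' : HasDerivAt f' c y) :
    J (fun t => (f (y + t * μ)).re) (f' y * μ).re (c * μ ^ 2).re := by
  have l : ∀ t, HasDerivAt (fun t : ℂ => y + t * μ) μ t := fun t => by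
    simpa using ((hasDerivAt_id t).mul_const μ).const_add y
  have e : y + (0 : ℝ) * μ = y := by simp
  refine ⟨fun t => (f' (y + t * μ) * μ).re, (ContinuousAt.tendsto (f := fun t : ℝ => y + t * μ)
    (by fun_prop)).eventually (p := fun z => HasDerivAt f (f' z) z) (e.symm ▸ h) |>.mono fun t ht =>
      (HasDerivAt.comp (h₂ := f) (h₂' := f' (y + t * μ)) (h := fun t : ℂ => y + t * μ) (t : ℂ) ht
        (l t)).real_of_complex,
    by simp, ?_⟩
  have h2 : HasDerivAt f' c (y + (0 : ℝ) * μ) := by rw [e]; exact h'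
  exact ((HasDerivAt.comp (h := fun t : ℂ => y + t * μ) ((0 : ℝ) : ℂ) h2
    (l (0 : ℝ))).mul_const μ).real_of_complex.congr_deriv (by congr 1; ring)

lemma J.smooth {E : Type} [NormedAddCommGroup E] [NormedSpace ℝ E] {h : E → ℝ} {p : E} (v : E)
    (hh : ContDiffAt ℝ 2 h p) :
    J (fun t => h (p + t • v)) (fderiv ℝ h p v) (iteratedFDeriv ℝ 2 h p ![v, v]) := by
  have l : ∀ t, HasDerivAt (fun t : ℝ => p + t • v) v t := fun t => by
    simpa using ((hasDerivAt_id t).smul_const v).const_add p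
  have e : p + (0 : ℝ) • v = p := by simp
  refine ⟨fun t => fderiv ℝ h (p + t • v) v, ((l 0).continuousAt.tendsto.eventually
    (e.symm ▸ hh.eventually (by simp))).mono fun t ht =>
      (ht.differentiableAt (by simp)).hasFDerivAt.comp_hasDerivAt t (l t), by simp, ?_⟩
  have := ((hh.fderiv_right (m := 1) le_rfl).differentiableAt (by simp)).hasFDerivAt
  rw [iteratedFDeriv_two_apply]
  have h2 : HasFDerivAt (fderiv ℝ h) (fderiv ℝ (fderiv ℝ h) p) (p + (0 : ℝ) • v) := by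
    rw [e]; exact this
  exact ((HasFDerivAt.comp_hasDerivAt (f := fun t : ℝ => p + t • v) 0 h2
    (l 0)).clm_apply (hasDerivAt_const 0 v)).congr_deriv (by simp)

end Pool.Agent.H16.Jet
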