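import Pool.Agent.H16.Jet

set_option autoImplicit false

namespace Pool.Agent.H16.Jet

open Filter Topology Complex InnerProductSpace Laplacian

abbrev E (m : ℕ) := EuclideanSpace ℝ (Fin (m + 2))

variable {m : ℕ} {F G : E m → ℝ} {p : E m} {β c β' c' : ℝ}

noncomputable abbrev e (j : Fin (m + 2)) : E m := EuclideanSpace.basisFun _ ℝ j

/-- `F` has second derivatives along the coordinate lines through `p`, summing to `c`, and its
derivative in the last coordinate is `β`. -/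
def P (F : E m → ℝ) (p : E m) (β c : ℝ) : Prop :=
  ∃ b a : Fin (m + 2) → ℝ, (∀ j, J (fun t => F (p + t • e j)) (b j) (a j)) ∧
    b (Fin.last _) = β ∧ ∑ j, a j = c

lemma P.add : P F p β c → P G p β' c' → P (fun x => F x + G x) p (β + β') (c + c')
  | ⟨_, _, h1, h2, h3⟩, ⟨_, _, k1, k2, k3⟩ =>
    ⟨_, _, fun j => (h1 j).add (k1 j), by rw [h2, k2], by rw [Finset.sum_add_distrib, h3, k3]⟩

lemma P.cmul (r : ℝ) : P F p β c → P (fun x => r * F x) p (r * β) (r * c)
  | ⟨_, _, h1, h2, h3⟩ =>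
    ⟨_, _, fun j => (h1 j).cmul r, by rw [h2], by rw [← Finset.mul_sum, h3]⟩

lemma P.sum {ι : Type} [Fintype ι] {F : ι → E m → ℝ} {β : ι → ℝ} (h : ∀ i, P (F i) p (β i) 0) :
    P (fun x => ∑ i, F i x) p (∑ i, β i) 0 := by
  choose b a h1 h2 h3 using h
  exact ⟨_, _, fun j => J.sum _ fun i => h1 i j, by simp only [h2],
    by rw [Finset.sum_comm]; simp only [h3, Finset.sum_const_zero]⟩

lemma P.nonpos (h : P F p β c) (hm : IsLocalMax F p) : c ≤ 0 := by
  obtain ⟨_, _, h1, _, rfl⟩ := h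
  refine Finset.sum_nonpos fun j _ => (h1 j).nonpos ?_
  have : IsLocalMax F (p + (0 : ℝ) • e j) := by simpa using hm
  exact this.comp_continuous (g := fun t : ℝ => p + t • e j) (by fun_prop)

lemma P.smooth (h : ContDiffAt ℝ 2 F p) : P F p (fderiv ℝ F p (e (Fin.last _))) (Δ F p) :=
  ⟨_, _, fun j => J.smooth (e j) h, rfl, by
    rw [laplacian_eq_iteratedFDeriv_orthonormalBasis F (EuclideanSpace.basisFun _ ℝ)]⟩

lemma P.lap (h : ContDiffAt ℝ 2 F p) (k : P F p β c) : Δ F p = c := by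
  obtain ⟨_, _, h1, _, rfl⟩ := k
  obtain ⟨_, _, k1, _, k3⟩ := P.smooth h
  exact k3.symm.trans (Finset.sum_congr rfl fun j _ => (k1 j).d2.symm.trans (h1 j).d2)

lemma P.real {f f' : ℝ → ℝ} (h : ∀ᶠ z in 𝓝 (p (Fin.last _)), HasDerivAt f (f' z) z)
    (h' : HasDerivAt f' c' (p (Fin.last _))) : P F p β c →
    P (fun x => f (x (Fin.last _)) * F x) p (f' (p (Fin.last _)) * F p + f (p (Fin.last _)) * β)
      (c' * F p + 2 * f' (p (Fin.last _)) * β + f (p (Fin.last _)) * c)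
  | ⟨b, a, h1, h2, h3⟩ => by
    refine ⟨_, _, fun j => (J.real (e j (Fin.last _)) h h').mul (h1 j), by simp [h2], ?_⟩
    simp [Finset.sum_add_distrib, ← Finset.mul_sum, h3, h2]

lemma P.one : P (fun _ => 1) p 0 0 :=
  ⟨0, 0, fun _ => ⟨0, .of_forall fun t => hasDerivAt_const t _, rfl, hasDerivAt_const _ _⟩, rfl,
    by simp⟩

/-- The complex coordinate `x_last + i x_i`. -/
def ζ (i : Fin (m + 1)) (x : E m) : ℂ := ⟨x (Fin.last _), x i.castSucc⟩

lemma P.cplx {f f' : ℂ → ℂ} {c : ℂ} (i : Fin (m + 1))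
    (h : ∀ᶠ z in 𝓝 (ζ i p), HasDerivAt f (f' z) z) (h' : HasDerivAt f' c (ζ i p)) :
    P (fun x => (f (ζ i x)).re) p (f' (ζ i p)).re 0 := by
  have (j : Fin (m + 2)) (t : ℝ) : ζ i (p + t • e j) = ζ i p + t * ζ i (e j) := by
    apply Complex.ext <;> simp [ζ]
  have l : ζ i (e (Fin.last _)) = 1 := by
    apply Complex.ext <;> simp [ζ, Fin.castSucc_ne_last]
  have k (j : Fin (m + 1)) : ζ i (e j.castSucc) ^ 2 = if i = j then -1 else 0 := by
    apply Complex.ext <;> split_ifs <;> simp [ζ, (Fin.castSucc_ne_last _).symm, sq, *]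
  refine ⟨_, _, fun j => by simpa only [this] using J.cplx (ζ i (e j)) h h', by simp only [l, mul_one], ?_⟩
  rw [← re_sum, ← Finset.mul_sum, Fin.sum_univ_castSucc]
  simp only [k, l]; simp

lemma ζ_smooth (i : Fin (m + 1)) : ContDiff ℝ 2 (ζ i) := by
  have : ζ i = fun x : E m => (x (Fin.last _) : ℂ) + x i.castSucc * I := by
    ext x; apply Complex.ext <;> simp [ζ]
  rw [this]
  have (j : Fin (m + 2)) : ContDiff ℝ 2 fun x : E m => (x j : ℂ) :=
    ofRealCLM.contDiff.comp (by fun_prop)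
  exact (this _).add ((this _).mul contDiff_const)

end Pool.Agent.H16.Jet
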