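import Pool.Agent.H16.Jet2

set_option autoImplicit false

namespace Pool.Agent.H16.Jet

open Filter Topology Complex InnerProductSpace Laplacian

lemma estA {z : ℂ} (h : 0 < z.re) : ‖z‖ - z.re ≤ z.im * z.arg := by
  have h1 := norm_mul_cos_arg z
  have h2 := norm_mul_sin_arg z
  have h3 := abs_le.1 (abs_arg_le_pi_div_two_iff.2 h.le)
  have h4 := Real.cos_nonneg_of_mem_Icc h3
  have h5 : Real.sin z.arg ^ 2 ≤ Real.sin z.arg * z.arg := by
    rcases le_total 0 z.arg with k | k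
    · nlinarith [Real.sin_le k, Real.sin_nonneg_of_nonneg_of_le_pi k (arg_le_pi z)]
    · nlinarith [Real.le_sin k, Real.sin_nonpos_of_nonpos_of_neg_pi_le k (neg_pi_lt_arg z).le]
  rw [← h1, ← h2, mul_assoc, ← mul_one_sub]
  exact mul_le_mul_of_nonneg_left (by nlinarith [Real.sin_sq_add_cos_sq z.arg, Real.cos_le_one z.arg])
    (norm_nonneg _)

lemma estL {z : ℂ} (h : 0 < z.re) : Real.log z.re ≤ Real.log ‖z‖ :=
  Real.log_le_log h (re_le_norm z)

lemma estC {z : ℂ} (h : 0 < z.re) : (z * log z).re ≤ z.re * Real.log ‖z‖ := by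
  have := estA h
  have := re_le_norm z
  rw [mul_re, log_re, log_im]; linarith

lemma estB {z : ℂ} (h : 0 < z.re) : (z * log z).re ≤ z.re * (Real.log z.re + 1) - ‖z‖ / 2 := by
  have h1 := estA h
  have h2 := h.trans_le (re_le_norm z)
  have h3 := Real.log_le_sub_one_of_pos (x := ‖z‖ / z.re / 2) (by positivity)
  rw [Real.log_div (by positivity) two_ne_zero, Real.log_div h2.ne' h.ne'] at h3
  have h4 : z.re * (‖z‖ / z.re) = ‖z‖ := by field_simp
  rw [mul_re, log_re, log_im]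
  nlinarith [Real.log_two_lt_d9]

lemma estD {z : ℂ} (h : 0 < z.re) (k : 9 ≤ Real.log z.re) :
    -(z * log z ^ 2).re ≤ 7 * (|z.im| * Real.posLog |z.im|) - z.re * Real.log z.re ^ 2 / 2 := by
  have h1 := estL h
  have h3 := abs_arg_le_pi_div_two_iff.2 h.le
  have h4 : |z.arg| ≤ 1.6 := by linarith [Real.pi_lt_d2]
  have h5 : z.im * z.arg ≤ |z.im| * 1.6 :=
    (le_abs_self _).trans (by rw [abs_mul]; gcongr)
  have h6 : z.arg ^ 2 ≤ 1.6 ^ 2 := by rw [← sq_abs]; gcongr
  have h7 : 0 ≤ |z.im| * Real.posLog |z.im| := mul_nonneg (abs_nonneg _) Real.posLog_nonneg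
  have h8 : z.re * Real.log z.re ^ 2 ≤ z.re * Real.log ‖z‖ ^ 2 := by gcongr
  have e : -(z * log z ^ 2).re =
      2 * Real.log ‖z‖ * (z.im * z.arg) - z.re * Real.log ‖z‖ ^ 2 + z.re * z.arg ^ 2 := by
    simp only [sq, mul_re, mul_im, log_re, log_im]; ring
  have h9 : 2 * Real.log ‖z‖ * (z.im * z.arg) ≤ 2 * Real.log ‖z‖ * (|z.im| * 1.6) := by
    gcongr; linarith
  have h10 : z.re * z.arg ^ 2 ≤ z.re * 1.6 ^ 2 := by gcongr
  have h11 : z.re * (9 * Real.log ‖z‖) ≤ z.re * Real.log ‖z‖ ^ 2 := by gcongr; nlinarith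
  have h12 : z.re * 9 ≤ z.re * Real.log ‖z‖ := by gcongr; linarith
  rw [e]
  rcases le_total |z.im| z.re with a | a
  · have : Real.log ‖z‖ * |z.im| ≤ Real.log ‖z‖ * z.re := by gcongr; linarith
    linarith
  · have b : Real.log ‖z‖ ≤ Real.log (2 * |z.im|) := Real.log_le_log (h.trans_le (re_le_norm z))
      ((norm_le_abs_re_add_abs_im z).trans (by rw [abs_of_pos h]; linarith))
    rw [Real.log_mul two_ne_zero (h.trans_le a).ne'] at b
    have d := Real.log_le_log h a
    have f : Real.log |z.im| ≤ Real.posLog |z.im| := le_max_right _ _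
    have : |z.im| * Real.log ‖z‖ ≤ |z.im| * (2 * Real.posLog |z.im|) := by
      gcongr; linarith [Real.log_two_lt_d9]
    linarith

variable {m : ℕ} {p : E m}

/-- The harmonic function `∑ Re (ζ log ζ)`. -/
noncomputable def H (x : E m) : ℝ := ∑ i, (ζ i x * log (ζ i x)).re

lemma slit {z : ℂ} (h : 0 < z.re) : ∀ᶠ w in 𝓝 z, w ∈ slitPlane :=
  isOpen_slitPlane.mem_nhds (.inl h)

lemma P.H (h : 0 < p (Fin.last _)) : P H p (∑ i, (Real.log ‖ζ i p‖ + 1)) 0 :=
  P.sum fun i => by
    simpa [log_re] using P.cplx (f := fun z => z * log z) (f' := fun z => log z + 1) i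
      ((slit h).mono fun z hz => ((hasDerivAt_id z).mul (hasDerivAt_log hz)).congr_deriv
        (by simp [mul_inv_cancel₀ (slitPlane_ne_zero hz)]))
      ((hasDerivAt_log (.inl h)).add_const 1)

lemma P.G (h : 0 < p (Fin.last _)) : ∃ β, P (fun x => (ζ 0 x * log (ζ 0 x) ^ 2).re) p β 0 :=
  ⟨_, P.cplx (f := fun z => z * log z ^ 2) (f' := fun z => log z ^ 2 + 2 * log z) 0
    ((slit h).mono fun z hz => ((hasDerivAt_id z).mul ((hasDerivAt_log hz).pow 2)).congr_deriv
      (by have := slitPlane_ne_zero hz; simp; field_simp))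
    (((hasDerivAt_log (.inl h)).pow 2).add ((hasDerivAt_log (.inl h)).const_mul 2))⟩

lemma log_smooth (i : Fin (m + 1)) (h : 0 < p (Fin.last _)) :
    ContDiffAt ℝ 2 (fun x => log (ζ i x)) p :=
  ((contDiffAt_log (n := 2) (x := ζ i p) (.inl h)).restrict_scalars ℝ).comp p (ζ_smooth i).contDiffAt

lemma H_smooth (h : 0 < p (Fin.last _)) : ContDiffAt ℝ 2 H p :=
  .sum fun i _ => reCLM.contDiff.contDiffAt.comp p ((ζ_smooth i).contDiffAt.mul (log_smooth i h))

lemma H_harm (h : 0 < p (Fin.last _)) : HarmonicAt H p :=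
  ⟨H_smooth h, (continuousAt_const.eventually_lt (g := fun x : E m => x (Fin.last _))
    (by fun_prop) h).mono fun _ k => P.lap (H_smooth k) (P.H k)⟩

/-- The subharmonic barrier. -/
noncomputable def W (x : E m) : ℝ := (√(Real.log (x (Fin.last _))) - 3) *
  (H x + -(x (Fin.last _) * Real.log (x (Fin.last _)) / 5) * 1)

lemma P.W (h : 0 < p (Fin.last _)) (k : 9 < Real.log (p (Fin.last _)))
    (l : p (Fin.last _) * Real.log (p (Fin.last _)) / 5 < Jet.H p) : ∃ β c, 0 < c ∧ P W p β c := by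
  have ev : ∀ᶠ z in 𝓝 (p (Fin.last _)), z ≠ 0 ∧ Real.log z ≠ 0 := (eventually_ne_nhds h.ne').and
    ((Real.continuousAt_log h.ne').eventually_ne (by linarith))
  refine ⟨_, _, ?_, ((P.H h).add (P.one.real (f := fun z => -(z * Real.log z / 5)) (f' := fun z => -((Real.log z + 1) / 5))
    (ev.mono fun z hz => (((Real.hasDerivAt_mul_log hz.1).div_const 5).neg))
    (((Real.hasDerivAt_log h.ne').add_const 1).div_const 5).neg)).real
    (f' := fun z => z⁻¹ / (2 * √(Real.log z)))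
    (ev.mono fun z hz => ((Real.hasDerivAt_log hz.1).sqrt hz.2).sub_const 3)
    ((hasDerivAt_inv h.ne').div (((Real.hasDerivAt_log h.ne').sqrt (by linarith)).const_mul 2)
      (by have : 0 < Real.log (p (Fin.last _)) := by linarith
          positivity))⟩
  have a : Jet.H p ≤ p (Fin.last _) * ∑ i, Real.log ‖ζ i p‖ := by
    rw [Finset.mul_sum]; exact Finset.sum_le_sum fun i _ => estC (z := ζ i p) h
  have b : Real.log (p (Fin.last _)) ≤ ∑ i, Real.log ‖ζ i p‖ := (estL (z := ζ 0 p) h).trans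
    (Finset.single_le_sum (f := fun i => Real.log ‖ζ i p‖) (fun i _ =>
      le_trans (by linarith : 0 ≤ Real.log (p (Fin.last _))) (estL (z := ζ i p) h))
      (Finset.mem_univ 0))
  simp only [Finset.sum_add_distrib, mul_zero, mul_one, add_zero, zero_add]
  have n : (0 : ℝ) ≤ ∑ _i : Fin (m + 1), 1 := by positivity
  have q3 : 3 < √(Real.log (p (Fin.last _))) := Real.lt_sqrt_of_sq_lt (by linarith)
  have q2 := Real.sq_sqrt (x := Real.log (p (Fin.last _))) (by linarith)
  generalize √(Real.log (p (Fin.last _))) = q at *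
  generalize Real.log (p (Fin.last _)) = L at *
  generalize p (Fin.last _) = y at *
  generalize Jet.H p = A at *
  generalize ∑ i, Real.log ‖ζ i p‖ = S at *
  generalize ∑ _i : Fin (m + 1), (1 : ℝ) = N at *
  clear ev; subst q2
  have q0 : 0 < q := by linarith
  have : 0 < -(2 * q ^ 2 + 1) * (A - y * q ^ 2 / 5) +
      4 * q ^ 2 * y * (S + N - (q ^ 2 + 1) / 5 - q * (q - 3) / 5) := by
    have : (2 * q ^ 2 + 1) * (A - y * q ^ 2 / 5) ≤ (2.2 * q ^ 2) * (y * S - y * q ^ 2 / 5) := by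
      gcongr; nlinarith
    have : 0 < q ^ 2 * y * (1.8 * S - 1.16 * q ^ 2 + 4 * N - 0.8 + 2.4 * q) := by
      have : 0 < 1.8 * S - 1.16 * q ^ 2 + 4 * N - 0.8 + 2.4 * q := by nlinarith
      positivity
    linarith
  refine (div_pos this (by positivity : 0 < 4 * q ^ 3 * y ^ 2)).trans_eq ?_
  field_simp; ring

end Pool.Agent.H16.Jet
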