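import Mathlib

set_option autoImplicit false

namespace Pool.Agent.H16.MatFam

open Finset
open scoped symmDiff

attribute [local instance] Classical.propDecidable

section abstract
variable {E : Type} (Ev : Finset E → Prop)

/-- The number of even subsets of `X`. -/
noncomputable def cnt (X : Finset E) : ℕ := (X.powerset.filter Ev).card

structure Data (C : Set E) (N : ℕ) (X : Finset E) (Z : ℕ → Finset E) : Prop where
  pos : 1 ≤ N
  mem : ∀ e, e ∈ C ↔ e ∈ X ∨ ∃ m, N ≤ m ∧ e ∈ Z m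
  ev : ∀ m, N ≤ m → Ev (Z m)
  card : ∀ m, N ≤ m → (Z m).card = m
  disj : ∀ m, N ≤ m → ∀ e ∈ Z m, e ∉ X
  sep : ∀ m, N ≤ m → ∀ F, Ev F → (∀ e ∈ F, e ∈ C) → Z m ⊆ F ∨ ∀ e ∈ Z m, e ∉ F
  br : ∀ e ∈ X, ∃ F ⊆ X, Ev F ∧ e ∈ F
  num : cnt Ev X = 2 ^ N

def Good (C : Set E) : Prop := ∃ N X Z, Data Ev C N X Z

/-- minimal nonempty even subset -/
def Circ (F : Finset E) : Prop := Ev F ∧ ∀ F' ⊆ F, Ev F' → F'.Nonempty → F' = F

def Inv (C : Set E) (k : ℕ) : Prop :=
  ∃ a, ∃ T : Finset (Finset E), T.card = k ∧ ∀ F ∈ T, Circ Ev F ∧ a ∈ F ∧ ∀ e ∈ F, e ∈ C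

variable {Ev}

lemma cnt_mono {X Y : Finset E} (h : X ⊆ Y) : cnt Ev X ≤ cnt Ev Y :=
  card_le_card (filter_subset_filter _ (powerset_mono.2 h))

lemma cnt_congr {X Y : Finset E} (h : ∀ F, Ev F → (F ⊆ X ↔ F ⊆ Y)) : cnt Ev X = cnt Ev Y := by
  unfold cnt
  congr 1
  ext F
  simp only [mem_filter, mem_powerset]
  exact and_congr_left (h F)

lemma cnt_erase_of_not {X : Finset E} {e : E} (h : ¬ ∃ F ⊆ X, Ev F ∧ e ∈ F) :
    cnt Ev X = cnt Ev (X.erase e) :=
  cnt_congr fun F hF => ⟨fun h1 => subset_erase.2 ⟨h1, fun h2 => h ⟨F, h1, hF, h2⟩⟩,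
    fun h1 => h1.trans (erase_subset _ _)⟩

variable (hs : ∀ F G, Ev F → Ev G → Ev (F ∆ G))
include hs

lemma cnt_erase {X : Finset E} {e : E} (h : ∃ F ⊆ X, Ev F ∧ e ∈ F) :
    cnt Ev X = 2 * cnt Ev (X.erase e) := by
  obtain ⟨D, h1, h2, h3⟩ := h
  have e1 : (X.powerset.filter Ev).filter (fun F => ¬ e ∈ F) = (X.erase e).powerset.filter Ev := by
    ext F
    simp only [mem_filter, mem_powerset, subset_erase]
    tauto
  have sub : ∀ F ⊆ X, F ∆ D ⊆ X := fun F hF x hx => by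
    rw [mem_symmDiff] at hx
    exact hx.elim (fun a => hF a.1) fun a => h1 a.1
  have e2 : ((X.powerset.filter Ev).filter (fun F => e ∈ F)).card =
      ((X.powerset.filter Ev).filter (fun F => ¬ e ∈ F)).card := by
    refine card_bij' (fun F _ => F ∆ D) (fun F _ => F ∆ D) ?_ ?_ ?_ ?_
    · intro F hF
      simp only [mem_filter, mem_powerset, mem_symmDiff] at hF ⊢
      exact ⟨⟨sub F hF.1.1, hs _ _ hF.1.2 h2⟩, by tauto⟩
    · intro F hF
      simp only [mem_filter, mem_powerset, mem_symmDiff] at hF ⊢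
      exact ⟨⟨sub F hF.1.1, hs _ _ hF.1.2 h2⟩, by tauto⟩
    · intro F _; exact symmDiff_symmDiff_cancel_right _ _
    · intro F _; exact symmDiff_symmDiff_cancel_right _ _
  have := card_filter_add_card_filter_not (s := X.powerset.filter Ev) (fun F => e ∈ F)
  rw [e2, e1] at this
  unfold cnt
  omega

lemma cnt_pow (h0 : Ev ∅) (X : Finset E) : ∃ k, cnt Ev X = 2 ^ k := by
  induction X using Finset.induction_on with
  | empty => exact ⟨0, by simp [cnt, filter_singleton, h0]⟩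
  | insert a X ha ih =>
    obtain ⟨k, hk⟩ := ih
    by_cases h : ∃ F ⊆ insert a X, Ev F ∧ a ∈ F
    · exact ⟨k + 1, by rw [cnt_erase hs h, erase_insert ha, hk, pow_succ']⟩
    · exact ⟨k, by rw [cnt_erase_of_not h, erase_insert ha, hk]⟩

lemma exists_sub (h0 : Ev ∅) {M : ℕ} (hM : 1 ≤ M) (Y : Finset E) (h : 2 ^ M ≤ cnt Ev Y) :
    ∃ W ⊆ Y, cnt Ev W = 2 ^ M ∧ ∀ e ∈ W, ∃ F ⊆ W, Ev F ∧ e ∈ F := by
  induction Y using Finset.strongInduction with
  | H Y ih =>
    by_cases hc : ∃ e ∈ Y, 2 ^ M ≤ cnt Ev (Y.erase e)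
    · obtain ⟨e, he, h1⟩ := hc
      obtain ⟨W, a, b⟩ := ih _ (erase_ssubset he) h1
      exact ⟨W, a.trans (erase_subset _ _), b⟩
    · push Not at hc
      have hb : ∀ e ∈ Y, ∃ F ⊆ Y, Ev F ∧ e ∈ F := fun e he => by
        by_contra hn
        have := hc e he
        rw [← cnt_erase_of_not hn] at this
        omega
      refine ⟨Y, Subset.rfl, ?_, hb⟩
      obtain ⟨k, hk⟩ := cnt_pow hs h0 Y
      rcases Y.eq_empty_or_nonempty with rfl | ⟨e, he⟩
      · have : cnt Ev ∅ ≤ 1 := (card_filter_le _ _).trans (by simp)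
        have := Nat.pow_le_pow_right (show 0 < 2 by norm_num) hM
        omega
      · have h1 := hc e he
        have h2 := cnt_erase hs (hb e he)
        rw [hk] at h h2 ⊢
        have h3 : 2 ^ k < 2 ^ (M + 1) := by rw [pow_succ]; omega
        rw [Nat.pow_le_pow_iff_right (by norm_num)] at h
        rw [Nat.pow_lt_pow_iff_right (by norm_num)] at h3
        congr 1
        omega

omit hs in
lemma Data.ne {C : Set E} {N : ℕ} {X : Finset E} {Z : ℕ → Finset E} (d : Data Ev C N X Z)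
    {m : ℕ} (hm : N ≤ m) : (Z m).Nonempty :=
  card_pos.1 (by rw [d.card m hm]; exact d.pos.trans hm)

omit hs in
lemma Data.sub {C : Set E} {N : ℕ} {X : Finset E} {Z : ℕ → Finset E} (d : Data Ev C N X Z)
    {m : ℕ} (hm : N ≤ m) : ∀ e ∈ Z m, e ∈ C := fun e he => (d.mem e).2 (Or.inr ⟨m, hm, he⟩)

lemma Data.shift {C : Set E} {N : ℕ} {X : Finset E} {Z : ℕ → Finset E} (d : Data Ev C N X Z) :
    Data Ev C (N + 1) (X ∪ Z N) Z where
  pos := by omega
  mem e := by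
    rw [d.mem, mem_union]
    constructor
    · rintro (h | ⟨m, h1, h2⟩)
      · exact Or.inl (Or.inl h)
      · rcases h1.eq_or_lt with rfl | h1
        exacts [Or.inl (Or.inr h2), Or.inr ⟨m, h1, h2⟩]
    · rintro ((h | h) | ⟨m, h1, h2⟩)
      exacts [Or.inl h, Or.inr ⟨N, le_rfl, h⟩, Or.inr ⟨m, by omega, h2⟩]
  ev m hm := d.ev m (by omega)
  card m hm := d.card m (by omega)
  disj m hm e he h := by
    rcases mem_union.1 h with h | h
    · exact d.disj m (by omega) e he h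
    · rcases d.sep m (by omega) _ (d.ev N le_rfl) (d.sub le_rfl) with a | a
      · have := card_le_card a
        rw [d.card m (by omega), d.card N le_rfl] at this
        omega
      · exact a e he h
  sep m hm := d.sep m (by omega)
  br e he := by
    rcases mem_union.1 he with h | h
    · obtain ⟨F, a, b⟩ := d.br e h
      exact ⟨F, a.trans subset_union_left, b⟩
    · exact ⟨_, subset_union_right, d.ev N le_rfl, h⟩
  num := by
    obtain ⟨e, he⟩ := d.ne le_rfl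
    rw [cnt_erase hs ⟨_, subset_union_right, d.ev N le_rfl, he⟩, pow_succ', ← d.num]
    congr 1
    refine cnt_congr fun F hF => ⟨fun h x hx => ?_, fun h => subset_erase.2
      ⟨h.trans subset_union_left, fun hx => d.disj N le_rfl e he (h hx)⟩⟩
    rw [subset_erase] at h
    rcases d.sep N le_rfl F hF (fun y hy => (d.mem y).2 ((mem_union.1 (h.1 hy)).imp id
      fun a => ⟨N, le_rfl, a⟩)) with a | a
    · exact absurd (a he) h.2
    · exact (mem_union.1 (h.1 hx)).resolve_right fun b => a x b hx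

lemma Data.shift_to {C : Set E} {N : ℕ} {X : Finset E} {Z : ℕ → Finset E} (d : Data Ev C N X Z)
    {M : ℕ} (h : N ≤ M) : ∃ X', Data Ev C M X' Z := by
  induction M, h using Nat.le_induction with
  | base => exact ⟨X, d⟩
  | succ M _ ih => exact ih.elim fun _ d' => ⟨_, d'.shift hs⟩

lemma Good.grow {C : Set E} (g : Good Ev C) (S : Finset E) :
    ∃ N X Z, Data Ev C N X Z ∧ ∀ e ∈ S, e ∈ C → e ∈ X := by
  obtain ⟨N, X, Z, d⟩ := g
  have h : ∀ e, ∃ k, ∀ m, N ≤ m → e ∈ Z m → m ≤ k := fun e => by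
    by_cases h : ∃ k, N ≤ k ∧ e ∈ Z k
    · obtain ⟨k, h1, h2⟩ := h
      refine ⟨k, fun m hm he => ?_⟩
      rcases d.sep m hm _ (d.ev k h1) (d.sub h1) with a | a
      · have := card_le_card a
        rwa [d.card m hm, d.card k h1] at this
      · exact absurd h2 (a e he)
    · exact ⟨0, fun m hm he => absurd ⟨m, hm, he⟩ h⟩
  choose k hk using h
  obtain ⟨X', d'⟩ := d.shift_to hs (M := N + S.sup k + 1) (by omega)
  refine ⟨_, X', Z, d', fun e he hc => ((d'.mem e).1 hc).resolve_right ?_⟩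
  rintro ⟨m, h1, h2⟩
  have := hk e m (by omega) h2
  have := le_sup (f := k) he
  omega

lemma Good.c1 {C C' : Set E} (g : Good Ev C) (g' : Good Ev C') (h : C ⊆ C') : C = C' := by
  obtain ⟨N, X, Z, d⟩ := g
  obtain ⟨N', X', Z', d'⟩ := g'
  have hZ : ∀ m, N + N' + X'.card + 1 ≤ m → Z m = Z' m := fun m hm => by
    have h1 : N ≤ m := by omega
    obtain ⟨e, he, hx⟩ : ∃ e ∈ Z m, e ∉ X' := by
      by_contra hc
      push Not at hc
      have := card_le_card (show Z m ⊆ X' from hc)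
      rw [d.card m h1] at this
      omega
    obtain ⟨k, k1, k2⟩ := ((d'.mem e).1 (h (d.sub h1 e he))).resolve_left hx
    have a := (d'.sep k k1 _ (d.ev m h1) fun x hx => h (d.sub h1 x hx)).resolve_right
      fun a => a e k2 he
    have b := (d.sep m h1 _ (d'.ev k k1) fun x hx => d.sub h1 x (a hx)).resolve_right
      fun b => b e he k2
    have c := Subset.antisymm b a
    have := d.card m h1
    rw [c, d'.card k k1] at this
    rw [c, this]
  obtain ⟨Y, e⟩ := d.shift_to hs (M := N + N' + X'.card + 1) (by omega)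
  obtain ⟨Y', e'⟩ := d'.shift_to hs (M := N + N' + X'.card + 1) (by omega)
  have s : Y ⊆ Y' := fun x hx => ((e'.mem x).1 (h ((e.mem x).2 (Or.inl hx)))).resolve_right
    fun ⟨m, h1, h2⟩ => e.disj m h1 x (hZ m h1 ▸ h2) hx
  refine h.antisymm fun x hx => (e.mem x).2 ?_
  rcases (e'.mem x).1 hx with a | ⟨m, h1, h2⟩
  · left
    by_contra hc
    have h1 := cnt_erase hs (e'.br x a)
    have h2 := cnt_mono (Ev := Ev) (subset_erase.2 ⟨s, hc⟩)
    rw [e.num] at h2
    rw [e'.num] at h1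
    have : 0 < 2 ^ (N + N' + X'.card + 1) := by positivity
    omega
  · exact Or.inr ⟨m, h1, hZ m h1 ▸ h2⟩

lemma Good.c2 (h0 : Ev ∅) {C C' : Set E} (g : Good Ev C) (g' : Good Ev C') (hne : C ≠ C') {e : E}
    (he : e ∈ C) : ∃ D, Good Ev D ∧ D ⊆ (C ∪ C') \ {e} := by
  obtain ⟨f, hf, hf'⟩ : ∃ f ∈ C', f ∉ C := by
    by_contra hc
    push Not at hc
    exact hne (g'.c1 hs g hc).symm
  obtain ⟨D, d1, d2, d3⟩ : ∃ D, Ev D ∧ f ∈ D ∧ ∀ x ∈ D, x ∈ C' := by
    obtain ⟨N', X', Z', d'⟩ := g'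
    rcases (d'.mem f).1 hf with a | ⟨m, h1, h2⟩
    · obtain ⟨F, b1, b2, b3⟩ := d'.br f a
      exact ⟨F, b2, b3, fun x hx => (d'.mem x).2 (Or.inl (b1 hx))⟩
    · exact ⟨_, d'.ev m h1, h2, d'.sub h1⟩
  have hr : ∀ T : Finset E, ∃ R, (∃ F, Ev F ∧ F.filter (· ∉ C) = T) →
      Ev R ∧ R.filter (· ∉ C) = T := fun T => by
    by_cases h : ∃ F, Ev F ∧ F.filter (· ∉ C) = T
    · exact h.imp fun _ a _ => a
    · exact ⟨∅, fun a => absurd a h⟩
  choose R hR using hr
  obtain ⟨M, X, Z, d, hS⟩ := g.grow hs (insert e (D ∪ D.powerset.biUnion R))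
  have c1 : 2 ^ M ≤ cnt Ev ((X ∪ D).erase e) := by
    have a := cnt_erase hs (X := X ∪ D) ⟨D, subset_union_right, d1, d2⟩
    have b := cnt_mono (Ev := Ev) (subset_erase.2 ⟨subset_union_left (s₂ := D),
      fun h => hf' ((d.mem f).2 (Or.inl h))⟩)
    rw [d.num] at b
    by_cases h : ∃ F ⊆ X ∪ D, Ev F ∧ e ∈ F
    · have := cnt_erase hs h
      omega
    · have := cnt_erase_of_not h
      omega
  obtain ⟨W, w1, w2, w3⟩ := exists_sub hs h0 d.pos _ c1
  have w4 : ∀ x ∈ W, x ≠ e ∧ (x ∈ X ∨ x ∈ D) := fun x hx => by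
    have := w1 hx
    rwa [mem_erase, mem_union] at this
  refine ⟨{x | x ∈ W ∨ ∃ m, M ≤ m ∧ x ∈ Z m}, ⟨M, W, Z, d.pos, fun _ => Iff.rfl, d.ev, d.card,
    fun m hm x hx h => d.disj m hm x hx ((w4 x h).2.elim id fun a =>
      hS x (by simp [a]) (d.sub hm x hx)), fun m hm F hF hF' => ?_, w3, w2⟩, ?_⟩
  · have t : F.filter (· ∉ C) ⊆ D := fun x hx => by
      rw [mem_filter] at hx
      rcases hF' x hx.1 with a | ⟨k, h1, h2⟩
      · exact (w4 x a).2.resolve_left fun b => hx.2 ((d.mem x).2 (Or.inl b))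
      · exact absurd (d.sub h1 x h2) hx.2
    obtain ⟨r1, r2⟩ := hR _ ⟨F, hF, rfl⟩
    have r3 : ∀ x ∈ Z m, x ∉ R (F.filter (· ∉ C)) := fun x hx h => d.disj m hm x hx
      (hS x (mem_insert_of_mem (mem_union_right _ (mem_biUnion.2 ⟨_, mem_powerset.2 t, h⟩)))
        (d.sub hm x hx))
    rcases d.sep m hm _ (hs _ _ hF r1) (fun x hx => by
      by_contra hc
      have := Finset.ext_iff.1 r2 x
      simp only [mem_filter, hc, not_false_eq_true, and_true] at this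
      rw [mem_symmDiff] at hx
      tauto) with a | a
    · exact Or.inl fun x hx => ((mem_symmDiff.1 (a hx)).resolve_right fun b => r3 x hx b.1).1
    · exact Or.inr fun x hx h => a x hx (mem_symmDiff.2 (Or.inl ⟨h, r3 x hx⟩))
  · rintro x (a | ⟨m, h1, h2⟩)
    · exact ⟨(w4 x a).2.imp (fun b => (d.mem x).2 (Or.inl b)) (d3 x), (w4 x a).1⟩
    · refine ⟨Or.inl (d.sub h1 x h2), fun h => d.disj m h1 x h2 (hS x ?_ (d.sub h1 x h2))⟩
      rw [show x = e from h]
      exact mem_insert_self _ _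

omit hs in
lemma Good.bdd {C : Set E} (g : Good Ev C) : ∃ B, ∀ k, Inv Ev C k → k ≤ B := by
  obtain ⟨N, X, Z, d⟩ := g
  refine ⟨2 ^ N, ?_⟩
  rintro k ⟨a, T, rfl, hT⟩
  by_cases h : ∃ m, N ≤ m ∧ a ∈ Z m
  · obtain ⟨m, h1, h2⟩ := h
    refine (card_le_one_iff_subset_singleton.2 ⟨Z m, fun F hF => ?_⟩).trans Nat.one_le_two_pow
    obtain ⟨b1, b2, b3⟩ := hT F hF
    exact mem_singleton.2 (b1.2 _ ((d.sep m h1 F b1.1 b3).resolve_right fun c => c a h2 b2)
      (d.ev m h1) (d.ne h1)).symm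
  · rw [← d.num]
    refine card_le_card fun F hF => ?_
    obtain ⟨b1, b2, b3⟩ := hT F hF
    refine mem_filter.2 ⟨mem_powerset.2 fun x hx => ((d.mem x).1 (b3 x hx)).resolve_right ?_, b1.1⟩
    rintro ⟨m, h1, h2⟩
    have := b1.2 _ ((d.sep m h1 F b1.1 b3).resolve_right fun c => c x h2 hx) (d.ev m h1) (d.ne h1)
    exact h ⟨m, h1, this ▸ b2⟩

end abstract

/-- `p` identifies the even sets of `A` with the even sets of `B` inside the range of `p`. -/
structure Tr {A B : Type} (EA : Finset A → Prop) (EB : Finset B → Prop) (p : A → B)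
    (Φ : Finset B → Finset A) (S : Finset A) : Prop where
  mem : ∀ F a, a ∈ Φ F ↔ p a ∈ F
  ev : ∀ F, (∀ b ∈ F, b ∈ Set.range p) → (EA (Φ F) ↔ EB F)
  sat : ∀ F, EA F → ∀ a a', p a = p a' → a ∈ F → a' ∈ F
  inj : ∀ a a', p a = p a' → a ∉ S → a = a'

section transfer
variable {A B : Type} {EA : Finset A → Prop} {EB : Finset B → Prop} {p : A → B}
  {Φ : Finset B → Finset A} {S : Finset A} (t : Tr EA EB p Φ S)
include t

lemma Tr.img {F : Finset A} (h : ∀ a a', p a = p a' → a ∈ F → a' ∈ F) : Φ (F.image p) = F := by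
  ext a
  rw [t.mem, mem_image]
  exact ⟨fun ⟨a', h1, h2⟩ => h _ _ h2 h1, fun h1 => ⟨a, h1, rfl⟩⟩

omit t in
lemma rng (F : Finset A) : ∀ b ∈ F.image p, b ∈ Set.range p := fun b hb => by
  obtain ⟨a, -, rfl⟩ := mem_image.1 hb
  exact ⟨a, rfl⟩

lemma Tr.evi {F : Finset A} (h : EA F) : EB (F.image p) :=
  (t.ev _ (rng F)).1 (by rwa [t.img (t.sat F h)])

lemma Tr.sub {F G : Finset B} (hF : ∀ b ∈ F, b ∈ Set.range p) : Φ F ⊆ Φ G ↔ F ⊆ G := by
  refine ⟨fun h b hb => ?_, fun h a ha => (t.mem _ _).2 (h ((t.mem _ _).1 ha))⟩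
  obtain ⟨a, rfl⟩ := hF b hb
  exact (t.mem _ _).1 (h ((t.mem _ _).2 hb))

lemma Tr.imgΦ {F : Finset B} (hF : ∀ b ∈ F, b ∈ Set.range p) : (Φ F).image p = F := by
  ext b
  rw [mem_image]
  refine ⟨fun ⟨a, h1, h2⟩ => h2 ▸ (t.mem _ _).1 h1, fun hb => ?_⟩
  obtain ⟨a, rfl⟩ := hF b hb
  exact ⟨a, (t.mem _ _).2 hb, rfl⟩

lemma Tr.cnt_eq {X : Finset B} (hX : ∀ b ∈ X, b ∈ Set.range p) : cnt EA (Φ X) = cnt EB X := by
  refine card_bij' (fun F _ => F.image p) (fun F _ => Φ F) ?_ ?_ ?_ ?_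
  · intro F hF
    rw [mem_filter, mem_powerset] at hF ⊢
    exact ⟨image_subset_iff.2 fun a ha => (t.mem _ _).1 (hF.1 ha), t.evi hF.2⟩
  · intro F hF
    rw [mem_filter, mem_powerset] at hF ⊢
    have := fun b hb => hX b (hF.1 hb)
    exact ⟨(t.sub this).2 hF.1, (t.ev F this).2 hF.2⟩
  · intro F hF
    exact t.img (t.sat F (mem_filter.1 hF).2)
  · intro F hF
    exact t.imgΦ fun b hb => hX b (mem_powerset.1 (mem_filter.1 hF).1 hb)

lemma Tr.good (hA : ∀ F G, EA F → EA G → EA (F ∆ G)) (hB : ∀ F G, EB F → EB G → EB (F ∆ G)) :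
    Good EA Set.univ ↔ Good EB (Set.range p) := by
  constructor
  · intro g
    obtain ⟨N, X, Z, d, hS⟩ := g.grow hA S
    have sx : ∀ a a', p a = p a' → a ∈ X → a' ∈ X := fun a a' h ha => by
      obtain ⟨F, h1, h2, h3⟩ := d.br a ha
      exact h1 (t.sat F h2 a a' h h3)
    refine ⟨N, X.image p, fun m => (Z m).image p, d.pos, fun b => ⟨?_, ?_⟩,
      fun m hm => t.evi (d.ev m hm), fun m hm => ?_, fun m hm b h1 h2 => ?_,
      fun m hm F hF hF' => ?_, fun b hb => ?_, ?_⟩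
    · rintro ⟨a, rfl⟩
      exact ((d.mem a).1 trivial).imp (mem_image_of_mem _)
        fun ⟨m, h1, h2⟩ => ⟨m, h1, mem_image_of_mem _ h2⟩
    · rintro (h | ⟨m, -, h⟩) <;> exact rng _ _ h
    · rw [card_image_of_injOn, d.card m hm]
      exact fun a ha a' _ h => t.inj a a' h fun c => d.disj m hm a ha (hS a c trivial)
    · obtain ⟨a, ha, rfl⟩ := mem_image.1 h1
      obtain ⟨a', ha', e⟩ := mem_image.1 h2
      exact d.disj m hm a ha (sx _ _ e ha')
    · rcases d.sep m hm _ ((t.ev F hF').2 hF) (fun _ _ => trivial) with a | a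
      · exact Or.inl (image_subset_iff.2 fun x hx => (t.mem _ _).1 (a hx))
      · refine Or.inr fun b hb h => ?_
        obtain ⟨x, hx, rfl⟩ := mem_image.1 hb
        exact a x hx ((t.mem _ _).2 h)
    · obtain ⟨a, ha, rfl⟩ := mem_image.1 hb
      obtain ⟨F, h1, h2, h3⟩ := d.br a ha
      exact ⟨_, image_subset_image h1, t.evi h2, mem_image_of_mem _ h3⟩
    · rw [← t.cnt_eq (rng X), t.img sx, d.num]
  · intro g
    obtain ⟨N, X, Z, d, hS⟩ := g.grow hB (S.image p)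
    have hX : ∀ b ∈ X, b ∈ Set.range p := fun b hb => (d.mem b).2 (Or.inl hb)
    refine ⟨N, Φ X, fun m => Φ (Z m), d.pos, fun a => ⟨fun _ => ?_, fun _ => trivial⟩,
      fun m hm => (t.ev _ (d.sub hm)).2 (d.ev m hm), fun m hm => ?_,
      fun m hm a h1 h2 => d.disj m hm _ ((t.mem _ _).1 h1) ((t.mem _ _).1 h2),
      fun m hm F hF _ => ?_, fun a ha => ?_, by rw [t.cnt_eq hX, d.num]⟩
    · simp only [t.mem]
      exact (d.mem _).1 ⟨a, rfl⟩
    · rw [← card_image_of_injOn (f := p), t.imgΦ (d.sub hm), d.card m hm]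
      exact fun a ha a' _ h => t.inj a a' h fun c => d.disj m hm _ ((t.mem _ _).1 ha)
        (hS _ (mem_image_of_mem _ c) ⟨a, rfl⟩)
    · rcases d.sep m hm _ (t.evi hF) (rng F) with a | a
      · left
        rw [← t.img (t.sat F hF)]
        exact (t.sub (d.sub hm)).2 a
      · exact Or.inr fun x hx h => a _ ((t.mem _ _).1 hx) (mem_image_of_mem _ h)
    · obtain ⟨F, h1, h2, h3⟩ := d.br _ ((t.mem _ _).1 ha)
      have := fun b hb => hX b (h1 hb)
      exact ⟨Φ F, (t.sub this).2 h1, (t.ev F this).2 h2, (t.mem _ _).2 h3⟩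

lemma Tr.inv {k : ℕ} (hk : k ≠ 0) : Inv EA Set.univ k ↔ Inv EB (Set.range p) k := by
  constructor
  · rintro ⟨a, T, rfl, hT⟩
    refine ⟨p a, T.image (fun F : Finset A => F.image p), card_image_of_injOn fun F hF G hG h => ?_, fun F hF => ?_⟩
    · rw [← t.img (t.sat F (hT F hF).1.1), ← t.img (t.sat G (hT G hG).1.1)]
      exact congrArg Φ h
    · obtain ⟨G, hG, rfl⟩ := mem_image.1 hF
      obtain ⟨b1, b2, -⟩ := hT G hG
      refine ⟨⟨t.evi b1.1, fun F' h1 h2 ⟨b, hb⟩ => ?_⟩, mem_image_of_mem _ b2, rng G⟩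
      have r := fun b hb => rng G b (h1 hb)
      obtain ⟨x, rfl⟩ := r b hb
      have := b1.2 (Φ F') (by
        rw [← t.img (t.sat G b1.1)]; exact (t.sub r).2 h1) ((t.ev _ r).2 h2) ⟨x, (t.mem _ _).2 hb⟩
      rw [← this, t.imgΦ r]
  · rintro ⟨b, T, rfl, hT⟩
    obtain ⟨F0, hF0⟩ := card_pos.1 (Nat.pos_of_ne_zero hk)
    obtain ⟨a, rfl⟩ := (hT F0 hF0).2.2 b (hT F0 hF0).2.1
    refine ⟨a, T.image Φ, card_image_of_injOn fun F hF G hG h => ?_, fun F hF => ?_⟩
    · rw [← t.imgΦ (hT F hF).2.2, ← t.imgΦ (hT G hG).2.2, h]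
    · obtain ⟨G, hG, rfl⟩ := mem_image.1 hF
      obtain ⟨b1, b2, b3⟩ := hT G hG
      refine ⟨⟨(t.ev G b3).2 b1.1, fun F' h1 h2 h3 => ?_⟩, (t.mem _ _).2 b2, fun _ _ => trivial⟩
      have := b1.2 (F'.image p) (image_subset_iff.2 fun x hx => (t.mem _ _).1 (h1 hx)) (t.evi h2)
        (h3.image _)
      rw [← this, t.img (t.sat F' h2)]

end transfer

end Pool.Agent.H16.MatFam
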