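import Pool.Agent.H16.PartA

/-! A sixteen-colouring of the free group of countable rank (word lemmas follow Pool.Agent.H15.ProtC). -/

set_option autoImplicit false

namespace Pool.Agent.H16.Part

open FreeGroup

abbrev G := FreeGroup ℕ

def rep (k : ℕ) (h : G) : List (ℕ × Bool) := h.toWord.dropWhile fun x => decide (x.1 < k)

theorem toWord_cons (x : ℕ × Bool) (h : G) :
    (mk [x] * h).toWord = x :: h.toWord ∨
      ∃ tl, h.toWord = (x.1, !x.2) :: tl ∧ (mk [x] * h).toWord = tl := by
  have h1 : (mk [x] * h).toWord = reduce (x :: h.toWord) := by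
    conv_lhs => rw [← mk_toWord (x := h), mul_mk, toWord_mk]
    rfl
  rw [h1, reduce.cons, reduce_toWord]
  cases hw : h.toWord with
  | nil => left; rfl
  | cons hd tl =>
    by_cases hc : x.1 = hd.1 ∧ x.2 = !hd.2
    · right
      refine ⟨tl, ?_, by simp [hc]⟩
      obtain ⟨h2, h3⟩ := hc
      rw [h2, h3]; simp
    · left; simp only [if_neg hc]

theorem toWord_cancel (k : ℕ) (h : G) (tl : List (ℕ × Bool)) (hw : h.toWord = (k, false) :: tl) :
    (of k * h).toWord = tl := by
  have h1 : (of k * h).toWord = reduce ((k, true) :: h.toWord) := by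
    conv_lhs => rw [← mk_toWord (x := h), of, mul_mk, toWord_mk]
    rfl
  rw [h1, reduce.cons, reduce_toWord, hw]
  simp

theorem rep_single (k : ℕ) (x : ℕ × Bool) (hx : x.1 < k) (h : G) :
    rep k (mk [x] * h) = rep k h := by
  unfold rep
  rcases toWord_cons x h with h1 | ⟨tl, h1, h2⟩
  · rw [h1, List.dropWhile_cons_of_pos (by simpa using hx)]
  · rw [h2, h1, List.dropWhile_cons_of_pos (by simpa using hx)]

theorem rep_mk (k : ℕ) (L : List (ℕ × Bool)) (hL : ∀ x ∈ L, x.1 < k) (h : G) :
    rep k (mk L * h) = rep k h := by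
  induction L with
  | nil => rw [← one_eq_mk, one_mul]
  | cons x L ih =>
    have : mk (x :: L) = mk [x] * mk L := by rw [mul_mk]; rfl
    rw [this, mul_assoc, rep_single k x (hL x (by simp)), ih fun y hy => hL y (by simp [hy])]

theorem rep_mul (k : ℕ) (f : G) (hf : ∀ x ∈ f.toWord, x.1 < k) (h : G) :
    rep k (f * h) = rep k h := by
  conv_lhs => rw [← mk_toWord (x := f)]
  exact rep_mk k _ hf h

theorem rep_len (k : ℕ) (h : G) : (rep k h).length ≤ h.toWord.length :=
  (List.dropWhile_sublist _).length_le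

theorem rep_head (k : ℕ) (h : G) (b : Bool) (tl : List (ℕ × Bool)) (hw : h.toWord = (k, b) :: tl) :
    rep k h = (k, b) :: tl := by
  unfold rep
  rw [hw, List.dropWhile_cons_of_neg (by simp)]

theorem rep_small (k : ℕ) (f : G) (hf : ∀ x ∈ f.toWord, x.1 < k) : rep k f = [] := by
  have := rep_mul k f hf 1
  rw [mul_one] at this
  rw [this]; simp [rep]

variable (lk : ℕ → Fin 16 × List G × List G) (pq : ℕ → G × Fin 16 × Fin 16)

def Active (k : ℕ) : Prop := (lk k).2.1.length ≤ 16 ∧ (lk k).2.2.length ≤ 16 ∧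
  (∀ f ∈ (lk k).2.1, ∀ x ∈ f.toWord, x.1 < k) ∧ ∀ f ∈ (lk k).2.2, ∀ x ∈ f.toWord, x.1 < k

def Link (j : ℕ) (c : G → Fin 16) : Prop :=
  Active lk j → ∀ v, ∀ f ∈ (lk j).2.1, ∀ y ∈ (lk j).2.2,
    ¬ (c (y * (of j * v)) = (lk j).1 ∧ c (f * v) = (lk j).1)

def Req (j : ℕ) (c : G → Fin 16) : Prop :=
  ¬ Active lk j → (∀ x ∈ (pq j).1.toWord, x.1 < j) →
    c (of j) = (pq j).2.1 ∧ c ((of j)⁻¹ * (pq j).1) = (pq j).2.2

theorem cnt_map (F : List G) (hF : F.length ≤ 16) (v : G) (i j : Fin 16) :
    cnt (F.map fun f => (f * v, i)) j ≤ if j = i then 16 else 0 := by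
  by_cases h : j = i
  · subst h
    rw [if_pos rfl]
    exact List.countP_le_length.trans (by simpa using hF)
  · rw [if_neg h]
    simp [cnt, List.countP_eq_zero, Ne.symm h]

theorem step (k : ℕ) (hA : Active lk k) (Φ : List (G × Fin 16)) (hΦ : Good Φ) :
    ∃ Ψ : List (ℕ × Bool) → List (G × Fin 16), (∀ r, Good (Ψ r)) ∧ (∀ x ∈ Φ, x ∈ Ψ (rep k x.1)) ∧
      ∀ v, ((∀ y ∈ (lk k).2.2, (y * (of k * v), (lk k).1) ∈ Ψ (rep k (of k * v))) ∧
          (Φ = [] → rep k (of k * v) ≠ [])) ∨
        ((∀ f ∈ (lk k).2.1, (f * v, (lk k).1) ∈ Ψ (rep k v)) ∧ (Φ = [] → rep k v ≠ [])) := by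
  classical
  set i := (lk k).1 with hi
  set F := (lk k).2.1 with hF
  set Y := (lk k).2.2 with hY
  let S : G → Prop := fun v => ∃ tl, v.toWord = (k, false) :: tl
  let c1 : G → List (G × Fin 16) := fun v => Y.map fun y => (y * (of k * v), i)
  let c4 : G → List (G × Fin 16) := fun v => F.map fun f => (f * v, i)
  have hnS : ∀ v, ¬ S v → (of k * v).toWord = (k, true) :: v.toWord := by
    intro v hv
    rcases toWord_cons (k, true) v with h | ⟨tl, h, -⟩
    · exact h
    · exact absurd ⟨tl, h⟩ hv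
  have b4 : ∀ v, ∀ x ∈ c4 v, rep k x.1 = rep k v := by
    intro v x hx
    obtain ⟨f, hf, rfl⟩ := List.mem_map.mp hx
    exact rep_mul k f (hA.2.2.1 f hf) v
  have b1 : ∀ v, ∀ x ∈ c1 v, rep k x.1 = rep k (of k * v) := by
    intro v x hx
    obtain ⟨f, hf, rfl⟩ := List.mem_map.mp hx
    exact rep_mul k f (hA.2.2.2 f hf) _
  have hrule : ∀ v (Φ Ψ : List (G × Fin 16)), ¬ Bad (fun j => cnt Φ j + cnt Ψ j) →
      Good (Φ ++ c1 v) ∨ Good (Ψ ++ c4 v) := by
    intro v Φ Ψ h
    by_contra hcon
    simp only [Good, not_or, not_not] at hcon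
    refine h (cut i _ _ _ _ (fun j => ?_) (fun j => ?_) hcon.1 hcon.2)
    · rw [cnt_append]; exact Nat.add_le_add_left (cnt_map _ hA.2.1 _ _ _) _
    · rw [cnt_append]; exact Nat.add_le_add_left (cnt_map _ hA.1 _ _ _) _
  have hlen : ∀ v, List.length (if S v then rep k (of k * v) else rep k v) <
      List.length (if S v then rep k v else rep k (of k * v)) := by
    intro v
    by_cases hv : S v <;> simp only [hv, if_true, if_false]
    · obtain ⟨tl, h⟩ := hv
      have := rep_len k (of k * v)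
      rw [toWord_cancel k v tl h] at this
      rw [rep_head k v _ _ h, List.length_cons]
      omega
    · have := rep_len k v
      rw [rep_head k _ _ _ (hnS v hv), List.length_cons]
      omega
  obtain ⟨Ψ, a1, a2, a3⟩ := forest (rep k) List.length
    (fun v => if S v then rep k v else rep k (of k * v))
    (fun v => if S v then rep k (of k * v) else rep k v)
    (by
      intro v w hvw
      by_cases hv : S v <;> by_cases hw : S w <;> simp only [hv, hw, if_true, if_false] at hvw
      · obtain ⟨t1, h1⟩ := hv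
        obtain ⟨t2, h2⟩ := hw
        rw [rep_head k v _ _ h1, rep_head k w _ _ h2, ← h1, ← h2] at hvw
        exact toWord_injective hvw
      · obtain ⟨t1, h1⟩ := hv
        rw [rep_head k v _ _ h1, rep_head k _ _ _ (hnS w hw)] at hvw
        simp at hvw
      · obtain ⟨t2, h2⟩ := hw
        rw [rep_head k w _ _ h2, rep_head k _ _ _ (hnS v hv)] at hvw
        simp at hvw
      · rw [rep_head k _ _ _ (hnS w hw), rep_head k _ _ _ (hnS v hv)] at hvw
        exact toWord_injective (List.cons.inj hvw).2)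
    (fun v => if S v then c4 v else c1 v) (fun v => if S v then c1 v else c4 v)
    (by
      intro v x hx
      by_cases hv : S v <;> simp only [hv, if_true, if_false] at hx ⊢
      · exact b1 v x hx
      · exact b4 v x hx)
    hlen
    (by
      intro v
      by_cases hv : S v <;> simp only [hv, if_true, if_false]
      · simpa [c1] using hA.2.1
      · simpa [c4] using hA.1)
    (by
      intro v
      by_cases hv : S v <;> simp only [hv, if_true, if_false]
      · exact not_bad_axis i _ (cnt_map _ hA.1 _ _)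
      · exact not_bad_axis i _ (cnt_map _ hA.2.1 _ _))
    (by
      intro v Φ Ψ h
      by_cases hv : S v <;> simp only [hv, if_true, if_false]
      · exact (hrule v Ψ Φ (by simpa [add_comm] using h)).symm
      · exact hrule v Φ Ψ h)
    Φ hΦ
  refine ⟨Ψ, a1, a2, fun v => ?_⟩
  have m1 : ∀ y ∈ Y, (y * (of k * v), i) ∈ c1 v := fun y hy => List.mem_map.mpr ⟨y, hy, rfl⟩
  have m4 : ∀ f ∈ F, (f * v, i) ∈ c4 v := fun f hf => List.mem_map.mpr ⟨f, hf, rfl⟩
  have h3 := a3 v
  have h4 := hlen v
  by_cases hv : S v <;> simp only [hv, if_true, if_false] at h3 h4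
  · rcases h3 with h | ⟨h, x, hx, -⟩
    · exact Or.inr ⟨fun f hf => h _ (m4 f hf), fun _ h0 => by simp [h0] at h4⟩
    · exact Or.inl ⟨fun f hf => h _ (m1 f hf), fun h0 => by simp [h0] at hx⟩
  · rcases h3 with h | ⟨h, x, hx, -⟩
    · exact Or.inl ⟨fun f hf => h _ (m1 f hf), fun _ h0 => by simp [h0] at h4⟩
    · exact Or.inr ⟨fun f hf => h _ (m4 f hf), fun h0 => by simp [h0] at hx⟩

theorem link_glue (k : ℕ) (cc : List (ℕ × Bool) → G → Fin 16) (j : ℕ) (h : j < k)
    (hc : ∀ r, Link lk j (cc r)) : Link lk j (fun h => cc (rep k h) h) := by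
  intro hj' v f hf y hy
  have e1 : rep k (y * (of j * v)) = rep k v := by
    rw [rep_mul k y (fun x hx => (hj'.2.2.2 y hy x hx).trans h)]
    exact rep_single k (j, true) h v
  have e2 : rep k (f * v) = rep k v :=
    rep_mul k f (fun x hx => (hj'.2.2.1 f hf x hx).trans h) v
  simp only [e1, e2]
  exact hc _ hj' v f hf y hy

theorem inv (k : ℕ) (Φ : List (G × Fin 16)) (hΦ : Good Φ) :
    ∃ c : G → Fin 16, (∀ j < k, Link lk j c) ∧ ∀ x ∈ Φ, c x.1 ≠ x.2 := by
  classical
  induction k generalizing Φ with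
  | zero =>
    have : ∃ j, cnt Φ j = 0 := by
      by_contra h
      push Not at h
      exact hΦ (bad_ones _ fun j => Nat.one_le_iff_ne_zero.mpr (h j))
    obtain ⟨j, hj⟩ := this
    refine ⟨fun _ => j, by simp, fun x hx h => ?_⟩
    have := List.countP_eq_zero.mp hj x hx
    exact this (by simpa using h.symm)
  | succ k ih =>
    by_cases hA : Active lk k
    swap
    · obtain ⟨c, h1, h2⟩ := ih Φ hΦ
      refine ⟨c, fun j hj => ?_, h2⟩
      rcases Nat.lt_succ_iff_lt_or_eq.mp hj with h | rfl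
      · exact h1 j h
      · exact fun h => absurd h hA
    obtain ⟨Ψ, a1, a2, a3⟩ := step lk k hA Φ hΦ
    choose cc hc1 hc2 using fun r => ih (Ψ r) (a1 r)
    refine ⟨fun h => cc (rep k h) h, fun j hj => ?_, fun x hx => hc2 _ x (a2 x hx)⟩
    rcases Nat.lt_succ_iff_lt_or_eq.mp hj with h | rfl
    · exact link_glue lk k cc j h fun r => hc1 r j h
    · rintro - v f hf y hy ⟨h1, h2⟩
      simp only [rep_mul j f (hA.2.2.1 f hf) v] at h2
      simp only [rep_mul j y (hA.2.2.2 y hy) _] at h1
      rcases a3 v with ⟨h, -⟩ | ⟨h, -⟩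
      · exact hc2 _ _ (h y hy) h1
      · exact hc2 _ _ (h f hf) h2

theorem cnt_aux : ∀ i j : Fin 16, List.countP (fun x => decide (x = j))
    (List.filter (fun x => decide (x ≠ i)) (List.finRange 16)) ≤ if j = i then 0 else 1 := by
  decide +kernel

theorem inv_pos (k : ℕ) (p : G) (i : Fin 16) :
    ∃ c : G → Fin 16, (∀ j < k, Link lk j c) ∧ c p = i := by
  obtain ⟨c, h1, h2⟩ := inv lk k (((List.finRange 16).filter (· ≠ i)).map fun j => (p, j))
    (not_bad_pos i _ fun j => by
      simp only [cnt, List.countP_map, Function.comp_def]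
      exact cnt_aux i j)
  refine ⟨c, h1, ?_⟩
  by_contra h
  exact h2 (p, c p) (List.mem_map.2 ⟨c p, by simpa using h, rfl⟩) rfl

theorem inv2 (k : ℕ) :
    ∃ c : G → Fin 16, (∀ j < k, Link lk j c) ∧ ∀ j < k, Req lk pq j c := by
  classical
  have hnil : Good ([] : List (G × Fin 16)) := not_bad_axis 0 _ fun j => by simp [cnt]
  induction k with
  | zero => exact ⟨fun _ => 0, by simp, by simp⟩
  | succ k ih =>
    obtain ⟨c0, l0, r0⟩ := ih
    have hreq : ∀ cc : List (ℕ × Bool) → G → Fin 16, cc [] = c0 → ∀ j < k,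
        Req lk pq j (fun h => cc (rep k h) h) := by
      intro cc hcc j hj hA hs
      have e1 : rep k (of j) = [] := rep_small k _ (by simpa using hj)
      have e2 : rep k ((of j)⁻¹ * (pq j).1) = [] := by
        rw [show (of j : G)⁻¹ = mk [(j, false)] from rfl, rep_single k (j, false) hj]
        exact rep_small k _ fun x hx => (hs x hx).trans hj
      simp only [e1, e2, hcc]
      exact r0 j hj hA hs
    by_cases hA : Active lk k
    · obtain ⟨Ψ, a1, -, a3⟩ := step lk k hA [] hnil
      choose cc hc1 hc2 using fun r => inv lk k (Ψ r) (a1 r)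
      refine ⟨fun h => Function.update cc [] c0 (rep k h) h, fun j hj => ?_, fun j hj => ?_⟩
      · rcases Nat.lt_succ_iff_lt_or_eq.mp hj with h | rfl
        · refine link_glue lk k _ j h fun r => ?_
          by_cases hr : r = []
          · subst hr; simpa using l0 j h
          · simpa [Function.update_of_ne hr] using hc1 r j h
        · rintro - v f hf y hy ⟨h1, h2⟩
          simp only [rep_mul j f (hA.2.2.1 f hf) v] at h2
          simp only [rep_mul j y (hA.2.2.2 y hy) _] at h1
          rcases a3 v with ⟨h, h'⟩ | ⟨h, h'⟩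
          · rw [Function.update_of_ne (h' rfl)] at h1
            exact hc2 _ _ (h y hy) h1
          · rw [Function.update_of_ne (h' rfl)] at h2
            exact hc2 _ _ (h f hf) h2
      · rcases Nat.lt_succ_iff_lt_or_eq.mp hj with h | rfl
        · exact hreq _ (by simp) j h
        · exact fun h => absurd hA h
    · obtain ⟨c1, l1, p1⟩ := inv_pos lk k (of k) (pq k).2.1
      obtain ⟨c2, l2, p2⟩ := inv_pos lk k ((of k)⁻¹ * (pq k).1) (pq k).2.2
      let cc : List (ℕ × Bool) → G → Fin 16 := fun r =>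
        if r = [] then c0 else if r = [(k, true)] then c1 else c2
      refine ⟨fun h => cc (rep k h) h, fun j hj => ?_, fun j hj => ?_⟩
      · rcases Nat.lt_succ_iff_lt_or_eq.mp hj with h | rfl
        · refine link_glue lk k _ j h fun r => ?_
          simp only [cc]
          split_ifs
          · exact l0 j h
          · exact l1 j h
          · exact l2 j h
        · exact fun h => absurd h hA
      · rcases Nat.lt_succ_iff_lt_or_eq.mp hj with h | rfl
        · exact hreq _ (by simp [cc]) j h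
        · intro _ hs
          have e1 : rep j (of j) = [(j, true)] := rep_head j _ _ _ (by simp)
          have e2 : rep j ((of j)⁻¹ * (pq j).1) = (j, false) :: (pq j).1.toWord := by
            apply rep_head
            rcases toWord_cons (j, false) (pq j).1 with h | ⟨tl, h, -⟩
            · exact h
            · have := hs (j, true) (by rw [h]; simp)
              simp at this
          simp only [e1, e2, cc]
          simp [p1, p2]

theorem exists_col : ∃ c : G → Fin 16, (∀ j, Link lk j c) ∧ ∀ j, Req lk pq j c := by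
  choose cc hc hr using fun k => inv2 lk pq k
  let U := Filter.hyperfilter ℕ
  have h1 : ∀ h : G, ∃ i : Fin 16, ∀ᶠ k in (U : Filter ℕ), cc k h = i := by
    intro h
    exact Ultrafilter.eventually_exists_iff.mp (Filter.Eventually.of_forall fun k => ⟨_, rfl⟩)
  choose c hc' using h1
  have h2 : ∀ j, ∀ᶠ k in (U : Filter ℕ), j < k := fun j =>
    Nat.hyperfilter_le_atTop (Filter.eventually_gt_atTop j)
  refine ⟨c, fun j hA v f hf y hy => ?_, fun j hA hs => ?_⟩
  · obtain ⟨k, ⟨k1, k2⟩, k3⟩ := (((hc' (y * (of j * v))).and (hc' (f * v))).and (h2 j)).exists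
    rw [← k1, ← k2]
    exact hc k j k3 hA v f hf y hy
  · obtain ⟨k, ⟨k1, k2⟩, k3⟩ :=
      (((hc' (of j)).and (hc' ((of j)⁻¹ * (pq j).1))).and (h2 j)).exists
    rw [← k1, ← k2]
    exact hr k j k3 hA hs

theorem bound (F : List G) : ∃ N : ℕ, ∀ f ∈ F, ∀ x ∈ f.toWord, x.1 < N := by
  obtain ⟨N, hN⟩ := ((F.flatMap fun f => f.toWord.map Prod.fst).toFinset.finite_toSet).bddAbove
  refine ⟨N + 1, fun f hf x hx => Nat.lt_succ_of_le (hN ?_)⟩
  simp only [List.coe_toFinset, List.mem_flatMap, List.mem_map, Set.mem_setOf_eq]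
  exact ⟨f, hf, x, hx, rfl⟩

theorem main : ∃ c : G → Fin 16, (∀ (i : Fin 16) (F Y : List G), F.length ≤ 16 → Y.length ≤ 16 →
    ∃ t : G, ∀ v, ∀ f ∈ F, ∀ y ∈ Y, ¬ (c (y * (t * v)) = i ∧ c (f * v) = i)) ∧
    ∀ (g : G) (i j : Fin 16), ∃ a : G, c a = i ∧ c (a⁻¹ * g) = j := by
  have : Countable G := toWord_injective.countable
  obtain ⟨e, he⟩ := exists_surjective_nat ((Fin 16 × List G × List G) × (G × Fin 16 × Fin 16))
  obtain ⟨c, hc, hr⟩ := exists_col (fun k => (e (Nat.unpair k).1).1) (fun k => (e (Nat.unpair k).1).2)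
  refine ⟨c, fun i F Y hF hY => ?_, fun g i j => ?_⟩
  · obtain ⟨n, hn⟩ := he ((i, F, Y), (1, 0, 0))
    obtain ⟨N, hN⟩ := bound (F ++ Y)
    have h := hc (Nat.pair n N)
    unfold Link Active at h
    simp only [Nat.unpair_pair, hn] at h
    exact ⟨_, h ⟨hF, hY,
      fun f hf x hx => (hN f (by simp [hf]) x hx).trans_le (Nat.right_le_pair n N),
      fun f hf x hx => (hN f (by simp [hf]) x hx).trans_le (Nat.right_le_pair n N)⟩⟩
  · obtain ⟨n, hn⟩ := he ((0, List.replicate 17 1, []), (g, i, j))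
    obtain ⟨N, hN⟩ := bound [g]
    have h := hr (Nat.pair n N)
    unfold Req Active at h
    simp only [Nat.unpair_pair, hn] at h
    exact ⟨_, h (by simp) fun x hx => (hN g (by simp) x hx).trans_le (Nat.right_le_pair n N)⟩

end Pool.Agent.H16.Part
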