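import Mathlib

set_option autoImplicit false

namespace Pool.Agent.H16.Pop

open Real Finset

lemma mvt {f f' : ℝ → ℝ} (h : ∀ x, HasDerivAt f (f' x) x) {x y : ℝ} (hxy : x ≠ y) :
    ∃ c, (x < c ∧ c < y ∨ y < c ∧ c < x) ∧ f y - f x = f' c * (y - x) := by
  have A : ∀ x y, x < y → ∃ c, (x < c ∧ c < y) ∧ f y - f x = f' c * (y - x) := fun x y hxy => by
    obtain ⟨c, hc, e⟩ := exists_hasDerivAt_eq_slope f f' hxy
      (fun z _ => (h z).continuousAt.continuousWithinAt) fun z _ => h z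
    exact ⟨c, hc, by rw [e, div_mul_cancel₀ _ (sub_ne_zero.2 hxy.ne')]⟩
  rcases hxy.lt_or_gt with h' | h'
  · obtain ⟨c, hc, e⟩ := A x y h'; exact ⟨c, .inl hc, e⟩
  · obtain ⟨c, hc, e⟩ := A y x h'; exact ⟨c, .inr hc, by linarith⟩

lemma nn {f f' : ℝ → ℝ} (h : ∀ x, HasDerivAt f (f' x) x) {x y : ℝ}
    (h1 : ∀ c, (x < c ∧ c < y ∨ y < c ∧ c < x) → 0 ≤ f' c * (y - x)) : f x ≤ f y := by
  rcases eq_or_ne x y with rfl | hxy
  · rfl
  obtain ⟨c, hc, e⟩ := mvt h hxy
  linarith [h1 c hc]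

lemma cos4 {x : ℝ} (hx : 0 ≤ x) : cos x ≤ 1 - x ^ 2 / 2 + x ^ 4 / 24 := by
  have := nn (f := fun x => 1 - x ^ 2 / 2 + x ^ 4 / 24 - cos x)
    (f' := fun x => - x + x ^ 3 / 6 + sin x) (x := 0) (y := x) (fun x => by
      refine (((((hasDerivAt_pow 2 x).div_const 2).const_sub 1).add
        ((hasDerivAt_pow 4 x).div_const 24)).sub (hasDerivAt_cos x)).congr_deriv ?_
      simp; ring) fun c hc => mul_nonneg (by
        linarith [sin_ge_sub_cube (x := c) (by rcases hc with h | h <;> linarith)]) (by linarith)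
  simp at this; linarith

lemma sin5 {x : ℝ} (hx : 0 ≤ x) : sin x ≤ x - x ^ 3 / 6 + x ^ 5 / 120 := by
  have := nn (f := fun x => x - x ^ 3 / 6 + x ^ 5 / 120 - sin x)
    (f' := fun x => 1 - x ^ 2 / 2 + x ^ 4 / 24 - cos x) (x := 0) (y := x) (fun x => by
      refine ((((hasDerivAt_id x).sub ((hasDerivAt_pow 3 x).div_const 6)).add
        ((hasDerivAt_pow 5 x).div_const 120)).sub (hasDerivAt_sin x)).congr_deriv ?_
      simp; ring) fun c hc => mul_nonneg (by
        linarith [cos4 (x := c) (by rcases hc with h | h <;> linarith)]) (by linarith)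
  simp at this; linarith

lemma tang {x y : ℝ} (hx : 0 ≤ x) (hy : 0 ≤ y) (hx' : x ≤ π) (hy' : y ≤ π) :
    sin y ≤ sin x + (y - x) * cos x := by
  rcases eq_or_ne x y with rfl | hxy
  · simp
  obtain ⟨c, hc, e⟩ := mvt hasDerivAt_sin hxy
  rcases hc with ⟨a, b⟩ | ⟨a, b⟩
  · nlinarith [cos_le_cos_of_nonneg_of_le_pi hx (by linarith) a.le]
  · nlinarith [cos_le_cos_of_nonneg_of_le_pi (by linarith : 0 ≤ c) hx' b.le]

lemma core {l p : ℝ} (h0 : 0 ≤ l) (h1 : l ≤ 0.65) (hp : -0.78 ≤ p) :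
    cos p ≤ (1 + l * p) * (1 - l * sin p) := by
  have hl : l ^ 2 ≤ 0.4225 := by nlinarith
  rcases le_total p 0 with h | h
  · obtain ⟨x, rfl⟩ : ∃ x, p = -x := ⟨-p, by ring⟩
    have hx : 0 ≤ x := by linarith
    have hx' : x ≤ 0.78 := by linarith
    rw [cos_neg, sin_neg]
    have a := cos4 hx
    have b := sin5 hx
    have c := sin_ge_sub_cube hx
    have d := sin_le hx
    have e : 0 ≤ sin x := sin_nonneg_of_nonneg_of_le_pi hx (by linarith [pi_gt_three])
    have f : l * (x - sin x) ≤ 0.65 * (x ^ 3 / 6) :=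
      mul_le_mul h1 (by linarith) (by linarith) (by norm_num)
    have g : l ^ 2 * (x * sin x) ≤ 0.4225 * (x * (x - x ^ 3 / 6 + x ^ 5 / 120)) :=
      mul_le_mul hl (by gcongr) (by positivity) (by norm_num)
    have i : 0 ≤ x ^ 2 * (0.0775 - 0.65 / 6 * x + (0.4225 / 6 - 1 / 24) * x ^ 2
        - 0.4225 / 120 * x ^ 4) := by
      have : x ^ 4 ≤ 0.78 ^ 4 := by gcongr
      apply mul_nonneg (by positivity); nlinarith
    nlinarith
  · have d := sin_le h
    rcases le_total p 3 with h' | h'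
    · have a := cos4 h
      have b := sin5 h
      have e : 0 ≤ sin p := sin_nonneg_of_nonneg_of_le_pi h (by linarith [pi_gt_three])
      have f : 0 ≤ l * (p - sin p) := mul_nonneg h0 (by linarith)
      have g : l ^ 2 * (p * sin p) ≤ 0.4225 * (p * (p - p ^ 3 / 6 + p ^ 5 / 120)) :=
        mul_le_mul hl (by gcongr) (by positivity) (by norm_num)
      have i : 0 ≤ p ^ 2 * (0.0775 + (0.4225 / 6 - 1 / 24) * p ^ 2 - 0.4225 / 120 * p ^ 4) := by
        have : p ^ 2 ≤ 9 := by nlinarith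
        apply mul_nonneg (by positivity); nlinarith [sq_nonneg p]
      nlinarith
    · have a := sin_le_one p
      have b := cos_le_one p
      have c : l * sin p ≤ 0.65 := by nlinarith
      have e : 0 ≤ l * (p - sin p - p * (l * sin p)) := mul_nonneg h0 (by nlinarith)
      nlinarith

lemma H2 {N φ : ℝ} (hN : 5 ≤ N) (h0 : 0 < φ) (h1 : φ ≤ π / 2) :
    sin (N * φ) ≤ sin φ / sin (π / (2 * N)) *
      (1 + cos φ / (N * sin (π / (2 * N))) * cos (N * φ)) := by
  set t := π / (2 * N) with ht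
  have p1 := pi_gt_d4
  have p2 := pi_lt_d4
  have hNt : N * t = π / 2 := by rw [ht]; field_simp
  have t0 : 0 < t := by positivity
  have t1 : t ≤ 0.3142 := by nlinarith
  have s0 := sin_le t0.le
  have s1 := sin_ge_sub_cube t0.le
  have s2 : 0 < sin t := sin_pos_of_pos_of_lt_pi t0 (by linarith)
  have s3 : 1.544 ≤ N * sin t := by
    have : t ^ 2 ≤ 0.3142 ^ 2 := by gcongr
    have : N * t * (1 - t ^ 2 / 6) ≤ N * sin t := by nlinarith
    rw [hNt] at this; nlinarith
  have c0 : 0 ≤ cos φ := cos_nonneg_of_mem_Icc ⟨by linarith, h1⟩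
  set l := cos φ / (N * sin t) with hl
  have l0 : 0 ≤ l := by positivity
  have l1 : l ≤ 0.65 := by
    rw [hl, div_le_iff₀ (by positivity)]; nlinarith [cos_le_one φ]
  set x := N * φ with hx
  rcases le_total x 0.8 with h | h
  · have x0 : 0 < x := by positivity
    have f1 : φ ≤ 0.16 := by nlinarith
    have f2 : φ ^ 2 ≤ 0.16 ^ 2 := by gcongr
    have l2 : 0.62 ≤ l := by
      rw [hl, le_div_iff₀ (by positivity)]
      nlinarith [one_sub_sq_div_two_le_cos (x := φ)]
    have r : 0.633 * x ≤ sin φ / sin t := by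
      rw [le_div_iff₀ s2]
      have := sin_ge_sub_cube h0.le
      have : x * t = φ * (π / 2) := by rw [hx, ← hNt]; ring
      nlinarith
    have a := one_sub_sq_div_two_le_cos (x := x)
    have b := sin5 x0.le
    have x2 : x ^ 2 ≤ 0.64 := by nlinarith
    have c : 0.62 * (1 - x ^ 2 / 2) ≤ l * cos x := mul_le_mul l2 a (by linarith) l0
    refine b.trans (le_trans ?_ (mul_le_mul r (add_le_add_right c 1) (by linarith) (by
      linarith [mul_pos (by norm_num : (0 : ℝ) < 0.633) x0])))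
    have : 0 ≤ x * (0.633 * 1.62 - 1 - (0.633 * 0.31 - 1 / 6) * x ^ 2 - (x ^ 2) ^ 2 / 120) :=
      mul_nonneg x0.le (by nlinarith [sq_nonneg x])
    nlinarith
  · have a := core l0 l1 (p := x - π / 2) (by linarith)
    rw [cos_sub_pi_div_two, sin_sub_pi_div_two] at a
    have r : 1 + l * (x - π / 2) ≤ sin φ / sin t := by
      rw [le_div_iff₀ s2]
      have := tang h0.le t0.le (by linarith) (by linarith)
      have e : l * (x - π / 2) * sin t = (φ - t) * cos φ := by
        rw [hl, hx, ← hNt]; field_simp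
      nlinarith
    have : 0 ≤ 1 + l * cos x := by nlinarith [neg_one_le_cos x]
    nlinarith

lemma dir (φ : ℝ) (n : ℕ) :
    2 * sin φ * ∑ i ∈ range (n + 1), cos (i * (2 * φ)) = sin φ + sin ((2 * n + 1) * φ) := by
  induction n with
  | zero => simp; ring
  | succ n ih =>
    rw [sum_range_succ, mul_add, ih]; push_cast
    rw [show (2 * (n + 1) + 1) * φ = (n + 1) * (2 * φ) + φ by ring,
      show (2 * n + 1) * φ = (n + 1) * (2 * φ) - φ by ring, sin_add, sin_sub]
    ring

lemma symb {k : ℕ} (hk : 2 ≤ k) {s q θ : ℝ} (hs : s = sin (π / (2 * (2 * k + 1))))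
    (hq : q = 1 / (4 * k * s ^ 2)) (h0 : 0 < θ) (h1 : θ ≤ π) :
    0 ≤ 1 / (2 * s) + 1 / 2 + q / (2 * s) - ∑ i ∈ range (k + 1), cos (i * θ)
      + q * cos ((k + 1 : ℕ) * θ) - q / (2 * s) * cos θ := by
  obtain ⟨φ, rfl⟩ : ∃ φ, θ = 2 * φ := ⟨θ / 2, by ring⟩
  have hk' : (2 : ℝ) ≤ k := by exact_mod_cast hk
  set N : ℝ := 2 * k + 1 with hN
  have p := pi_pos
  have f0 : 0 < φ := by linarith
  have a := H2 (N := N) (φ := φ) (by linarith) f0 (by linarith)
  set t := π / (2 * N) with ht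
  have N0 : 0 < N := by positivity
  have hNt : N * t = π / 2 := by rw [ht]; field_simp
  have t0 : 0 < t := by positivity
  have t1 : t ≤ π / 2 := by nlinarith
  have s0 : 0 < s := hs ▸ sin_pos_of_pos_of_lt_pi t0 (by linarith)
  have g0 : 0 < sin φ := sin_pos_of_pos_of_lt_pi f0 (by linarith)
  have c0 : 0 ≤ cos φ := cos_nonneg_of_mem_Icc ⟨by linarith, by linarith⟩
  have q0 : 0 < q := by rw [hq]; positivity
  rw [← hs] at a
  have b := dir φ k
  rw [← hN] at b
  rw [show ((k + 1 : ℕ) : ℝ) * (2 * φ) = N * φ + φ by push_cast; ring, cos_add, cos_two_mul,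
    cos_sq']
  set S := sin (N * φ)
  set C := cos (N * φ) with hC
  set σ := sin φ with hσ
  set c := cos φ
  have key : 0 ≤ (1 + 2 * q * σ ^ 2) * (σ / s - S) + 2 * q * σ * c * C := by
    have e : (1 + 2 * q * σ ^ 2) * (σ / s - S) + 2 * q * σ * c * C = (1 + 2 * q * σ ^ 2) *
        (σ / s * (1 + c / (N * s) * C) - S) + σ * c / (2 * k * N * s ^ 4) * (C * (s ^ 2 - σ ^ 2)) := by
      rw [hq, hN]; field_simp; ring
    have m := strictMonoOn_sin.monotoneOn
    rcases le_total φ t with h | h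
    · have : σ ≤ s := hs ▸ m ⟨by linarith, by linarith⟩ ⟨by linarith, t1⟩ h
      have : 0 ≤ C := cos_nonneg_of_mem_Icc ⟨by nlinarith, by nlinarith⟩
      have : 0 ≤ s ^ 2 - σ ^ 2 := by nlinarith
      have : 0 ≤ σ / s * (1 + c / (N * s) * C) - S := by linarith
      rw [e]; positivity
    · have : s ≤ σ := hs ▸ m ⟨by linarith, t1⟩ ⟨by linarith, by linarith⟩ h
      rcases le_total 0 C with h' | h'
      · have : 0 ≤ σ / s - S := by
          linarith [sin_le_one (N * φ), (one_le_div s0).2 this]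
        positivity
      · have : 0 ≤ C * (s ^ 2 - σ ^ 2) := mul_nonneg_of_nonpos_of_nonpos h' (by nlinarith)
        have : 0 ≤ σ / s * (1 + c / (N * s) * C) - S := by linarith
        rw [e]; positivity
  refine (mul_nonneg_iff_of_pos_left (by positivity : 0 < 2 * σ)).1 (key.trans_eq ?_)
  rw [mul_sub (2 * σ), mul_add (2 * σ), mul_sub (2 * σ), b]; field_simp; ring

/-- delayed truncated sequence -/
def v (u : ℕ → ℝ) (n m : ℕ) : ℝ := if m ≤ n then u (n - m) else 0

lemma icos (n : ℤ) : ∫ θ in (0 : ℝ)..π, cos (n * θ) = if n = 0 then π else 0 := by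
  split_ifs with h
  · simp [h]
  · rw [intervalIntegral.integral_comp_mul_left (fun x => cos x) (by exact_mod_cast h)]
    simp

lemma toep (u : ℕ → ℝ) (T m : ℕ) :
    ∫ θ in (0 : ℝ)..π, (∑ n ∈ range T, ∑ j ∈ range T, u n * u j * cos ((n - j) * θ)) * cos (m * θ)
      = π * ∑ n ∈ range T, u n * v u n m := by
  have A : ∀ n j : ℕ, ∫ θ in (0 : ℝ)..π, u n * u j * cos ((n - j) * θ) * cos (m * θ) =
      π / 2 * ((if n = j + m then u n * u j else 0) + if j = n + m then u j * u n else 0) := by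
    intro n j
    have : ∀ θ : ℝ, u n * u j * cos ((n - j) * θ) * cos (m * θ) = u n * u j / 2 *
        (cos ((n - j - m : ℤ) * θ) + cos ((n - j + m : ℤ) * θ)) := fun θ => by
      push_cast; rw [sub_mul _ (m : ℝ), add_mul _ (m : ℝ), cos_add, cos_sub ((n - j) * θ)]; ring
    simp only [this]
    rw [intervalIntegral.integral_const_mul, intervalIntegral.integral_add
      (Continuous.intervalIntegrable (by fun_prop) _ _)
      (Continuous.intervalIntegrable (by fun_prop) _ _), icos, icos]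
    split_ifs <;> first | omega | ring
  have B : ∑ n ∈ range T, ∑ j ∈ range T, (if n = j + m then u n * u j else 0) =
      ∑ n ∈ range T, u n * v u n m := sum_congr rfl fun n hn => by
    unfold v
    split_ifs with h
    · rw [sum_eq_single_of_mem (n - m) (by simp at *; omega) fun j _ hj => if_neg (by omega),
        if_pos (by omega)]
    · rw [mul_zero]; exact sum_eq_zero fun j _ => if_neg (by omega)
  simp only [sum_mul]
  rw [intervalIntegral.integral_finsetSum fun _ _ =>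
    Continuous.intervalIntegrable (by fun_prop) _ _]
  rw [sum_congr rfl fun n _ => intervalIntegral.integral_finsetSum fun _ _ =>
    Continuous.intervalIntegrable (by fun_prop) _ _]
  simp only [A, ← mul_sum, sum_add_distrib]
  rw [sum_comm (f := fun n j => if j = n + m then u j * u n else 0), B]; ring

lemma sq_nn (u : ℕ → ℝ) (T : ℕ) (θ : ℝ) :
    0 ≤ ∑ n ∈ range T, ∑ j ∈ range T, u n * u j * cos ((n - j) * θ) := by
  have : ∑ n ∈ range T, ∑ j ∈ range T, u n * u j * cos ((n - j) * θ) =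
      (∑ n ∈ range T, u n * cos (n * θ)) ^ 2 + (∑ n ∈ range T, u n * sin (n * θ)) ^ 2 := by
    simp only [sq, sum_mul_sum, ← sum_add_distrib, sub_mul, cos_sub]
    exact sum_congr rfl fun _ _ => sum_congr rfl fun _ _ => by ring
  rw [this]; positivity

lemma psd (u : ℕ → ℝ) (T M : ℕ) (c : ℕ → ℝ)
    (h : ∀ θ, 0 < θ → θ ≤ π → 0 ≤ ∑ m ∈ range M, c m * cos (m * θ)) :
    0 ≤ ∑ n ∈ range T, u n * ∑ m ∈ range M, c m * v u n m := by
  have : 0 ≤ ∫ θ in (0 : ℝ)..π, ∑ m ∈ range M, c m * ((∑ n ∈ range T, ∑ j ∈ range T,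
      u n * u j * cos ((n - j) * θ)) * cos (m * θ)) := by
    rw [intervalIntegral.integral_of_le pi_pos.le]
    refine MeasureTheory.setIntegral_nonneg measurableSet_Ioc fun θ hθ => ?_
    simp only [mul_left_comm (c _), ← mul_sum]
    exact mul_nonneg (sq_nn u T θ) (h θ hθ.1 hθ.2)
  rw [intervalIntegral.integral_finsetSum fun _ _ =>
    Continuous.intervalIntegrable (by fun_prop) _ _] at this
  simp only [intervalIntegral.integral_const_mul, toep] at this
  simp only [mul_left_comm (c _) π, ← mul_sum] at this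
  rw [mul_nonneg_iff_of_pos_left pi_pos] at this
  simp only [mul_sum] at this ⊢
  rw [sum_comm]
  simpa only [mul_left_comm] using this

lemma Qnn {k : ℕ} (hk : 2 ≤ k) {s q : ℝ} (hs : s = sin (π / (2 * (2 * k + 1))))
    (hq : q = 1 / (4 * k * s ^ 2)) (u : ℕ → ℝ) (T : ℕ) :
    0 ≤ ∑ n ∈ range T, u n * ((1 / (2 * s) + 1 / 2 + q / (2 * s)) * u n -
      ∑ i ∈ range (k + 1), v u n i + q * v u n (k + 1) - q / (2 * s) * v u n 1) := by
  obtain ⟨c, hc⟩ : ∃ c : ℕ → ℝ, ∀ g : ℕ → ℝ, ∑ m ∈ range (k + 2), c m * g m =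
      (1 / (2 * s) + 1 / 2 + q / (2 * s)) * g 0 -
      ∑ i ∈ range (k + 1), g i + q * g (k + 1) - q / (2 * s) * g 1 := by
    refine ⟨fun m => (if m = 0 then 1 / (2 * s) + 1 / 2 + q / (2 * s) else 0) - 1 +
      (if m = k + 1 then q + 1 else 0) - if m = 1 then q / (2 * s) else 0, fun g => ?_⟩
    simp only [add_mul, sub_mul, sum_add_distrib, sum_sub_distrib, ite_mul, zero_mul, sum_ite_eq',
      mem_range, one_mul]
    rw [if_pos (by omega), if_pos (by omega), if_pos (by omega), sum_range_succ]; ring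
  have := psd u T (k + 2) c fun θ a b => by
    rw [hc fun m => cos (m * θ)]; simpa using symb hk hs hq a b
  simpa only [hc, v, zero_le, if_true, Nat.sub_zero] using this

end Pool.Agent.H16.Pop
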