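import Pool.Agent.H16.Pop1

set_option autoImplicit false

namespace Pool.Agent.H16.Pop

open Real Finset Filter Topology

lemma lyap {k : ℕ} {a q : ℝ} (a0 : 0 < a) (q0 : 0 ≤ q)
    (hQ : ∀ (u : ℕ → ℝ) (T : ℕ), 0 ≤ ∑ n ∈ range T, u n * ((1 / a + 1 / 2 + q / a) * u n -
      ∑ i ∈ range (k + 1), v u n i + q * v u n (k + 1) - q / a * v u n 1))
    {f f' : ℝ → ℝ} (hf : ∀ x, HasDerivAt f (f' x) x) (f0 : f 0 = 0) (h0 : ∀ x, 0 ≤ f' x)
    (h1 : ∀ x, f' x ≤ a) {z : ℕ → ℝ} (hz : ∀ n, z (n + k + 1) = z (n + k) - f (z n)) {D : ℝ}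
    (hD : ∀ i ≤ k, |z i| ≤ D) (T : ℕ) :
    z (T + k) ^ 2 / 2 + ∑ n ∈ range T, f (z n) * (z n - f (z n) / a) ≤
      (1 / 2 + (k + 1) * (2 * (1 + q) * a)) * D ^ 2 := by
  have fc : Continuous f := continuous_iff_continuousAt.2 fun x => (hf x).continuousAt
  obtain ⟨F, hF, F0⟩ : ∃ F : ℝ → ℝ, (∀ x, HasDerivAt F (f x) x) ∧ F 0 = 0 :=
    ⟨fun x => ∫ t in (0 : ℝ)..x, f t, fun x => (fc.integral_hasStrictDerivAt 0 x).hasDerivAt,
      by simp⟩
  have fm : Monotone f := monotone_of_hasDerivAt_nonneg hf h0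
  have co : ∀ x y, (f y - f x) ^ 2 / (2 * a) ≤ F y - F x - f x * (y - x) := fun x y => by
    have := nn (f := fun y => F y - f x * y - (f y - f x) ^ 2 / (2 * a))
      (f' := fun y => (f y - f x) * (1 - f' y / a)) (x := x) (y := y) (fun y => by
        refine (((hF y).sub ((hasDerivAt_id y).const_mul (f x))).sub
          ((((hf y).sub_const (f x)).pow 2).div_const (2 * a))).congr_deriv ?_
        simp; field_simp) fun c hc => by
      have : 0 ≤ 1 - f' c / a := by rw [sub_nonneg, div_le_one a0]; exact h1 c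
      rw [mul_right_comm]
      refine mul_nonneg ?_ this
      rcases hc with ⟨h, h'⟩ | ⟨h, h'⟩
      · exact mul_nonneg (sub_nonneg.2 (fm h.le)) (by linarith)
      · exact mul_nonneg_of_nonpos_of_nonpos (sub_nonpos.2 (fm h'.le)) (by linarith)
    simp only [sub_self] at this
    norm_num at this; linarith
  have fa : ∀ x, |f x| ≤ a * |x| := fun x => by
    rcases eq_or_ne 0 x with rfl | hx
    · simp [f0]
    obtain ⟨c, -, e⟩ := mvt hf hx
    rw [f0, sub_zero, sub_zero] at e
    rw [e, abs_mul, abs_of_nonneg (h0 c)]; gcongr; exact h1 c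
  set u : ℕ → ℝ := fun n => f (z n) with hu
  have D0 : 0 ≤ D := (abs_nonneg _).trans (hD 0 (by omega))
  have vs : ∀ n i, v u (n + 1) (i + 1) = v u n i := fun n i => by simp [v]
  have zm : ∀ n, z (max n k) = z (n + k + 1) + ∑ i ∈ range (k + 1), v u n i := fun n => by
    induction n with
    | zero =>
      rw [sum_range_succ', sum_eq_zero fun i _ => by simp [v], hz]; simp [v, u]
    | succ n ih =>
      rw [sum_range_succ'] ; simp only [vs]
      rw [sum_range_succ] at ih
      rw [hz (n + 1), show n + 1 + k = n + k + 1 by ring]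
      have : z (max (n + 1) k) = z (max n k) - v u n k := by
        unfold v
        split_ifs with h
        · obtain ⟨m, rfl⟩ := Nat.exists_eq_add_of_le' h
          rw [max_eq_left (by omega), max_eq_left h, hz]; simp [u]
        · rw [max_eq_right (by omega), max_eq_right (by omega), sub_zero]
      rw [this, ih]; simp [v, u]; ring
  let p : ℕ → ℝ := fun n => if n = 0 then 0 else z (n - 1)
  have fp : ∀ n, v u n 1 = f (p n) := fun n => by cases n <;> simp [v, p, u, f0]
  have bd : ∀ n ≤ k, ∀ w, |w| ≤ D → u n * (z n - w) ≤ 2 * a * D ^ 2 := fun n hn w hw => by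
    have h2 := hD n hn
    have h3 : |u n| ≤ a * D := (fa _).trans (by gcongr)
    have h4 : |z n - w| ≤ 2 * D := (abs_sub _ _).trans (by linarith)
    refine (le_abs_self _).trans ?_
    rw [abs_mul]
    exact (mul_le_mul h3 h4 (abs_nonneg _) (by positivity)).trans_eq (by ring)
  have W : ∀ T, z (T + k) ^ 2 / 2 + q * (F (p T) - f (p T) ^ 2 / (2 * a)) +
      ∑ n ∈ range T, (u n * (z n - u n / a) + u n * ((1 / a + 1 / 2 + q / a) * u n -
      ∑ i ∈ range (k + 1), v u n i + q * v u n (k + 1) - q / a * v u n 1)) ≤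
      D ^ 2 / 2 + (min T (k + 1) : ℕ) * (2 * (1 + q) * a * D ^ 2) := fun T => by
    induction T with
    | zero =>
      have := sq_le_sq' (abs_le.1 (hD k le_rfl)).1 (abs_le.1 (hD k le_rfl)).2
      simp [p, F0, f0]; linarith
    | succ T ih =>
      rw [sum_range_succ, show T + 1 + k = T + k + 1 by ring, show p (T + 1) = z T by simp [p], fp T]
      have e1 := zm T
      have e2 := hz T
      have e3 := mul_le_mul_of_nonneg_left (co (z T) (p T)) q0
      have key : u T * (z T - z (max T k)) + q * (u T * (z T - p T + v u T (k + 1))) +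
          (min T (k + 1) : ℕ) * (2 * (1 + q) * a * D ^ 2) ≤
          (min (T + 1) (k + 1) : ℕ) * (2 * (1 + q) * a * D ^ 2) := by
        rcases le_or_gt T k with h | h
        · have b1 := bd T h _ (hD k le_rfl)
          have b2 := mul_le_mul_of_nonneg_left (bd T h (p T) (by
            simp only [p]; split_ifs
            · simpa
            · exact hD _ (by omega))) q0
          rw [max_eq_right h, min_eq_left (by omega), min_eq_left (by omega), v, if_neg (by omega)]
          push_cast; linarith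
        · obtain ⟨m, rfl⟩ := Nat.exists_eq_add_of_lt h
          rw [max_eq_left h.le, min_eq_right (by omega), min_eq_right (by omega), v,
            if_pos (by omega), show p (k + m + 1) = z (m + k) by simp [p, add_comm],
            show k + m + 1 - (k + 1) = m by omega, add_comm k m, hz]
          simp [u]
      have e4 : z (T + k) = z (T + k + 1) + u T := by rw [e2]; simp [u]
      rw [e4] at ih
      rw [e1] at key
      change q * ((f (p T) - u T) ^ 2 / (2 * a)) ≤ q * (F (p T) - F (z T) - u T * (p T - z T)) at e3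
      change _ + q * (F (z T) - u T ^ 2 / (2 * a)) + _ ≤ _
      generalize ∑ i ∈ range (k + 1), v u T i = R at *
      simp only [div_eq_mul_inv, mul_inv] at *
      linarith
  have w := W T
  rw [sum_add_distrib] at w
  have b1 := mul_le_mul_of_nonneg_left (co 0 (p T)) q0
  have b2 : ((min T (k + 1) : ℕ) : ℝ) * (2 * (1 + q) * a * D ^ 2) ≤
      (k + 1) * (2 * (1 + q) * a * D ^ 2) := by
    gcongr; exact_mod_cast min_le_right _ _
  simp only [f0, F0, sub_zero, zero_mul] at b1
  linarith [hQ u T]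

lemma peri {k : ℕ} {s : ℝ} (hs : s = sin (π / (2 * (2 * k + 1)))) {f f' : ℝ → ℝ}
    (hf : ∀ x, HasDerivAt f (f' x) x) (fo : ∀ x, f (-x) = -f x) (h0 : ∀ x, 0 ≤ f' x)
    (hc : Continuous f') (h1 : 2 * s < f' 0) {B : ℝ} (hB : ∀ x, f x ≤ B) :
    ∃ z : ℕ → ℝ, (∀ n, z (n + k + 1) = z (n + k) - f (z n)) ∧ 0 < z k ∧
      ∀ n, z (n + (2 * k + 1)) = -z n := by
  have fm : Monotone f := monotone_of_hasDerivAt_nonneg hf h0
  have f0 : f 0 = 0 := by linarith [fo 0, congrArg f neg_zero]
  have B0 : 0 ≤ B := f0 ▸ hB 0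
  obtain ⟨ε, e0, he⟩ : ∃ ε > 0, ∀ x, 0 ≤ x → x ≤ ε → 2 * s * x ≤ f x := by
    obtain ⟨ε, e0, he⟩ := Metric.eventually_nhds_iff.1 (hc.continuousAt.eventually
      (lt_mem_nhds h1))
    refine ⟨ε, e0, fun x hx hx' => ?_⟩
    rcases hx.eq_or_lt with rfl | hx
    · simp [f0]
    obtain ⟨c, hc, e⟩ := mvt hf hx.ne
    have : 2 * s < f' c := he (by
      rw [Real.dist_eq, sub_zero, abs_lt]; rcases hc with h | h <;> constructor <;> linarith)
    rw [f0, sub_zero, sub_zero] at e
    rw [e]; gcongr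
  let P : (ℕ → ℝ) → ℕ → ℝ := fun x m => f (x 0) / 2 + ∑ j ∈ range (k - m), f (x (j + 1))
  have Pm : Monotone P := fun x y h m =>
    add_le_add (by gcongr; exact fm (h 0)) (sum_le_sum fun j _ => fm (h _))
  have bd : BddAbove {x | x ≤ P x} := ⟨fun _ => B / 2 + k * B, fun x hx m => (hx m).trans <|
    add_le_add (by gcongr; exact hB _) ((sum_le_card_nsmul _ _ B fun j _ => hB _).trans (by
      simp only [card_range, nsmul_eq_mul]; gcongr; omega))⟩
  set t := π / (2 * (2 * k + 1)) with ht
  have t0 : 0 < t := by positivity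
  have kt : (2 * k + 1) * t = π / 2 := by rw [ht]; field_simp
  let c : ℕ → ℝ := fun m => if m ≤ k then ε * cos (m * (2 * t)) else 0
  have c1 : ∀ m ≤ k, 2 * s * (ε * cos (m * (2 * t))) ≤ f (c m) := fun m hm => by
    have : (m : ℝ) ≤ k := by exact_mod_cast hm
    have : 0 ≤ cos (m * (2 * t)) := cos_nonneg_of_mem_Icc ⟨by
      have : 0 ≤ m * (2 * t) := by positivity
      linarith [pi_pos], by nlinarith⟩
    simp only [c, if_pos hm]
    exact he _ (by positivity) (by nlinarith [cos_le_one (m * (2 * t))])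
  have hcP : c ≤ P c := fun m => by
    have a := c1 0 (by omega)
    have b : ∑ j ∈ range (k - m), 2 * s * (ε * cos ((j + 1 : ℕ) * (2 * t))) ≤
        ∑ j ∈ range (k - m), f (c (j + 1)) := sum_le_sum fun j hj => c1 _ (by simp at hj; omega)
    have d := dir t (k - m)
    rw [sum_range_succ', ← hs] at d
    simp only [mul_left_comm _ ε, ← mul_sum, Nat.cast_zero, zero_mul, cos_zero] at a b d
    simp only [P]
    by_cases h : m ≤ k
    · rw [Nat.cast_sub h, show (2 * (k - m : ℝ) + 1) * t = π / 2 - m * (2 * t) by linarith,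
        sin_pi_div_two_sub] at d
      rw [show c m = _ from if_pos h]
      linarith [congrArg (ε * ·) d]
    · have : 0 ≤ s := hs ▸ sin_nonneg_of_nonneg_of_le_pi t0.le (by nlinarith)
      rw [show k - m = 0 by omega, show c m = 0 from if_neg h, sum_range_zero]
      nlinarith
  set x := sSup {x | x ≤ P x}
  have x1 : x ≤ P x := csSup_le ⟨c, hcP⟩ fun y hy => hy.trans (Pm (le_csSup bd hy))
  have x2 : x = P x := x1.antisymm (le_csSup bd (Pm x1))
  have x3 : ε ≤ x 0 := le_of_eq_of_le (by simp [c]) (le_csSup bd hcP 0)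
  have x4 : x k = f (x 0) / 2 := by rw [congrFun x2 k]; simp [P]
  have x5 : ∀ m j, m + j + 1 = k → x m = x (m + 1) + f (x (j + 1)) := fun m j h => by
    rw [congrFun x2 m, congrFun x2 (m + 1)]
    simp only [P]
    rw [show k - m = j + 1 by omega, show k - (m + 1) = j by omega, sum_range_succ, add_assoc]
  let z : ℕ → ℝ := fun n => (-1) ^ (n / (2 * k + 1)) * x (k - n % (2 * k + 1) + (n % (2 * k + 1) - k))
  have z1 : ∀ n, z (n + (2 * k + 1)) = -z n := fun n => by
    simp only [z, Nat.add_div_right _ (Nat.succ_pos _), Nat.add_mod_right, pow_succ]; ring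
  have z0 : ∀ n j, j = k - n + (n - k) → n ≤ 2 * k → z n = x j := fun n j e h => by
    simp only [z, e, Nat.div_eq_of_lt (Nat.lt_succ_of_le h), Nat.mod_eq_of_lt (Nat.lt_succ_of_le h)]
    simp
  refine ⟨z, fun n => ?_, by rw [z0 k 0 (by omega) (by omega)]; linarith, z1⟩
  induction n using Nat.strong_induction_on with
  | _ n ih =>
  rcases lt_trichotomy n k with h | rfl | h
  · obtain ⟨j, hj⟩ := Nat.exists_eq_add_of_lt h
    rw [z0 _ (n + 1) (by omega) (by omega), z0 _ n (by omega) (by omega),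
      z0 _ (j + 1) (by omega) (by omega), x5 n j hj.symm]; ring
  · rw [show n + n + 1 = 0 + (2 * n + 1) by ring, z1, z0 _ n (by omega) (by omega),
      z0 _ n (by omega) (by omega), z0 _ 0 (by omega) (by omega), x4]; ring
  obtain ⟨i, rfl⟩ := Nat.exists_eq_add_of_lt h
  rw [show k + i + 1 + k + 1 = i + 1 + (2 * k + 1) by ring,
    show k + i + 1 + k = i + (2 * k + 1) by ring, z1, z1]
  rcases lt_or_ge i k with h' | h'
  · obtain ⟨j, hj⟩ := Nat.exists_eq_add_of_lt h'
    rw [z0 _ j (by omega) (by omega), z0 _ (j + 1) (by omega) (by omega),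
      z0 _ (i + 1) (by omega) (by omega), x5 j i (by omega)]; ring
  · obtain ⟨j, rfl⟩ := Nat.exists_eq_add_of_le' h'
    rw [show k + (j + k) + 1 = j + (2 * k + 1) by ring, z1, fo, ih j (by omega)]; ring

end Pool.Agent.H16.Pop
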