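import Mathlib

set_option autoImplicit false

namespace Pool.Agent.H16.Poset7

/-- Seven points; 0,1,2 minimal, 3 > 0,1; 4 > 0,2; 5 > 1,2; 6 > 0,1,2,3. -/
def Pt : Type := Fin 7

instance : Fintype Pt := inferInstanceAs (Fintype (Fin 7))
instance : DecidableEq Pt := inferInstanceAs (DecidableEq (Fin 7))

def pairs : List (Fin 7 × Fin 7) :=
  [(0,3),(1,3),(0,4),(2,4),(1,5),(2,5),(0,6),(1,6),(2,6),(3,6)]

def ltb (a b : Fin 7) : Bool := pairs.contains (a, b)

instance : PartialOrder Pt where
  le a b := a = b ∨ ltb a b = true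
  lt a b := ltb a b = true
  le_refl a := Or.inl rfl
  le_trans := by
    show ∀ a b c : Fin 7, (a = b ∨ ltb a b = true) → (b = c ∨ ltb b c = true) →
      (a = c ∨ ltb a c = true)
    decide
  le_antisymm := by
    show ∀ a b : Fin 7, (a = b ∨ ltb a b = true) → (b = a ∨ ltb b a = true) → a = b
    decide
  lt_iff_le_not_ge := by
    show ∀ a b : Fin 7, ltb a b = true ↔ (a = b ∨ ltb a b = true) ∧ ¬ (b = a ∨ ltb b a = true)
    decide

theorem lt_def (a b : Pt) : a < b ↔ ltb a b = true := Iff.rfl

theorem card_Pt : Fintype.card Pt = 7 := Fintype.card_fin 7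

def cnt (f : Fin 7 → Fin 7) : ℕ := (pairs.filter (fun p => decide (f p.1 < f p.2))).length

theorem pairs_nodup : pairs.Nodup := by decide

theorem card_eq_cnt (f : Fin 7 → Fin 7) :
    (Finset.univ.filter (fun p : Fin 7 × Fin 7 => ltb p.1 p.2 = true ∧ f p.1 < f p.2)).card
      = cnt f := by
  have h : (Finset.univ.filter (fun p : Fin 7 × Fin 7 => ltb p.1 p.2 = true ∧ f p.1 < f p.2))
      = (pairs.filter (fun p => decide (f p.1 < f p.2))).toFinset := by
    ext p
    simp [ltb]
  rw [h, List.toFinset_card_of_nodup (pairs_nodup.filter _)]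
  rfl

def num (i : ℕ) : ℕ :=
  (Finset.univ.filter (fun σ : Equiv.Perm (Fin 7) => cnt σ = i)).card

def b2n (a b : ℕ) : ℕ := Bool.rec 0 1 (Nat.blt a b)

def cntL : List ℕ → ℕ
  | [a, b, c, d, e, f, g] =>
      b2n a d + b2n b d + b2n a e + b2n c e + b2n b f + b2n c f + b2n a g + b2n b g
        + b2n c g + b2n d g
  | _ => 0

def numL (i : ℕ) : ℕ :=
  (([0, 1, 2, 3, 4, 5, 6] : List ℕ).permutations'.filter (fun l => Nat.beq (cntL l) i)).length

theorem b2n_eq (a b : ℕ) : b2n a b = if a < b then 1 else 0 := by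
  unfold b2n
  by_cases h : a < b
  · have : Nat.blt a b = true := by simpa [Nat.blt_eq] using h
    simp [this, h]
  · have : Nat.blt a b = false := by
      cases h' : Nat.blt a b
      · rfl
      · exact absurd (by simpa [Nat.blt_eq] using h') h
    simp [this, h]

def toL (f : Fin 7 → Fin 7) : List ℕ := List.ofFn (fun i => (f i : ℕ))

theorem cnt_eq (f : Fin 7 → Fin 7) : cnt f = cntL (toL f) := by
  have : toL f = [(f 0 : ℕ), f 1, f 2, f 3, f 4, f 5, f 6] := by
    simp [toL, List.ofFn_succ]
  rw [this]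
  simp only [cntL, b2n_eq, cnt, pairs, ← List.countP_eq_length_filter, List.countP_cons,
    List.countP_nil, decide_eq_true_eq, Fin.lt_def]
  omega

theorem num_eq (i : ℕ) : num i = numL i := by
  unfold num numL
  have hnd : ([0, 1, 2, 3, 4, 5, 6] : List ℕ).permutations'.Nodup :=
    (List.permutations_perm_permutations' _).nodup_iff.1
      (List.nodup_permutations _ (by decide))
  rw [← List.toFinset_card_of_nodup (hnd.filter _)]
  have hr : ([0, 1, 2, 3, 4, 5, 6] : List ℕ) = toL id := by decide
  refine Finset.card_bij (fun σ _ => toL σ) ?_ ?_ ?_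
  · intro σ hσ
    simp only [Finset.mem_filter, Finset.mem_univ, true_and] at hσ
    simp only [List.mem_toFinset, List.mem_filter, List.mem_permutations', Nat.beq_eq]
    refine ⟨?_, by rw [← cnt_eq, hσ]⟩
    rw [hr]
    exact Equiv.Perm.ofFn_comp_perm σ (fun i : Fin 7 => (i : ℕ))
  · intro σ _ τ _ h
    have := List.ofFn_injective h
    ext x
    exact congrFun this x
  · intro l hl
    simp only [List.mem_toFinset, List.mem_filter, List.mem_permutations', Nat.beq_eq] at hl
    obtain ⟨hp, hc⟩ := hl
    have hlen : l.length = 7 := hp.length_eq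
    have hn : l.Nodup := hp.nodup_iff.2 (by decide)
    have hlt : ∀ x ∈ l, x < 7 := by
      intro x hx
      have := hp.mem_iff.1 hx
      simp at this
      omega
    let f : Fin 7 → Fin 7 := fun i => ⟨l[i.1]'(by omega), hlt _ (List.getElem_mem _)⟩
    have hf : Function.Injective f := by
      intro a b hab
      have h1 : l[a.1]'(by omega) = l[b.1]'(by omega) := congrArg Fin.val hab
      exact Fin.ext ((List.Nodup.getElem_inj_iff hn).1 h1)
    have hl2 : toL f = l := by
      apply List.ext_getElem
      · simp [toL, hlen]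
      · intro n h1 h2
        simp only [toL, f, List.getElem_ofFn]
    refine ⟨Equiv.ofBijective f (Finite.injective_iff_bijective.1 hf), ?_, hl2⟩
    simp only [Finset.mem_filter, Finset.mem_univ, true_and]
    show cnt f = i
    rw [cnt_eq, hl2, hc]

theorem numL4 : numL 4 = 792 := by decide +kernel
theorem numL5 : numL 5 = 764 := by decide +kernel
theorem numL6 : numL 6 = 792 := by decide +kernel

theorem num_vals : num 4 = 792 ∧ num 5 = 764 ∧ num 6 = 792 := by
  rw [num_eq, num_eq, num_eq]
  exact ⟨numL4, numL5, numL6⟩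

end Pool.Agent.H16.Poset7
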