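import Mathlib

set_option autoImplicit false

namespace Pool.Agent.H16.QP

section defs
variable {G : Type} [Group G]

/-- Word length of `g` with respect to `X` (letters from `X` and inverses of elements of `X`). -/
noncomputable def wl (X : Set G) (g : G) : ℕ :=
  sInf {k | ∃ l : List G, l.length = k ∧ (∀ x ∈ l, x ∈ X ∨ x⁻¹ ∈ X) ∧ l.prod = g}

/-- Gromov product of the vertices `x`, `y` of the Cayley graph, based at `w`. -/
noncomputable def gp (X : Set G) (w x y : G) : ℝ :=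
  ((wl X (w⁻¹ * x) : ℝ) + wl X (w⁻¹ * y) - wl X (x⁻¹ * y)) / 2

/-- The Cayley graph is Gromov hyperbolic (four point condition for the word metric). -/
def Hyp (X : Set G) : Prop :=
  ∃ δ : ℝ, ∀ w x y z : G, min (gp X w x y) (gp X w y z) - δ ≤ gp X w x z

/-- The Gromov products of terms of `x` and `y` tend to infinity. `Asym X x x` says that `x`
converges to a point of the Gromov boundary; two such sequences give the same boundary point
iff `Asym X x y`. -/
def Asym (X : Set G) (x y : ℕ → G) : Prop :=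
  ∀ R : ℝ, ∃ N : ℕ, ∀ i ≥ N, ∀ j ≥ N, R ≤ gp X 1 (x i) (y j)

/-- `X` generates, its Cayley graph is hyperbolic, and the action on it is quasi-parabolic:
a loxodromic element, a fixed boundary point, and an infinite limit set. -/
def QPar (X : Set G) : Prop :=
  Subgroup.closure X = ⊤ ∧ Hyp X ∧
  (∃ (g : G) (c : ℝ), 0 < c ∧ ∀ n : ℕ, c * n ≤ wl X (g ^ n)) ∧
  (∃ x : ℕ → G, Asym X x x ∧ ∀ g : G, Asym X (fun i => g * x i) x) ∧
  (∃ y : ℕ → ℕ → G, (∀ k, Asym X (y k) (y k)) ∧ ∀ k l, k ≠ l → ¬ Asym X (y k) (y l))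

/-- `X ⪯ Y`: the `X`-lengths of elements of `Y` are bounded. -/
def Le (X Y : Set G) : Prop := ∃ C : ℕ, ∀ y ∈ Y, wl X y ≤ C
end defs

/-- The shift of a finitely supported function by `m`. -/
noncomputable def sh (m : ℤ) (f : ℤ →₀ ℤ) : ℤ →₀ ℤ := Finsupp.equivMapDomain (Equiv.addRight m) f

@[simp] theorem sh_apply (m : ℤ) (f : ℤ →₀ ℤ) (i : ℤ) : sh m f i = f (i - m) := by
  simp [sh, sub_eq_add_neg]

/-- The restricted wreath product of `ℤ` by `ℤ`. -/
@[ext] structure W where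
  f : ℤ →₀ ℤ
  n : ℤ

noncomputable instance : Mul W := ⟨fun x y => ⟨x.f + sh x.n y.f, x.n + y.n⟩⟩
instance : One W := ⟨⟨0, 0⟩⟩
noncomputable instance : Inv W := ⟨fun x => ⟨-sh (-x.n) x.f, -x.n⟩⟩

@[simp] theorem mul_f (x y : W) : (x * y).f = x.f + sh x.n y.f := rfl
@[simp] theorem mul_n (x y : W) : (x * y).n = x.n + y.n := rfl
@[simp] theorem one_f : (1 : W).f = 0 := rfl
@[simp] theorem one_n : (1 : W).n = 0 := rfl
@[simp] theorem inv_f (x : W) : x⁻¹.f = -sh (-x.n) x.f := rfl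
@[simp] theorem inv_n (x : W) : x⁻¹.n = -x.n := rfl

noncomputable instance : Group W := Group.ofLeftAxioms
  (fun x y z => by
    ext
    · simp [add_assoc, sub_sub, add_comm y.n]
    · simp [add_assoc])
  (fun x => by ext <;> simp)
  (fun x => by ext <;> simp)

def t : W := ⟨0, 1⟩

theorem t_pow (k : ℕ) : t ^ k = ⟨0, k⟩ := by
  induction k with
  | zero => rfl
  | succ k ih => rw [pow_succ, ih]; ext <;> simp [t]

theorem ti_pow (k : ℕ) : t⁻¹ ^ k = ⟨0, -k⟩ := by
  rw [inv_pow, t_pow]; ext <;> simp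

structure Ok (φ : ℤ → ℕ) : Prop where
  mono : Monotone φ
  zero : φ 0 = 0
  pos : ∃ j, 0 < φ j

def In (φ : ℤ → ℕ) (k : ℤ) (f : ℤ →₀ ℤ) : Prop := ∀ i, (2 : ℤ) ^ φ (k - i) ∣ f i

variable {φ : ℤ → ℕ}

theorem In.mono (h : Ok φ) {k k' : ℤ} {f : ℤ →₀ ℤ} (hf : In φ k f) (hk : k' ≤ k) : In φ k' f :=
  fun i => (pow_dvd_pow _ (h.mono (by omega))).trans (hf i)

theorem Ok.neg (h : Ok φ) {j : ℤ} (hj : j ≤ 0) : φ j = 0 := by
  have := h.mono hj
  rw [h.zero] at this; omega

theorem In.ex (h : Ok φ) (f : ℤ →₀ ℤ) : ∃ k, In φ k f := by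
  obtain ⟨k, hk⟩ := f.support.bddBelow
  refine ⟨k, fun i => ?_⟩
  by_cases hi : i ∈ f.support
  · rw [h.neg (sub_nonpos.2 (hk hi))]; simp
  · rw [Finsupp.notMem_support_iff.1 hi]; simp

def V (φ : ℤ → ℕ) (x y : W) (k : ℤ) : Prop := k ≤ x.n ∧ k ≤ y.n ∧ In φ k (x.f - y.f)

theorem exM (h : Ok φ) (x y : W) : ∃ m, V φ x y m ∧ ∀ k, V φ x y k → k ≤ m := by
  refine Int.exists_greatest_of_bdd ⟨x.n, fun k hk => hk.1⟩ ?_
  obtain ⟨k, hk⟩ := In.ex h (x.f - y.f)
  exact ⟨min k (min x.n y.n), by omega, by omega, hk.mono h (by omega)⟩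

noncomputable def M (h : Ok φ) (x y : W) : ℤ := (exM h x y).choose
theorem M_V (h : Ok φ) (x y : W) : V φ x y (M h x y) := (exM h x y).choose_spec.1
theorem le_M (h : Ok φ) {x y : W} {k : ℤ} (hk : V φ x y k) : k ≤ M h x y :=
  (exM h x y).choose_spec.2 k hk

theorem V.symm {x y : W} {k : ℤ} (hk : V φ x y k) : V φ y x k :=
  ⟨hk.2.1, hk.1, fun i => by
    have := (hk.2.2 i).neg_right
    simpa using this⟩

theorem M_comm (h : Ok φ) (x y : W) : M h x y = M h y x :=
  le_antisymm (le_M h (M_V h x y).symm) (le_M h (M_V h y x).symm)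

theorem M_ultra (h : Ok φ) (x y z : W) : min (M h x y) (M h y z) ≤ M h x z := by
  obtain ⟨a1, a2, a3⟩ := M_V h x y
  obtain ⟨b1, b2, b3⟩ := M_V h y z
  refine le_M h ⟨by omega, by omega, fun i => ?_⟩
  have := dvd_add (a3.mono h (min_le_left _ (M h y z)) i) (b3.mono h (min_le_right (M h x y) _) i)
  simpa using this

theorem V_mul (g x y : W) (k : ℤ) : V φ (g * x) (g * y) (g.n + k) ↔ V φ x y k := by
  simp only [V, mul_n, mul_f, add_le_add_iff_left, add_sub_add_left_eq_sub, In]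
  refine and_congr_right fun _ => and_congr_right fun _ => ⟨fun H i => ?_, fun H i => ?_⟩
  · have := H (i + g.n)
    simpa [show g.n + k - (i + g.n) = k - i by ring] using this
  · have := H (i - g.n)
    simpa [show k - (i - g.n) = g.n + k - i by ring] using this

theorem M_mul (h : Ok φ) (g x y : W) : M h (g * x) (g * y) = g.n + M h x y := by
  refine le_antisymm ?_ (le_M h ((V_mul g x y _).2 (M_V h x y)))
  have := le_M h ((V_mul g x y (M h (g * x) (g * y) - g.n)).1 (by simpa using M_V h _ _))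
  omega

def X (φ : ℤ → ℕ) : Set W := {x | x = t ∨ (x.n = 0 ∧ In φ 0 x.f)}

theorem rep (h : Ok φ) (g : W) : ∃ l : List W, (l.length : ℤ) = g.n - 2 * M h 1 g + 1 ∧
    (∀ x ∈ l, x ∈ X φ ∨ x⁻¹ ∈ X φ) ∧ l.prod = g := by
  obtain ⟨h1, h2, h3⟩ := M_V h 1 g
  obtain ⟨a, ha⟩ := Int.eq_ofNat_of_zero_le (show 0 ≤ -M h 1 g by simpa using h1)
  obtain ⟨b, hb⟩ := Int.eq_ofNat_of_zero_le (show 0 ≤ g.n - M h 1 g by omega)
  refine ⟨List.replicate a t⁻¹ ++ (⟨sh a g.f, 0⟩ : W) :: List.replicate b t, by simp; omega, ?_, ?_⟩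
  · intro x hx
    simp only [List.mem_append, List.mem_cons, List.mem_replicate] at hx
    rcases hx with ⟨_, rfl⟩ | rfl | ⟨_, rfl⟩
    · exact Or.inr (Or.inl (inv_inv _))
    · refine Or.inl (Or.inr ⟨rfl, fun i => ?_⟩)
      have := (h3 (i - a)).neg_right
      simpa [show M h 1 g - (i - a) = -i by omega] using this
    · exact Or.inl (Or.inl rfl)
  · simp only [List.prod_append, List.prod_cons, List.prod_replicate, t_pow, ti_pow]
    ext
    · simp
    · simp; omega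

theorem step (h : Ok φ) (x : W) (hx : x ∈ X φ ∨ x⁻¹ ∈ X φ) (g : W) :
    (x * g).n - 2 * M h 1 (x * g) ≤ g.n - 2 * M h 1 g + 1 := by
  have e := M_mul h x 1 g
  rw [mul_one] at e
  have u := M_ultra h 1 x (x * g)
  have b := (M_V h 1 g).1
  have key : x.n - 2 * M h 1 x ≤ 1 ∧ -1 ≤ x.n ∧ x.n ≤ 1 := by
    rcases hx with (rfl | ⟨h1, h2⟩) | (h1 | ⟨h1, h2⟩)
    · have : 0 ≤ M h 1 t := le_M h ⟨le_rfl, by simp [t], fun i => by simp [t]⟩
      simp only [t] at this ⊢; omega
    · have : 0 ≤ M h 1 x := le_M h ⟨le_rfl, h1.ge, fun i => by simpa using h2 i⟩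
      omega
    · obtain rfl : x = t⁻¹ := by rw [← h1, inv_inv]
      have : -1 ≤ M h 1 t⁻¹ := le_M h ⟨by simp, by simp [t], fun i => by simp [t]⟩
      have e2 : (t⁻¹).n = -1 := rfl
      omega
    · have h0 : x.n = 0 := by simpa using h1
      have : 0 ≤ M h 1 x := le_M h ⟨le_rfl, h0.ge, fun i => by simpa [h0] using h2 i⟩
      omega
  have c := (M_V h 1 x).1
  have c' := (M_V h 1 x).2.1
  simp only [mul_n, one_n] at *
  omega

theorem wl_bd (h : Ok φ) (g : W) :
    g.n - 2 * M h 1 g ≤ wl (X φ) g ∧ (wl (X φ) g : ℤ) ≤ g.n - 2 * M h 1 g + 1 := by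
  obtain ⟨l, h1, h2, h3⟩ := rep h g
  constructor
  · obtain ⟨l', e, h4, h5⟩ := Nat.sInf_mem (s := {k | ∃ l : List W, l.length = k ∧
      (∀ x ∈ l, x ∈ X φ ∨ x⁻¹ ∈ X φ) ∧ l.prod = g}) ⟨_, l, rfl, h2, h3⟩
    rw [wl, ← e, ← h5]
    clear e h5
    induction l' with
    | nil =>
      have : 0 ≤ M h 1 1 := le_M h ⟨le_rfl, le_rfl, fun i => by simp⟩
      simp; omega
    | cons x l' ih =>
      have := step h x (h4 x (by simp)) l'.prod
      have := ih fun y hy => h4 y (by simp [hy])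
      simp only [List.prod_cons, List.length_cons]; push_cast; omega
  · rw [← h1]
    have : wl (X φ) g ≤ l.length := Nat.sInf_le ⟨l, rfl, h2, h3⟩
    exact_mod_cast this

theorem d_bd (h : Ok φ) (x y : W) : x.n + y.n - 2 * M h x y ≤ wl (X φ) (x⁻¹ * y) ∧
    (wl (X φ) (x⁻¹ * y) : ℤ) ≤ x.n + y.n - 2 * M h x y + 1 := by
  have e := M_mul h x 1 (x⁻¹ * y)
  have := wl_bd h (x⁻¹ * y)
  simp only [mul_one, mul_inv_cancel_left, mul_n, inv_n] at e this
  omega

theorem gp_bd (h : Ok φ) (w x y : W) :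
    ((w.n - M h w x - M h w y + M h x y : ℤ) : ℝ) - 1 ≤ gp (X φ) w x y ∧
    gp (X φ) w x y ≤ ((w.n - M h w x - M h w y + M h x y : ℤ) : ℝ) + 1 := by
  obtain ⟨a1, a2⟩ := d_bd h w x
  obtain ⟨b1, b2⟩ := d_bd h w y
  obtain ⟨c1, c2⟩ := d_bd h x y
  rw [gp]
  have a1' := (Int.cast_le (R := ℝ)).2 a1
  have a2' := (Int.cast_le (R := ℝ)).2 a2
  have b1' := (Int.cast_le (R := ℝ)).2 b1
  have b2' := (Int.cast_le (R := ℝ)).2 b2
  have c1' := (Int.cast_le (R := ℝ)).2 c1
  have c2' := (Int.cast_le (R := ℝ)).2 c2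
  push_cast at *
  constructor <;> linarith

theorem four (h : Ok φ) (w x y z : W) :
    M h x y + M h w z ≤ M h x z + M h w y ∨ M h y z + M h w x ≤ M h x z + M h w y := by
  have a1 := M_ultra h x y z
  have a2 := M_ultra h x w z
  have a3 := M_ultra h w x y
  have a4 := M_ultra h w z y
  rw [M_comm h x w] at a2
  rw [M_comm h z y] at a4
  omega

theorem asym (h : Ok φ) (x y : ℕ → W)
    (H : ∀ R : ℤ, ∃ N : ℕ, ∀ i ≥ N, ∀ j ≥ N, R ≤ - M h 1 (x i) - M h 1 (y j) + M h (x i) (y j)) :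
    Asym (X φ) x y := fun R => by
  obtain ⟨N, hN⟩ := H (⌈R⌉ + 1)
  refine ⟨N, fun i hi j hj => ?_⟩
  have := (gp_bd h 1 (x i) (y j)).1
  have h2 := (Int.cast_le (R := ℝ)).2 (hN i hi j hj)
  have := Int.le_ceil R
  simp only [one_n] at *
  push_cast at *
  linarith

theorem qpar (h : Ok φ) : QPar (X φ) := by
  refine ⟨?_, ⟨2, fun w x y z => ?_⟩, ⟨t, 1, one_pos, fun n => ?_⟩, ?_, ?_⟩
  · rw [eq_top_iff]
    intro g _
    obtain ⟨l, _, h2, rfl⟩ := rep h g
    exact Subgroup.list_prod_mem _ fun x hx => (h2 x hx).elim (fun H => Subgroup.subset_closure H)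
      fun H => by simpa using Subgroup.inv_mem _ (Subgroup.subset_closure (k := X φ) H)
  · have a := (gp_bd h w x y).2
    have b := (gp_bd h w y z).2
    have c := (gp_bd h w x z).1
    rcases four h w x y z with H | H
    · have := (Int.cast_le (R := ℝ)).2 H
      have := min_le_left (gp (X φ) w x y) (gp (X φ) w y z)
      push_cast at *; linarith
    · have := (Int.cast_le (R := ℝ)).2 H
      have := min_le_right (gp (X φ) w x y) (gp (X φ) w y z)
      push_cast at *; linarith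
  · have a := (wl_bd h (t ^ n)).1
    have b := (M_V h 1 (t ^ n)).1
    have c : (t ^ n).n = n := by rw [t_pow]
    have : (n : ℤ) ≤ wl (X φ) (t ^ n) := by simp only [one_n] at b; omega
    rw [one_mul]; exact_mod_cast this
  · have key : ∀ g : W, Asym (X φ) (fun i => g * (⟨0, -(i : ℤ)⟩ : W)) fun i => ⟨0, -(i : ℤ)⟩ := by
      intro g
      obtain ⟨k, hk⟩ := In.ex h g.f
      refine asym h _ _ fun R => ⟨(R + |g.n| + |k|).toNat + |k|.toNat, fun i hi j hj => ?_⟩
      have a := (M_V h 1 (g * (⟨0, -(i : ℤ)⟩ : W))).2.1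
      have b := (M_V h 1 (⟨0, -(j : ℤ)⟩ : W)).2.1
      have c : min (g.n - i) (-j) ≤ M h (g * (⟨0, -(i : ℤ)⟩ : W)) ⟨0, -(j : ℤ)⟩ := by
        refine le_M h ⟨by simp; omega, by simp, fun p => ?_⟩
        have := hk.mono h (k' := min (g.n - i) (-j)) (by
          have := neg_abs_le k
          omega) p
        simpa using this
      have := le_abs_self g.n
      have := abs_nonneg k
      have := abs_nonneg g.n
      simp only [mul_n] at a b
      omega
    exact ⟨_, by simpa using key 1, key⟩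
  · refine ⟨fun k i => ⟨Finsupp.single k 1, i⟩, fun k => asym h _ _ fun R =>
      ⟨R.toNat, fun i hi j hj => ?_⟩, fun k l hkl H => ?_⟩
    · have a := (M_V h 1 (⟨Finsupp.single k 1, i⟩ : W)).1
      have b := (M_V h 1 (⟨Finsupp.single k 1, j⟩ : W)).1
      have c : min (i : ℤ) j ≤ M h ⟨Finsupp.single k 1, i⟩ ⟨Finsupp.single k 1, j⟩ :=
        le_M h ⟨by simp, by simp, fun p => by simp⟩
      simp only [one_n] at a b
      beta_reduce
      omega
    · obtain ⟨j0, hj⟩ := h.pos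
      obtain ⟨N, hN⟩ := H ((k + j0 : ℤ) + 2)
      have a := (hN N le_rfl N le_rfl).trans (gp_bd h 1 _ _).2
      have b : ∀ k : ℕ, 0 ≤ M h 1 (⟨Finsupp.single k 1, N⟩ : W) := fun k =>
        le_M h ⟨le_rfl, by simp, fun p => by
          by_cases hp : p = k
          · rw [h.neg (by omega)]; simp
          · simp [Ne.symm hp]⟩
      have c : M h ⟨Finsupp.single k 1, N⟩ ⟨Finsupp.single l 1, N⟩ ≤ k + j0 := by
        by_contra hc
        have h1 := (M_V h ⟨Finsupp.single k 1, N⟩ ⟨Finsupp.single l 1, N⟩).2.2.mono h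
          (k' := k + j0) (by omega) k
        have h2 : ((l : ℤ) = k) = False := by simp [Ne.symm hkl]
        simp only [add_sub_cancel_left, Finsupp.coe_sub, Pi.sub_apply, Finsupp.single_apply, h2,
          if_true, if_false, sub_zero] at h1
        have := (dvd_pow_self (2 : ℤ) hj.ne').trans h1
        omega
      have b1 := (Int.cast_le (R := ℝ)).2 (b k)
      have b2 := (Int.cast_le (R := ℝ)).2 (b l)
      have c1 := (Int.cast_le (R := ℝ)).2 c
      simp only [one_n] at a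
      push_cast at *
      linarith

noncomputable def ph (r : ℝ) (j : ℤ) : ℕ := ⌊Real.exp r * j⌋₊

theorem ok (r : ℝ) : Ok (ph r) where
  mono := fun a b hab => Nat.floor_mono
    (mul_le_mul_of_nonneg_left (by exact_mod_cast hab) (Real.exp_pos r).le)
  zero := by simp [ph]
  pos := ⟨⌈(Real.exp r)⁻¹⌉, Nat.floor_pos.2 (by
    have := mul_le_mul_of_nonneg_left (Int.le_ceil (Real.exp r)⁻¹) (Real.exp_pos r).le
    rwa [mul_inv_cancel₀ (Real.exp_pos r).ne'] at this)⟩

theorem chain : ∃ Y : ℝ → Set W, (∀ r, QPar (Y r)) ∧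
    ∀ r s, r < s → Le (Y r) (Y s) ∧ ¬ Le (Y s) (Y r) := by
  refine ⟨fun r => X (ph r), fun r => qpar (ok r), fun r s hrs => ⟨⟨1, fun y hy => ?_⟩, ?_⟩⟩
  · refine Nat.sInf_le ⟨[y], rfl, fun x hx => Or.inl ?_, by simp⟩
    obtain rfl : x = y := by simpa using hx
    refine hy.imp_right fun H => ⟨H.1, fun i => (pow_dvd_pow _ ?_).trans (H.2 i)⟩
    by_cases hi : 0 - i ≤ 0
    · rw [(ok r).neg hi]; omega
    · exact Nat.floor_mono (mul_le_mul_of_nonneg_right (Real.exp_le_exp.2 hrs.le)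
        (by exact_mod_cast (not_le.1 hi).le))
  · rintro ⟨C, hC⟩
    have hd : 0 < Real.exp s - Real.exp r := sub_pos.2 (Real.exp_lt_exp.2 hrs)
    obtain ⟨j, hj⟩ := exists_nat_gt ((Real.exp s * C + 1) / (Real.exp s - Real.exp r))
    rw [div_lt_iff₀ hd] at hj
    let y : W := ⟨Finsupp.single (-(j : ℤ)) (2 ^ ph r j), 0⟩
    have a : wl (X (ph s)) y ≤ C := hC y (Or.inr ⟨rfl, fun i => by
      by_cases hi : i = -(j : ℤ)
      · subst hi; simp [y]
      · simp [y, Ne.symm hi]⟩)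
    have b := (wl_bd (ok s) y).1
    have b0 := (M_V (ok s) 1 y).1
    have c := (M_V (ok s) 1 y).2.2.mono (ok s) (k' := -(C : ℤ)) (by
      have : y.n = 0 := rfl
      simp only [one_n] at b0
      omega) (-(j : ℤ))
    have c2 : (2 : ℤ) ^ ph s (-(C : ℤ) - -(j : ℤ)) ∣ 2 ^ ph r j := by simpa [y] using c
    have c3 := (pow_dvd_pow_iff (by norm_num) (by
      rw [Int.isUnit_iff]; omega)).1 c2
    have d1 : (ph r j : ℝ) ≤ Real.exp r * j := by
      have := Nat.floor_le (a := Real.exp r * ((j : ℤ) : ℝ)) (by positivity)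
      simpa [ph] using this
    have d2 := Nat.lt_floor_add_one (Real.exp s * ((-(C : ℤ) - -(j : ℤ) : ℤ) : ℝ))
    have d3 : ((ph s (-(C : ℤ) - -(j : ℤ)) : ℕ) : ℝ) ≤ ph r j := by exact_mod_cast c3
    rw [ph] at d3
    push_cast at d2 d3
    nlinarith

theorem fg : Group.FG W := by
  classical
  let a : W := ⟨Finsupp.single 0 1, 0⟩
  refine ⟨{t, a}, ?_⟩
  rw [eq_top_iff]
  intro g _
  set H := Subgroup.closure ((({t, a} : Finset W) : Set W))
  have ht : t ∈ H := Subgroup.subset_closure (by simp)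
  have ha : a ∈ H := Subgroup.subset_closure (by simp)
  have h1 : ∀ m : ℤ, (⟨0, m⟩ : W) ∈ H := fun m => by
    obtain ⟨k, rfl | rfl⟩ := m.eq_nat_or_neg
    · rw [← t_pow]; exact H.pow_mem ht k
    · rw [← ti_pow]; exact H.pow_mem (H.inv_mem ht) k
  have h2 : ∀ c : ℤ, (⟨Finsupp.single 0 c, 0⟩ : W) ∈ H := fun c => by
    induction c using Int.induction_on with
    | zero => simpa using h1 0
    | succ c ih => convert H.mul_mem ih ha using 1; ext <;> simp [a]
    | pred c ih => convert H.mul_mem ih (H.inv_mem ha) using 1; ext <;> simp [a, sub_eq_add_neg]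
  have h3 : ∀ f : ℤ →₀ ℤ, (⟨f, 0⟩ : W) ∈ H := fun f => by
    induction f using Finsupp.induction_linear with
    | zero => exact h1 0
    | add f g hf hg => convert H.mul_mem hf hg using 1; ext <;> simp
    | single i c =>
      convert H.mul_mem (H.mul_mem (h1 i) (h2 c)) (h1 (-i)) using 1
      ext j
      · simp [Finsupp.single_apply, eq_sub_iff_add_eq]
      · simp
  convert H.mul_mem (h3 g.f) (h1 g.n) using 1
  ext <;> simp

end Pool.Agent.H16.QP
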