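import Mathlib
import Pool.Agent.H16.QP

set_option autoImplicit false

namespace Pool.Agent.H16.QP2
open Pool.Agent.H16.QP (wl gp Hyp Asym)

/-- `g` is loxodromic on the Cayley graph: the lengths of its powers grow linearly. -/
def Lox {G : Type} [Group G] (X : Set G) (g : G) : Prop :=
  ∃ c C : ℝ, 0 < c ∧ ∀ n : ℕ, c * n - C ≤ wl X (g ^ n)

/-- `X` generates, its Cayley graph is hyperbolic and the action on it is focal: a boundary point
is fixed by all elements, and there are loxodromic `g`, `h` such that the attracting point of `h`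
is neither of the two fixed points of `g`. -/
def Focal {G : Type} [Group G] (X : Set G) : Prop :=
  Subgroup.closure X = ⊤ ∧ Hyp X ∧
  (∃ x : ℕ → G, Asym X x x ∧ ∀ g : G, Asym X (fun i => g * x i) x) ∧
  ∃ g h : G, Lox X g ∧ Lox X h ∧ ¬ Asym X (fun i => h ^ i) (fun i => g ^ i) ∧
    ¬ Asym X (fun i => h ^ i) (fun i => g⁻¹ ^ i)

theorem wl_map {G : Type} [Group G] (s : G ≃* G) (X : Set G) (g : G) :
    wl (s ⁻¹' X) g = wl X (s g) := by
  unfold wl
  congr 1
  ext k
  constructor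
  · rintro ⟨l, h1, h2, rfl⟩
    refine ⟨l.map s, by simpa using h1, fun x hx => ?_, by rw [map_list_prod]⟩
    obtain ⟨y, hy, rfl⟩ := List.mem_map.1 hx
    simpa using h2 y hy
  · rintro ⟨l, h1, h2, h3⟩
    refine ⟨l.map s.symm, by simpa using h1, fun x hx => ?_, by
      rw [← map_list_prod, h3, s.symm_apply_apply]⟩
    obtain ⟨y, hy, rfl⟩ := List.mem_map.1 hx
    simpa using h2 y hy

theorem gp_map {G : Type} [Group G] (s : G ≃* G) (X : Set G) (w x y : G) :
    gp (s ⁻¹' X) w x y = gp X (s w) (s x) (s y) := by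
  simp [gp, wl_map]

theorem asym_map {G : Type} [Group G] (s : G ≃* G) (X : Set G) (x y : ℕ → G) :
    Asym (s ⁻¹' X) x y ↔ Asym X (fun i => s (x i)) (fun i => s (y i)) := by
  simp [Asym, gp_map]

theorem Focal.map {G : Type} [Group G] (s : G ≃* G) {X : Set G} (h : Focal X) :
    Focal (s ⁻¹' X) := by
  obtain ⟨h1, ⟨d, h2⟩, ⟨x, h3, h4⟩, g, k, ⟨c, C, h5, h5'⟩, ⟨c', C', h6, h6'⟩, h7, h8⟩ := h
  refine ⟨?_, ⟨d, fun w x y z => by simpa [gp_map] using h2 _ _ _ _⟩,
    ⟨fun i => s.symm (x i), by simpa [asym_map] using h3, fun g => by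
      simpa [asym_map] using h4 (s g)⟩, s.symm g, s.symm k,
    ⟨c, C, h5, fun n => by simpa [wl_map] using h5' n⟩,
    ⟨c', C', h6, fun n => by simpa [wl_map] using h6' n⟩,
    by simpa [asym_map] using h7, by simpa [asym_map] using h8⟩
  have e : s ⁻¹' X = s.symm.toMonoidHom '' X := by
    ext y
    constructor
    · intro h; exact ⟨s y, h, by simp⟩
    · rintro ⟨z, hz, rfl⟩; simpa using hz
  rw [e]
  have := MonoidHom.map_closure s.symm.toMonoidHom X
  rw [h1, Subgroup.map_top_of_surjective _ s.symm.surjective] at this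
  exact this.symm

abbrev F := FreeGroup (Fin 2)
abbrev K := Additive F
def nu (x : K) : ℕ := FreeGroup.norm x.toMul
@[simp] theorem nu_zero : nu 0 = 0 := rfl
@[simp] theorem nu_neg (x : K) : nu (-x) = nu x := FreeGroup.norm_inv_eq
theorem nu_add (x y : K) : nu (x + y) ≤ nu x + nu y := FreeGroup.norm_mul_le _ _

noncomputable def sh (m : ℤ) (f : ℤ →₀ K) : ℤ →₀ K := Finsupp.equivMapDomain (Equiv.addRight m) f

@[simp] theorem sh_apply (m : ℤ) (f : ℤ →₀ K) (i : ℤ) : sh m f i = f (i - m) := by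
  simp [sh, sub_eq_add_neg]

@[ext] structure W where
  f : ℤ →₀ K
  n : ℤ

noncomputable instance : Mul W := ⟨fun x y => ⟨x.f + sh x.n y.f, x.n + y.n⟩⟩
instance : One W := ⟨⟨0, 0⟩⟩
noncomputable instance : Inv W := ⟨fun x => ⟨-sh (-x.n) x.f, -x.n⟩⟩

@[simp] theorem mul_f (x y : W) : (x * y).f = x.f + sh x.n y.f := rfl
@[simp] theorem mul_n (x y : W) : (x * y).n = x.n + y.n := rfl
@[simp] theorem one_f : (1 : W).f = 0 := rfl
@[simp] theorem one_n : (1 : W).n = 0 := rfl
@[simp] theorem inv_f (x : W) : x⁻¹.f = -sh (-x.n) x.f := rfl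
@[simp] theorem inv_n (x : W) : x⁻¹.n = -x.n := rfl

noncomputable instance : Group W := Group.ofLeftAxioms
  (fun x y z => by
    refine W.ext (Finsupp.ext fun i => ?_) ?_
    · simp [add_assoc, sub_sub, add_comm y.n]
    · simp [add_assoc])
  (fun x => W.ext (Finsupp.ext fun i => by simp) (by simp))
  (fun x => W.ext (Finsupp.ext fun i => by simp) (by simp))

def t : W := ⟨0, 1⟩

theorem t_pow (k : ℕ) : t ^ k = ⟨0, k⟩ := by
  induction k with
  | zero => rfl
  | succ k ih => rw [pow_succ, ih]; exact W.ext (Finsupp.ext fun i => by simp [t]) (by simp [t])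

theorem ti_pow (k : ℕ) : t⁻¹ ^ k = ⟨0, -k⟩ := by
  rw [inv_pow, t_pow]; exact W.ext (Finsupp.ext fun i => by simp) (by simp)

def In (k : ℤ) (f : ℤ →₀ K) : Prop := ∀ i, (i < k → f i = 0) ∧ nu (f i) ≤ 2 ^ (i - k).toNat

theorem In.mono {k k' : ℤ} {f : ℤ →₀ K} (hf : In k f) (hk : k' ≤ k) : In k' f :=
  fun i => ⟨fun h => (hf i).1 (by omega),
    (hf i).2.trans (Nat.pow_le_pow_right two_pos (by omega))⟩

theorem In.zero (k : ℤ) : In k 0 := fun i => by simp

theorem In.ex (f : ℤ →₀ K) : ∃ k, In k f := by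
  obtain ⟨k, hk⟩ := f.support.bddBelow
  let B := f.support.sup fun i => nu (f i)
  refine ⟨k - B, fun i => ?_⟩
  by_cases hi : i ∈ f.support
  · have h1 : k ≤ i := hk hi
    have h2 : nu (f i) ≤ B := Finset.le_sup (f := fun i => nu (f i)) hi
    exact ⟨fun h => by omega, h2.trans (Nat.lt_two_pow_self.le.trans
      (Nat.pow_le_pow_right two_pos (by omega)))⟩
  · rw [Finsupp.notMem_support_iff.1 hi]; simp

theorem In.neg {k : ℤ} {f : ℤ →₀ K} (hf : In k f) : In k (-f) := fun i => by simpa using hf i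

theorem In.add {k : ℤ} {f g : ℤ →₀ K} (hf : In k f) (hg : In k g) : In (k - 1) (f + g) := by
  intro i
  by_cases h : i < k
  · simp [(hf i).1 h, (hg i).1 h]
  · refine ⟨fun h' => by omega, (nu_add _ _).trans ?_⟩
    rw [show (i - (k - 1)).toNat = (i - k).toNat + 1 by omega, pow_succ]
    have := (hf i).2
    have := (hg i).2
    omega

def V (x y : W) (k : ℤ) : Prop := k ≤ x.n ∧ k ≤ y.n ∧ In k (-x.f + y.f)

theorem exM (x y : W) : ∃ m, V x y m ∧ ∀ k, V x y k → k ≤ m := by
  refine Int.exists_greatest_of_bdd ⟨x.n, fun k hk => hk.1⟩ ?_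
  obtain ⟨k, hk⟩ := In.ex (-x.f + y.f)
  exact ⟨min k (min x.n y.n), by omega, by omega, hk.mono (by omega)⟩

noncomputable def M (x y : W) : ℤ := (exM x y).choose
theorem M_V (x y : W) : V x y (M x y) := (exM x y).choose_spec.1
theorem le_M {x y : W} {k : ℤ} (hk : V x y k) : k ≤ M x y := (exM x y).choose_spec.2 k hk

theorem V.symm {x y : W} {k : ℤ} (hk : V x y k) : V y x k :=
  ⟨hk.2.1, hk.1, by simpa using hk.2.2.neg⟩

theorem M_comm (x y : W) : M x y = M y x :=
  le_antisymm (le_M (M_V x y).symm) (le_M (M_V y x).symm)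

theorem M_ultra (x y z : W) : min (M x y) (M y z) - 1 ≤ M x z := by
  obtain ⟨a1, a2, a3⟩ := M_V x y
  obtain ⟨b1, b2, b3⟩ := M_V y z
  refine le_M ⟨by omega, by omega, ?_⟩
  have := (a3.mono (min_le_left _ (M y z))).add (b3.mono (min_le_right (M x y) _))
  simpa [add_assoc] using this

theorem V_mul (g x y : W) (k : ℤ) : V (g * x) (g * y) (g.n + k) ↔ V x y k := by
  simp only [V, mul_n, mul_f, add_le_add_iff_left, In, neg_add_rev, add_assoc, neg_add_cancel_left]
  refine and_congr_right fun _ => and_congr_right fun _ => ⟨fun H i => ?_, fun H i => ?_⟩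
  · have := H (i + g.n)
    simpa [show i + g.n - (g.n + k) = i - k by ring, show i + g.n < g.n + k ↔ i < k by omega]
      using this
  · have := H (i - g.n)
    simpa [show i - g.n - k = i - (g.n + k) by ring, show i - g.n < k ↔ i < g.n + k by omega]
      using this

theorem M_mul (g x y : W) : M (g * x) (g * y) = g.n + M x y := by
  refine le_antisymm ?_ (le_M ((V_mul g x y _).2 (M_V x y)))
  have := le_M ((V_mul g x y (M (g * x) (g * y) - g.n)).1 (by simpa using M_V _ _))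
  omega

def X : Set W := {x | x = t ∨ (x.n = 0 ∧ In 0 x.f)}

theorem rep (g : W) : ∃ l : List W, (l.length : ℤ) = g.n - 2 * M 1 g + 1 ∧
    (∀ x ∈ l, x ∈ X ∨ x⁻¹ ∈ X) ∧ l.prod = g := by
  obtain ⟨h1, h2, h3⟩ := M_V 1 g
  obtain ⟨a, ha⟩ := Int.eq_ofNat_of_zero_le (show 0 ≤ -M 1 g by simpa using h1)
  obtain ⟨b, hb⟩ := Int.eq_ofNat_of_zero_le (show 0 ≤ g.n - M 1 g by omega)
  refine ⟨List.replicate a t⁻¹ ++ (⟨sh a g.f, 0⟩ : W) :: List.replicate b t, by simp; omega, ?_, ?_⟩
  · intro x hx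
    simp only [List.mem_append, List.mem_cons, List.mem_replicate] at hx
    rcases hx with ⟨_, rfl⟩ | rfl | ⟨_, rfl⟩
    · exact Or.inr (Or.inl (inv_inv _))
    · refine Or.inl (Or.inr ⟨rfl, fun i => ?_⟩)
      have := h3 (i - a)
      simpa [show i - a - M 1 g = i by omega, show i - a < M 1 g ↔ i < 0 by omega] using this
    · exact Or.inl (Or.inl rfl)
  · simp only [List.prod_append, List.prod_cons, List.prod_replicate, t_pow, ti_pow]
    exact W.ext (Finsupp.ext fun i => by simp) (by simp; omega)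

theorem inv (l : List W) (hl : ∀ x ∈ l, x ∈ X ∨ x⁻¹ ∈ X) : ∃ a k : ℕ, -(a : ℤ) ≤ l.prod.n ∧
    l.prod.n + 2 * a + k ≤ l.length ∧
    ∀ i, (i < -(a : ℤ) → l.prod.f i = 0) ∧ nu (l.prod.f i) ≤ k * 2 ^ (i + a).toNat := by
  induction l using List.reverseRecOn with
  | nil => exact ⟨0, 0, by simp, by simp, by simp⟩
  | append_singleton l x ih =>
    obtain ⟨a, k, h1, h2, h3⟩ := ih fun y hy => hl y (by simp [hy])
    have hx : x = t ∨ x = t⁻¹ ∨ (x.n = 0 ∧ In 0 x.f) := by
      rcases hl x (by simp) with (h | h) | (h | ⟨h, h'⟩)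
      · exact Or.inl h
      · exact Or.inr (Or.inr h)
      · exact Or.inr (Or.inl (by rw [← h, inv_inv]))
      · have h0 : x.n = 0 := by simpa using h
        exact Or.inr (Or.inr ⟨h0, fun i => by simpa [h0] using h' i⟩)
    simp only [List.prod_append, List.prod_singleton, List.length_append, List.length_singleton,
      mul_n, mul_f]
    rcases hx with rfl | rfl | ⟨h4, h5⟩
    · exact ⟨a, k, by simp [t]; omega, by simp [t]; omega, by simpa [t] using h3⟩
    · refine ⟨if -(a : ℤ) < l.prod.n then a else a + 1, k, by simp [t]; split_ifs <;> omega,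
        by simp [t]; split_ifs <;> omega, fun i => ?_⟩
      have e : (l.prod.f + sh l.prod.n (t⁻¹).f) i = l.prod.f i := by simp [t]
      rw [e]
      refine ⟨fun h => (h3 i).1 (by split_ifs at h <;> omega), (h3 i).2.trans
        (Nat.mul_le_mul_left _ (Nat.pow_le_pow_right two_pos (by split_ifs <;> omega)))⟩
    · refine ⟨a, k + 1, by omega, by push_cast; omega, fun i => ⟨fun h => ?_, ?_⟩⟩
      · simp [(h3 i).1 h, (h5 (i - l.prod.n)).1 (by omega)]
      · refine (nu_add _ _).trans ?_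
        have := (h5 (i - l.prod.n)).2.trans
          (Nat.pow_le_pow_right two_pos (show _ ≤ (i + a).toNat by omega))
        have := (h3 i).2
        rw [sh_apply, add_mul]; omega

theorem wl_bd (g : W) : g.n - 2 * M 1 g - 2 ≤ wl X g ∧ (wl X g : ℤ) ≤ g.n - 2 * M 1 g + 1 := by
  obtain ⟨l, h1, h2, h3⟩ := rep g
  constructor
  · obtain ⟨l', e, h4, h5⟩ := Nat.sInf_mem (s := {k | ∃ l : List W, l.length = k ∧
      (∀ x ∈ l, x ∈ X ∨ x⁻¹ ∈ X) ∧ l.prod = g}) ⟨_, l, rfl, h2, h3⟩
    obtain ⟨a, k, b1, b2, b3⟩ := inv l' h4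
    rw [wl, ← e]
    rw [h5] at b1 b2 b3
    have hk : k ≤ 2 ^ (k / 2 + 1) := by
      have := Nat.lt_two_pow_self (n := k / 2)
      rw [pow_succ]; omega
    have : -(a : ℤ) - (k / 2 + 1 : ℕ) ≤ M 1 g := by
      refine le_M ⟨by simp only [one_n]; omega, by omega, fun i => ?_⟩
      simp only [one_f, neg_zero, zero_add]
      by_cases h : i < -(a : ℤ)
      · simp [(b3 i).1 h]
      · refine ⟨fun h' => by omega, (b3 i).2.trans ?_⟩
        rw [show (i - (-(a : ℤ) - (k / 2 + 1 : ℕ))).toNat = (k / 2 + 1) + (i + a).toNat by omega,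
          pow_add]
        exact Nat.mul_le_mul_right _ hk
    omega
  · rw [← h1]
    have : wl X g ≤ l.length := Nat.sInf_le ⟨l, rfl, h2, h3⟩
    exact_mod_cast this

theorem d_bd (x y : W) : x.n + y.n - 2 * M x y - 2 ≤ wl X (x⁻¹ * y) ∧
    (wl X (x⁻¹ * y) : ℤ) ≤ x.n + y.n - 2 * M x y + 1 := by
  have e := M_mul x 1 (x⁻¹ * y)
  have := wl_bd (x⁻¹ * y)
  simp only [mul_one, mul_inv_cancel_left, mul_n, inv_n] at e this
  omega

theorem gp_bd (w x y : W) :
    ((w.n - M w x - M w y + M x y : ℤ) : ℝ) - 3 ≤ gp X w x y ∧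
    gp X w x y ≤ ((w.n - M w x - M w y + M x y : ℤ) : ℝ) + 3 := by
  obtain ⟨a1, a2⟩ := d_bd w x
  obtain ⟨b1, b2⟩ := d_bd w y
  obtain ⟨c1, c2⟩ := d_bd x y
  rw [gp]
  have a1' := (Int.cast_le (R := ℝ)).2 a1
  have a2' := (Int.cast_le (R := ℝ)).2 a2
  have b1' := (Int.cast_le (R := ℝ)).2 b1
  have b2' := (Int.cast_le (R := ℝ)).2 b2
  have c1' := (Int.cast_le (R := ℝ)).2 c1
  have c2' := (Int.cast_le (R := ℝ)).2 c2
  push_cast at *
  constructor <;> linarith

theorem four (w x y z : W) :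
    M x y + M w z - 2 ≤ M x z + M w y ∨ M y z + M w x - 2 ≤ M x z + M w y := by
  have a1 := M_ultra x y z
  have a2 := M_ultra x w z
  have a3 := M_ultra w x y
  have a4 := M_ultra w z y
  rw [M_comm x w] at a2
  rw [M_comm z y] at a4
  omega

theorem asym (x y : ℕ → W)
    (H : ∀ R : ℤ, ∃ N : ℕ, ∀ i ≥ N, ∀ j ≥ N, R ≤ - M 1 (x i) - M 1 (y j) + M (x i) (y j)) :
    Asym X x y := fun R => by
  obtain ⟨N, hN⟩ := H (⌈R⌉ + 3)
  refine ⟨N, fun i hi j hj => ?_⟩
  have := (gp_bd 1 (x i) (y j)).1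
  have h2 := (Int.cast_le (R := ℝ)).2 (hN i hi j hj)
  have := Int.le_ceil R
  simp only [one_n] at *
  push_cast at *
  linarith

theorem nasym (x y : ℕ → W)
    (H : ∀ i, - M 1 (x (i + 1)) - M 1 (y (i + 1)) + M (x (i + 1)) (y (i + 1)) ≤ 0) :
    ¬ Asym X x y := fun h => by
  obtain ⟨N, hN⟩ := h 4
  have a := (hN (N + 1) (by omega) (N + 1) (by omega)).trans (gp_bd 1 _ _).2
  have h2 := (Int.cast_le (R := ℝ)).2 (H N)
  simp only [one_n] at a
  push_cast at *
  linarith

theorem lox (g : W) (hg : ∀ n : ℕ, (g ^ n).n = n) : Lox X g := ⟨1, 2, one_pos, fun n => by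
  have a := (wl_bd (g ^ n)).1
  have b := (M_V 1 (g ^ n)).1
  have c := hg n
  have : (n : ℤ) - 2 ≤ wl X (g ^ n) := by simp only [one_n] at b; omega
  rw [one_mul]; exact_mod_cast this⟩

def u : K := Additive.ofMul (FreeGroup.of 0)
theorem nu_u : nu u = 1 := FreeGroup.norm_of _
noncomputable def a : W := ⟨Finsupp.single 0 u, 0⟩

theorem h_pow (i : ℕ) :
    (a * t * a⁻¹) ^ i = ⟨Finsupp.single (0 : ℤ) u + -Finsupp.single (i : ℤ) u, i⟩ := by
  rw [conj_pow, t_pow]
  refine W.ext (Finsupp.ext fun j => ?_) (by simp [a])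
  simp [a, Finsupp.single_apply, eq_sub_iff_add_eq]

theorem focal : Focal X := by
  have hM : ∀ i : ℕ, 0 ≤ M 1 ((a * t * a⁻¹) ^ (i + 1)) := fun i => by
    rw [h_pow]
    refine le_M ⟨le_rfl, by simp only; omega, fun p => ?_⟩
    have := Nat.one_le_two_pow (n := (p - 0).toNat)
    simp only [one_f, neg_zero, zero_add, Finsupp.add_apply, Finsupp.neg_apply,
      Finsupp.single_apply]
    split_ifs with h1 h2 h2
    · omega
    · exact ⟨fun h => by omega, by simpa [nu_u] using this⟩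
    · exact ⟨fun h => by omega, by simpa [nu_u] using this⟩
    · simp
  refine ⟨?_, ⟨8, fun w x y z => ?_⟩, ?_, t, a * t * a⁻¹, lox _ fun n => by rw [t_pow],
    lox _ fun n => by rw [h_pow], nasym _ _ fun i => ?_, nasym _ _ fun i => ?_⟩
  · rw [eq_top_iff]
    intro g _
    obtain ⟨l, _, h2, rfl⟩ := rep g
    exact Subgroup.list_prod_mem _ fun x hx => (h2 x hx).elim (fun H => Subgroup.subset_closure H)
      fun H => by simpa using Subgroup.inv_mem _ (Subgroup.subset_closure (k := X) H)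
  · have a := (gp_bd w x y).2
    have b := (gp_bd w y z).2
    have c := (gp_bd w x z).1
    rcases four w x y z with H | H
    · have := (Int.cast_le (R := ℝ)).2 H
      have := min_le_left (gp X w x y) (gp X w y z)
      push_cast at *; linarith
    · have := (Int.cast_le (R := ℝ)).2 H
      have := min_le_right (gp X w x y) (gp X w y z)
      push_cast at *; linarith
  · have key : ∀ g : W, Asym X (fun i => g * (⟨0, -(i : ℤ)⟩ : W)) fun i => ⟨0, -(i : ℤ)⟩ := by
      intro g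
      obtain ⟨k, hk⟩ := In.ex g.f
      refine asym _ _ fun R => ⟨(R + |g.n| + |k|).toNat + |k|.toNat, fun i hi j hj => ?_⟩
      have a := (M_V 1 (g * (⟨0, -(i : ℤ)⟩ : W))).2.1
      have b := (M_V 1 (⟨0, -(j : ℤ)⟩ : W)).2.1
      have c : min (g.n - i) (-j) ≤ M (g * (⟨0, -(i : ℤ)⟩ : W)) ⟨0, -(j : ℤ)⟩ := by
        refine le_M ⟨by simp; omega, by simp, fun p => ?_⟩
        have := hk.mono (k' := min (g.n - i) (-j)) (by
          have := neg_abs_le k
          omega) p
        simpa using this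
      have := le_abs_self g.n
      have := abs_nonneg k
      have := abs_nonneg g.n
      simp only [mul_n] at a b
      omega
    exact ⟨_, by simpa using key 1, key⟩
  · have h1 := hM i
    have h2 : 0 ≤ M 1 (t ^ (i + 1)) := by
      rw [t_pow]; exact le_M ⟨le_rfl, by simp only; omega, by simpa using In.zero 0⟩
    have h3 : M ((a * t * a⁻¹) ^ (i + 1)) (t ^ (i + 1)) ≤ 0 := by
      by_contra hc
      have := ((M_V ((a * t * a⁻¹) ^ (i + 1)) (t ^ (i + 1))).2.2 0).1 (not_le.1 hc)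
      rw [h_pow, t_pow] at this
      have e : ((i : ℤ) + 1 = 0) = False := by simp; omega
      have := congrArg nu this
      simp [Finsupp.single_apply, e, nu_u] at this
    beta_reduce
    omega
  · have h1 := hM i
    have h2 : -((i + 1 : ℕ) : ℤ) ≤ M 1 (t⁻¹ ^ (i + 1)) := by
      rw [ti_pow]; exact le_M ⟨by simp only [one_n]; omega, le_rfl, by simpa using In.zero _⟩
    have h3 := (M_V ((a * t * a⁻¹) ^ (i + 1)) (t⁻¹ ^ (i + 1))).2.1
    have h4 : (t⁻¹ ^ (i + 1)).n = -((i + 1 : ℕ) : ℤ) := by rw [ti_pow]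
    beta_reduce
    omega

noncomputable def rf (x : W) : W := ⟨Finsupp.equivMapDomain (Equiv.neg ℤ) x.f, -x.n⟩
@[simp] theorem rf_f (x : W) (i : ℤ) : (rf x).f i = x.f (-i) := by simp [rf]
@[simp] theorem rf_n (x : W) : (rf x).n = -x.n := rfl

noncomputable def s : W ≃* W where
  toFun := rf
  invFun := rf
  left_inv x := W.ext (Finsupp.ext fun i => by simp) (by simp)
  right_inv x := W.ext (Finsupp.ext fun i => by simp) (by simp)
  map_mul' x y := W.ext (Finsupp.ext fun i => by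
    simp [show -i - x.n = -(i - -x.n) by ring]) (by simp [add_comm])

theorem ball (R : ℕ) (g : W) (h : wl X g ≤ R) :
    -(R : ℤ) - 2 ≤ g.n ∧ In (-(R : ℤ) - 2) g.f := by
  have a := (wl_bd g).1
  obtain ⟨b1, b2, b3⟩ := M_V 1 g
  simp only [one_n, one_f, neg_zero, zero_add] at b1 b3
  exact ⟨by omega, b3.mono (by omega)⟩

theorem proper (R : ℕ) : {g : W | wl X g + wl (s ⁻¹' X) g ≤ R}.Finite := by
  classical
  have hB : {x : K | nu x ≤ 2 ^ (2 * R + 4)}.Finite := by
    refine Set.Finite.of_finite_image (f := fun x : K => x.toMul.toWord)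
      ((List.finite_length_le (Fin 2 × Bool) (2 ^ (2 * R + 4))).subset ?_)
      fun x _ y _ h => Additive.toMul.injective (FreeGroup.toWord_injective h)
    rintro _ ⟨x, hx, rfl⟩
    exact hx
  let I := Finset.Icc (-(R : ℤ) - 2) (R + 2)
  refine (((I.finsupp fun _ => hB.toFinset) ×ˢ I).finite_toSet.image
    fun p => (⟨p.1, p.2⟩ : W)).subset fun g hg => ⟨(g.f, g.n), ?_, rfl⟩
  have hg' : wl X g + wl X (rf g) ≤ R := by
    have : wl X g + wl (s ⁻¹' X) g ≤ R := hg
    rwa [wl_map] at this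
  obtain ⟨a1, a2⟩ := ball R g (by omega)
  obtain ⟨b1, b2⟩ := ball R (rf g) (by omega)
  simp only [rf_n] at b1
  simp only [Finset.coe_product, Set.mem_prod, Finset.mem_coe, Finset.mem_finsupp_iff, I,
    Finset.mem_Icc, Set.Finite.mem_toFinset, Set.mem_setOf_eq]
  refine ⟨⟨fun i hi => ?_, fun i hi => (a2 i).2.trans
    (Nat.pow_le_pow_right two_pos (by omega))⟩, by omega, by omega⟩
  have h0 := Finsupp.mem_support_iff.1 hi
  have c1 := mt (a2 i).1 h0
  have c2 := mt (b2 (-i)).1 (by simpa using h0)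
  rw [Finset.mem_Icc]; omega

noncomputable def io : F →* W where
  toFun x := ⟨Finsupp.single 0 (Additive.ofMul x), 0⟩
  map_one' := W.ext (by simp) rfl
  map_mul' x y := W.ext (Finsupp.ext fun i => by simp [ofMul_mul]) (by simp)

theorem fg : Group.FG W := by
  classical
  refine ⟨{t, io (FreeGroup.of 0), io (FreeGroup.of 1)}, ?_⟩
  rw [eq_top_iff]
  intro g _
  set H := Subgroup.closure
    ((({t, io (FreeGroup.of 0), io (FreeGroup.of 1)} : Finset W) : Set W))
  have ht : t ∈ H := Subgroup.subset_closure (by simp)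
  have h1 : ∀ m : ℤ, (⟨0, m⟩ : W) ∈ H := fun m => by
    obtain ⟨k, rfl | rfl⟩ := m.eq_nat_or_neg
    · rw [← t_pow]; exact H.pow_mem ht k
    · rw [← ti_pow]; exact H.pow_mem (H.inv_mem ht) k
  have h0 : ∀ j : Fin 2, io (FreeGroup.of j) ∈ H := fun j =>
    Subgroup.subset_closure (by fin_cases j <;> simp)
  have h2 : ∀ c : F, io c ∈ H := fun c => by
    induction c using FreeGroup.induction_on with
    | C1 => simp
    | of j => exact h0 j
    | inv_of j h => rw [map_inv]; exact H.inv_mem h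
    | mul x y hx hy => rw [map_mul]; exact H.mul_mem hx hy
  have h3 : ∀ f : ℤ →₀ K, (⟨f, 0⟩ : W) ∈ H := fun f => by
    induction f using Finsupp.induction with
    | zero => exact h1 0
    | single_add i c f _ _ hf =>
      convert H.mul_mem (H.mul_mem (H.mul_mem (h1 i) (h2 c.toMul)) (h1 (-i))) hf using 1
      refine W.ext (Finsupp.ext fun j => ?_) (by simp [io])
      simp [io, Finsupp.single_apply, eq_sub_iff_add_eq]
  convert H.mul_mem (h3 g.f) (h1 g.n) using 1
  exact W.ext (Finsupp.ext fun j => by simp) (by simp)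

theorem pp (p q : ℕ) (hp : p < 4) (hq : q < 4) :
    ∃ e : Equiv.Perm ℕ, ∀ x, x % 4 ≠ p → e x % 4 = q := by
  have i1 : ∀ r, r < 4 → Infinite {x : ℕ // x % 4 = r} := fun r hr =>
    Infinite.of_injective (fun n : ℕ => ⟨4 * n + r, by omega⟩) fun a b h => by
      have := congrArg Subtype.val h
      simp only at this; omega
  have i2 : ∀ r, r < 4 → Infinite {x : ℕ // ¬ x % 4 = r} := fun r hr =>
    Infinite.of_injective (fun n : ℕ => ⟨4 * n + r + 1, by omega⟩) fun a b h => by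
      have := congrArg Subtype.val h
      simp only at this; omega
  have := i1 p hp
  have := i1 q hq
  have := i2 p hp
  have := i2 q hq
  obtain ⟨e1⟩ : Nonempty ({x : ℕ // x % 4 = p} ≃ {x : ℕ // ¬ x % 4 = q}) :=
    nonempty_equiv_of_countable
  obtain ⟨e2⟩ : Nonempty ({x : ℕ // ¬ x % 4 = p} ≃ {x : ℕ // x % 4 = q}) :=
    nonempty_equiv_of_countable
  refine ⟨(Equiv.sumCompl (· % 4 = p)).symm.trans ((e1.sumCongr e2).trans
    ((Equiv.sumComm _ _).trans (Equiv.sumCompl (· % 4 = q)))), fun x hx => ?_⟩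
  simp only [Equiv.trans_apply]
  rw [Equiv.sumCompl_symm_apply_of_neg (p := (· % 4 = p)) hx]
  exact (e2 ⟨x, hx⟩).2

theorem nonam : ¬ ∃ m : Set W → ℝ, (∀ A, 0 ≤ m A) ∧ m Set.univ = 1 ∧
    (∀ A B, Disjoint A B → m (A ∪ B) = m A + m B) ∧
    ∀ (g : W) (A : Set W), m ((fun x => g * x) '' A) = m A := by
  rintro ⟨m, h0, h1, h2, h3⟩
  obtain ⟨e0, he0⟩ := pp 0 1 (by omega) (by omega)
  obtain ⟨e1, he1⟩ := pp 2 3 (by omega) (by omega)
  let r : F →* Equiv.Perm ℕ := FreeGroup.lift ![e0, e1]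
  let c : W → ℕ := fun g => r (g.f 0).toMul 0
  have hc : ∀ (j : Fin 2) (g : W), c (io (FreeGroup.of j) * g) = ![e0, e1] j (c g) := by
    intro j g
    simp [c, io, r]
  let S : ℕ → Set W := fun p => {g | c g % 4 = p}
  have mono : ∀ A B, A ⊆ B → m A ≤ m B := fun A B h => by
    have := h2 A (B \ A) Set.disjoint_sdiff_right
    rw [Set.union_diff_cancel h] at this
    linarith [h0 (B \ A)]
  have key : ∀ (j : Fin 2) (p q : ℕ), (∀ x, x % 4 ≠ p → ![e0, e1] j x % 4 = q) →
      1 ≤ m (S p) + m (S q) := fun j p q h => by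
    have a := h2 (S p) (S p)ᶜ disjoint_compl_right
    rw [Set.union_compl_self, h1] at a
    have b := mono ((fun x => io (FreeGroup.of j) * x) '' (S p)ᶜ) (S q) (by
      rintro _ ⟨g, hg, rfl⟩
      change c (io (FreeGroup.of j) * g) % 4 = q
      rw [hc]; exact h _ hg)
    rw [h3] at b
    linarith
  have k0 := key 0 0 1 he0
  have k1 := key 1 2 3 he1
  have d : ∀ p q, p ≠ q → Disjoint (S p) (S q) := fun p q h =>
    Set.disjoint_left.2 fun g h1 h2 => h ((show _ = p from h1).symm.trans h2)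
  have u1 := h2 _ _ (d 0 1 (by omega))
  have u2 := h2 _ _ (d 2 3 (by omega))
  have u3 := h2 (S 0 ∪ S 1) (S 2 ∪ S 3) (by
    simp only [Set.disjoint_union_left, Set.disjoint_union_right]
    exact ⟨⟨d _ _ (by omega), d _ _ (by omega)⟩, d _ _ (by omega), d _ _ (by omega)⟩)
  have u4 := mono _ _ (Set.subset_univ ((S 0 ∪ S 1) ∪ (S 2 ∪ S 3)))
  linarith

end Pool.Agent.H16.QP2
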