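import Mathlib

set_option autoImplicit false

namespace Pool.Agent.H16.S3
open Filter Topology OnePoint Matrix

/-- Triples of pairwise distinct points, with the subspace topology. -/
abbrev Tri (M : Type) := {p : M × M × M // p.1 ≠ p.2.1 ∧ p.1 ≠ p.2.2 ∧ p.2.1 ≠ p.2.2}

/-- The coordinatewise action of a permutation on triples of distinct points. -/
def act {M : Type} (g : Equiv.Perm M) (t : Tri M) : Tri M :=
  ⟨(g t.1.1, g t.1.2.1, g t.1.2.2), g.injective.ne t.2.1, g.injective.ne t.2.2.1,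
    g.injective.ne t.2.2.2⟩

theorem act_mul {M : Type} (g h : Equiv.Perm M) (t : Tri M) : act (g * h) t = act g (act h t) := rfl
theorem act_one {M : Type} (t : Tri M) : act 1 t = t := rfl

section alg
variable {K : Type} [Field K] [DecidableEq K]

noncomputable def mk (a b c d : K) (h : a * d - b * c ≠ 0) : GL (Fin 2) K :=
  GeneralLinearGroup.mkOfDetNeZero !![a, b; c, d] (by rwa [det_fin_two_of])

theorem mk_apply (a b c d : K) (h : a * d - b * c ≠ 0) :
    mk a b c d h 0 0 = a ∧ mk a b c d h 0 1 = b ∧ mk a b c d h 1 0 = c ∧ mk a b c d h 1 1 = d :=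
  ⟨rfl, rfl, rfl, rfl⟩

theorem ex1 (x : OnePoint K) : ∃ A : GL (Fin 2) K, A • (∞ : OnePoint K) = x := by
  cases x with
  | infty => exact ⟨1, one_smul _ _⟩
  | coe k => exact ⟨mk k 1 1 0 (by simp), by simp [smul_infty_eq_ite, mk_apply]⟩

theorem ex3 (x y z : OnePoint K) (h1 : x ≠ y) (h2 : x ≠ z) (h3 : y ≠ z) : ∃ A : GL (Fin 2) K,
    A • (∞ : OnePoint K) = x ∧ A • ((0 : K) : OnePoint K) = y ∧ A • ((1 : K) : OnePoint K) = z := by
  obtain ⟨A, rfl⟩ := ex1 x
  obtain ⟨y, rfl⟩ := MulAction.surjective A y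
  obtain ⟨z, rfl⟩ := MulAction.surjective A z
  cases y with
  | infty => exact absurd rfl h1
  | coe b =>
  cases z with
  | infty => exact absurd rfl h2
  | coe c =>
  have h : c - b ≠ 0 := fun h => h3 (by rw [sub_eq_zero.1 h])
  refine ⟨A * mk (c - b) b 0 1 (by simpa using h), ?_, ?_, ?_⟩ <;>
    simp [mul_smul, smul_infty_eq_ite, smul_some_eq_ite, mk_apply]

theorem uniq (A : GL (Fin 2) K) (h1 : A • (∞ : OnePoint K) = ∞)
    (h2 : A • ((0 : K) : OnePoint K) = (0 : K)) (h3 : A • ((1 : K) : OnePoint K) = (1 : K)) :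
    (∀ x : OnePoint K, A • x = x) ∧ A 1 1 ≠ 0 ∧ A.1.det = A 1 1 * A 1 1 := by
  rw [smul_infty_eq_self_iff] at h1
  have hd := A.det_ne_zero
  rw [det_fin_two, h1] at hd
  have h4 : A 1 1 ≠ 0 := fun h => hd (by simp [h])
  simp [smul_some_eq_ite, h1, h4] at h2
  simp [smul_some_eq_ite, h1, h4, h2, div_eq_one_iff_eq h4] at h3
  refine ⟨fun x => ?_, h4, by simp [det_fin_two, h1, h3]⟩
  cases x with
  | infty => simp [smul_infty_eq_ite, h1]
  | coe k => simp [smul_some_eq_ite, h1, h2, h3, h4]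

end alg

section top
variable {K : Type} [NormedField K] [ProperSpace K] [DecidableEq K]

theorem cont_fix (A : GL (Fin 2) K) (h1 : A • (∞ : OnePoint K) = ∞) :
    Continuous fun x : OnePoint K => A • x := by
  have h1' := h1
  rw [smul_infty_eq_self_iff] at h1
  have hd := A.det_ne_zero
  rw [det_fin_two, h1] at hd
  have h4 : A 1 1 ≠ 0 := fun h => hd (by simp [h])
  have h5 : A 0 0 ≠ 0 := fun h => hd (by simp [h])
  convert (((Homeomorph.mulLeft₀ _ h5).trans (Homeomorph.addRight (A 0 1))).trans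
    (Homeomorph.mulRight₀ _ (inv_ne_zero h4))).onePointCongr.continuous using 2 with x
  cases x with
  | infty => exact h1'
  | coe k => simp [smul_some_eq_ite, h1, h4, div_eq_mul_inv, Homeomorph.onePointCongr]

theorem cont_J : Continuous fun x : OnePoint K => mk (0 : K) 1 1 0 (by simp) • x := by
  have e : ∀ k : K, k ≠ 0 → mk (0 : K) 1 1 0 (by simp) • (k : OnePoint K) = (k⁻¹ : K) := by
    intro k hk; simp [smul_some_eq_ite, mk_apply, hk]
  have e0 : mk (0 : K) 1 1 0 (by simp) • ((0 : K) : OnePoint K) = ∞ := by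
    simp [smul_some_eq_ite, mk_apply]
  have e1 : mk (0 : K) 1 1 0 (by simp) • (∞ : OnePoint K) = (0 : K) := by
    simp [smul_infty_eq_ite, mk_apply]
  rw [continuous_iff_continuousAt]
  intro x
  cases x with
  | infty =>
    rw [continuousAt_infty', e1, coclosedCompact_eq_cocompact, ← Metric.cobounded_eq_cocompact]
    refine ((continuous_coe.tendsto (0 : K)).comp tendsto_inv₀_cobounded).congr' ?_
    filter_upwards [Bornology.eventually_ne_cobounded (0 : K)] with k hk using (e k hk).symm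
  | coe k =>
    rw [continuousAt_coe]
    by_cases hk : k = 0
    · subst hk
      rw [← continuousWithinAt_compl_self, ContinuousWithinAt]
      simp only [Function.comp_apply, e0]
      have := tendsto_inv₀_nhdsNE_zero (α := K)
      rw [Metric.cobounded_eq_cocompact, ← coclosedCompact_eq_cocompact] at this
      refine (tendsto_coe_infty.comp this).congr' ?_
      filter_upwards [self_mem_nhdsWithin] with k hk using (e k hk).symm
    · refine (continuous_coe.continuousAt.comp (continuousAt_inv₀ hk)).congr ?_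
      filter_upwards [eventually_ne_nhds hk] with k hk using (e k hk).symm

theorem cont (A : GL (Fin 2) K) : Continuous fun x : OnePoint K => A • x := by
  cases h : A • (∞ : OnePoint K) with
  | infty => exact cont_fix A h
  | coe k =>
    let T := mk (1 : K) k 0 1 (by simp)
    let J := mk (0 : K) 1 1 0 (by simp)
    have h1 : (T * J) • (∞ : OnePoint K) = k := by
      simp [T, J, mul_smul, smul_infty_eq_ite, smul_some_eq_ite, mk_apply]
    have h2 := cont_fix ((T * J)⁻¹ * A) (by rw [mul_smul, h, ← h1, inv_smul_smul])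
    have h3 := cont_fix T (by simp [T, smul_infty_eq_ite, mk_apply])
    convert h3.comp (cont_J.comp h2) using 2 with x
    simp only [Function.comp_apply]
    rw [← mul_smul T, ← mul_smul, mul_inv_cancel_left]

theorem abst (σ : K →+* K) (hσ : ∀ x, σ (σ x) = x) (cσ : Continuous σ) (χ : K → ZMod 2)
    (hχ : ∀ a b, a ≠ 0 → b ≠ 0 → χ (a * b) = χ a + χ b) (hs : ∀ a, χ (σ a) = χ a)
    (u : ℕ → K) (h0 : ∀ n, u n ≠ 0) (hu : ∀ n, χ (u n) = 1) (hl : Tendsto u atTop (𝓝 1))
    (w : K) (hw : σ w ≠ w) : ∃ G : Subgroup (Equiv.Perm (OnePoint K)),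
      (∀ g ∈ G, Continuous g) ∧ (∀ s t : Tri (OnePoint K), ∃! g : G, act g.1 s = t) ∧
      ¬ ∃ _ : TopologicalSpace G, ∀ t : Tri (OnePoint K), IsHomeomorph fun g : G => act g.1 t := by
  let s : ZMod 2 → K →+* K := fun e => if e = 0 then RingHom.id K else σ
  have z2 : ∀ e : ZMod 2, e = 0 ∨ e = 1 := by decide
  have s0 : s 0 = RingHom.id K := if_pos rfl
  have s1 : s 1 = σ := if_neg (by decide)
  have sa : ∀ a b x, s a (s b x) = s (a + b) x := fun a b x => by
    rcases z2 a with rfl | rfl <;> rcases z2 b with rfl | rfl <;>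
      simp [s0, s1, hσ, show (1 : ZMod 2) + 1 = 0 by decide]
  have sm : ∀ a b (x : OnePoint K), (x.map (s b)).map (s a) = x.map (s (a + b)) := fun a b x => by
    cases x <;> simp [sa]
  have si : ∀ x : OnePoint K, x.map (s 0) = x := fun x => by cases x <;> simp [s0]
  have aa : ∀ a : ZMod 2, a + a = 0 := by decide
  have hd : ∀ a (B : GL (Fin 2) K), χ (B.map (s a)).1.det = χ B.1.det := fun a B => by
    have : (B.map (s a)).1.det = s a B.1.det := by
      rw [RingHom.map_det]; rfl
    rw [this]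
    rcases z2 a with rfl | rfl <;> simp [s0, s1, hs]
  have hm : ∀ A B : GL (Fin 2) K, χ (A * B).1.det = χ A.1.det + χ B.1.det := fun A B => by
    rw [Units.val_mul, det_mul, hχ _ _ A.det_ne_zero B.det_ne_zero]
  have h1 : χ (1 : GL (Fin 2) K).1.det = 0 := by simpa [aa] using hm 1 1
  have hi : ∀ A : GL (Fin 2) K, χ (A⁻¹).1.det = χ A.1.det := fun A => by
    have := hm A⁻¹ A
    rw [inv_mul_cancel, h1] at this
    linear_combination aa (χ (A⁻¹).1.det) - this - aa (χ (A⁻¹).1.det) - aa (χ A.1.det)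
      + aa (χ A.1.det) - aa (χ A.1.det)
  let G : Subgroup (Equiv.Perm (OnePoint K)) :=
    { carrier := {g | ∃ A : GL (Fin 2) K, ∀ x, g x = A • x.map (s (χ A.1.det))}
      mul_mem' := by
        rintro g h ⟨A, hA⟩ ⟨B, hB⟩
        refine ⟨A * B.map (s (χ A.1.det)), fun x => ?_⟩
        rw [Equiv.Perm.mul_apply, hA, hB, OnePoint.map_smul, sm, hm, hd, mul_smul]
      one_mem' := ⟨1, fun x => by rw [h1, si, one_smul]; rfl⟩
      inv_mem' := by
        rintro g ⟨A, hA⟩
        refine ⟨(A⁻¹).map (s (χ A.1.det)), fun x => ?_⟩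
        rw [hd, hi, ← OnePoint.map_smul, Equiv.Perm.inv_eq_iff_eq, hA, sm, aa, si, smul_inv_smul] }
  let p : GL (Fin 2) K → G := fun A => ⟨MulAction.toPerm A * (⟨OnePoint.map (s (χ A.1.det)),
    OnePoint.map (s (χ A.1.det)), fun x => by rw [sm, aa, si], fun x => by rw [sm, aa, si]⟩ :
      Equiv.Perm (OnePoint K)), A, fun x => rfl⟩
  have hp : ∀ A x, (p A).1 x = A • x.map (s (χ A.1.det)) := fun A x => rfl
  let b : Tri (OnePoint K) := ⟨(∞, (0 : K), (1 : K)), by simp⟩
  have e1 : ∀ t, ∃ g : G, act g.1 b = t := fun t => by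
    obtain ⟨A, a1, a2, a3⟩ := ex3 _ _ _ t.2.1 t.2.2.1 t.2.2.2
    exact ⟨p A, Subtype.ext (by simp [act, b, hp, a1, a2, a3])⟩
  have e2 : ∀ g : G, act g.1 b = b → g = 1 := by
    rintro ⟨g, A, hA⟩ h
    have := congrArg Subtype.val h
    simp only [act, b, hA, Prod.mk.injEq, map_infty, map_some, map_zero, map_one] at this
    obtain ⟨c1, c2, c3⟩ := uniq A this.1 this.2.1 this.2.2
    refine Subtype.ext (Equiv.ext fun x => ?_)
    change g x = x
    rw [hA, c3, hχ _ _ c2 c2, aa, si, c1]
  refine ⟨G, ?_, fun x t => ?_, ?_⟩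
  · rintro g ⟨A, hA⟩
    rw [show (g : OnePoint K → OnePoint K) = _ from funext hA]
    refine (cont A).comp ?_
    rcases z2 (χ A.1.det) with h | h <;> rw [h]
    · rw [show OnePoint.map (s 0) = id from funext si]; exact continuous_id
    · rw [s1]
      exact (⟨⟨σ, σ, hσ, hσ⟩, cσ, cσ⟩ : K ≃ₜ K).onePointCongr.continuous
  · obtain ⟨g, rfl⟩ := e1 x
    obtain ⟨h, rfl⟩ := e1 t
    refine ⟨h * g⁻¹, by simp [← act_mul], fun k hk => ?_⟩
    have := e2 (h⁻¹ * k * g) (by
      simp only [Subgroup.coe_mul, act_mul]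
      rw [hk, ← act_mul]; simp [act_one])
    rw [← mul_one h, ← this]; group
  · rintro ⟨τ, H⟩
    have w0 : w ≠ 0 := fun h => hw (by simp [h])
    let g : ℕ → G := fun n => p (mk (u n) 0 0 1 (by simpa using h0 n))
    have hg : ∀ n (k : K), (g n).1 k = (u n * σ k : K) ∧ (g n).1 ∞ = ∞ := fun n k => by
      have : (mk (u n) 0 0 1 (by simpa using h0 n)).1.det = u n := by
        simp [det_fin_two, mk_apply]
      simp [g, hp, this, hu, s1, smul_some_eq_ite, smul_infty_eq_ite, mk_apply]
    have t1 : Tendsto g atTop (𝓝 1) := by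
      rw [(IsInducing.subtypeVal.comp (H b).isInducing).tendsto_nhds_iff]
      simp only [Function.comp_def, act, b, hg _ 0, (hg _ _).1, map_zero, map_one, mul_zero,
        mul_one]
      exact tendsto_const_nhds.prodMk_nhds (tendsto_const_nhds.prodMk_nhds
        ((continuous_coe.tendsto _).comp hl))
    let c : Tri (OnePoint K) := ⟨(∞, (0 : K), w), by simp [w0.symm]⟩
    have t2 := ((continuous_snd.comp (continuous_snd.comp (continuous_subtype_val.comp
      (H c).continuous))).tendsto 1).comp t1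
    simp only [Function.comp_def, act, c, (hg _ _).1] at t2
    have t3 := (continuous_coe.tendsto _).comp (hl.mul_const (σ w))
    have := tendsto_nhds_unique t3 t2
    exact hw (by simpa using this)

end top
end Pool.Agent.H16.S3
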