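import Mathlib

namespace Pool.Agent.H16.Sand

open Matrix

theorem snf {ι : Type} [Fintype ι] [DecidableEq ι] {L P P' Q Q' : Matrix ι ι ℤ} {d : ι → ℕ}
    (h1 : P * P' = 1) (h2 : P * L * Q = diagonal fun i => (d i : ℤ))
    (h3 : P * L = (diagonal fun i => (d i : ℤ)) * Q') :
    Nonempty (((ι → ℤ) ⧸ LinearMap.range L.mulVecLin) ≃ₗ[ℤ] ∀ i, ZMod (d i)) := by
  let π : (ι → ℤ) →ₗ[ℤ] ∀ i, ZMod (d i) := LinearMap.pi fun i =>
    (Algebra.linearMap ℤ (ZMod (d i))).comp ((LinearMap.proj i).comp P.mulVecLin)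
  have hπ : ∀ x i, π x i = ((P *ᵥ x) i : ZMod (d i)) := fun x i => rfl
  have hs : Function.Surjective π := fun y => by
    choose z hz using fun i => ZMod.intCast_surjective (y i)
    exact ⟨P' *ᵥ z, funext fun i => by rw [hπ, mulVec_mulVec, h1, one_mulVec, hz]⟩
  have hk : LinearMap.range L.mulVecLin = LinearMap.ker π := by
    ext x
    simp only [LinearMap.mem_range, LinearMap.mem_ker, funext_iff, hπ, Pi.zero_apply,
      ZMod.intCast_zmod_eq_zero_iff_dvd, mulVecLin_apply]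
    constructor
    · rintro ⟨y, hy⟩ i
      obtain rfl : L *ᵥ y = x := funext hy
      rw [mulVec_mulVec, h3, ← mulVec_mulVec, mulVec_diagonal]
      exact dvd_mul_right _ _
    · intro h
      choose y hy using h
      refine ⟨Q *ᵥ y, congrFun ?_⟩
      have h4 : P' * P = 1 := mul_eq_one_comm.1 h1
      have : P *ᵥ x = (P * L * Q) *ᵥ y := by
        rw [h2]; funext i; rw [mulVec_diagonal, hy]
      rw [← one_mulVec x, ← h4, ← mulVec_mulVec, this]
      simp only [mulVec_mulVec, ← Matrix.mul_assoc, h4, Matrix.one_mul]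
  exact ⟨(Submodule.quotEquivOfEq _ _ hk).trans (π.quotKerEquivOfSurjective hs)⟩

theorem two_tors {ι A : Type} [Fintype ι] [AddCommGroup A] {d : ι → ℕ}
    (e : A ≃ₗ[ℤ] ∀ i, ZMod (d i)) : Nat.card {x : Submodule.torsion ℤ A // 2 • x = 0} =
      ∏ i, Nat.card {x : ZMod (d i) // 2 • x = 0} := by
  rw [← Nat.card_pi]
  refine Nat.card_congr ⟨fun x i => ⟨e x.1.1 i, ?_⟩, fun y => ⟨⟨e.symm fun i => (y i).1, ?_⟩, ?_⟩,
    fun x => by simp, fun y => by simp⟩
  · have : 2 • x.1.1 = 0 := congrArg Subtype.val x.2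
    rw [← Pi.smul_apply, ← map_nsmul, this, map_zero, Pi.zero_apply]
  · refine ⟨⟨2, by simp⟩, ?_⟩
    change (2 : ℤ) • e.symm _ = 0
    rw [← map_zsmul, map_eq_zero_iff _ e.symm.injective]
    funext i
    have := (y i).2
    rw [two_nsmul] at this
    exact (two_zsmul _).trans this
  · refine Subtype.ext ?_
    change 2 • e.symm _ = 0
    rw [← map_nsmul, map_eq_zero_iff _ e.symm.injective]
    funext i
    exact (y i).2

theorem c0 : Nat.card {x : ZMod 0 // 2 • x = 0} = 1 := by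
  rw [Nat.card_eq_one_iff_unique]
  refine ⟨⟨fun a b => Subtype.ext ?_⟩, ⟨⟨0, by simp⟩⟩⟩
  have ha : 2 • (a.1 : ℤ) = 0 := a.2
  have hb : 2 • (b.1 : ℤ) = 0 := b.2
  simp only [smul_eq_zero, OfNat.ofNat_ne_zero, false_or] at ha hb
  exact ha.trans hb.symm

theorem card_tensor (K : Type) [AddCommGroup K] [Finite K] :
    Nat.card (TensorProduct ℤ (ZMod 2) K) = Nat.card {x : K // 2 • x = 0} := by
  let f : K →ₗ[ℤ] K := (2 : ℤ) • LinearMap.id
  have e1 : TensorProduct ℤ (ZMod 2) K ≃ₗ[ℤ] K ⧸ LinearMap.range f :=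
    ((TensorProduct.congr (Int.quotientSpanNatEquivZMod 2).toAddEquiv.toIntLinearEquiv.symm
      (LinearEquiv.refl ℤ K)).trans (TensorProduct.quotTensorEquivQuotSMul K _)).trans
      (Submodule.quotEquivOfEq _ _ (by
        rw [Submodule.ideal_span_singleton_smul]
        ext x; simp [f, Submodule.mem_smul_pointwise_iff_exists, two_smul]))
  rw [Nat.card_congr e1.toEquiv]
  have a := Submodule.card_eq_card_quotient_mul_card (LinearMap.range f)
  have b := Submodule.card_eq_card_quotient_mul_card (LinearMap.ker f)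
  rw [Nat.card_congr f.quotKerEquivRange.toEquiv, a, mul_comm] at b
  have c : Nat.card (LinearMap.ker f) = Nat.card {x : K // 2 • x = 0} :=
    Nat.card_congr (Equiv.subtypeEquivRight fun x => by simp [f])
  rw [← c]
  exact Nat.eq_of_mul_eq_mul_right Nat.card_pos b

end Pool.Agent.H16.Sand
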