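import Mathlib

set_option autoImplicit false

namespace Pool.Agent.H16.Shelf

abbrev X := Fin 6

def op (x y : X) : X :=
  if y.1 < 4 then y else if 4 ≤ x.1 then x else if x = 1 then (if y = 4 then 2 else 3) else 0

theorem op_sd : ∀ a b c : X, op (op a b) c = op (op a c) (op b c) := by decide

abbrev F (m : ℕ) := (Fin m → X) →₀ ℚ

def face {m : ℕ} (i : Fin (m + 1)) (x : Fin (m + 1) → X) (j : Fin m) : X :=
  if Fin.castSucc j < i then op (x (i.succAbove j)) (x i) else x (i.succAbove j)

noncomputable def dd (y : X) (m : ℕ) : F (m + 1) →ₗ[ℚ] F m :=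
  Finsupp.linearCombination ℚ (fun w => ∑ i : Fin (m + 1),
    if w i = y then ((-1 : ℚ) ^ (i : ℕ)) • Finsupp.single (face i w) (1 : ℚ) else 0)

noncomputable def s (x : X) (m : ℕ) : F m →ₗ[ℚ] F (m + 1) :=
  Finsupp.lmapDomain ℚ ℚ (fun w => (Fin.cons x w : Fin (m + 1) → X))

theorem face_zero {m : ℕ} (x : X) (w : Fin m → X) :
    face 0 (Fin.cons x w : Fin (m + 1) → X) = w := by
  funext j
  simp [face]

theorem face_succ {m : ℕ} (x : X) (w : Fin (m + 1) → X) (i : Fin (m + 1)) :
    face i.succ (Fin.cons x w : Fin (m + 2) → X) = Fin.cons (op x (w i)) (face i w) := by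
  funext j
  refine Fin.cases ?_ (fun j => ?_) j
  · simp [face]
  · simp only [face, Fin.cons_succ, Fin.succ_succAbove_succ, Fin.castSucc_succ,
      Fin.succ_lt_succ_iff]

theorem s_single (x : X) (m : ℕ) (w : Fin m → X) (c : ℚ) :
    s x m (Finsupp.single w c) = Finsupp.single (Fin.cons x w : Fin (m + 1) → X) c := by
  simp [s, Finsupp.mapDomain_single]

theorem dd_single (y : X) (m : ℕ) (w : Fin (m + 1) → X) :
    dd y m (Finsupp.single w 1) = ∑ i : Fin (m + 1),
      if w i = y then ((-1 : ℚ) ^ (i : ℕ)) • Finsupp.single (face i w) (1 : ℚ) else 0 := by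
  simp only [dd, Finsupp.linearCombination_single, one_smul]

theorem dd_s_zero (y x : X) (f : F 0) : dd y 0 (s x 0 f) = if x = y then f else 0 := by
  have : (dd y 0) ∘ₗ (s x 0) = if x = y then LinearMap.id else 0 := by
    apply Finsupp.lhom_ext'
    intro w
    apply LinearMap.ext_ring
    simp only [LinearMap.comp_apply, Finsupp.lsingle_apply, s_single, dd_single]
    rw [Fin.sum_univ_succ]
    simp only [Fin.cons_zero, face_zero]
    split_ifs <;> simp
  have h := LinearMap.congr_fun this f
  simp only [LinearMap.comp_apply] at h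
  rw [h]
  split_ifs <;> simp

theorem dd_s (y x : X) (m : ℕ) (f : F (m + 1)) :
    dd y (m + 1) (s x (m + 1) f) = (if x = y then f else 0) - s (op x y) m (dd y m f) := by
  have : (dd y (m + 1)) ∘ₗ (s x (m + 1)) =
      (if x = y then LinearMap.id else 0) - (s (op x y) m) ∘ₗ (dd y m) := by
    apply Finsupp.lhom_ext'
    intro w
    apply LinearMap.ext_ring
    simp only [LinearMap.comp_apply, Finsupp.lsingle_apply, s_single, dd_single,
      LinearMap.sub_apply]
    rw [Fin.sum_univ_succ, map_sum, sub_eq_add_neg, ← Finset.sum_neg_distrib]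
    congr 1
    · simp only [Fin.cons_zero, face_zero]
      split_ifs <;> simp
    · refine Finset.sum_congr rfl (fun i _ => ?_)
      simp only [Fin.cons_succ, face_succ]
      split_ifs with h
      · rw [map_smul, s_single, h, Fin.val_succ, pow_succ]
        simp
      · simp
  have h := LinearMap.congr_fun this f
  simp only [LinearMap.comp_apply, LinearMap.sub_apply] at h
  rw [h]
  split_ifs <;> simp

theorem ind_s {m : ℕ} (P : F (m + 1) → Prop) (h0 : P 0) (hadd : ∀ f g, P f → P g → P (f + g))
    (hs : ∀ x g, P (s x m g)) (f : F (m + 1)) : P f := by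
  induction f using Finsupp.induction_linear with
  | zero => exact h0
  | add f g hf hg => exact hadd f g hf hg
  | single w c =>
    have := hs (w 0) (Finsupp.single (Fin.tail w) c)
    rwa [s_single, Fin.cons_self_tail] at this

theorem cancel (m : ℕ) (φ : X → X → ℚ) (hφ : ∀ y z, φ y z = φ z (op y z)) (x : X)
    (g : F (m + 1)) :
    ∑ y, ∑ z, φ y z • (dd z m (if x = y then g else 0) -
      (if op x y = z then dd y m g else 0)) = 0 := by
  simp only [smul_sub, Finset.sum_sub_distrib]
  have h1 : ∑ y, ∑ z, φ y z • dd z m (if x = y then g else 0) = ∑ z, φ x z • dd z m g := by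
    rw [Finset.sum_eq_single x]
    · simp
    · intro b _ hb
      simp [hb.symm]
    · simp
  have h2 : ∑ y, ∑ z, φ y z • (if op x y = z then dd y m g else 0) =
      ∑ y, φ y (op x y) • dd y m g := by
    refine Finset.sum_congr rfl (fun y _ => ?_)
    rw [Finset.sum_eq_single (op x y)]
    · simp
    · intro b _ hb
      simp [hb.symm]
    · simp
  rw [h1, h2, sub_eq_zero]
  exact Finset.sum_congr rfl (fun y _ => by rw [hφ x y])

theorem quad (m : ℕ) : ∀ (φ : X → X → ℚ), (∀ y z, φ y z = φ z (op y z)) →
    ∀ f : F (m + 2), ∑ y, ∑ z, φ y z • dd z m (dd y (m + 1) f) = 0 := by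
  induction m with
  | zero =>
    intro φ hφ f
    induction f using ind_s with
    | h0 => simp
    | hadd f g hf hg => simp only [map_add, smul_add, Finset.sum_add_distrib, hf, hg, add_zero]
    | hs x g =>
      simp only [dd_s, map_sub, dd_s_zero]
      exact cancel 0 φ hφ x g
  | succ m ih =>
    intro φ hφ f
    induction f using ind_s with
    | h0 => simp
    | hadd f g hf hg => simp only [map_add, smul_add, Finset.sum_add_distrib, hf, hg, add_zero]
    | hs x g =>
      simp only [dd_s, map_sub]
      have hc := cancel (m + 1) φ hφ x g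
      have hr : ∑ y, ∑ z, φ y z • s (op (op x y) z) m (dd z m (dd y (m + 1) g)) = 0 := by
        have : ∀ y z, φ y z • s (op (op x y) z) m (dd z m (dd y (m + 1) g)) =
            ∑ u, s u m ((if op (op x y) z = u then φ y z else 0) • dd z m (dd y (m + 1) g)) := by
          intro y z
          rw [Finset.sum_eq_single (op (op x y) z)]
          · simp
          · intro b _ hb
            simp [hb.symm]
          · simp
        simp only [this]
        have h2 : ∀ y, ∑ z, ∑ u, s u m ((if op (op x y) z = u then φ y z else 0) •
            dd z m (dd y (m + 1) g)) = ∑ u, ∑ z, s u m ((if op (op x y) z = u then φ y z else 0) •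
            dd z m (dd y (m + 1) g)) := fun y => Finset.sum_comm
        simp only [h2]
        rw [Finset.sum_comm]
        refine Finset.sum_eq_zero (fun u _ => ?_)
        simp only [← map_sum]
        rw [ih (fun y z => if op (op x y) z = u then φ y z else 0) ?_ g, map_zero]
        intro y z
        simp only [← op_sd, ← hφ]
      have : ∀ y z, φ y z • (dd z (m + 1) (if x = y then g else 0) -
          ((if op x y = z then dd y (m + 1) g else 0) -
            s (op (op x y) z) m (dd z m (dd y (m + 1) g)))) =
          φ y z • (dd z (m + 1) (if x = y then g else 0) -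
            (if op x y = z then dd y (m + 1) g else 0)) +
          φ y z • s (op (op x y) z) m (dd z m (dd y (m + 1) g)) := by
        intro y z
        rw [← smul_add]
        congr 1
        abel
      simp only [this, Finset.sum_add_distrib, hc, hr, add_zero]

end Pool.Agent.H16.Shelf
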