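import Mathlib
import Pool.Agent.H16.Shelf1

set_option autoImplicit false

namespace Pool.Agent.H16.Shelf

open Module

noncomputable def DD (m : ℕ) : F (m + 1) →ₗ[ℚ] F m :=
  dd 0 m + dd 1 m + dd 2 m + dd 3 m + dd 4 m + dd 5 m

theorem DD_eq (m : ℕ) : DD m = ∑ i : Fin (m + 1), ((-1 : ℚ) ^ (i : ℕ)) •
    Finsupp.lmapDomain ℚ ℚ (face i) := by
  have h1 : DD m = ∑ y, dd y m := by rw [Fin.sum_univ_six]; rfl
  rw [h1]
  apply Finsupp.lhom_ext'
  intro w
  apply LinearMap.ext_ring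
  simp only [LinearMap.comp_apply, Finsupp.lsingle_apply, LinearMap.sum_apply, dd_single,
    LinearMap.smul_apply, Finsupp.lmapDomain_apply, Finsupp.mapDomain_single]
  rw [Finset.sum_comm]
  refine Finset.sum_congr rfl (fun i _ => ?_)
  simp

theorem dim_F (m : ℕ) : finrank ℚ (F m) = 6 ^ m := by
  simp [Module.finrank_finsupp_self]

theorem q44 (m : ℕ) (f : F (m + 2)) : dd 4 m (dd 4 (m + 1) f) = 0 := by
  have := quad m (fun y z => if y = 4 ∧ z = 4 then 1 else 0) (by
    intro y z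
    have : (y = 4 ∧ z = 4) ↔ (z = 4 ∧ op y z = 4) := by revert y z; decide
    simp only [this]) f
  simpa [Fin.sum_univ_six] using this

theorem q55 (m : ℕ) (f : F (m + 2)) : dd 5 m (dd 5 (m + 1) f) = 0 := by
  have := quad m (fun y z => if y = 5 ∧ z = 5 then 1 else 0) (by
    intro y z
    have : (y = 5 ∧ z = 5) ↔ (z = 5 ∧ op y z = 5) := by revert y z; decide
    simp only [this]) f
  simpa [Fin.sum_univ_six] using this

theorem q45 (m : ℕ) (f : F (m + 2)) :
    dd 5 m (dd 4 (m + 1) f) + dd 4 m (dd 5 (m + 1) f) = 0 := by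
  have := quad m (fun y z => if (y = 4 ∧ z = 5) ∨ (y = 5 ∧ z = 4) then 1 else 0) (by
    intro y z
    have : ((y = 4 ∧ z = 5) ∨ (y = 5 ∧ z = 4)) ↔
        ((z = 4 ∧ op y z = 5) ∨ (z = 5 ∧ op y z = 4)) := by revert y z; decide
    simp only [this]) f
  simpa [Fin.sum_univ_six] using this

theorem qD (m : ℕ) (f : F (m + 2)) : DD m (DD (m + 1) f) = 0 := by
  have := quad m (fun _ _ => 1) (fun _ _ => rfl) f
  simp only [Fin.sum_univ_six, one_smul] at this
  simp only [DD, LinearMap.add_apply, map_add]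
  rw [← this]

theorem q1 (m : ℕ) (f : F (m + 2)) : dd 1 m (DD (m + 1) f) = 0 := by
  have := quad m (fun _ z => if z = 1 then 1 else 0) (by
    intro y z
    have : (z = 1) ↔ (op y z = 1) := by revert y z; decide
    simp only [this]) f
  simpa [Fin.sum_univ_six, DD] using this

theorem q2 (m : ℕ) (f : F (m + 2)) :
    dd 2 m (DD (m + 1) f) + dd 4 m (dd 1 (m + 1) f) = 0 := by
  have := quad m (fun y z => if z = 2 ∨ (y = 1 ∧ z = 4) then 1 else 0) (by
    intro y z
    have : (z = 2 ∨ (y = 1 ∧ z = 4)) ↔ (op y z = 2 ∨ (z = 1 ∧ op y z = 4)) := by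
      revert y z; decide
    simp only [this]) f
  simp [Fin.sum_univ_six] at this
  simp only [DD, LinearMap.add_apply, map_add]
  rw [← this]
  abel

theorem q3 (m : ℕ) (f : F (m + 2)) :
    dd 3 m (DD (m + 1) f) + dd 5 m (dd 1 (m + 1) f) = 0 := by
  have := quad m (fun y z => if z = 3 ∨ (y = 1 ∧ z = 5) then 1 else 0) (by
    intro y z
    have : (z = 3 ∨ (y = 1 ∧ z = 5)) ↔ (op y z = 3 ∨ (z = 1 ∧ op y z = 5)) := by
      revert y z; decide
    simp only [this]) f
  simp [Fin.sum_univ_six] at this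
  simp only [DD, LinearMap.add_apply, map_add]
  rw [← this]
  abel

theorem dim_map {B C : Type} [AddCommGroup B] [Module ℚ B] [AddCommGroup C] [Module ℚ C]
    [FiniteDimensional ℚ B] (g : B →ₗ[ℚ] C) (P : Submodule ℚ B) :
    finrank ℚ (P.map g) + finrank ℚ (P ⊓ LinearMap.ker g : Submodule ℚ B) = finrank ℚ P := by
  have h := LinearMap.finrank_range_add_finrank_ker (g.domRestrict P)
  rw [LinearMap.range_domRestrict, LinearMap.ker_domRestrict,
    ← Submodule.finrank_map_subtype_eq P, Submodule.map_comap_subtype] at h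
  exact h

theorem o44 : op 4 4 = 4 := by decide
theorem o54 : op 5 4 = 5 := by decide
theorem o55 : op 5 5 = 5 := by decide

noncomputable def zz (m : ℕ) : ℕ := finrank ℚ (LinearMap.ker (dd 4 m))
noncomputable def kk (m : ℕ) : ℕ :=
  finrank ℚ (LinearMap.ker (dd 4 m) ⊓ LinearMap.ker (dd 5 m) : Submodule ℚ (F (m + 1)))

theorem zz_zero : zz 0 = 5 := by
  have h := LinearMap.finrank_range_add_finrank_ker (dd 4 0)
  have hr : LinearMap.range (dd 4 0) = ⊤ := by
    rw [LinearMap.range_eq_top]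
    intro f
    exact ⟨s 4 0 f, by simp [dd_s_zero]⟩
  rw [hr, finrank_top, dim_F, dim_F] at h
  unfold zz
  omega

theorem zz_succ (m : ℕ) : zz m + zz (m + 1) = 6 ^ (m + 2) := by
  have h := LinearMap.finrank_range_add_finrank_ker (dd 4 (m + 1))
  have hr : LinearMap.range (dd 4 (m + 1)) = LinearMap.ker (dd 4 m) := by
    ext f
    constructor
    · rintro ⟨g, rfl⟩
      exact q44 m g
    · intro hf
      refine ⟨s 4 (m + 1) f, ?_⟩
      rw [dd_s, LinearMap.mem_ker.mp hf]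
      simp
  rw [hr, dim_F] at h
  exact h

theorem kk_succ (m : ℕ) : kk m + kk (m + 1) = zz (m + 1) := by
  have h := dim_map (dd 5 (m + 1)) (LinearMap.ker (dd 4 (m + 1)))
  have hr : (LinearMap.ker (dd 4 (m + 1))).map (dd 5 (m + 1)) =
      LinearMap.ker (dd 4 m) ⊓ LinearMap.ker (dd 5 m) := by
    ext f
    constructor
    · rintro ⟨g, hg, rfl⟩
      have hg' : dd 4 (m + 1) g = 0 := hg
      have := q45 m g
      rw [hg', map_zero, zero_add] at this
      exact ⟨this, q55 m g⟩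
    · rintro ⟨h4, h5⟩
      have h4' : dd 4 m f = 0 := h4
      have h5' : dd 5 m f = 0 := h5
      refine ⟨s 5 (m + 1) f, ?_, ?_⟩
      · show dd 4 (m + 1) _ = 0
        rw [dd_s, h4']
        simp
      · rw [dd_s, h5']
        simp
  rw [hr] at h
  exact h

abbrev E (m : ℕ) := F m × F m × F m × F m

noncomputable def del (m : ℕ) : E (m + 1) →ₗ[ℚ] E m where
  toFun e := (DD m e.1, dd 1 m e.1, dd 2 m e.1 + dd 4 m e.2.1, dd 3 m e.1 + dd 5 m e.2.1)
  map_add' e e' := by
    simp only [Prod.fst_add, Prod.snd_add, map_add, Prod.mk_add_mk, Prod.mk.injEq, true_and]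
    constructor <;> abel
  map_smul' c e := by
    simp only [Prod.smul_fst, Prod.smul_snd, map_smul, RingHom.id_apply, Prod.smul_mk, smul_add]

theorem del_apply (m : ℕ) (e : E (m + 1)) : del m e =
    (DD m e.1, dd 1 m e.1, dd 2 m e.1 + dd 4 m e.2.1, dd 3 m e.1 + dd 5 m e.2.1) := rfl

theorem op_tab : (∀ x, op x 0 = 0) ∧ (∀ x, op x 1 = 1) ∧ (∀ x, op x 2 = 2) ∧ (∀ x, op x 3 = 3) ∧
    op 0 4 = 0 ∧ op 1 4 = 2 ∧ op 2 4 = 0 ∧ op 3 4 = 0 ∧
    op 0 5 = 0 ∧ op 1 5 = 3 ∧ op 2 5 = 0 ∧ op 3 5 = 0 := by decide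

theorem del_exact (m : ℕ) : LinearMap.range (del (m + 1)) = LinearMap.ker (del m) := by
  ext e
  constructor
  · rintro ⟨g, rfl⟩
    rw [LinearMap.mem_ker, del_apply, del_apply]
    simp only [qD, q1, q2, q3]
    rfl
  · intro he
    obtain ⟨σ, α, β, γ⟩ := e
    rw [LinearMap.mem_ker, del_apply] at he
    simp only [Prod.mk_eq_zero] at he
    obtain ⟨hD, h1, h2, h3⟩ := he
    obtain ⟨t0, t1, t2, t3, t4, t5, t6, t7, t8, t9, t10, t11⟩ := op_tab
    refine ⟨(s 0 _ (σ - α - β - γ) + s 1 _ α + s 2 _ β + s 3 _ γ, s 1 _ α, s 2 _ β, s 3 _ γ), ?_⟩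
    have e2 : dd 2 m σ = - dd 4 m α := eq_neg_of_add_eq_zero_left h2
    have e3 : dd 3 m σ = - dd 5 m α := eq_neg_of_add_eq_zero_left h3
    have e0 : dd 0 m σ = dd 4 m α + dd 5 m α - dd 4 m σ - dd 5 m σ := by
      simp only [DD, LinearMap.add_apply, h1, e2, e3] at hD
      rw [← sub_eq_zero, ← hD]
      abel
    rw [del_apply]
    simp only [DD, LinearMap.add_apply, map_add, dd_s, t0, t1, t2, t3, t4, t5, t6, t7, t8, t9,
      t10, t11, map_sub, e0, h1, e2, e3, map_neg, map_zero, Prod.mk.injEq]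
    simp only [Fin.reduceEq, if_true, if_false]
    refine ⟨?_, ?_, ?_, ?_⟩ <;> abel

noncomputable def ze (m : ℕ) : ℕ := finrank ℚ (LinearMap.ker (del m))
noncomputable def bb (m : ℕ) : ℕ := finrank ℚ (LinearMap.range (DD m))

theorem ze_succ (m : ℕ) : ze m + ze (m + 1) = 4 * 6 ^ (m + 2) := by
  have h := LinearMap.finrank_range_add_finrank_ker (del (m + 1))
  rw [del_exact] at h
  simp only [Module.finrank_prod, dim_F] at h
  unfold ze
  rw [h]
  ring

theorem bb_succ (m : ℕ) : bb (m + 1) + (kk m + 2 * 6 ^ (m + 1)) = ze m := by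
  have h := dim_map (LinearMap.fst ℚ (F (m + 1)) (F (m + 1) × F (m + 1) × F (m + 1)))
    (LinearMap.ker (del m))
  have h1 : (LinearMap.ker (del m)).map
      (LinearMap.fst ℚ (F (m + 1)) (F (m + 1) × F (m + 1) × F (m + 1))) =
      LinearMap.range (DD (m + 1)) := by
    rw [← del_exact]
    ext f
    constructor
    · rintro ⟨e, ⟨g, rfl⟩, rfl⟩
      exact ⟨g.1, rfl⟩
    · rintro ⟨g, rfl⟩
      exact ⟨del (m + 1) (g, 0), ⟨_, rfl⟩, rfl⟩
  set K : Submodule ℚ (F (m + 1)) := LinearMap.ker (dd 4 m) ⊓ LinearMap.ker (dd 5 m) with hK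
  let ι : (K × F (m + 1) × F (m + 1)) →ₗ[ℚ] E (m + 1) :=
    LinearMap.prod 0 (LinearMap.prodMap K.subtype LinearMap.id)
  have hι : Function.Injective ι := by
    rintro ⟨a, b⟩ ⟨a', b'⟩ hab
    have hab' : ((0 : F (m + 1)), a.1, b) = ((0 : F (m + 1)), a'.1, b') := hab
    simp only [Prod.mk.injEq] at hab'
    exact Prod.ext (Subtype.ext hab'.2.1) hab'.2.2
  have h2 : LinearMap.ker (del m) ⊓ LinearMap.ker
      (LinearMap.fst ℚ (F (m + 1)) (F (m + 1) × F (m + 1) × F (m + 1))) = LinearMap.range ι := by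
    ext e
    obtain ⟨σ, α, β⟩ := e
    constructor
    · rintro ⟨ha, hb⟩
      have hb' : σ = 0 := hb
      subst hb'
      have ha' : del m (0, α, β) = 0 := ha
      rw [del_apply] at ha'
      simp only [map_zero, zero_add, Prod.mk_eq_zero, true_and] at ha'
      exact ⟨(⟨α, ha'.1, ha'.2⟩, β), rfl⟩
    · rintro ⟨⟨a, b⟩, hab⟩
      have h4 : dd 4 m a.1 = 0 := a.2.1
      have h5 : dd 5 m a.1 = 0 := a.2.2
      rw [← hab]
      refine ⟨?_, rfl⟩
      show del m (0, a.1, b) = 0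
      rw [del_apply]
      simp only [map_zero, zero_add, h4, h5]
      rfl
  rw [h1, h2, LinearMap.finrank_range_of_inj hι] at h
  simp only [Module.finrank_prod, dim_F] at h
  unfold bb kk ze
  rw [← h]
  ring

theorem ker_DD (m : ℕ) : bb m + finrank ℚ (LinearMap.ker (DD m)) = 6 ^ (m + 1) := by
  have h := LinearMap.finrank_range_add_finrank_ker (DD m)
  rw [dim_F] at h
  exact h

theorem final : finrank ℚ (LinearMap.ker (DD 5)) - finrank ℚ (LinearMap.range (DD 6)) = 8887 ∧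
    finrank ℚ (LinearMap.ker (DD 4)) - finrank ℚ (LinearMap.range (DD 5)) = 1481 := by
  have z0 := zz_zero
  have z1 := zz_succ 0
  have z2 := zz_succ 1
  have z3 := zz_succ 2
  have z4 := zz_succ 3
  have z5 := zz_succ 4
  have k4 := kk_succ 3
  have k5 := kk_succ 4
  have e4 := ze_succ 3
  have e5 := ze_succ 4
  have b4 := bb_succ 3
  have b5 := bb_succ 4
  have b6 := bb_succ 5
  have r4 := ker_DD 4
  have r5 := ker_DD 5
  change _ - bb 6 = _ ∧ _ - bb 5 = _
  norm_num at z1 z2 z3 z4 z5 k4 k5 e4 e5 b4 b5 b6 r4 r5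
  omega

end Pool.Agent.H16.Shelf
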