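import Mathlib
set_option autoImplicit false
namespace Pool.Agent.H16.Univ
open Topology

def Q : Type := ℕ → Set.Icc (0 : ℝ) 1
instance : TopologicalSpace Q := Pi.topologicalSpace
instance : CompactSpace Q := Pi.compactSpace
instance : Nonempty Q := ⟨fun _ => 0⟩

noncomputable def a (i : ℕ) : ℝ := 2⁻¹ ^ (i + 1) / (((Nat.unpair i).2 : ℝ) + 1)
theorem a_pos (i : ℕ) : 0 < a i := by unfold a; positivity
noncomputable def w (x : Q) : ℕ → ℝ := fun i => a i * x i

theorem w_emb : IsEmbedding w := by
  refine (Continuous.isClosedEmbedding ?_ ?_).isEmbedding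
  · exact continuous_pi fun i =>
      continuous_const.mul (continuous_subtype_val.comp (continuous_apply i))
  · intro x y h
    funext i
    exact Subtype.ext (mul_left_cancel₀ (a_pos i).ne' (congrFun h i))

noncomputable instance : MetricSpace Q :=
  @IsEmbedding.comapMetricSpace _ _ _ PiCountable.metricSpace w w_emb

theorem Qdist_le {x y : Q} {t : ℝ} (h : ∀ i, a i * |(x i : ℝ) - y i| ≤ 2⁻¹ ^ (i + 1) * t) :
    dist x y ≤ t := by
  show ∑' i, min (2⁻¹ ^ Encodable.encode i) (dist (w x i) (w y i)) ≤ t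
  have hs : HasSum (fun i : ℕ => (2⁻¹ : ℝ) ^ (i + 1) * t) t := by
    have := hasSum_geometric_two' t
    convert this using 2 with i
    rw [pow_succ, inv_pow]; field_simp
  rw [← hs.tsum_eq]
  refine Summable.tsum_le_tsum (fun i => (min_le_right _ _).trans ?_)
    (PiCountable.dist_summable (w x) (w y)) hs.summable
  rw [Real.dist_eq, w, w, ← mul_sub, abs_mul, abs_of_pos (a_pos i)]
  exact h i

def sub : Subgroup (Q × ℝ ≃ₜ Q × ℝ) where
  carrier := {g | ∀ k s t, g (k, s + t) = ((g (k, s)).1, (g (k, s)).2 + t)}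
  one_mem' := fun _ _ _ => rfl
  mul_mem' := fun {g h} hg hh k s t => by
    show g (h _) = ((g (h _)).1, (g (h _)).2 + t)
    rw [hh, hg]
  inv_mem' := fun {g} hg k s t => by
    apply g.injective
    show g (g.symm _) = g ((g.symm _).1, (g.symm _).2 + t)
    rw [hg, Prod.mk.eta, g.apply_symm_apply, g.apply_symm_apply]

def G : Type := sub
instance : Group G := inferInstanceAs (Group sub)

def j (g : G) : C(Q, Q × ℝ) := ⟨fun k => (g⁻¹ : G).1 (k, 0), by fun_prop⟩

theorem app (g : G) (k : Q) (s : ℝ) : g.1 (k, s) = ((g.1 (k, 0)).1, (g.1 (k, 0)).2 + s) := by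
  simpa using g.2 k 0 s

theorem j_mul (g h : G) (k : Q) :
    j (g * h) k = ((j h (j g k).1).1, (j h (j g k).1).2 + (j g k).2) := by
  show ((g * h)⁻¹ : G).1 (k, 0) = _
  rw [mul_inv_rev]
  exact app h⁻¹ _ _

theorem j_inj : Function.Injective j := by
  intro g h e
  apply inv_injective
  refine Subtype.ext (Homeomorph.ext fun x => ?_)
  have : (g⁻¹ : G).1 (x.1, 0) = (h⁻¹ : G).1 (x.1, 0) := congrArg (fun f => f x.1) e
  rw [← Prod.mk.eta (p := x), app, app h⁻¹, this]

noncomputable instance : MetricSpace G := MetricSpace.induced j j_inj inferInstance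

theorem j_iso : Isometry j := fun _ _ => rfl

theorem left_le (f g h : G) : dist (f * g) (f * h) ≤ dist g h := by
  rw [← j_iso.dist_eq, ← j_iso.dist_eq, ContinuousMap.dist_le dist_nonneg]
  intro k
  refine le_trans (le_of_eq ?_) (ContinuousMap.dist_apply_le_dist (j f k).1)
  rw [j_mul, j_mul, Prod.dist_eq, Prod.dist_eq, dist_add_right]

theorem left (f g h : G) : dist (f * g) (f * h) = dist g h :=
  le_antisymm (left_le f g h) (by simpa using left_le f⁻¹ (f * g) (f * h))

theorem cmul : Continuous fun p : G × G => p.1 * p.2 := by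
  rw [j_iso.isEmbedding.continuous_iff]
  refine ContinuousMap.continuous_of_continuous_uncurry _ ?_
  have hj := j_iso.continuous
  have : Continuous fun q : (G × G) × Q =>
      ((j q.1.2 (j q.1.1 q.2).1).1, (j q.1.2 (j q.1.1 q.2).1).2 + (j q.1.1 q.2).2) := by
    fun_prop
  exact this.congr fun q => (j_mul _ _ _).symm

instance : IsTopologicalGroup G where
  continuous_mul := cmul
  continuous_inv := by
    refine continuous_iff_continuousAt.2 fun g => tendsto_iff_dist_tendsto_zero.2 ?_
    have : Continuous fun x : G => dist 1 (x * g⁻¹) :=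
      continuous_const.dist (cmul.comp (continuous_id.prodMk continuous_const))
    have := this.tendsto g
    simp only [mul_inv_cancel, dist_self] at this
    refine this.congr fun x => ?_
    rw [← left x x⁻¹, mul_inv_cancel]

instance : TopologicalSpace.SeparableSpace G := by
  have := j_iso.isEmbedding.secondCountableTopology
  infer_instance

theorem hom {H : Type} [Group H] [MetricSpace H] [IsIsometricSMul H H]
    (α : H → Q → Q) (c : H → Q → ℝ) (hα : ∀ h, Continuous (α h)) (hc : ∀ h, Continuous (c h))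
    (α1 : ∀ k, α 1 k = k) (αm : ∀ g h k, α (g * h) k = α g (α h k))
    (cm : ∀ g h k, c (g * h) k = c h k + c g (α h k))
    (b1 : ∀ h k, dist (α h k) k ≤ dist h 1) (b2 : ∀ h k, |c h k| ≤ dist h 1)
    (b3 : ∀ h, ∃ k, dist h 1 ≤ |c h k|) : ∃ φ : H →* G, Isometry φ := by
  have c1 : ∀ k, c 1 k = 0 := fun k => by simpa [α1] using cm 1 1 k
  have li : ∀ g h, g * h = 1 → ∀ x : Q × ℝ,
      (α g (α h x.1), x.2 + c h x.1 + c g (α h x.1)) = x := fun g h e x => by
    rw [add_assoc, ← cm, ← αm, e, α1, c1, add_zero]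
  let T : H → G := fun h => ⟨{
    toFun := fun x => (α h x.1, x.2 + c h x.1)
    invFun := fun x => (α h⁻¹ x.1, x.2 + c h⁻¹ x.1)
    left_inv := li _ _ (inv_mul_cancel h)
    right_inv := li _ _ (mul_inv_cancel h)
    continuous_toFun := by have := hα h; have := hc h; fun_prop
    continuous_invFun := by have := hα h⁻¹; have := hc h⁻¹; fun_prop },
    fun k s t => Prod.ext rfl (add_right_comm _ _ _)⟩
  let φ : H →* G := MonoidHom.mk' T fun g h => Subtype.ext <| Homeomorph.ext fun x =>
    Prod.ext (αm _ _ _) (by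
      show x.2 + c (g * h) x.1 = x.2 + c h x.1 + c g (α h x.1)
      rw [cm, add_assoc])
  have key : ∀ h, dist (φ h) 1 = dist h 1 := fun h => by
    have e : ∀ k, dist (j (φ h) k) (j 1 k) = max (dist (α h⁻¹ k) k) |c h⁻¹ k| := fun k => by
      show dist (α h⁻¹ k, 0 + c h⁻¹ k) (k, 0) = _
      rw [Prod.dist_eq, zero_add, Real.dist_eq, sub_zero]
    have e' : dist h⁻¹ 1 = dist h 1 := by
      rw [← dist_mul_left h, mul_inv_cancel, mul_one, dist_comm]
    rw [← j_iso.dist_eq, ← e']
    apply le_antisymm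
    · rw [ContinuousMap.dist_le dist_nonneg]
      intro k
      rw [e]
      exact max_le (b1 _ _) (b2 _ _)
    · obtain ⟨k, hk⟩ := b3 h⁻¹
      refine le_trans ?_ (ContinuousMap.dist_apply_le_dist k)
      rw [e]
      exact hk.trans (le_max_right _ _)
  refine ⟨φ, Isometry.of_dist_eq fun g h => ?_⟩
  rw [← left (φ h⁻¹), ← map_mul, ← map_mul, inv_mul_cancel, map_one, key, ← dist_mul_left h,
    mul_inv_cancel_left, mul_one]

/-- spreading out the coordinates -/
theorem hom2 {H : Type} [Group H] [MetricSpace H] [IsIsometricSMul H H]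
    (α : H → Q → Q) (c : H → Q → ℝ) (hα : ∀ h, Continuous (α h)) (hc : ∀ h, Continuous (c h))
    (α1 : ∀ k, α 1 k = k) (αm : ∀ g h k, α (g * h) k = α g (α h k))
    (cm : ∀ g h k, c (g * h) k = c h k + c g (α h k))
    (b1 : ∀ n, ∃ L : ℝ, ∀ h k, |(α h k n : ℝ) - k n| ≤ L * dist h 1)
    (b2 : ∀ h k, |c h k| ≤ dist h 1)
    (b3 : ∀ h, ∃ k, dist h 1 ≤ |c h k|) : ∃ φ : H →* G, Isometry φ := by
  choose L hL using b1
  let m : ℕ → ℕ := fun n => ⌈L n⌉₊
  let r : Q → Q := fun k n => k (Nat.pair n (m n))
  let u : Q → Q → Q := fun k x i =>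
    if (Nat.unpair i).2 = m (Nat.unpair i).1 then x (Nat.unpair i).1 else k i
  have ru : ∀ k x, r (u k x) = x := fun k x => by funext n; simp [r, u]
  have pe : ∀ i, (Nat.unpair i).2 = m (Nat.unpair i).1 →
      Nat.pair (Nat.unpair i).1 (m (Nat.unpair i).1) = i := fun i h => by
    rw [← h, Nat.pair_unpair]
  have cr : Continuous r := continuous_pi fun n => continuous_apply _
  refine hom (fun h k => u k (α h (r k))) (fun h k => c h (r k)) (fun h => ?_)
    (fun h => (hc h).comp cr) (fun k => ?_) (fun g h k => ?_) (fun g h k => ?_) (fun h k => ?_)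
    (fun h k => b2 _ _) (fun h => ?_)
  · refine continuous_pi fun i => ?_
    by_cases hi : (Nat.unpair i).2 = m (Nat.unpair i).1
    · simp only [u, if_pos hi]
      exact (continuous_apply _).comp ((hα h).comp cr)
    · simp only [u, if_neg hi]
      exact continuous_apply _
  · funext i
    simp only [u, α1, r]
    split_ifs with hi
    · rw [pe i hi]
    · rfl
  · funext i
    simp only [ru, αm]
    simp only [u]
    split_ifs <;> rfl
  · simp only [ru, cm]
  · refine Qdist_le fun i => ?_
    simp only [u]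
    split_ifs with hi
    · have h1 := hL (Nat.unpair i).1 h (r k)
      have h2 : r k (Nat.unpair i).1 = k i := by simp only [r, pe i hi]
      rw [h2] at h1
      have h3 : L (Nat.unpair i).1 ≤ ((Nat.unpair i).2 : ℝ) + 1 := by
        rw [hi]; exact (Nat.le_ceil _).trans (by simp [m])
      have h4 := h1.trans (mul_le_mul_of_nonneg_right h3 dist_nonneg)
      refine (mul_le_mul_of_nonneg_left h4 (a_pos i).le).trans (le_of_eq ?_)
      unfold a
      field_simp
    · simp only [sub_self, abs_zero, mul_zero]; positivity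
  · obtain ⟨k, hk⟩ := b3 h
    exact ⟨u k k, by simp only [ru]; exact hk⟩

end Pool.Agent.H16.Univ
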