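import Mathlib
import Pool.Agent.H16.Univ1
set_option autoImplicit false
namespace Pool.Agent.H16.Univ
open Topology Filter

variable {Z : Type} [PseudoMetricSpace Z] (p : ℕ → Z)

def K : Type := {F : Z → ℝ // (∀ x y, F x - F y ≤ dist x y) ∧ F (p 0) = 0}
instance : TopologicalSpace (K p) := instTopologicalSpaceSubtype

instance : CompactSpace (K p) := by
  refine isCompact_iff_compactSpace.1
    (show IsCompact {F : Z → ℝ | (∀ x y, F x - F y ≤ dist x y) ∧ F (p 0) = 0} from ?_)
  refine (isCompact_univ_pi fun z => isCompact_Icc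
    (a := -dist (p 0) z) (b := dist z (p 0))).of_isClosed_subset ?_ ?_
  · simp only [Set.setOf_and, Set.setOf_forall]
    exact (isClosed_iInter fun x => isClosed_iInter fun y =>
      isClosed_le (by fun_prop) continuous_const).inter (isClosed_eq (by fun_prop) continuous_const)
  · rintro F ⟨h1, h2⟩ z -
    have := h1 z (p 0)
    have := h1 (p 0) z
    constructor <;> linarith

noncomputable def lo (n : ℕ) (F : Z → ℝ) : ℝ :=
  (Finset.range (n + 1)).sup' (by simp) fun i => F (p i) - dist (p i) (p (n + 1))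
noncomputable def hi (n : ℕ) (F : Z → ℝ) : ℝ :=
  (Finset.range (n + 1)).inf' (by simp) fun i => F (p i) + dist (p i) (p (n + 1))

variable {p}

theorem lo_le {n : ℕ} {F : Z → ℝ} {x : ℝ} :
    lo p n F ≤ x ↔ ∀ i ≤ n, F (p i) - dist (p i) (p (n + 1)) ≤ x := by
  simp [lo, Nat.lt_succ_iff]

theorem le_hi {n : ℕ} {F : Z → ℝ} {x : ℝ} :
    x ≤ hi p n F ↔ ∀ i ≤ n, x ≤ F (p i) + dist (p i) (p (n + 1)) := by
  simp [hi, Nat.lt_succ_iff]

theorem lo_lip {n : ℕ} {F F' : Z → ℝ} {ε : ℝ} (h : ∀ i ≤ n, F (p i) - F' (p i) ≤ ε) :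
    lo p n F - lo p n F' ≤ ε := by
  rw [sub_le_iff_le_add, lo_le]
  intro i hi
  have := lo_le.1 (le_refl (lo p n F')) i hi
  have := h i hi
  linarith

theorem hi_lip {n : ℕ} {F F' : Z → ℝ} {ε : ℝ} (h : ∀ i ≤ n, F (p i) - F' (p i) ≤ ε) :
    hi p n F - hi p n F' ≤ ε := by
  rw [sub_le_comm, le_hi]
  intro i hi'
  have := le_hi.1 (le_refl (hi p n F)) i hi'
  have := h i hi'
  linarith

def Strict (p : ℕ → Z) : Prop :=
  ∀ n, ∀ i ≤ n, ∀ j ≤ n, dist (p i) (p j) < dist (p i) (p (n + 1)) + dist (p j) (p (n + 1))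

theorem gap (hs : Strict p) (n : ℕ) : ∃ γ > 0, ∀ F : K p, γ ≤ hi p n F.1 - lo p n F.1 := by
  obtain ⟨⟨i, j⟩, hij, hm⟩ := (Finset.range (n + 1) ×ˢ Finset.range (n + 1)).exists_min_image
    (fun x => dist (p x.1) (p (n + 1)) + dist (p x.2) (p (n + 1)) - dist (p x.1) (p x.2))
    (by simp)
  simp only [Finset.mem_product, Finset.mem_range, Nat.lt_succ_iff, Prod.forall] at hij hm
  refine ⟨_, sub_pos.2 (hs n i hij.1 j hij.2), fun F => ?_⟩
  rw [le_sub_iff_add_le, le_hi]
  intro i' hi'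
  rw [← le_sub_iff_add_le', lo_le]
  intro j' hj'
  have := hm i' j' ⟨hi', hj'⟩
  have := F.2.1 (p j') (p i')
  rw [dist_comm] at this
  linarith

theorem lo_F (F : K p) (n : ℕ) : lo p n F.1 ≤ F.1 (p (n + 1)) :=
  lo_le.2 fun i _ => by have := F.2.1 (p i) (p (n + 1)); linarith

theorem F_hi (F : K p) (n : ℕ) : F.1 (p (n + 1)) ≤ hi p n F.1 :=
  le_hi.2 fun i _ => by have := F.2.1 (p (n + 1)) (p i); rw [dist_comm] at this; linarith

noncomputable def Ψ (F : K p) : Q := fun n =>
  ⟨(F.1 (p (n + 1)) - lo p n F.1) / (hi p n F.1 - lo p n F.1),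
    div_nonneg (sub_nonneg.2 (lo_F F n)) (sub_nonneg.2 ((lo_F F n).trans (F_hi F n))),
    div_le_one_of_le₀ (sub_le_sub_right (F_hi F n) _)
      (sub_nonneg.2 ((lo_F F n).trans (F_hi F n)))⟩

theorem Ψ_lip (hs : Strict p) (n : ℕ) : ∃ C, ∀ (F F' : K p) (ε : ℝ),
    (∀ i ≤ n + 1, |F.1 (p i) - F'.1 (p i)| ≤ ε) → |(Ψ F n : ℝ) - Ψ F' n| ≤ C * ε := by
  obtain ⟨γ, h0, hγ⟩ := gap hs n
  refine ⟨4 / γ, fun F F' ε h => ?_⟩
  have h1 : ∀ i ≤ n, F.1 (p i) - F'.1 (p i) ≤ ε := fun i hi => (abs_le.1 (h i (by omega))).2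
  have h2 : ∀ i ≤ n, F'.1 (p i) - F.1 (p i) ≤ ε := fun i hi => by
    have := (abs_le.1 (h i (by omega))).1; linarith
  have a1 := lo_lip h1
  have a2 := lo_lip h2
  have a3 := hi_lip h1
  have a4 := hi_lip h2
  have a5 := abs_le.1 (h (n + 1) le_rfl)
  have g1 := hγ F
  have g2 := hγ F'
  obtain ⟨t0, t1⟩ := (Ψ F' n).2
  have e : F'.1 (p (n + 1)) - lo p n F'.1 = Ψ F' n * (hi p n F'.1 - lo p n F'.1) :=
    (div_mul_cancel₀ _ (by linarith)).symm
  have e2 : (Ψ F n : ℝ) - Ψ F' n = (F.1 (p (n + 1)) - lo p n F.1 -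
      Ψ F' n * (hi p n F.1 - lo p n F.1)) / (hi p n F.1 - lo p n F.1) := by
    rw [sub_div, mul_div_cancel_right₀ _ (by linarith)]; rfl
  have hε : 0 ≤ ε := by linarith
  rw [e2, abs_div, abs_of_pos (by linarith : 0 < hi p n F.1 - lo p n F.1), div_mul_eq_mul_div]
  refine div_le_div₀ (by positivity) (abs_le.2 ⟨?_, ?_⟩) h0 g1 <;> nlinarith

theorem Ψ_cont (hs : Strict p) : Continuous (Ψ (p := p)) := by
  refine continuous_pi fun n => Continuous.subtype_mk ?_ _
  have ev : ∀ z, Continuous fun F : K p => F.1 z := fun z =>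
    (continuous_apply z).comp continuous_subtype_val
  have c1 : Continuous fun F : K p => lo p n F.1 :=
    Continuous.finset_sup'_apply _ fun i _ => (ev _).sub continuous_const
  have c2 : Continuous fun F : K p => hi p n F.1 :=
    Continuous.finset_inf'_apply _ fun i _ => (ev _).add continuous_const
  obtain ⟨γ, h0, hγ⟩ := gap hs n
  exact ((ev _).sub c1).div (c2.sub c1) fun F => (h0.trans_le (hγ F)).ne'

theorem lo_congr {n : ℕ} {F F' : Z → ℝ} (h : ∀ i ≤ n, F (p i) = F' (p i)) :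
    lo p n F = lo p n F' ∧ hi p n F = hi p n F' := by
  have h1 : ∀ i ≤ n, F (p i) - F' (p i) ≤ 0 := fun i hi => by rw [h i hi, sub_self]
  have h2 : ∀ i ≤ n, F' (p i) - F (p i) ≤ 0 := fun i hi => by rw [h i hi, sub_self]
  have a1 := lo_lip h1
  have a2 := lo_lip h2
  have a3 := hi_lip h1
  have a4 := hi_lip h2
  constructor <;> linarith

theorem K_cont (F : K p) : Continuous F.1 := (LipschitzWith.of_le_add fun x y => by
  have := F.2.1 x y; linarith).continuous

theorem Ψ_inj (hs : Strict p) (hd : DenseRange p) : Function.Injective (Ψ (p := p)) := by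
  intro F F' e
  have : ∀ n, ∀ i ≤ n, F.1 (p i) = F'.1 (p i) := by
    intro n
    induction n with
    | zero => intro i hi; rw [Nat.le_zero.1 hi, F.2.2, F'.2.2]
    | succ n ih =>
      intro i hi'
      rcases hi'.lt_or_eq with hi' | rfl
      · exact ih i (by omega)
      obtain ⟨e1, e2⟩ := lo_congr ih
      obtain ⟨γ, h0, hγ⟩ := gap hs n
      have : (F.1 (p (n + 1)) - lo p n F.1) / (hi p n F.1 - lo p n F.1) =
        (F'.1 (p (n + 1)) - lo p n F'.1) / (hi p n F'.1 - lo p n F'.1) :=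
          congrArg Subtype.val (congrFun e n)
      rw [e1, e2, div_left_inj' (h0.trans_le (hγ F')).ne'] at this
      linarith
  exact Subtype.ext (hd.equalizer (K_cont F) (K_cont F') (funext fun n => this n n le_rfl))

theorem Ψ_step (hs : Strict p) (t : Q) (n : ℕ) : ∃ F : K p, ∀ m < n, Ψ F m = t m := by
  classical
  induction n with
  | zero => exact ⟨⟨0, fun _ _ => by simp, rfl⟩, fun _ h => absurd h (by simp)⟩
  | succ n ih =>
    obtain ⟨F, hF⟩ := ih
    obtain ⟨γ, h0, hγ⟩ := gap hs n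
    have g := hγ F
    obtain ⟨t0, t1⟩ := (t n).2
    set v := lo p n F.1 + t n * (hi p n F.1 - lo p n F.1) with hv
    have v1 : lo p n F.1 ≤ v := by nlinarith
    have v2 : v ≤ hi p n F.1 := by nlinarith
    have ne : ∀ i ≤ n, p i ≠ p (n + 1) := fun i hi e => by
      have := hs n i hi i hi
      simp [e] at this
    have hl : LipschitzOnWith 1 (Function.update F.1 (p (n + 1)) v) (p '' Set.Iic (n + 1)) := by
      refine LipschitzOnWith.of_le_add fun x hx y hy => ?_
      obtain ⟨i, hi, rfl⟩ := hx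
      obtain ⟨j, hj, rfl⟩ := hy
      rcases (Set.mem_Iic.1 hi).lt_or_eq with hi | rfl <;>
        rcases (Set.mem_Iic.1 hj).lt_or_eq with hj | rfl
      · rw [Function.update_of_ne (ne i (by omega)), Function.update_of_ne (ne j (by omega))]
        have := F.2.1 (p i) (p j); linarith
      · rw [Function.update_of_ne (ne i (by omega)), Function.update_self]
        have := lo_le.1 v1 i (by omega); linarith
      · rw [Function.update_of_ne (ne j (by omega)), Function.update_self, dist_comm]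
        exact le_hi.1 v2 j (by omega)
      · simp
    obtain ⟨f, f1, f2⟩ := hl.extend_real
    have f3 : ∀ i ≤ n, f (p i) = F.1 (p i) := fun i hi => by
      rw [← f2 ⟨i, Set.mem_Iic.2 (by omega), rfl⟩, Function.update_of_ne (ne i hi)]
    have f4 : f (p (n + 1)) = v := by
      rw [← f2 ⟨n + 1, Set.mem_Iic.2 le_rfl, rfl⟩, Function.update_self]
    refine ⟨⟨f, fun x y => ?_, by rw [f3 0 (by omega), F.2.2]⟩, fun m hm => ?_⟩
    · have := f1.le_add_mul x y
      simp only [NNReal.coe_one, one_mul] at this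
      linarith
    · obtain ⟨e1, e2⟩ := lo_congr (n := m) (F := f) (F' := F.1) fun i hi => f3 i (by omega)
      apply Subtype.ext
      show (f (p (m + 1)) - lo p m f) / (hi p m f - lo p m f) = _
      rw [e1, e2]
      rcases (Nat.lt_succ_iff.1 hm).lt_or_eq with hm | rfl
      · rw [f3 _ hm, ← hF m hm]; rfl
      · rw [f4, hv, add_sub_cancel_left, mul_div_cancel_right₀ _ (by linarith)]

theorem Ψ_surj (hs : Strict p) : Function.Surjective (Ψ (p := p)) := by
  intro t
  choose F hF using Ψ_step hs t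
  show t ∈ Set.range Ψ
  refine (isCompact_range (Ψ_cont hs)).isClosed.mem_of_tendsto (f := fun n => Ψ (F n))
    (b := atTop) (tendsto_pi_nhds.2 fun m => tendsto_const_nhds.congr' ?_)
    (Eventually.of_forall fun n => ⟨_, rfl⟩)
  filter_upwards [eventually_gt_atTop m] with n hn using (hF n m hn).symm

theorem cube {H : Type} [Group H] [MetricSpace H] [IsIsometricSMul H H] [MulAction H Z]
    [IsIsometricSMul H Z] (hs : Strict p) (hd : DenseRange p)
    (hL : ∀ n, ∃ L : ℝ, 0 ≤ L ∧ ∀ h : H, dist (h • p n) (p n) ≤ L * dist h 1) (z : Z)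
    (hz : ∀ h : H, dist (h • z) z = dist h 1) : ∃ φ : H →* G, Isometry φ := by
  let θ : K p ≃ₜ Q := (Ψ_cont hs).homeoOfEquivCompactToT2
    (f := Equiv.ofBijective Ψ ⟨Ψ_inj hs hd, Ψ_surj hs⟩)
  let A : H → K p → K p := fun h F => ⟨fun x => F.1 (h⁻¹ • x) - F.1 (h⁻¹ • p 0), fun x y => by
    have := F.2.1 (h⁻¹ • x) (h⁻¹ • y)
    rw [dist_smul] at this
    linarith, sub_self _⟩
  have ev : ∀ z, Continuous fun F : K p => F.1 z := fun z =>
    (continuous_apply z).comp continuous_subtype_val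
  have e' : ∀ h : H, dist h⁻¹ 1 = dist h 1 := fun h => by
    rw [← dist_mul_left h, mul_inv_cancel, mul_one, dist_comm]
  have ab : ∀ (F : K p) x y, |F.1 x - F.1 y| ≤ dist x y := fun F x y => by
    have := F.2.1 y x
    rw [dist_comm] at this
    exact abs_le.2 ⟨by linarith, F.2.1 x y⟩
  refine hom2 (fun h k => θ (A h (θ.symm k)))
    (fun h k => (θ.symm k).1 (h⁻¹ • z) - (θ.symm k).1 z) (fun h => ?_) (fun h => ?_)
    (fun k => ?_) (fun g h k => ?_) (fun g h k => ?_) (fun n => ?_) (fun h k => ?_) (fun h => ?_)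
  · have : Continuous (A h) := Continuous.subtype_mk
      (continuous_pi fun x => (ev (h⁻¹ • x)).sub (ev (h⁻¹ • p 0))) _
    exact θ.continuous.comp (this.comp θ.symm.continuous)
  · exact ((ev _).sub (ev _)).comp θ.symm.continuous
  · have : A 1 (θ.symm k) = θ.symm k := Subtype.ext <| funext fun x => by
      simp [A, (θ.symm k).2.2]
    simp only [this, θ.apply_symm_apply]
  · simp only [θ.symm_apply_apply]
    congr 1
    exact Subtype.ext <| funext fun x => by simp [A, mul_smul]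
  · simp [A, mul_smul]
  · obtain ⟨C, hC⟩ := Ψ_lip hs n
    choose L L0 hL using hL
    refine ⟨C * (∑ i ∈ Finset.range (n + 2), L i + L 0), fun h k => ?_⟩
    have := hC (A h (θ.symm k)) (θ.symm k)
      ((∑ i ∈ Finset.range (n + 2), L i + L 0) * dist h 1) fun i hi => by
        have a1 := abs_le.1 ((ab (θ.symm k) _ _).trans (hL i h⁻¹))
        have a2 := abs_le.1 ((ab (θ.symm k) _ _).trans (hL 0 h⁻¹))
        have a3 := mul_le_mul_of_nonneg_right (Finset.single_le_sum (f := L) (fun j _ => L0 j)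
          (Finset.mem_range.2 (by omega : i < n + 2))) (dist_nonneg (x := h) (y := 1))
        rw [e'] at a1 a2
        rw [(θ.symm k).2.2] at a2
        simp only [A]
        rw [add_mul]
        exact abs_le.2 ⟨by linarith, by linarith⟩
    have e : Ψ (θ.symm k) = k := θ.apply_symm_apply k
    rw [e, ← mul_assoc] at this
    exact this
  · exact (ab _ _ _).trans (by rw [hz, e'])
  · refine ⟨θ ⟨fun x => dist x z - dist (p 0) z, fun x y => ?_, sub_self _⟩, ?_⟩
    · have := dist_triangle x y z; linarith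
    · simp only [θ.symm_apply_apply, hz, e', dist_self]
      refine le_trans (le_of_eq ?_) (le_abs_self _)
      ring

end Pool.Agent.H16.Univ
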